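import Mathlib

/-!
Shared definitions for MP_f758a3_nt.
-/

set_option autoImplicit false

namespace KB

/-- `aden n` is the least common multiple of the denominators (in lowest terms) of the
coefficients of the polynomial `B_{n+1}(x) - B_{n+1}`. -/
noncomputable def aden (n : ℕ) : ℕ :=
  (Finset.range (n + 2)).lcm fun k =>
    ((Polynomial.bernoulli (n + 1) - Polynomial.C (bernoulli (n + 1))).coeff k).den

/-- product of the distinct primes dividing `m` -/
def rad (m : ℕ) : ℕ := ∏ p ∈ m.primeFactors, p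

/-- `p` witnesses that `n` is not a solution: `n = a p + b` with `a < p`, `a + b ≥ p` and
`p` does not divide `n + 1`. -/
def Wit (n p : ℕ) : Prop := p.Prime ∧ n < p * p ∧ p ≤ n / p + n % p ∧ ¬ p ∣ n + 1

/-- number of `p` in `(P0, P1]` with `p ≡ r (mod d)` and `n / p + n % p < p` (`p` is missed) -/
def Sc (n d r P0 P1 : ℕ) : ℕ :=
  ((Finset.Ioc P0 P1).filter fun p => p % d = r ∧ n / p + n % p < p).card

/-- upper table for `psi` on `[2^j, 2^(j+1))`, unit `10^-5` -/
def uT : ℕ → ℕ
  | 10 => 3125 | 11 => 2210 | 12 => 1563 | 13 => 1105 | 14 => 782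
  | 15 => 553 | 16 => 391 | 17 => 277 | 18 => 196 | 19 => 139
  | _ => 4000

/-- lower table for `psi` on `[2^j, 2^(j+1))`, unit `10^-5` -/
def lT : ℕ → ℕ
  | 4 => 25000 | 5 => 17678 | 6 => 12500 | 7 => 8839 | 8 => 6250 | 9 => 4420
  | 10 => 3125 | 11 => 2210 | 12 => 1563 | 13 => 1105 | 14 => 782
  | 15 => 553 | 16 => 391 | 17 => 277 | 18 => 196 | 19 => 139
  | _ => 100000

end KB
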