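import Mathlib
import Pool.Agent.Helper77.KB.Defs

/-!
KB-5, part 1: the programs run by the kernel and their specifications.
-/

set_option autoImplicit false

open Finset

namespace KB.PsiNum

/-- forces the evaluation of `v` -/
def fc {β : Type} (v : ℕ) (k : ℕ → β) : β := Nat.rec (k 0) (fun n _ => k (Nat.succ n)) v

theorem fc_eq {β : Type} (v : ℕ) (k : ℕ → β) : fc v k = k v := by cases v <;> rfl

theorem brec_true {b c : Bool} (h : (Bool.rec (motive := fun _ => Bool) false b c : Bool) = true) :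
    c = true ∧ b = true := by
  cases c with
  | false => exact absurd h Bool.false_ne_true
  | true => exact ⟨rfl, h⟩

theorem brec_cases {a b c : Bool} (h : (Bool.rec (motive := fun _ => Bool) a b c : Bool) = true) :
    (c = false ∧ a = true) ∨ (c = true ∧ b = true) := by
  cases c with
  | false => exact Or.inl ⟨rfl, h⟩
  | true => exact Or.inr ⟨rfl, h⟩

/-! ### primes -/

/-- product of the primes less than `b` -/
def Qf (b : ℕ) : ℕ := ∏ p ∈ (range b).filter Nat.Prime, p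

/-- `n` if `n` is prime and `1` otherwise -/
def pr (n : ℕ) : ℕ := if n.Prime then n else 1

theorem pr_pos (n : ℕ) : 1 ≤ pr n := by
  unfold pr
  split_ifs with h
  · exact h.one_lt.le
  · exact le_rfl

theorem Qf_succ (n : ℕ) : Qf (n + 1) = Qf n * pr n := by
  unfold Qf pr
  rw [range_add_one, filter_insert]
  split_ifs with h
  · rw [prod_insert (by simp), mul_comm]
  · rw [mul_one]

theorem Qf_pos (b : ℕ) : 1 ≤ Qf b := by
  induction b with
  | zero => simp [Qf]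
  | succ n ih => rw [Qf_succ]; exact Nat.one_le_iff_ne_zero.2 (Nat.mul_ne_zero
      (Nat.one_le_iff_ne_zero.1 ih) (Nat.one_le_iff_ne_zero.1 (pr_pos n)))

theorem Qf_mono : Monotone Qf := by
  refine monotone_nat_of_le_succ fun n => ?_
  rw [Qf_succ]
  exact Nat.le_mul_of_pos_right _ (pr_pos n)

theorem dvd_Qf {p b : ℕ} (hp : p.Prime) (h : p < b) : p ∣ Qf b :=
  dvd_prod_of_mem _ (mem_filter.2 ⟨mem_range.2 h, hp⟩)

theorem lt_of_dvd_Qf {p b : ℕ} (hp : p.Prime) (h : p ∣ Qf b) : p < b := by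
  unfold Qf at h
  rw [hp.prime.dvd_finsetProd_iff] at h
  obtain ⟨q, hq, hpq⟩ := h
  rw [mem_filter, mem_range] at hq
  rw [(Nat.prime_dvd_prime_iff_eq hp hq.2).1 hpq]
  exact hq.1

/-- the sieve -/
def cand (P n : ℕ) : ℕ := Bool.rec (motive := fun _ => ℕ) 1 n (Nat.beq (Nat.gcd n P) 1)

theorem cand_eq {b n : ℕ} (h2 : 2 ≤ n) (hb : b ≤ n) (hn : n < b * b) : cand (Qf b) n = pr n := by
  have h1 : cand (Qf b) n = if Nat.Coprime n (Qf b) then n else 1 := by
    unfold cand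
    rcases hb : Nat.beq (Nat.gcd n (Qf b)) 1 with _ | _
    · have : ¬ Nat.Coprime n (Qf b) := by
        intro h
        rw [Nat.Coprime] at h
        rw [h] at hb
        exact absurd hb (by decide)
      rw [if_neg this]
    · have : Nat.Coprime n (Qf b) := Nat.eq_of_beq_eq_true hb
      rw [if_pos this]
  rw [h1]
  unfold pr
  by_cases hp : n.Prime
  · have : Nat.Coprime n (Qf b) := by
      rw [hp.coprime_iff_not_dvd]
      intro h
      exact absurd (lt_of_dvd_Qf hp h) (by omega)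
    rw [if_pos this, if_pos hp]
  · have : ¬ Nat.Coprime n (Qf b) := by
      intro h
      have hm := Nat.minFac_prime (n := n) (by omega)
      have h3 : n.minFac ^ 2 ≤ n := Nat.minFac_sq_le_self (by omega) hp
      have h4 : n.minFac < b := by
        by_contra hcon
        have : b * b ≤ n.minFac * n.minFac := Nat.mul_le_mul (by omega) (by omega)
        rw [pow_two] at h3
        omega
      have h5 := Nat.dvd_gcd (Nat.minFac_dvd n) (dvd_Qf hm h4)
      rw [h.gcd_eq_one] at h5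
      exact hm.one_lt.ne' (Nat.dvd_one.1 h5)
    rw [if_neg this, if_neg hp]

theorem pr_not {n d : ℕ} (hd : d ∣ n) (h1 : 1 < d) (h2 : d < n) : pr n = 1 := by
  unfold pr
  rw [if_neg]
  exact Nat.not_prime_of_dvd_of_lt hd h1 h2

theorem Qf_six {c : ℕ} (h6 : 6 ∣ c) (hc : 6 ≤ c) :
    Qf (c + 6) = Qf c * (pr (c + 1) * pr (c + 5)) := by
  obtain ⟨t, rfl⟩ := h6
  have e0 : pr (6 * t) = 1 := pr_not (d := 2) (by omega) (by omega) (by omega)
  have e2 : pr (6 * t + 2) = 1 := pr_not (d := 2) (by omega) (by omega) (by omega)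
  have e3 : pr (6 * t + 3) = 1 := pr_not (d := 3) (by omega) (by omega) (by omega)
  have e4 : pr (6 * t + 4) = 1 := pr_not (d := 2) (by omega) (by omega) (by omega)
  rw [show 6 * t + 6 = 6 * t + 5 + 1 by ring, Qf_succ, show 6 * t + 5 = 6 * t + 4 + 1 by ring,
    Qf_succ, show 6 * t + 4 = 6 * t + 3 + 1 by ring, Qf_succ,
    show 6 * t + 3 = 6 * t + 2 + 1 by ring, Qf_succ, show 6 * t + 2 = 6 * t + 1 + 1 by ring,
    Qf_succ, Qf_succ]
  simp only [add_assoc]
  norm_num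
  rw [e0, e2, e3, e4]
  ring

/-- product of the primes in a block of `6 k` numbers -/
def mpk (P c : ℕ) (k : ℕ) : ℕ :=
  Nat.rec (motive := fun _ => ℕ) 1 (fun i ih => Nat.mul ih (Nat.mul
    (cand P (Nat.add c (Nat.add (Nat.mul 6 i) 1)))
    (cand P (Nat.add c (Nat.add (Nat.mul 6 i) 5))))) k

theorem mpk_succ (P c k : ℕ) : mpk P c (k + 1) =
    mpk P c k * (cand P (c + (6 * k + 1)) * cand P (c + (6 * k + 5))) := rfl

theorem mpk_eq {b c : ℕ} (h6 : 6 ∣ c) (hc : 6 ≤ c) (hb : b ≤ c) : ∀ k : ℕ,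
    c + 6 * k ≤ b * b → Qf (c + 6 * k) = Qf c * mpk (Qf b) c k ∧ 1 ≤ mpk (Qf b) c k := by
  intro k
  induction k with
  | zero =>
    intro _
    have : mpk (Qf b) c 0 = 1 := rfl
    rw [this]
    simp
  | succ k ih =>
    intro hk
    obtain ⟨h1, h2⟩ := ih (by omega)
    have e1 : cand (Qf b) (c + (6 * k + 1)) = pr (c + (6 * k + 1)) :=
      cand_eq (by omega) (by omega) (by omega)
    have e2 : cand (Qf b) (c + (6 * k + 5)) = pr (c + (6 * k + 5)) :=
      cand_eq (by omega) (by omega) (by omega)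
    rw [mpk_succ, e1, e2]
    constructor
    · have h3 := Qf_six (c := c + 6 * k) (by omega) (by omega)
      rw [show c + 6 * (k + 1) = c + 6 * k + 6 by ring, h3, h1,
        show c + 6 * k + 1 = c + (6 * k + 1) by ring, show c + 6 * k + 5 = c + (6 * k + 5) by ring]
      ring
    · exact Nat.mul_pos h2 (Nat.mul_pos (pr_pos _) (pr_pos _))

/-! ### exact run -/

/-- multiplies by the primes in `N` blocks of `6` numbers -/
def runE (P : ℕ) (N : ℕ) : ℕ → ℕ → (ℕ → Bool) → Bool :=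
  Nat.rec (motive := fun _ => ℕ → ℕ → (ℕ → Bool) → Bool)
    (fun _ Q K => K Q)
    (fun _ ih c Q K => fc (Nat.mul Q (mpk P c 1)) fun Q' => fc (Nat.add c 6) fun c' => ih c' Q' K) N

theorem runE_succ (P N c Q : ℕ) (K : ℕ → Bool) :
    runE P (N + 1) c Q K = runE P N (c + 6) (Q * mpk P c 1) K := by
  change (fc (Nat.mul Q (mpk P c 1)) fun Q' => fc (Nat.add c 6) fun c' => runE P N c' Q' K) = _
  rw [fc_eq, fc_eq]
  rfl

theorem runE_spec {b : ℕ} (K : ℕ → Bool) : ∀ (N c : ℕ), 6 ∣ c → 6 ≤ c → b ≤ c →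
    c + 6 * N ≤ b * b → runE (Qf b) N c (Qf c) K = true → K (Qf (c + 6 * N)) = true := by
  intro N
  induction N with
  | zero => intro c _ _ _ _ h; exact h
  | succ N ih =>
    intro c h6 hc hb hN h
    rw [runE_succ] at h
    have h1 := (mpk_eq h6 hc hb 1 (by omega)).1
    rw [mul_one] at h1
    rw [← h1] at h
    have := ih (c + 6) (by omega) (by omega) (by omega) (by omega) h
    rwa [show c + 6 * (N + 1) = c + 6 + 6 * N by ring]

/-! ### approximate run -/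

/-- parameters: number of units in a block, coefficients of the bounds -/
structure Prm where
  k : ℕ
  aL : ℕ
  bL : ℕ
  aU : ℕ
  bU : ℕ

def DD : ℕ := 10000000

/-- lower bound for the number of bits -/
def TL (p : Prm) (c : ℕ) : ℕ := Nat.add (Nat.div (Nat.sub (Nat.mul p.aL c) p.bL) DD) 1

/-- upper bound for the number of bits -/
def TU (p : Prm) (c : ℕ) : ℕ := Nat.sub (Nat.div (Nat.sub (Nat.mul p.aU c) p.bU) DD) 1

/-- `SH` is the shift and `BB` the number of bits above which one shifts -/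
def runB (SH BB P : ℕ) (p : Prm) (N : ℕ) : ℕ → ℕ → ℕ → (ℕ → ℕ → ℕ → Bool) → Bool :=
  Nat.rec (motive := fun _ => ℕ → ℕ → ℕ → (ℕ → ℕ → ℕ → Bool) → Bool)
    (fun c lo E K => K c lo E)
    (fun _ ih c lo E K => fc (Nat.add c (Nat.mul 6 p.k)) fun c' =>
      Bool.rec (motive := fun _ => Bool) false
        (fc (Nat.mul lo (mpk P c p.k)) fun x =>
          Bool.rec (motive := fun _ => Bool)
            (Bool.rec (motive := fun _ => Bool) false
              (Bool.rec (motive := fun _ => Bool) false (ih c' x E K)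
                (Nat.ble x (Nat.pow 2 (Nat.sub (TU p c) E))))
              (Nat.ble E (TU p c)))
            (fc (Nat.shiftRight x SH) fun y => fc (Nat.add E SH) fun E' =>
              (Bool.rec (motive := fun _ => Bool) false
              (Bool.rec (motive := fun _ => Bool) false (ih c' y E' K)
                (Nat.ble y (Nat.pow 2 (Nat.sub (TU p c) E'))))
              (Nat.ble E' (TU p c))))
            (Nat.ble (Nat.pow 2 BB) x))
        (Nat.ble (Nat.pow 2 (Nat.sub (TL p c') E)) lo)) N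

theorem runB_succ (SH BB P : ℕ) (p : Prm) (N c lo E : ℕ) (K : ℕ → ℕ → ℕ → Bool)
    (h : runB SH BB P p (N + 1) c lo E K = true) :
    2 ^ (TL p (c + 6 * p.k) - E) ≤ lo ∧
    ((¬ 2 ^ BB ≤ lo * mpk P c p.k ∧ E ≤ TU p c ∧ lo * mpk P c p.k ≤ 2 ^ (TU p c - E) ∧
        runB SH BB P p N (c + 6 * p.k) (lo * mpk P c p.k) E K = true) ∨
      (2 ^ BB ≤ lo * mpk P c p.k ∧ E + SH ≤ TU p c ∧
        (lo * mpk P c p.k) >>> SH ≤ 2 ^ (TU p c - (E + SH)) ∧
        runB SH BB P p N (c + 6 * p.k) ((lo * mpk P c p.k) >>> SH) (E + SH) K = true)) := by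
  change (fc (Nat.add c (Nat.mul 6 p.k)) fun c' =>
      Bool.rec (motive := fun _ => Bool) false
        (fc (Nat.mul lo (mpk P c p.k)) fun x =>
          Bool.rec (motive := fun _ => Bool)
            (Bool.rec (motive := fun _ => Bool) false
              (Bool.rec (motive := fun _ => Bool) false (runB SH BB P p N c' x E K)
                (Nat.ble x (Nat.pow 2 (Nat.sub (TU p c) E))))
              (Nat.ble E (TU p c)))
            (fc (Nat.shiftRight x SH) fun y => fc (Nat.add E SH) fun E' =>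
              (Bool.rec (motive := fun _ => Bool) false
              (Bool.rec (motive := fun _ => Bool) false (runB SH BB P p N c' y E' K)
                (Nat.ble y (Nat.pow 2 (Nat.sub (TU p c) E'))))
              (Nat.ble E' (TU p c))))
            (Nat.ble (Nat.pow 2 BB) x))
        (Nat.ble (Nat.pow 2 (Nat.sub (TL p c') E)) lo)) = true at h
  simp only [fc_eq] at h
  obtain ⟨h1, h⟩ := brec_true h
  refine ⟨Nat.le_of_ble_eq_true h1, ?_⟩
  rcases brec_cases h with ⟨h2, h⟩ | ⟨h2, h⟩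
  · obtain ⟨h3, h⟩ := brec_true h
    obtain ⟨h4, h⟩ := brec_true h
    refine Or.inl ⟨fun h5 => ?_, Nat.le_of_ble_eq_true h3, Nat.le_of_ble_eq_true h4, h⟩
    exact absurd (h2.symm.trans (Nat.ble_eq_true_of_le h5)) Bool.false_ne_true
  · obtain ⟨h3, h⟩ := brec_true h
    obtain ⟨h4, h⟩ := brec_true h
    exact Or.inr ⟨Nat.le_of_ble_eq_true h2, Nat.le_of_ble_eq_true h3, Nat.le_of_ble_eq_true h4, h⟩

/-- final test -/
def stk (C LO EE : ℕ) : ℕ → ℕ → ℕ → Bool := fun c lo E =>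
  Bool.rec (motive := fun _ => Bool) false
    (Bool.rec (motive := fun _ => Bool) false (Nat.beq E EE) (Nat.beq lo LO)) (Nat.beq c C)

theorem stk_true {C LO EE c lo E : ℕ} (h : stk C LO EE c lo E = true) :
    c = C ∧ lo = LO ∧ E = EE := by
  obtain ⟨h1, h⟩ := brec_true h
  obtain ⟨h2, h⟩ := brec_true h
  exact ⟨Nat.eq_of_beq_eq_true h1, Nat.eq_of_beq_eq_true h2, Nat.eq_of_beq_eq_true h⟩

/-- `(lo, E)` approximates the product of the primes less than `c` -/
def Inv (c lo E : ℕ) : Prop :=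
  1 ≤ lo ∧ lo * 2 ^ E ≤ Qf c ∧
    Real.log (Qf c) ≤ Real.log lo + E * Real.log 2 + (c : ℝ) / 2 ^ 40

/-- the bounds on a block -/
def Good (p : Prm) (c : ℕ) : Prop :=
  (TL p (c + 6 * p.k) : ℝ) * Real.log 2 ≤ Real.log (Qf c) ∧
    Real.log (Qf (c + 6 * p.k)) ≤ ((TU p c : ℝ) + 1) * Real.log 2

theorem log_pow_two (n : ℕ) : Real.log (2 ^ n) = n * Real.log 2 := Real.log_pow 2 n

theorem good_up {c lo E T : ℕ} (hI : Inv c lo E) (hE : E ≤ T) (hlo : lo ≤ 2 ^ (T - E))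
    (hc : c ≤ 2 ^ 21) : Real.log (Qf c) ≤ ((T : ℝ) + 1) * Real.log 2 := by
  obtain ⟨h1, _, h3⟩ := hI
  have hlo0 : (0 : ℝ) < lo := by exact_mod_cast h1
  have h4 : Real.log lo ≤ ((T - E : ℕ) : ℝ) * Real.log 2 := by
    rw [← log_pow_two]
    exact Real.log_le_log hlo0 (by exact_mod_cast hlo)
  rw [Nat.cast_sub hE] at h4
  have h5 : (c : ℝ) / 2 ^ 40 ≤ 1 / 2 := by
    have : (c : ℝ) ≤ 2 ^ 21 := by exact_mod_cast hc
    rw [div_le_iff₀ (by positivity)]
    refine this.trans ?_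
    norm_num
  have h6 := Real.log_two_gt_d9
  linarith

theorem good_low {c lo E T : ℕ} (hI : Inv c lo E) (hlo : 2 ^ (T - E) ≤ lo) :
    (T : ℝ) * Real.log 2 ≤ Real.log (Qf c) := by
  obtain ⟨_, h2, _⟩ := hI
  rw [← log_pow_two]
  refine Real.log_le_log (by positivity) ?_
  have h3 : 2 ^ T ≤ Qf c := by
    calc 2 ^ T ≤ 2 ^ ((T - E) + E) := Nat.pow_le_pow_right (by norm_num) (by omega)
      _ = 2 ^ (T - E) * 2 ^ E := pow_add _ _ _
      _ ≤ lo * 2 ^ E := Nat.mul_le_mul_right _ hlo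
      _ ≤ Qf c := h2
  exact_mod_cast h3

theorem inv_mul {c c' lo E m : ℕ} (hI : Inv c lo E) (hcc : c ≤ c') (hm : 1 ≤ m)
    (hQ : Qf c' = Qf c * m) : Inv c' (lo * m) E ∧
      Real.log (Qf c') ≤ Real.log ((lo * m : ℕ) : ℝ) + E * Real.log 2 + (c : ℝ) / 2 ^ 40 := by
  obtain ⟨h1, h2, h3⟩ := hI
  have hlo0 : (lo : ℝ) ≠ 0 := by
    have : (0 : ℝ) < lo := by exact_mod_cast h1
    exact this.ne'
  have hm0 : (m : ℝ) ≠ 0 := by
    have : (0 : ℝ) < m := by exact_mod_cast hm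
    exact this.ne'
  have hQ0 : (Qf c : ℝ) ≠ 0 := by
    have : (0 : ℝ) < Qf c := by exact_mod_cast Qf_pos c
    exact this.ne'
  have h4 : Real.log (Qf c') ≤ Real.log ((lo * m : ℕ) : ℝ) + E * Real.log 2 + (c : ℝ) / 2 ^ 40 := by
    rw [hQ, Nat.cast_mul, Nat.cast_mul, Real.log_mul hQ0 hm0, Real.log_mul hlo0 hm0]
    linarith
  refine ⟨⟨Nat.mul_pos h1 hm, ?_, ?_⟩, h4⟩
  · rw [hQ]
    calc lo * m * 2 ^ E = lo * 2 ^ E * m := by ring
      _ ≤ Qf c * m := Nat.mul_le_mul_right _ h2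
  · refine h4.trans ?_
    have : (c : ℝ) ≤ c' := by exact_mod_cast hcc
    have : (c : ℝ) / 2 ^ 40 ≤ (c' : ℝ) / 2 ^ 40 := div_le_div_of_nonneg_right this (by positivity)
    linarith

theorem inv_shift {SH BB c c' x E : ℕ} (hB : 64 + SH ≤ BB) (hx : 2 ^ BB ≤ x) (hcc : c + 1 ≤ c')
    (h2 : x * 2 ^ E ≤ Qf c')
    (h4 : Real.log (Qf c') ≤ Real.log (x : ℝ) + E * Real.log 2 + (c : ℝ) / 2 ^ 40) :
    Inv c' (x >>> SH) (E + SH) := by
  rw [Nat.shiftRight_eq_div_pow]
  set y := x / 2 ^ SH with hy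
  have hy64 : 2 ^ 64 ≤ y := by
    rw [hy, Nat.le_div_iff_mul_le (by positivity), ← pow_add]
    exact (Nat.pow_le_pow_right (by norm_num) hB).trans hx
  have hyx : y * 2 ^ SH ≤ x := Nat.div_mul_le_self _ _
  have hxy : x < (y + 1) * 2 ^ SH := by
    rw [hy]
    have := Nat.lt_mul_div_succ x (show 0 < 2 ^ SH by positivity)
    rw [mul_comm]
    exact this
  have hy1 : 1 ≤ y := le_trans (Nat.one_le_two_pow) hy64
  have hyr : (2 : ℝ) ^ 64 ≤ y := by exact_mod_cast hy64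
  have hy0 : (0 : ℝ) < y := by
    have : (0 : ℝ) < 2 ^ 64 := by positivity
    linarith
  refine ⟨hy1, ?_, ?_⟩
  · calc y * 2 ^ (E + SH) = y * 2 ^ SH * 2 ^ E := by rw [pow_add]; ring
      _ ≤ x * 2 ^ E := Nat.mul_le_mul_right _ hyx
      _ ≤ Qf c' := h2
  · have h5 : Real.log (x : ℝ) ≤ Real.log (y : ℝ) + 1 / 2 ^ 64 + SH * Real.log 2 := by
      have hxpos : (0 : ℝ) < x := by
        have : 0 < x := lt_of_lt_of_le (by positivity) hx
        exact_mod_cast this
      have h6 : (x : ℝ) ≤ ((y : ℝ) + 1) * 2 ^ SH := by exact_mod_cast hxy.le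
      have h7 := Real.log_le_log hxpos h6
      rw [Real.log_mul (by positivity) (by positivity), Real.log_pow] at h7
      have h8 : Real.log ((y : ℝ) + 1) ≤ Real.log y + 1 / 2 ^ 64 := by
        have h9 : (y : ℝ) + 1 = y * (1 + 1 / y) := by field_simp
        rw [h9, Real.log_mul hy0.ne' (by positivity)]
        have h10 : Real.log (1 + 1 / (y : ℝ)) ≤ 1 / y := by
          have := Real.log_le_sub_one_of_pos (show 0 < 1 + 1 / (y : ℝ) by positivity)
          linarith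
        have h11 : 1 / (y : ℝ) ≤ 1 / 2 ^ 64 := one_div_le_one_div_of_le (by positivity) hyr
        linarith
      linarith
    have h12 : (c : ℝ) / 2 ^ 40 + 1 / 2 ^ 64 ≤ (c' : ℝ) / 2 ^ 40 := by
      have : (c : ℝ) + 1 ≤ c' := by exact_mod_cast hcc
      have h13 : ((c : ℝ) + 1) / 2 ^ 40 ≤ (c' : ℝ) / 2 ^ 40 :=
        div_le_div_of_nonneg_right this (by positivity)
      rw [add_div] at h13
      have h14 : (1 : ℝ) / 2 ^ 64 ≤ 1 / 2 ^ 40 := by norm_num
      linarith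
    push_cast
    linarith

theorem runB_spec {SH BB b : ℕ} (hB : 64 + SH ≤ BB) (hb2 : b * b ≤ 2 ^ 21) (p : Prm) (hk : 1 ≤ p.k)
    (K : ℕ → ℕ → ℕ → Bool) : ∀ (N c lo E : ℕ), 6 ∣ c → 6 ≤ c → b ≤ c →
    c + 6 * p.k * N ≤ b * b → Inv c lo E → runB SH BB (Qf b) p N c lo E K = true →
    (∃ lo' E', Inv (c + 6 * p.k * N) lo' E' ∧ K (c + 6 * p.k * N) lo' E' = true) ∧
      ∀ i < N, Good p (c + 6 * p.k * i) := by
  intro N
  induction N with
  | zero =>
    intro c lo E _ _ _ _ hI h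
    exact ⟨⟨lo, E, hI, h⟩, fun i hi => absurd hi (Nat.not_lt_zero i)⟩
  | succ N ih =>
    intro c lo E h6 hc hb hN hI h
    have hN' : c + 6 * p.k + 6 * p.k * N ≤ b * b := by
      have : 6 * p.k * (N + 1) = 6 * p.k + 6 * p.k * N := by ring
      omega
    have h6' : 6 ∣ c + 6 * p.k := by omega
    have hle : c + 6 * p.k ≤ 2 ^ 21 := by omega
    obtain ⟨hlow, hrest⟩ := runB_succ SH BB _ p N c lo E K h
    obtain ⟨hQ, hm1⟩ := mpk_eq h6 hc hb p.k (by omega)
    obtain ⟨hI1, hI2⟩ := inv_mul hI (c' := c + 6 * p.k) (by omega) hm1 hQ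
    have key : ∃ lo' E', Inv (c + 6 * p.k) lo' E' ∧ E' ≤ TU p c ∧ lo' ≤ 2 ^ (TU p c - E') ∧
        runB SH BB (Qf b) p N (c + 6 * p.k) lo' E' K = true := by
      rcases hrest with ⟨_, h2, h3, h4⟩ | ⟨h1, h2, h3, h4⟩
      · exact ⟨_, _, hI1, h2, h3, h4⟩
      · exact ⟨_, _, inv_shift hB h1 (by omega) hI1.2.1 hI2, h2, h3, h4⟩
    obtain ⟨lo', E', hI', hE', hlo', hrun⟩ := key
    have hgood : Good p c := ⟨good_low hI hlow, good_up hI' hE' hlo' hle⟩
    obtain ⟨⟨lo2, E2, hJ1, hJ2⟩, hJ3⟩ := ih (c + 6 * p.k) lo' E' h6' (by omega) (by omega) hN' hI' hrun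
    have e : c + 6 * p.k * (N + 1) = c + 6 * p.k + 6 * p.k * N := by ring
    rw [e]
    refine ⟨⟨lo2, E2, hJ1, hJ2⟩, fun i hi => ?_⟩
    rcases Nat.eq_zero_or_pos i with h0 | h0
    · subst h0
      simpa using hgood
    · obtain ⟨i', rfl⟩ := Nat.exists_eq_succ_of_ne_zero h0.ne'
      have := hJ3 i' (by omega)
      have e2 : c + 6 * p.k * (i' + 1) = c + 6 * p.k + 6 * p.k * i' := by ring
      rw [Nat.succ_eq_add_one, e2]
      exact this

/-- every integer in `[c, c')` lies in a good block -/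
def Cov (p : Prm) (c c' : ℕ) : Prop :=
  ∀ x, c ≤ x → x < c' → ∃ c0, c0 ≤ x ∧ x < c0 + 6 * p.k ∧ Good p c0

theorem cov_of {p : Prm} (hk : 1 ≤ p.k) {c N : ℕ} (h : ∀ i < N, Good p (c + 6 * p.k * i)) :
    Cov p c (c + 6 * p.k * N) := by
  intro x h1 h2
  have hpos : 0 < 6 * p.k := by omega
  refine ⟨c + 6 * p.k * ((x - c) / (6 * p.k)), ?_, ?_, h _ ?_⟩
  · have := Nat.mul_div_le (x - c) (6 * p.k)
    omega
  · have := Nat.lt_mul_div_succ (x - c) hpos
    have e : 6 * p.k * ((x - c) / (6 * p.k) + 1) = 6 * p.k * ((x - c) / (6 * p.k)) + 6 * p.k := by ring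
    omega
  · rw [Nat.div_lt_iff_lt_mul hpos, mul_comm]
    omega

theorem Cov.trans {p : Prm} {a b c : ℕ} (h1 : Cov p a b) (h2 : Cov p b c) : Cov p a c := by
  intro x hx hx'
  rcases Nat.lt_or_ge x b with h | h
  · exact h1 x hx h
  · exact h2 x h hx'

/-- a segment -/
theorem seg {SH BB b P : ℕ} (hB : 64 + SH ≤ BB) (hb2 : b * b ≤ 2 ^ 21) (hP : Qf b = P) {p : Prm}
    (hk : 1 ≤ p.k) {N c lo E C LO EE : ℕ} (h6 : 6 ∣ c) (hc : 6 ≤ c) (hb : b ≤ c)
    (hN : c + 6 * p.k * N ≤ b * b) (hI : Inv c lo E)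
    (h : runB SH BB P p N c lo E (stk C LO EE) = true) : Inv C LO EE ∧ Cov p c C := by
  subst hP
  obtain ⟨⟨lo', E', h1, h2⟩, h3⟩ := runB_spec hB hb2 p hk _ N c lo E h6 hc hb hN hI h
  obtain ⟨h4, h5, h6⟩ := stk_true h2
  subst h4 h5 h6
  exact ⟨h1, cov_of hk h3⟩

/-- the last block -/
theorem seg_last {SH BB b P : ℕ} (hB : 64 + SH ≤ BB) (hb2 : b * b ≤ 2 ^ 21) (hP : Qf b = P)
    {p : Prm} (hk : 1 ≤ p.k) {c lo E C : ℕ} (h6 : 6 ∣ c) (hc : 6 ≤ c) (hb : b ≤ c)
    (hN : c + 6 * p.k ≤ b * b) (hC : C ≤ c + 6 * p.k) (hI : Inv c lo E)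
    (h : runB SH BB P p 1 c lo E (fun _ _ _ => true) = true) : Cov p c C := by
  subst hP
  obtain ⟨_, h3⟩ := runB_spec hB hb2 p hk _ 1 c lo E h6 hc hb (by rw [mul_one]; exact hN) hI h
  intro x h1 h2
  exact ⟨c, h1, by omega, by simpa using h3 0 (by norm_num)⟩

/-! ### run with least common multiples -/

/-- `D1` is `D - 1` -/
def runA (D D1 S aL aU : ℕ) (N : ℕ) : ℕ → ℕ → (ℕ → ℕ → Bool) → Bool :=
  Nat.rec (motive := fun _ => ℕ → ℕ → (ℕ → ℕ → Bool) → Bool)
    (fun n L K => K n L)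
    (fun _ ih n L K => fc (Nat.succ n) fun n' =>
      Bool.rec (motive := fun _ => Bool) false
        (Bool.rec (motive := fun _ => Bool) false
          (fc (Nat.div (Nat.mul L n') (Nat.gcd L n')) fun L' => ih n' L' K)
          (Nat.ble (Nat.pow L S) (Nat.pow 2 (Nat.div (Nat.mul aU n) D))))
        (Nat.ble (Nat.pow 2 (Nat.div (Nat.add (Nat.mul aL n') D1) D)) (Nat.pow L S))) N

theorem runA_succ (D D1 S aL aU N n L : ℕ) (K : ℕ → ℕ → Bool)
    (h : runA D D1 S aL aU (N + 1) n L K = true) :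
    2 ^ ((aL * (n + 1) + D1) / D) ≤ L ^ S ∧ L ^ S ≤ 2 ^ (aU * n / D) ∧
      runA D D1 S aL aU N (n + 1) (Nat.lcm L (n + 1)) K = true := by
  change (fc (Nat.succ n) fun n' =>
      Bool.rec (motive := fun _ => Bool) false
        (Bool.rec (motive := fun _ => Bool) false
          (fc (Nat.div (Nat.mul L n') (Nat.gcd L n')) fun L' => runA D D1 S aL aU N n' L' K)
          (Nat.ble (Nat.pow L S) (Nat.pow 2 (Nat.div (Nat.mul aU n) D))))
        (Nat.ble (Nat.pow 2 (Nat.div (Nat.add (Nat.mul aL n') D1) D)) (Nat.pow L S)))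
      = true at h
  simp only [fc_eq] at h
  obtain ⟨h1, h⟩ := brec_true h
  obtain ⟨h2, h⟩ := brec_true h
  exact ⟨Nat.le_of_ble_eq_true h1, Nat.le_of_ble_eq_true h2, h⟩

theorem lcmUpto_succ (n : ℕ) : Nat.lcmUpto (n + 1) = Nat.lcm (Nat.lcmUpto n) (n + 1) := by
  unfold Nat.lcmUpto
  rw [← Finset.insert_Icc_right_eq_Icc_add_one (by omega), Finset.lcm_insert]
  simp only [id]
  rw [lcm_comm]
  rfl

/-- the bounds at `n` -/
def GoodA (D D1 S aL aU n : ℕ) : Prop :=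
  2 ^ ((aL * (n + 1) + D1) / D) ≤ Nat.lcmUpto n ^ S ∧ Nat.lcmUpto n ^ S ≤ 2 ^ (aU * n / D)

theorem runA_spec (D D1 S aL aU : ℕ) (K : ℕ → ℕ → Bool) : ∀ (N n : ℕ),
    runA D D1 S aL aU N n (Nat.lcmUpto n) K = true →
    K (n + N) (Nat.lcmUpto (n + N)) = true ∧ ∀ i, n ≤ i → i < n + N → GoodA D D1 S aL aU i := by
  intro N
  induction N with
  | zero =>
    intro n h
    exact ⟨h, fun i h1 h2 => absurd h2 (by omega)⟩
  | succ N ih =>
    intro n h
    obtain ⟨h1, h2, h3⟩ := runA_succ _ _ _ _ _ _ _ _ _ h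
    rw [← lcmUpto_succ] at h3
    obtain ⟨h4, h5⟩ := ih (n + 1) h3
    rw [show n + (N + 1) = n + 1 + N by ring]
    refine ⟨h4, fun i hi1 hi2 => ?_⟩
    rcases Nat.eq_or_lt_of_le hi1 with h6 | h6
    · subst h6
      exact ⟨h1, h2⟩
    · exact h5 i h6 hi2

end KB.PsiNum
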