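import Mathlib
import Pool.Agent.Helper77.KB.PsiNumDefs

/-!
KB-5, part 4: from the computations to real numbers.
-/

set_option autoImplicit false

open Finset

namespace KB.PsiNum

/-- cells treated with least common multiples -/
theorem cellA {D D1 S aL aU N n0 : ℕ} {l u : ℝ} (hD : D1 + 1 = D) (hS : 1 ≤ S)
    (hl : 0 ≤ 1 - l) (hu : 0 ≤ 1 + u)
    (haL : S * (1 - l) * D ≤ aL * 0.6931471803) (haU : aU * 0.6931471808 ≤ S * (1 + u) * D)
    (h : ∀ i, n0 ≤ i → i < n0 + N → GoodA D D1 S aL aU i)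
    (y : ℝ) (h1 : (n0 : ℝ) ≤ y) (h2 : y < ((n0 + N : ℕ) : ℝ)) :
    (1 - l) * y ≤ Chebyshev.psi y ∧ Chebyshev.psi y ≤ (1 + u) * y := by
  have hy0 : 0 ≤ y := le_trans (Nat.cast_nonneg _) h1
  have hD0 : (0 : ℝ) < D := by
    have : 0 < D := by omega
    exact_mod_cast this
  have hDnat : 0 < D := by omega
  have hS0 : (0 : ℝ) < S := by exact_mod_cast hS
  set n := ⌊y⌋₊ with hn
  have hn1 : n0 ≤ n := Nat.le_floor h1
  have hn2 : n < n0 + N := (Nat.floor_lt hy0).2 h2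
  obtain ⟨g1, g2⟩ := h n hn1 hn2
  rw [Chebyshev.psi_eq_psi_coe_floor, Chebyshev.psi_eq_log_lcmUpto, ← hn]
  have hny : (n : ℝ) ≤ y := Nat.floor_le hy0
  have hyn : y < n + 1 := Nat.lt_floor_add_one y
  set L := Nat.lcmUpto n with hL
  have hL0 : (0 : ℝ) < L := by exact_mod_cast Nat.lcmUpto_pos n
  set T := (aL * (n + 1) + D1) / D with hT
  have hTD : aL * (n + 1) ≤ T * D := by
    have := Nat.div_add_mod (aL * (n + 1) + D1) D
    have h3 := Nat.mod_lt (aL * (n + 1) + D1) hDnat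
    rw [← hT] at this
    have h4 : D * T = T * D := mul_comm _ _
    omega
  set T2 := aU * n / D with hT2
  have hT2D : T2 * D ≤ aU * n := Nat.div_mul_le_self _ _
  have hlog0 := Real.log_two_gt_d9
  have hlog1 := Real.log_two_lt_d9
  have e1 : (T : ℝ) * Real.log 2 ≤ S * Real.log L := by
    rw [← log_pow_two, ← Real.log_pow]
    refine Real.log_le_log (by positivity) ?_
    exact_mod_cast g1
  have e2 : S * Real.log L ≤ (T2 : ℝ) * Real.log 2 := by
    rw [← log_pow_two, ← Real.log_pow]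
    refine Real.log_le_log (by positivity) ?_
    exact_mod_cast g2
  have hTD' : (aL : ℝ) * (n + 1) ≤ T * D := by exact_mod_cast hTD
  have hT2D' : (T2 : ℝ) * D ≤ aU * n := by exact_mod_cast hT2D
  have hn0 : (0 : ℝ) ≤ n := Nat.cast_nonneg n
  constructor
  · have i1 : S * (1 - l) * D * (n + 1) ≤ T * Real.log 2 * D := by
      calc S * (1 - l) * D * (n + 1) ≤ aL * 0.6931471803 * (n + 1) :=
            mul_le_mul_of_nonneg_right haL (by positivity)
        _ = aL * (n + 1) * 0.6931471803 := by ring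
        _ ≤ T * D * 0.6931471803 := mul_le_mul_of_nonneg_right hTD' (by norm_num)
        _ ≤ T * D * Real.log 2 := mul_le_mul_of_nonneg_left hlog0.le (by positivity)
        _ = T * Real.log 2 * D := by ring
    have i2 : S * (1 - l) * (n + 1) ≤ T * Real.log 2 := by
      refine le_of_mul_le_mul_right ?_ hD0
      calc _ = S * (1 - l) * D * (n + 1) := by ring
        _ ≤ _ := i1
    have i3 : S * ((1 - l) * y) ≤ S * Real.log L := by
      calc S * ((1 - l) * y) ≤ S * ((1 - l) * (n + 1)) := by gcongr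
        _ = S * (1 - l) * (n + 1) := by ring
        _ ≤ _ := i2.trans e1
    exact le_of_mul_le_mul_left i3 hS0
  · have i1 : T2 * Real.log 2 * D ≤ S * (1 + u) * D * n := by
      calc (T2 : ℝ) * Real.log 2 * D = T2 * D * Real.log 2 := by ring
        _ ≤ T2 * D * 0.6931471808 := mul_le_mul_of_nonneg_left hlog1.le (by positivity)
        _ ≤ aU * n * 0.6931471808 := mul_le_mul_of_nonneg_right hT2D' (by norm_num)
        _ = aU * 0.6931471808 * n := by ring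
        _ ≤ _ := mul_le_mul_of_nonneg_right haU hn0
    have i2 : T2 * Real.log 2 ≤ S * (1 + u) * n := by
      refine le_of_mul_le_mul_right ?_ hD0
      calc _ ≤ S * (1 + u) * D * n := i1
        _ = _ := by ring
    have i3 : S * Real.log L ≤ S * ((1 + u) * y) := by
      calc S * Real.log L ≤ S * (1 + u) * n := e2.trans i2
        _ = S * ((1 + u) * n) := by ring
        _ ≤ S * ((1 + u) * y) := by gcongr
    exact le_of_mul_le_mul_left i3 hS0

theorem theta_eq_Qf (y : ℝ) : Chebyshev.theta y = Real.log (Qf (⌊y⌋₊ + 1)) :=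
  Chebyshev.theta_eq_log_primorial y

theorem log_Qf_mono {a b : ℕ} (h : a ≤ b) : Real.log (Qf a) ≤ Real.log (Qf b) := by
  have h1 : (0 : ℝ) < Qf a := by exact_mod_cast Qf_pos a
  exact Real.log_le_log h1 (by exact_mod_cast Qf_mono h)

theorem TL_ge (p : Prm) (c : ℕ) : (p.aL : ℝ) * c - p.bL ≤ TL p c * DD := by
  have h : p.aL * c ≤ TL p c * DD + p.bL := by
    have hD : 0 < DD := by unfold DD; norm_num
    have h1 : TL p c = (p.aL * c - p.bL) / DD + 1 := rfl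
    have h2 := Nat.lt_mul_div_succ (p.aL * c - p.bL) hD
    rw [h1, mul_comm _ DD]
    generalize DD * ((p.aL * c - p.bL) / DD + 1) = z at *
    generalize p.aL * c = w at *
    omega
  have h' : (p.aL : ℝ) * c ≤ TL p c * DD + p.bL := by exact_mod_cast h
  linarith

theorem TU_le (p : Prm) (c : ℕ) (h : p.bU + DD ≤ p.aU * c) :
    ((TU p c : ℝ) + 1) * DD ≤ p.aU * c - p.bU := by
  have h' : (TU p c + 1) * DD + p.bU ≤ p.aU * c := by
    have hD : 0 < DD := by unfold DD; norm_num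
    have h1 : TU p c = (p.aU * c - p.bU) / DD - 1 := rfl
    have h2 := Nat.div_mul_le_self (p.aU * c - p.bU) DD
    have h3 : 1 ≤ (p.aU * c - p.bU) / DD := by
      rw [Nat.le_div_iff_mul_le hD]
      omega
    rw [h1, Nat.sub_add_cancel h3]
    omega
  have h'' : ((TU p c : ℝ) + 1) * DD + p.bU ≤ p.aU * c := by exact_mod_cast h'
  linarith

theorem DD_pos : (0 : ℝ) < DD := by
  unfold DD
  norm_num

theorem goodB {p : Prm} {c : ℕ} (hg : Good p c) (hU : p.bU + DD ≤ p.aU * c) {y : ℝ}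
    (h1 : (c : ℝ) ≤ y) (h2 : y < ((c + 6 * p.k : ℕ) : ℝ)) :
    (p.aL * y - p.bL) * Real.log 2 ≤ Chebyshev.theta y * DD ∧
      Chebyshev.theta y * DD ≤ (p.aU * y - p.bU) * Real.log 2 := by
  have hy0 : 0 ≤ y := le_trans (Nat.cast_nonneg _) h1
  have hn1 : c ≤ ⌊y⌋₊ := Nat.le_floor h1
  have hn2 : ⌊y⌋₊ < c + 6 * p.k := (Nat.floor_lt hy0).2 h2
  obtain ⟨g1, g2⟩ := hg
  have hlog0 : 0 < Real.log 2 := Real.log_pos (by norm_num)
  rw [theta_eq_Qf]
  have k1 := log_Qf_mono (show c ≤ ⌊y⌋₊ + 1 by omega)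
  have k2 := log_Qf_mono (show ⌊y⌋₊ + 1 ≤ c + 6 * p.k by omega)
  constructor
  · calc (p.aL * y - p.bL) * Real.log 2 ≤ (p.aL * ((c + 6 * p.k : ℕ) : ℝ) - p.bL) * Real.log 2 := by
          have : (p.aL : ℝ) * y ≤ p.aL * ((c + 6 * p.k : ℕ) : ℝ) :=
            mul_le_mul_of_nonneg_left h2.le (Nat.cast_nonneg _)
          exact mul_le_mul_of_nonneg_right (by linarith) hlog0.le
      _ ≤ (TL p (c + 6 * p.k) * DD) * Real.log 2 :=
          mul_le_mul_of_nonneg_right (TL_ge p _) hlog0.le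
      _ = TL p (c + 6 * p.k) * Real.log 2 * DD := by ring
      _ ≤ Real.log (Qf (⌊y⌋₊ + 1)) * DD := mul_le_mul_of_nonneg_right (g1.trans k1) DD_pos.le
  · calc Real.log (Qf (⌊y⌋₊ + 1)) * DD ≤ ((TU p c : ℝ) + 1) * Real.log 2 * DD :=
          mul_le_mul_of_nonneg_right (k2.trans g2) DD_pos.le
      _ = ((TU p c : ℝ) + 1) * DD * Real.log 2 := by ring
      _ ≤ (p.aU * c - p.bU) * Real.log 2 := mul_le_mul_of_nonneg_right (TU_le p c hU) hlog0.le
      _ ≤ (p.aU * y - p.bU) * Real.log 2 := by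
          have : (p.aU : ℝ) * c ≤ p.aU * y := mul_le_mul_of_nonneg_left h1 (Nat.cast_nonneg _)
          exact mul_le_mul_of_nonneg_right (by linarith) hlog0.le

theorem root_pow {y : ℝ} (hy : 0 ≤ y) {n : ℕ} (hn : n ≠ 0) : (y ^ ((n : ℝ)⁻¹)) ^ n = y :=
  Real.rpow_inv_natCast_pow hy hn

/-- the claim for one cell -/
def Cell (j : ℕ) : Prop :=
  ∀ y : ℝ, (2 : ℝ) ^ j ≤ y → y < 2 ^ (j + 1) →
    (1 - (lT j : ℝ) / 100000) * y ≤ Chebyshev.psi y ∧
      Chebyshev.psi y ≤ (1 + (uT j : ℝ) / 100000) * y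

theorem root_cell {y r : ℝ} {j m k : ℕ} (hr : 0 < r) (hm : m ≠ 0) (hrm : r ^ m = y)
    (h1 : (2 : ℝ) ^ j ≤ y) (h2 : y < 2 ^ (j + 1)) (hk1 : m * k ≤ j) (hk2 : j + 1 ≤ m * (k + 1)) :
    (2 : ℝ) ^ k ≤ r ∧ r < 2 ^ (k + 1) := by
  constructor
  · refine le_of_pow_le_pow_left₀ hm hr.le ?_
    rw [hrm, ← pow_mul]
    refine le_trans (pow_le_pow_right₀ (by norm_num) ?_) h1
    rw [mul_comm]
    exact hk1
  · refine lt_of_pow_lt_pow_left₀ m (by positivity) ?_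
    rw [hrm, ← pow_mul]
    refine lt_of_lt_of_le h2 (pow_le_pow_right₀ (by norm_num) ?_)
    rw [mul_comm (k + 1)]
    exact hk2

theorem uT_le (j : ℕ) : uT j ≤ 4000 := by
  unfold uT
  split <;> norm_num

theorem psi_le_small (hA : ∀ j < 12, Cell j) {r : ℝ} (h1 : 1 ≤ r) (h2 : r < 1024) :
    Chebyshev.psi r ≤ 1.04 * r := by
  have h3 : ∃ j < 12, (2 : ℝ) ^ j ≤ r ∧ r < 2 ^ (j + 1) := by
    obtain ⟨n, hn1, hn2⟩ := exists_nat_pow_near h1 (show (1 : ℝ) < 2 by norm_num)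
    refine ⟨n, ?_, hn1, hn2⟩
    by_contra hcon
    have : (2 : ℝ) ^ 12 ≤ 2 ^ n := pow_le_pow_right₀ (by norm_num) (by omega)
    have h5 : (2 : ℝ) ^ 12 = 4096 := by norm_num
    linarith
  obtain ⟨j, hj, hj1, hj2⟩ := h3
  have h4 := (hA j hj r hj1 hj2).2
  have h5 : (uT j : ℝ) ≤ 4000 := by exact_mod_cast uT_le j
  have h6 : (1 + (uT j : ℝ) / 100000) * r ≤ 1.04 * r := by
    refine mul_le_mul_of_nonneg_right ?_ (by linarith)
    linarith
  exact h4.trans h6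

theorem secant {s0 s1 r y : ℝ} (hs0 : 0 < s0) (hs1 : 0 < s1) (h0 : s0 ≤ r) (h1 : r ≤ s1)
    (hr : r ^ 2 = y) : (y + s0 * s1) / (s0 + s1) ≤ r := by
  rw [div_le_iff₀ (by positivity)]
  have h2 := mul_nonneg (sub_nonneg.2 h0) (sub_nonneg.2 h1)
  have h3 : (r - s0) * (s1 - r) = r * (s0 + s1) - (r ^ 2 + s0 * s1) := by ring
  rw [h3, hr] at h2
  linarith

theorem amgm {r y sg : ℝ} (hsg : 0 < sg) (hr : r ^ 2 = y) : r ≤ y / (2 * sg) + sg / 2 := by
  have h1 : y / (2 * sg) + sg / 2 - r = (r - sg) ^ 2 / (2 * sg) := by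
    rw [← hr]
    field_simp
    ring
  have h2 : 0 ≤ (r - sg) ^ 2 / (2 * sg) := by positivity
  linarith

theorem cellB (hA : ∀ j < 12, Cell j) {j j2 j3 : ℕ} {p : Prm} {C0 C1 : ℕ} (hcov : Cov p C0 C1)
    (hC0 : C0 ≤ 2 ^ j) (hC1 : 2 ^ (j + 1) ≤ C1) (hj : j < 20)
    (hpU : p.bU + DD ≤ p.aU * (2 ^ j - 6 * p.k))
    (hj2 : 2 * j2 ≤ j) (hj2' : j + 1 ≤ 2 * (j2 + 1)) (hj3 : 3 * j3 ≤ j)
    (hj3' : j + 1 ≤ 3 * (j3 + 1)) {L l2 l3 U : ℕ} (hL : lT j = L) (hl2 : lT j2 = l2)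
    (hl3 : lT j3 = l3) (hU : uT j = U) (hl2' : l2 ≤ 100000) (hl3' : l3 ≤ 100000)
    {s0 s1 tau sg c3 c5 : ℝ} (hs0 : 0 < s0) (hs0' : s0 ^ 2 ≤ 2 ^ j) (hs1 : 0 < s1)
    (hs1' : 2 ^ (j + 1) ≤ s1 ^ 2) (htau : tau ^ 3 ≤ 2 ^ j) (hsg : 0 < sg) (hc3 : 0 ≤ c3)
    (hc3' : 2 ^ (j + 1) ≤ c3 ^ 3) (hc5 : 0 ≤ c5) (hc5' : 2 ^ (j + 1) ≤ c5 ^ 5)
    (H1 : (1 - (L : ℝ) / 100000) - (1 - (l2 : ℝ) / 100000) / (s0 + s1) ≤
      p.aL * 0.6931471803 / 10000000)
    (H2 : p.bL * 0.6931471808 / 10000000 ≤ (1 - (l2 : ℝ) / 100000) * (s0 * s1 / (s0 + s1)) +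
      (1 - (l3 : ℝ) / 100000) * tau)
    (H3 : p.aU * 0.6931471808 / 10000000 ≤ 1 + (U : ℝ) / 100000 - 1.04 / (2 * sg))
    (H4 : 1.04 * (sg / 2 + c3 + c5) ≤ p.bU * 0.6931471803 / 10000000) : Cell j := by
  intro y h1 h2
  have hy1 : 1 ≤ y := le_trans (one_le_pow₀ (by norm_num)) h1
  have hy0 : 0 < y := by linarith
  have hlog0 := Real.log_two_gt_d9
  have hlog1 := Real.log_two_lt_d9
  -- bounds for theta
  have hn1 : 2 ^ j ≤ ⌊y⌋₊ := Nat.le_floor (by exact_mod_cast h1)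
  have hn2 : ⌊y⌋₊ < 2 ^ (j + 1) := (Nat.floor_lt hy0.le).2 (by exact_mod_cast h2)
  obtain ⟨c, hc1, hc2, hg⟩ := hcov ⌊y⌋₊ (hC0.trans hn1) (lt_of_lt_of_le hn2 hC1)
  have hcU : p.bU + DD ≤ p.aU * c := hpU.trans (Nat.mul_le_mul_left _ (by omega))
  have hcy : (c : ℝ) ≤ y := le_trans (by exact_mod_cast hc1) (Nat.floor_le hy0.le)
  have hcy2 : y < ((c + 6 * p.k : ℕ) : ℝ) := by
    refine lt_of_lt_of_le (Nat.lt_floor_add_one y) ?_
    have : ⌊y⌋₊ + 1 ≤ c + 6 * p.k := hc2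
    exact_mod_cast this
  obtain ⟨t1, t2⟩ := goodB hg hcU hcy hcy2
  have hDD : (DD : ℝ) = 10000000 := by unfold DD; norm_num
  rw [hDD] at t1 t2
  -- roots
  have p1 := Chebyshev.psi_sub_theta_ge_psi_add_psi_add_psi hy0.le
  have p2 := Chebyshev.psi_sub_theta_le_psi_add_psi_add_psi y
  have p3 := Chebyshev.psi_nonneg (y ^ (7 : ℝ)⁻¹)
  have e2 : (y ^ (2 : ℝ)⁻¹) ^ 2 = y := by
    have := root_pow hy0.le (n := 2) (by norm_num)
    exact_mod_cast this
  have e3 : (y ^ (3 : ℝ)⁻¹) ^ 3 = y := by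
    have := root_pow hy0.le (n := 3) (by norm_num)
    exact_mod_cast this
  have e5 : (y ^ (5 : ℝ)⁻¹) ^ 5 = y := by
    have := root_pow hy0.le (n := 5) (by norm_num)
    exact_mod_cast this
  have q2 : 1 ≤ y ^ (2 : ℝ)⁻¹ := Real.one_le_rpow hy1 (by norm_num)
  have q3 : 1 ≤ y ^ (3 : ℝ)⁻¹ := Real.one_le_rpow hy1 (by norm_num)
  have q5 : 1 ≤ y ^ (5 : ℝ)⁻¹ := Real.one_le_rpow hy1 (by norm_num)
  set r2 := y ^ (2 : ℝ)⁻¹ with hr2
  set r3 := y ^ (3 : ℝ)⁻¹ with hr3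
  set r5 := y ^ (5 : ℝ)⁻¹ with hr5
  have hr2s0 : s0 ≤ r2 := by
    refine le_of_pow_le_pow_left₀ (n := 2) (by norm_num) (by linarith) ?_
    rw [e2]; exact hs0'.trans h1
  have hr2s1 : r2 ≤ s1 := by
    refine le_of_pow_le_pow_left₀ (n := 2) (by norm_num) hs1.le ?_
    rw [e2]; exact h2.le.trans hs1'
  have hr3t : tau ≤ r3 := by
    refine le_of_pow_le_pow_left₀ (n := 3) (by norm_num) (by linarith) ?_
    rw [e3]; exact htau.trans h1
  have hr3c : r3 ≤ c3 := by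
    refine le_of_pow_le_pow_left₀ (n := 3) (by norm_num) hc3 ?_
    rw [e3]; exact h2.le.trans hc3'
  have hr5c : r5 ≤ c5 := by
    refine le_of_pow_le_pow_left₀ (n := 5) (by norm_num) hc5 ?_
    rw [e5]; exact h2.le.trans hc5'
  have hy20 : y < 2 ^ 20 := lt_of_lt_of_le h2 (pow_le_pow_right₀ (by norm_num) (by omega))
  have small : ∀ (r : ℝ) (m : ℕ), 2 ≤ m → 1 ≤ r → r ^ m = y → r < 1024 := by
    intro r m hm hr hrm
    have : r ^ 2 ≤ y := by rw [← hrm]; exact pow_le_pow_right₀ hr hm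
    by_contra hcon
    push Not at hcon
    have h9 : (1024 : ℝ) ^ 2 ≤ r ^ 2 := pow_le_pow_left₀ (by norm_num) hcon 2
    have h10 : (1024 : ℝ) ^ 2 = 2 ^ 20 := by norm_num
    linarith
  constructor
  · -- lower bound
    rw [hL]
    obtain ⟨u1, u2⟩ := root_cell (by linarith : 0 < r2) (by norm_num) e2 h1 h2 hj2 hj2'
    obtain ⟨v1, v2⟩ := root_cell (by linarith : 0 < r3) (by norm_num) e3 h1 h2 hj3 hj3'
    have w2 := (hA j2 (by omega) r2 u1 u2).1
    have w3 := (hA j3 (by omega) r3 v1 v2).1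
    rw [hl2] at w2
    rw [hl3] at w3
    have f2 : 0 ≤ 1 - (l2 : ℝ) / 100000 := by
      have : (l2 : ℝ) ≤ 100000 := by exact_mod_cast hl2'
      linarith
    have f3 : 0 ≤ 1 - (l3 : ℝ) / 100000 := by
      have : (l3 : ℝ) ≤ 100000 := by exact_mod_cast hl3'
      linarith
    have g2 := secant hs0 hs1 hr2s0 hr2s1 e2
    have g2' : (1 - (l2 : ℝ) / 100000) * ((y + s0 * s1) / (s0 + s1)) ≤ Chebyshev.psi r2 :=
      (mul_le_mul_of_nonneg_left g2 f2).trans w2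
    have g3' : (1 - (l3 : ℝ) / 100000) * tau ≤ Chebyshev.psi r3 :=
      (mul_le_mul_of_nonneg_left hr3t f3).trans w3
    have g4 : (p.aL : ℝ) * 0.6931471803 / 10000000 * y ≤ p.aL * Real.log 2 / 10000000 * y := by
      gcongr
    have g5 : (p.bL : ℝ) * Real.log 2 / 10000000 ≤ p.bL * 0.6931471808 / 10000000 := by
      gcongr
    have g6 := mul_le_mul_of_nonneg_right H1 hy0.le
    have g7 : (1 - (l2 : ℝ) / 100000) * ((y + s0 * s1) / (s0 + s1)) =
        (1 - (l2 : ℝ) / 100000) / (s0 + s1) * y +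
          (1 - (l2 : ℝ) / 100000) * (s0 * s1 / (s0 + s1)) := by
      rw [add_div]
      ring
    have g8 : (p.aL * y - p.bL) * Real.log 2 / 10000000 ≤ Chebyshev.theta y := by
      rw [div_le_iff₀ (by norm_num)]
      exact t1
    have g9 : (p.aL * y - p.bL) * Real.log 2 / 10000000 =
        p.aL * Real.log 2 / 10000000 * y - p.bL * Real.log 2 / 10000000 := by ring
    rw [g9] at g8
    rw [g7] at g2'
    rw [sub_mul] at g6
    linarith
  · -- upper bound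
    rw [hU]
    have w2 := psi_le_small hA q2 (small r2 2 (by norm_num) q2 e2)
    have w3 := psi_le_small hA q3 (small r3 3 (by norm_num) q3 e3)
    have w5 := psi_le_small hA q5 (small r5 5 (by norm_num) q5 e5)
    have g2 := amgm hsg e2
    have g4 : p.aU * Real.log 2 / 10000000 * y ≤ (p.aU : ℝ) * 0.6931471808 / 10000000 * y := by
      gcongr
    have g5 : (p.bU : ℝ) * 0.6931471803 / 10000000 ≤ p.bU * Real.log 2 / 10000000 := by
      gcongr
    have g6 := mul_le_mul_of_nonneg_right H3 hy0.le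
    have g8 : Chebyshev.theta y ≤ (p.aU * y - p.bU) * Real.log 2 / 10000000 := by
      rw [le_div_iff₀ (by norm_num)]
      exact t2
    have g9 : (p.aU * y - p.bU) * Real.log 2 / 10000000 =
        p.aU * Real.log 2 / 10000000 * y - p.bU * Real.log 2 / 10000000 := by ring
    rw [g9] at g8
    rw [sub_mul] at g6
    have g10 : 1.04 / (2 * sg) * y = 1.04 * (y / (2 * sg)) := by ring
    rw [g10] at g6
    linarith

end KB.PsiNum
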