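import Mathlib
import Pool.Agent.Helper77.KB.Defs
import Pool.Agent.Helper77.KB.PsiNumDefs
import Pool.Agent.Helper77.KB.PsiNumLink
import Pool.Agent.Helper77.KB.PsiNumDataA
import Pool.Agent.Helper77.KB.PsiNumDataB

/-!
KB-5: explicit bounds for the Chebyshev function `psi` on `[1, 2^20)`, in dyadic cells.
-/

set_option autoImplicit false

open Finset

namespace KB

namespace PsiNum

theorem lcm_step {D D1 S aL aU N n L M : ℕ} (hL : Nat.lcmUpto n = L)
    (h : runA D D1 S aL aU N n L (fun _ L' => Nat.beq L' M) = true) :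
    Nat.lcmUpto (n + N) = M ∧ ∀ i, n ≤ i → i < n + N → GoodA D D1 S aL aU i := by
  subst hL
  obtain ⟨h1, h2⟩ := runA_spec _ _ _ _ _ _ _ _ h
  exact ⟨Nat.eq_of_beq_eq_true h1, h2⟩

theorem L1 : Nat.lcmUpto 1 = lc1 := by
  simp [Nat.lcmUpto, lc1]

theorem L2 : Nat.lcmUpto 2 = lc2 := (lcm_step L1 cell0).1

theorem c0 : Cell 0 := by
  intro y h1 h2
  refine cellA (by norm_num) (by norm_num) ?_ ?_ ?_ ?_ (lcm_step L1 cell0).2 y ?_ ?_ <;>
    norm_num [uT, lT] at h1 h2 ⊢ <;> linarith

theorem L4 : Nat.lcmUpto 4 = lc4 := (lcm_step L2 cell1).1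

theorem c1 : Cell 1 := by
  intro y h1 h2
  refine cellA (by norm_num) (by norm_num) ?_ ?_ ?_ ?_ (lcm_step L2 cell1).2 y ?_ ?_ <;>
    norm_num [uT, lT] at h1 h2 ⊢ <;> linarith

theorem L8 : Nat.lcmUpto 8 = lc8 := (lcm_step L4 cell2).1

theorem c2 : Cell 2 := by
  intro y h1 h2
  refine cellA (by norm_num) (by norm_num) ?_ ?_ ?_ ?_ (lcm_step L4 cell2).2 y ?_ ?_ <;>
    norm_num [uT, lT] at h1 h2 ⊢ <;> linarith

theorem L16 : Nat.lcmUpto 16 = lc16 := (lcm_step L8 cell3).1

theorem c3 : Cell 3 := by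
  intro y h1 h2
  refine cellA (by norm_num) (by norm_num) ?_ ?_ ?_ ?_ (lcm_step L8 cell3).2 y ?_ ?_ <;>
    norm_num [uT, lT] at h1 h2 ⊢ <;> linarith

theorem L32 : Nat.lcmUpto 32 = lc32 := (lcm_step L16 cell4).1

theorem c4 : Cell 4 := by
  intro y h1 h2
  refine cellA (by norm_num) (by norm_num) ?_ ?_ ?_ ?_ (lcm_step L16 cell4).2 y ?_ ?_ <;>
    norm_num [uT, lT] at h1 h2 ⊢ <;> linarith

theorem L64 : Nat.lcmUpto 64 = lc64 := (lcm_step L32 cell5).1

theorem c5 : Cell 5 := by
  intro y h1 h2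
  refine cellA (by norm_num) (by norm_num) ?_ ?_ ?_ ?_ (lcm_step L32 cell5).2 y ?_ ?_ <;>
    norm_num [uT, lT] at h1 h2 ⊢ <;> linarith

theorem L128 : Nat.lcmUpto 128 = lc128 := (lcm_step L64 cell6).1

theorem c6 : Cell 6 := by
  intro y h1 h2
  refine cellA (by norm_num) (by norm_num) ?_ ?_ ?_ ?_ (lcm_step L64 cell6).2 y ?_ ?_ <;>
    norm_num [uT, lT] at h1 h2 ⊢ <;> linarith

theorem L256 : Nat.lcmUpto 256 = lc256 := (lcm_step L128 cell7).1

theorem c7 : Cell 7 := by
  intro y h1 h2
  refine cellA (by norm_num) (by norm_num) ?_ ?_ ?_ ?_ (lcm_step L128 cell7).2 y ?_ ?_ <;>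
    norm_num [uT, lT] at h1 h2 ⊢ <;> linarith

theorem L512 : Nat.lcmUpto 512 = lc512 := (lcm_step L256 cell8).1

theorem c8 : Cell 8 := by
  intro y h1 h2
  refine cellA (by norm_num) (by norm_num) ?_ ?_ ?_ ?_ (lcm_step L256 cell8).2 y ?_ ?_ <;>
    norm_num [uT, lT] at h1 h2 ⊢ <;> linarith

theorem L1024 : Nat.lcmUpto 1024 = lc1024 := (lcm_step L512 cell9).1

theorem c9 : Cell 9 := by
  intro y h1 h2
  refine cellA (by norm_num) (by norm_num) ?_ ?_ ?_ ?_ (lcm_step L512 cell9).2 y ?_ ?_ <;>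
    norm_num [uT, lT] at h1 h2 ⊢ <;> linarith

theorem L2048 : Nat.lcmUpto 2048 = lc2048 := (lcm_step L1024 cell10).1

theorem c10 : Cell 10 := by
  intro y h1 h2
  refine cellA (by norm_num) (by norm_num) ?_ ?_ ?_ ?_ (lcm_step L1024 cell10).2 y ?_ ?_ <;>
    norm_num [uT, lT] at h1 h2 ⊢ <;> linarith

theorem L4096 : Nat.lcmUpto 4096 = lc4096 := (lcm_step L2048 cell11).1

theorem c11 : Cell 11 := by
  intro y h1 h2
  refine cellA (by norm_num) (by norm_num) ?_ ?_ ?_ ?_ (lcm_step L2048 cell11).2 y ?_ ?_ <;>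
    norm_num [uT, lT] at h1 h2 ⊢ <;> linarith

theorem hA : ∀ j < 12, Cell j := by
  intro j hj
  interval_cases j
  · exact c0
  · exact c1
  · exact c2
  · exact c3
  · exact c4
  · exact c5
  · exact c6
  · exact c7
  · exact c8
  · exact c9
  · exact c10
  · exact c11

theorem Q36 : Qf 36 = 200560490130 := by
  have h : (range 36).filter Nat.Prime = {2, 3, 5, 7, 11, 13, 17, 19, 23, 29, 31} := by decide
  rw [Qf, h]
  rfl

theorem runE_eq {b P c Q N C M : ℕ} (hP : Qf b = P) (hQ : Qf c = Q) (h6 : 6 ∣ c) (hc : 6 ≤ c)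
    (hb : b ≤ c) (hN : c + 6 * N = C) (hC : C ≤ b * b)
    (h : runE P N c Q (fun Q => Nat.beq Q M) = true) : Qf C = M := by
  subst hP hQ hN
  exact Nat.eq_of_beq_eq_true (runE_spec (fun Q => Nat.beq Q M) N c h6 hc hb hC h)

theorem Q1026 : Qf 1026 = pP :=
  runE_eq Q36 Q36 (by norm_num) (by norm_num) le_rfl (by norm_num) (by norm_num) runE1

theorem Q4092 : Qf 4092 = lo4092 :=
  runE_eq Q1026 Q1026 (by norm_num) (by norm_num) le_rfl (by norm_num) (by norm_num) runE2

theorem I4092 : Inv 4092 lo4092 0 := by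
  refine ⟨?_, ?_, ?_⟩
  · rw [← Q4092]
    exact Qf_pos _
  · rw [pow_zero, mul_one, Q4092]
  · rw [Q4092]
    have : (0 : ℝ) ≤ ((4092 : ℕ) : ℝ) / 2 ^ 40 := by positivity
    rw [Nat.cast_zero, zero_mul, add_zero]
    linarith

theorem s12_0 : Inv 8184 lo8184 11264 ∧ Cov prm12 4092 8184 :=
  seg (b := 1026) (by norm_num) (by norm_num) Q1026 (by norm_num [prm12]) (by norm_num) (by norm_num)
    (by norm_num) (by norm_num [prm12]) I4092 seg12_0

theorem I8184 : Inv 8184 lo8184 11264 := s12_0.1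

theorem s12_1 : Cov prm12 8184 8196 :=
  seg_last (b := 1026) (by norm_num) (by norm_num) Q1026 (by norm_num [prm12]) (by norm_num)
    (by norm_num) (by norm_num) (by norm_num [prm12]) (by norm_num [prm12]) I8184 seg12_1

theorem cov12 : Cov prm12 4092 8196 :=
  (s12_0.2.trans s12_1)

theorem c12 : Cell 12 := by
  refine cellB hA (j2 := 6) (j3 := 4) (p := prm12) cov12 (by norm_num) (by norm_num) (by norm_num)
    (by norm_num [prm12, DD]) (by norm_num) (by norm_num) (by norm_num) (by norm_num)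
    (L := 1563) (l2 := 12500) (l3 := 25000) (U := 1563) rfl rfl rfl rfl (by norm_num) (by norm_num)
    (s0 := 64) (s1 := (9051 / 100)) (tau := (15999 / 1000)) (sg := 77) (c3 := (20159 / 1000))
    (c5 := (6063 / 1000)) ?_ ?_ ?_ ?_ ?_ ?_ ?_ ?_ ?_ ?_ ?_ ?_ ?_ ?_ <;> norm_num [prm12]

theorem s13_0 : Inv 16380 lo16380 22528 ∧ Cov prm13 8184 16380 :=
  seg (b := 1026) (by norm_num) (by norm_num) Q1026 (by norm_num [prm13]) (by norm_num) (by norm_num)
    (by norm_num) (by norm_num [prm13]) I8184 seg13_0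

theorem I16380 : Inv 16380 lo16380 22528 := s13_0.1

theorem s13_1 : Cov prm13 16380 16392 :=
  seg_last (b := 1026) (by norm_num) (by norm_num) Q1026 (by norm_num [prm13]) (by norm_num)
    (by norm_num) (by norm_num) (by norm_num [prm13]) (by norm_num [prm13]) I16380 seg13_1

theorem cov13 : Cov prm13 8184 16392 :=
  (s13_0.2.trans s13_1)

theorem c13 : Cell 13 := by
  refine cellB hA (j2 := 6) (j3 := 4) (p := prm13) cov13 (by norm_num) (by norm_num) (by norm_num)
    (by norm_num [prm13, DD]) (by norm_num) (by norm_num) (by norm_num) (by norm_num)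
    (L := 1105) (l2 := 12500) (l3 := 25000) (U := 1105) rfl rfl rfl rfl (by norm_num) (by norm_num)
    (s0 := (90509 / 1000)) (s1 := 128) (tau := (10079 / 500)) (sg := 109) (c3 := (25399 / 1000))
    (c5 := (1393 / 200)) ?_ ?_ ?_ ?_ ?_ ?_ ?_ ?_ ?_ ?_ ?_ ?_ ?_ ?_ <;> norm_num [prm13]

theorem s14_0 : Inv 32760 lo32760 46080 ∧ Cov prm14 16380 32760 :=
  seg (b := 1026) (by norm_num) (by norm_num) Q1026 (by norm_num [prm14]) (by norm_num) (by norm_num)
    (by norm_num) (by norm_num [prm14]) I16380 seg14_0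

theorem I32760 : Inv 32760 lo32760 46080 := s14_0.1

theorem s14_1 : Cov prm14 32760 32772 :=
  seg_last (b := 1026) (by norm_num) (by norm_num) Q1026 (by norm_num [prm14]) (by norm_num)
    (by norm_num) (by norm_num) (by norm_num [prm14]) (by norm_num [prm14]) I32760 seg14_1

theorem cov14 : Cov prm14 16380 32772 :=
  (s14_0.2.trans s14_1)

theorem c14 : Cell 14 := by
  refine cellB hA (j2 := 7) (j3 := 4) (p := prm14) cov14 (by norm_num) (by norm_num) (by norm_num)
    (by norm_num [prm14, DD]) (by norm_num) (by norm_num) (by norm_num) (by norm_num)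
    (L := 782) (l2 := 8839) (l3 := 25000) (U := 782) rfl rfl rfl rfl (by norm_num) (by norm_num)
    (s0 := 128) (s1 := (9051 / 50)) (tau := (12699 / 500)) (sg := 155) (c3 := 32)
    (c5 := (8001 / 1000)) ?_ ?_ ?_ ?_ ?_ ?_ ?_ ?_ ?_ ?_ ?_ ?_ ?_ ?_ <;> norm_num [prm14]

theorem s15_0 : Inv 65520 lo65520 93184 ∧ Cov prm15 32760 65520 :=
  seg (b := 1026) (by norm_num) (by norm_num) Q1026 (by norm_num [prm15]) (by norm_num) (by norm_num)
    (by norm_num) (by norm_num [prm15]) I32760 seg15_0

theorem I65520 : Inv 65520 lo65520 93184 := s15_0.1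

theorem s15_1 : Cov prm15 65520 65580 :=
  seg_last (b := 1026) (by norm_num) (by norm_num) Q1026 (by norm_num [prm15]) (by norm_num)
    (by norm_num) (by norm_num) (by norm_num [prm15]) (by norm_num [prm15]) I65520 seg15_1

theorem cov15 : Cov prm15 32760 65580 :=
  (s15_0.2.trans s15_1)

theorem c15 : Cell 15 := by
  refine cellB hA (j2 := 7) (j3 := 5) (p := prm15) cov15 (by norm_num) (by norm_num) (by norm_num)
    (by norm_num [prm15, DD]) (by norm_num) (by norm_num) (by norm_num) (by norm_num)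
    (L := 553) (l2 := 8839) (l3 := 17678) (U := 553) rfl rfl rfl rfl (by norm_num) (by norm_num)
    (s0 := (181019 / 1000)) (s1 := 256) (tau := (31999 / 1000)) (sg := 219) (c3 := (20159 / 500))
    (c5 := (919 / 100)) ?_ ?_ ?_ ?_ ?_ ?_ ?_ ?_ ?_ ?_ ?_ ?_ ?_ ?_ <;> norm_num [prm15]

theorem s16_0 : Inv 98280 lo98280 140288 ∧ Cov prm16 65520 98280 :=
  seg (b := 1026) (by norm_num) (by norm_num) Q1026 (by norm_num [prm16]) (by norm_num) (by norm_num)
    (by norm_num) (by norm_num [prm16]) I65520 seg16_0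

theorem I98280 : Inv 98280 lo98280 140288 := s16_0.1

theorem s16_1 : Inv 131040 lo131040 187392 ∧ Cov prm16 98280 131040 :=
  seg (b := 1026) (by norm_num) (by norm_num) Q1026 (by norm_num [prm16]) (by norm_num) (by norm_num)
    (by norm_num) (by norm_num [prm16]) I98280 seg16_1

theorem I131040 : Inv 131040 lo131040 187392 := s16_1.1

theorem s16_2 : Cov prm16 131040 131100 :=
  seg_last (b := 1026) (by norm_num) (by norm_num) Q1026 (by norm_num [prm16]) (by norm_num)
    (by norm_num) (by norm_num) (by norm_num [prm16]) (by norm_num [prm16]) I131040 seg16_2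

theorem cov16 : Cov prm16 65520 131100 :=
  ((s16_0.2.trans s16_1.2).trans s16_2)

theorem c16 : Cell 16 := by
  refine cellB hA (j2 := 8) (j3 := 5) (p := prm16) cov16 (by norm_num) (by norm_num) (by norm_num)
    (by norm_num [prm16, DD]) (by norm_num) (by norm_num) (by norm_num) (by norm_num)
    (L := 391) (l2 := 6250) (l3 := 17678) (U := 391) rfl rfl rfl rfl (by norm_num) (by norm_num)
    (s0 := 256) (s1 := (362039 / 1000)) (tau := (40317 / 1000)) (sg := 309) (c3 := (50797 / 1000))
    (c5 := (10557 / 1000)) ?_ ?_ ?_ ?_ ?_ ?_ ?_ ?_ ?_ ?_ ?_ ?_ ?_ ?_ <;> norm_num [prm16]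

theorem s17_0 : Inv 174720 lo174720 250880 ∧ Cov prm17 131040 174720 :=
  seg (b := 1026) (by norm_num) (by norm_num) Q1026 (by norm_num [prm17]) (by norm_num) (by norm_num)
    (by norm_num) (by norm_num [prm17]) I131040 seg17_0

theorem I174720 : Inv 174720 lo174720 250880 := s17_0.1

theorem s17_1 : Inv 218400 lo218400 313344 ∧ Cov prm17 174720 218400 :=
  seg (b := 1026) (by norm_num) (by norm_num) Q1026 (by norm_num [prm17]) (by norm_num) (by norm_num)
    (by norm_num) (by norm_num [prm17]) I174720 seg17_1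

theorem I218400 : Inv 218400 lo218400 313344 := s17_1.1

theorem s17_2 : Inv 262080 lo262080 376832 ∧ Cov prm17 218400 262080 :=
  seg (b := 1026) (by norm_num) (by norm_num) Q1026 (by norm_num [prm17]) (by norm_num) (by norm_num)
    (by norm_num) (by norm_num [prm17]) I218400 seg17_2

theorem I262080 : Inv 262080 lo262080 376832 := s17_2.1

theorem s17_3 : Cov prm17 262080 262200 :=
  seg_last (b := 1026) (by norm_num) (by norm_num) Q1026 (by norm_num [prm17]) (by norm_num)
    (by norm_num) (by norm_num) (by norm_num [prm17]) (by norm_num [prm17]) I262080 seg17_3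

theorem cov17 : Cov prm17 131040 262200 :=
  (((s17_0.2.trans s17_1.2).trans s17_2.2).trans s17_3)

theorem c17 : Cell 17 := by
  refine cellB hA (j2 := 8) (j3 := 5) (p := prm17) cov17 (by norm_num) (by norm_num) (by norm_num)
    (by norm_num [prm17, DD]) (by norm_num) (by norm_num) (by norm_num) (by norm_num)
    (L := 277) (l2 := 6250) (l3 := 17678) (U := 277) rfl rfl rfl rfl (by norm_num) (by norm_num)
    (s0 := (181019 / 500)) (s1 := 512) (tau := (12699 / 250)) (sg := 437) (c3 := 64)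
    (c5 := (6063 / 500)) ?_ ?_ ?_ ?_ ?_ ?_ ?_ ?_ ?_ ?_ ?_ ?_ ?_ ?_ <;> norm_num [prm17]

theorem s18_0 : Inv 314520 lo314520 451584 ∧ Cov prm18 262080 314520 :=
  seg (b := 1026) (by norm_num) (by norm_num) Q1026 (by norm_num [prm18]) (by norm_num) (by norm_num)
    (by norm_num) (by norm_num [prm18]) I262080 seg18_0

theorem I314520 : Inv 314520 lo314520 451584 := s18_0.1

theorem s18_1 : Inv 366960 lo366960 528384 ∧ Cov prm18 314520 366960 :=
  seg (b := 1026) (by norm_num) (by norm_num) Q1026 (by norm_num [prm18]) (by norm_num) (by norm_num)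
    (by norm_num) (by norm_num [prm18]) I314520 seg18_1

theorem I366960 : Inv 366960 lo366960 528384 := s18_1.1

theorem s18_2 : Inv 419400 lo419400 603136 ∧ Cov prm18 366960 419400 :=
  seg (b := 1026) (by norm_num) (by norm_num) Q1026 (by norm_num [prm18]) (by norm_num) (by norm_num)
    (by norm_num) (by norm_num [prm18]) I366960 seg18_2

theorem I419400 : Inv 419400 lo419400 603136 := s18_2.1

theorem s18_3 : Inv 471840 lo471840 678912 ∧ Cov prm18 419400 471840 :=
  seg (b := 1026) (by norm_num) (by norm_num) Q1026 (by norm_num [prm18]) (by norm_num) (by norm_num)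
    (by norm_num) (by norm_num [prm18]) I419400 seg18_3

theorem I471840 : Inv 471840 lo471840 678912 := s18_3.1

theorem s18_4 : Inv 524280 lo524280 754688 ∧ Cov prm18 471840 524280 :=
  seg (b := 1026) (by norm_num) (by norm_num) Q1026 (by norm_num [prm18]) (by norm_num) (by norm_num)
    (by norm_num) (by norm_num [prm18]) I471840 seg18_4

theorem I524280 : Inv 524280 lo524280 754688 := s18_4.1

theorem s18_5 : Cov prm18 524280 524400 :=
  seg_last (b := 1026) (by norm_num) (by norm_num) Q1026 (by norm_num [prm18]) (by norm_num)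
    (by norm_num) (by norm_num) (by norm_num [prm18]) (by norm_num [prm18]) I524280 seg18_5

theorem cov18 : Cov prm18 262080 524400 :=
  (((((s18_0.2.trans s18_1.2).trans s18_2.2).trans s18_3.2).trans s18_4.2).trans s18_5)

theorem c18 : Cell 18 := by
  refine cellB hA (j2 := 9) (j3 := 6) (p := prm18) cov18 (by norm_num) (by norm_num) (by norm_num)
    (by norm_num [prm18, DD]) (by norm_num) (by norm_num) (by norm_num) (by norm_num)
    (L := 196) (l2 := 4420) (l3 := 12500) (U := 196) rfl rfl rfl rfl (by norm_num) (by norm_num)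
    (s0 := 512) (s1 := (362039 / 500)) (tau := (63999 / 1000)) (sg := 618) (c3 := (16127 / 200))
    (c5 := (13929 / 1000)) ?_ ?_ ?_ ?_ ?_ ?_ ?_ ?_ ?_ ?_ ?_ ?_ ?_ ?_ <;> norm_num [prm18]

theorem s19_0 : Inv 582480 lo582480 838656 ∧ Cov prm19 524280 582480 :=
  seg (b := 1026) (by norm_num) (by norm_num) Q1026 (by norm_num [prm19]) (by norm_num) (by norm_num)
    (by norm_num) (by norm_num [prm19]) I524280 seg19_0

theorem I582480 : Inv 582480 lo582480 838656 := s19_0.1

theorem s19_1 : Inv 640680 lo640680 922624 ∧ Cov prm19 582480 640680 :=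
  seg (b := 1026) (by norm_num) (by norm_num) Q1026 (by norm_num [prm19]) (by norm_num) (by norm_num)
    (by norm_num) (by norm_num [prm19]) I582480 seg19_1

theorem I640680 : Inv 640680 lo640680 922624 := s19_1.1

theorem s19_2 : Inv 698880 lo698880 1006592 ∧ Cov prm19 640680 698880 :=
  seg (b := 1026) (by norm_num) (by norm_num) Q1026 (by norm_num [prm19]) (by norm_num) (by norm_num)
    (by norm_num) (by norm_num [prm19]) I640680 seg19_2

theorem I698880 : Inv 698880 lo698880 1006592 := s19_2.1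

theorem s19_3 : Inv 757080 lo757080 1089536 ∧ Cov prm19 698880 757080 :=
  seg (b := 1026) (by norm_num) (by norm_num) Q1026 (by norm_num [prm19]) (by norm_num) (by norm_num)
    (by norm_num) (by norm_num [prm19]) I698880 seg19_3

theorem I757080 : Inv 757080 lo757080 1089536 := s19_3.1

theorem s19_4 : Inv 815280 lo815280 1174528 ∧ Cov prm19 757080 815280 :=
  seg (b := 1026) (by norm_num) (by norm_num) Q1026 (by norm_num [prm19]) (by norm_num) (by norm_num)
    (by norm_num) (by norm_num [prm19]) I757080 seg19_4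

theorem I815280 : Inv 815280 lo815280 1174528 := s19_4.1

theorem s19_5 : Inv 873480 lo873480 1258496 ∧ Cov prm19 815280 873480 :=
  seg (b := 1026) (by norm_num) (by norm_num) Q1026 (by norm_num [prm19]) (by norm_num) (by norm_num)
    (by norm_num) (by norm_num [prm19]) I815280 seg19_5

theorem I873480 : Inv 873480 lo873480 1258496 := s19_5.1

theorem s19_6 : Inv 931680 lo931680 1342464 ∧ Cov prm19 873480 931680 :=
  seg (b := 1026) (by norm_num) (by norm_num) Q1026 (by norm_num [prm19]) (by norm_num) (by norm_num)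
    (by norm_num) (by norm_num [prm19]) I873480 seg19_6

theorem I931680 : Inv 931680 lo931680 1342464 := s19_6.1

theorem s19_7 : Inv 989880 lo989880 1425408 ∧ Cov prm19 931680 989880 :=
  seg (b := 1026) (by norm_num) (by norm_num) Q1026 (by norm_num [prm19]) (by norm_num) (by norm_num)
    (by norm_num) (by norm_num [prm19]) I931680 seg19_7

theorem I989880 : Inv 989880 lo989880 1425408 := s19_7.1

theorem s19_8 : Inv 1048380 lo1048380 1510400 ∧ Cov prm19 989880 1048380 :=
  seg (b := 1026) (by norm_num) (by norm_num) Q1026 (by norm_num [prm19]) (by norm_num) (by norm_num)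
    (by norm_num) (by norm_num [prm19]) I989880 seg19_8

theorem I1048380 : Inv 1048380 lo1048380 1510400 := s19_8.1

theorem s19_9 : Cov prm19 1048380 1048680 :=
  seg_last (b := 1026) (by norm_num) (by norm_num) Q1026 (by norm_num [prm19]) (by norm_num)
    (by norm_num) (by norm_num) (by norm_num [prm19]) (by norm_num [prm19]) I1048380 seg19_9

theorem cov19 : Cov prm19 524280 1048680 :=
  (((((((((s19_0.2.trans s19_1.2).trans s19_2.2).trans s19_3.2).trans s19_4.2).trans s19_5.2).trans s19_6.2).trans s19_7.2).trans s19_8.2).trans s19_9)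

theorem c19 : Cell 19 := by
  refine cellB hA (j2 := 9) (j3 := 6) (p := prm19) cov19 (by norm_num) (by norm_num) (by norm_num)
    (by norm_num [prm19, DD]) (by norm_num) (by norm_num) (by norm_num) (by norm_num)
    (L := 139) (l2 := 4420) (l3 := 12500) (U := 139) rfl rfl rfl rfl (by norm_num) (by norm_num)
    (s0 := (724077 / 1000)) (s1 := 1024) (tau := (40317 / 500)) (sg := 874) (c3 := (50797 / 500))
    (c5 := (16001 / 1000)) ?_ ?_ ?_ ?_ ?_ ?_ ?_ ?_ ?_ ?_ ?_ ?_ ?_ ?_ <;> norm_num [prm19]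

end PsiNum

open PsiNum in
/-- Explicit bounds for the Chebyshev function in the dyadic cells below `2 ^ 20`. -/
theorem psi_num (j : ℕ) (hj : j < 20) (y : ℝ) (h1 : (2 : ℝ) ^ j ≤ y) (h2 : y < 2 ^ (j + 1)) :
    (1 - (lT j : ℝ) / 100000) * y ≤ Chebyshev.psi y ∧
      Chebyshev.psi y ≤ (1 + (uT j : ℝ) / 100000) * y := by
  have h : Cell j := by
    rcases Nat.lt_or_ge j 12 with h | h
    · exact hA j h
    · interval_cases j
      · exact c12
      · exact c13
      · exact c14
      · exact c15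
      · exact c16
      · exact c17
      · exact c18
      · exact c19
  exact h y h1 h2

end KB
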