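import Pool.Agent.Helper77.KB.PsiRec
import Pool.Agent.Helper77.KB.PsiNum

/-! Explicit bounds for `psi` and `theta`. -/

set_option autoImplicit false

open Finset ArithmeticFunction

namespace KB

theorem cell_all (j : ℕ) : Cell j := by
  apply all_cells
  intro j hj x h1 h2
  have h := psi_num j hj x h1 h2
  unfold UV LV
  rw [if_pos hj, if_pos hj]
  exact h

theorem UV_le (j : ℕ) : UV j ≤ 4000 := by
  rcases Nat.lt_or_ge j 39 with h | h
  · revert j; decide +kernel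
  · rw [UV_large h]; norm_num

theorem exists_cell {x : ℝ} (hx : 1 ≤ x) : ∃ j : ℕ, (2 : ℝ) ^ j ≤ x ∧ x < 2 ^ (j + 1) := by
  have h1 : 1 ≤ ⌊x⌋₊ := Nat.le_floor (by exact_mod_cast hx)
  refine ⟨Nat.log 2 ⌊x⌋₊, ?_, ?_⟩
  · have h2 := Nat.pow_log_le_self 2 (show ⌊x⌋₊ ≠ 0 by omega)
    have h3 : ((2 ^ Nat.log 2 ⌊x⌋₊ : ℕ) : ℝ) ≤ x := (Nat.le_floor_iff (by linarith)).mp h2
    push_cast at h3
    exact h3
  · have h2 := Nat.lt_pow_succ_log_self (show 1 < 2 by norm_num) ⌊x⌋₊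
    have h3 : x < ((2 ^ (Nat.log 2 ⌊x⌋₊ + 1) : ℕ) : ℝ) := (Nat.floor_lt (by linarith)).mp h2
    push_cast at h3
    exact h3

theorem psi_le_uniform {x : ℝ} (hx : 1 ≤ x) : Chebyshev.psi x ≤ 1.04 * x := by
  obtain ⟨j, h1, h2⟩ := exists_cell hx
  refine (cell_all j x h1 h2).2.trans (mul_le_mul_of_nonneg_right ?_ (by linarith))
  have : (UV j : ℝ) ≤ 4000 := by exact_mod_cast UV_le j
  norm_num
  linarith

theorem psi_theta {x : ℝ} (hx : (2 : ℝ) ^ 24 ≤ x) :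
    Chebyshev.psi x - 1.13 * Real.sqrt x ≤ Chebyshev.theta x := by
  have hx0 : 0 < x := lt_of_lt_of_le (by positivity) hx
  have hx1 : 1 ≤ x := le_trans (by norm_num) hx
  have h := Chebyshev.psi_sub_theta_le_psi_add_psi_add_psi x
  have e2 : x ^ (2 : ℝ)⁻¹ = Real.sqrt x := by
    rw [Real.sqrt_eq_rpow]; norm_num
  have p2 := psi_le_uniform (x := x ^ (2 : ℝ)⁻¹) (Real.one_le_rpow hx1 (by norm_num))
  have p3 := psi_le_uniform (x := x ^ (3 : ℝ)⁻¹) (Real.one_le_rpow hx1 (by norm_num))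
  have p5 := psi_le_uniform (x := x ^ (5 : ℝ)⁻¹) (Real.one_le_rpow hx1 (by norm_num))
  have b3 : 16 * x ^ (3 : ℝ)⁻¹ ≤ Real.sqrt x := by
    rw [Real.sqrt_eq_rpow, show (1 : ℝ) / 2 = 1 / 6 + (3 : ℝ)⁻¹ by norm_num, Real.rpow_add hx0]
    apply mul_le_mul_of_nonneg_right _ (by positivity)
    have : ((2 : ℝ) ^ 24) ^ ((1 : ℝ) / 6) ≤ x ^ ((1 : ℝ) / 6) :=
      Real.rpow_le_rpow (by positivity) hx (by norm_num)
    rw [← Real.rpow_natCast, ← Real.rpow_mul (by norm_num)] at this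
    norm_num at this
    norm_num
    linarith
  have b5 : 64 * x ^ (5 : ℝ)⁻¹ ≤ Real.sqrt x := by
    rw [Real.sqrt_eq_rpow, show (1 : ℝ) / 2 = 3 / 10 + (5 : ℝ)⁻¹ by norm_num, Real.rpow_add hx0]
    apply mul_le_mul_of_nonneg_right _ (by positivity)
    have h20 : (2 : ℝ) ^ 20 ≤ x := le_trans (by norm_num) hx
    have : ((2 : ℝ) ^ 20) ^ ((3 : ℝ) / 10) ≤ x ^ ((3 : ℝ) / 10) :=
      Real.rpow_le_rpow (by positivity) h20 (by norm_num)
    rw [← Real.rpow_natCast, ← Real.rpow_mul (by norm_num)] at this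
    norm_num at this
    linarith
  rw [e2] at h p2
  norm_num at *
  have := Real.sqrt_nonneg x
  linarith

end KB
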