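import Pool.Agent.Helper77.KB.Defs

/-!
# MP_f758a3_nt: arithmetic of the denominators `aden`

* `ne_of_wit`: a prime `p > sqrt n` with digit sum of `n` at least `p`, not dividing `n + 1`,
  excludes `n`
* `small_cases`: the equation for `n ≤ 1080`
-/

set_option autoImplicit false

open Finset

namespace KB

namespace Arith

/-! ### the coefficients -/

theorem coeff_pos {n k : ℕ} (hk : 1 ≤ k) (hkn : k ≤ n) :
    (Polynomial.bernoulli n - Polynomial.C (bernoulli n)).coeff k =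
      bernoulli (n - k) * (n.choose (n - k) : ℚ) := by
  rw [Polynomial.coeff_sub, Polynomial.coeff_bernoulli, Polynomial.coeff_C, if_pos hkn,
    if_neg (by omega), sub_zero, Nat.choose_symm hkn]

theorem coeff_nil (n : ℕ) :
    (Polynomial.bernoulli n - Polynomial.C (bernoulli n)).coeff 0 = 0 := by
  rw [Polynomial.coeff_sub, Polynomial.coeff_bernoulli, Polynomial.coeff_C, if_pos (Nat.zero_le _),
    if_pos rfl]
  simp

/-- the denominators which occur -/
theorem den_cases {n k : ℕ} (hk : k < n + 1) :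
    ((Polynomial.bernoulli n - Polynomial.C (bernoulli n)).coeff k).den = 1 ∨
      ∃ m, m < n ∧ ((Polynomial.bernoulli n - Polynomial.C (bernoulli n)).coeff k).den =
        (bernoulli m * (n.choose m : ℚ)).den := by
  rcases Nat.eq_zero_or_pos k with h | h
  · left
    rw [h, coeff_nil]
    rfl
  · right
    exact ⟨n - k, by omega, by rw [coeff_pos h (by omega)]⟩

theorem dvd_aden {n m : ℕ} (hm : m < n) : (bernoulli m * (n.choose m : ℚ)).den ∣ aden (n - 1) := by
  have h1 : n - 1 + 1 = n := by omega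
  unfold aden
  rw [h1]
  have h2 : n - m ∈ range (n - 1 + 2) := by
    rw [mem_range]
    omega
  have h3 := Finset.dvd_lcm (f := fun k =>
    ((Polynomial.bernoulli n - Polynomial.C (bernoulli n)).coeff k).den) h2
  rw [coeff_pos (by omega) (by omega), Nat.sub_sub_self hm.le] at h3
  exact h3

theorem aden_dvd {n N : ℕ} (hn : 1 ≤ n)
    (h : ∀ m, m < n → (bernoulli m * (n.choose m : ℚ)).den ∣ N) : aden (n - 1) ∣ N := by
  have h1 : n - 1 + 1 = n := by omega
  unfold aden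
  rw [h1]
  apply Finset.lcm_dvd
  intro k hk
  rw [mem_range] at hk
  rcases den_cases (n := n) (k := k) (by omega) with h2 | ⟨m, hm, h2⟩
  · rw [h2]
    exact one_dvd _
  · rw [h2]
    exact h m hm

theorem aden_ne_zero {n : ℕ} (hn : 1 ≤ n) : aden (n - 1) ≠ 0 := by
  intro h
  have h1 : aden (n - 1) ∣ ∏ m ∈ range n, (bernoulli m * (n.choose m : ℚ)).den := by
    apply aden_dvd hn
    intro m hm
    exact Finset.dvd_prod_of_mem (fun m => (bernoulli m * (n.choose m : ℚ)).den)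
      (mem_range.mpr hm)
  rw [h, zero_dvd_iff, Finset.prod_eq_zero_iff] at h1
  obtain ⟨m, _, h2⟩ := h1
  exact Rat.den_ne_zero _ h2

theorem prime_dvd_aden {n p : ℕ} (hn : 1 ≤ n) (hp : p.Prime) :
    p ∣ aden (n - 1) ↔ ∃ m, m < n ∧ p ∣ (bernoulli m * (n.choose m : ℚ)).den := by
  constructor
  · intro h
    have h1 : aden (n - 1) ∣ ∏ m ∈ range n, (bernoulli m * (n.choose m : ℚ)).den := by
      apply aden_dvd hn
      intro m hm
      exact Finset.dvd_prod_of_mem (fun m => (bernoulli m * (n.choose m : ℚ)).den)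
        (mem_range.mpr hm)
    obtain ⟨m, hm, h2⟩ := (Prime.dvd_finsetProd_iff hp.prime _).mp (h.trans h1)
    exact ⟨m, mem_range.mp hm, h2⟩
  · rintro ⟨m, hm, h⟩
    exact h.trans (dvd_aden hm)

/-! ### von Staudt - Clausen -/

theorem one_div_den {q : ℕ} (hq : q ≠ 0) : ((1 : ℚ) / q).den = q := by
  simp [hq]

theorem decomp {p k : ℕ} (hp : p.Prime) (hk : 0 < k) :
    ∃ y : ℚ, ¬ p ∣ y.den ∧
      bernoulli (2 * k) = y - (if (p - 1) ∣ 2 * k then (1 : ℚ) / p else 0) := by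
  classical
  obtain ⟨T, hT⟩ := Bernoulli.vonStaudt_clausen k
  set S := (range (2 * k + 2)).filter fun q => q.Prime ∧ (q - 1) ∣ 2 * k with hS
  set r : ℚ := ∑ q ∈ S.erase p, (1 : ℚ) / q with hr
  refine ⟨T - r, ?_, ?_⟩
  · intro h
    have h1 : ((T : ℚ) - r).den ∣ ∏ q ∈ S.erase p, ((1 : ℚ) / q).den := by
      have h2 := Rat.sub_den_dvd (T : ℚ) r
      rw [Rat.den_intCast, one_mul] at h2
      exact h2.trans (Rat.den_sum_dvd_prod_den _ _)
    obtain ⟨q, hq, h2⟩ := (Prime.dvd_finsetProd_iff hp.prime _).mp (h.trans h1)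
    rw [mem_erase, hS, mem_filter] at hq
    rw [one_div_den hq.2.2.1.ne_zero] at h2
    exact hq.1 ((Nat.prime_dvd_prime_iff_eq hp hq.2.2.1).mp h2).symm
  · by_cases hd : (p - 1) ∣ 2 * k
    · rw [if_pos hd]
      have hpS : p ∈ S := by
        rw [hS, mem_filter, mem_range]
        refine ⟨?_, hp, hd⟩
        have := Nat.le_of_dvd (by omega) hd
        omega
      have h1 := Finset.add_sum_erase S (fun q : ℕ => (1 : ℚ) / q) hpS
      rw [← h1] at hT
      rw [hT]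
      ring
    · rw [if_neg hd]
      have hpS : p ∉ S := by
        rw [hS, mem_filter]
        exact fun h => hd h.2.2
      rw [hT, hr, Finset.erase_eq_of_notMem hpS]
      ring

theorem den_dvd_iff {p k c : ℕ} (hp : p.Prime) (hk : 0 < k) :
    p ∣ (bernoulli (2 * k) * (c : ℚ)).den ↔ (p - 1) ∣ 2 * k ∧ ¬ p ∣ c := by
  have : Fact p.Prime := ⟨hp⟩
  obtain ⟨y, hy, hb⟩ := decomp hp hk
  have hy' : Rat.padicValuation p y ≤ 1 := Rat.padicValuation_le_one_iff.mpr hy
  have hc : Rat.padicValuation p (c : ℚ) ≤ 1 := by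
    have := Int.padicValuation_le_one p (c : ℤ)
    rw [← Rat.padicValuation_cast] at this
    simpa using this
  rw [← not_iff_not, ← Rat.padicValuation_le_one_iff, hb]
  by_cases hd : (p - 1) ∣ 2 * k
  · rw [if_pos hd]
    constructor
    · intro h hcon
      have hpc := hcon.2
      have h1 : Rat.padicValuation p (c : ℚ) = 1 := by
        have := (Int.padicValuation_eq_one_iff (p := p) (x := (c : ℤ))).mpr (by
          rw [Int.natCast_dvd_natCast]
          exact hpc)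
        rw [← Rat.padicValuation_cast] at this
        simpa using this
      rw [map_mul, h1, mul_one] at h
      have h2 : Rat.padicValuation p (y - (y - (1 : ℚ) / p)) ≤ 1 :=
        (Rat.padicValuation p).map_sub_le hy' h
      rw [sub_sub_cancel, Rat.padicValuation_le_one_iff, one_div_den hp.ne_zero] at h2
      exact h2 dvd_rfl
    · intro h
      have hpc : p ∣ c := by
        by_contra hcon
        exact h ⟨hd, hcon⟩
      obtain ⟨c', rfl⟩ := hpc
      have h1 : (y - (1 : ℚ) / p) * ((p * c' : ℕ) : ℚ) = y * ((p * c' : ℕ) : ℚ) - (c' : ℚ) := by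
        have : (p : ℚ) ≠ 0 := by exact_mod_cast hp.ne_zero
        push_cast
        field_simp
      rw [h1]
      apply (Rat.padicValuation p).map_sub_le
      · rw [map_mul]
        exact mul_le_one' hy' hc
      · have := Int.padicValuation_le_one p (c' : ℤ)
        rw [← Rat.padicValuation_cast] at this
        simpa using this
  · rw [if_neg hd, sub_zero]
    constructor
    · intro _ hcon
      exact hd hcon.1
    · intro _
      rw [map_mul]
      exact mul_le_one' hy' hc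

theorem bern_den_squarefree {k : ℕ} (c : ℕ) : Squarefree (bernoulli (2 * k) * (c : ℚ)).den := by
  classical
  obtain ⟨T, hT⟩ := Bernoulli.vonStaudt_clausen k
  set S := (range (2 * k + 2)).filter fun q => q.Prime ∧ (q - 1) ∣ 2 * k with hS
  have h1 : bernoulli (2 * k) = T - ∑ q ∈ S, (1 : ℚ) / q := by
    rw [hT]
    ring
  have h2 : (bernoulli (2 * k)).den ∣ ∏ q ∈ S, q := by
    rw [h1]
    have h3 := Rat.sub_den_dvd (T : ℚ) (∑ q ∈ S, (1 : ℚ) / q)
    rw [Rat.den_intCast, one_mul] at h3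
    refine h3.trans ((Rat.den_sum_dvd_prod_den _ _).trans ?_)
    apply dvd_of_eq
    apply Finset.prod_congr rfl
    intro q hq
    rw [hS, mem_filter] at hq
    exact one_div_den hq.2.1.ne_zero
  have h3 := Rat.mul_den_dvd (bernoulli (2 * k)) (c : ℚ)
  rw [Rat.den_natCast, mul_one] at h3
  refine Squarefree.squarefree_of_dvd (h3.trans h2) ?_
  apply Finset.squarefree_prod_of_pairwise_isCoprime
  · intro a ha b hb hab
    rw [mem_coe, hS, mem_filter] at ha hb
    exact Nat.coprime_iff_isRelPrime.mp ((Nat.coprime_primes ha.2.1 hb.2.1).mpr hab)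
  · intro q hq
    rw [hS, mem_filter] at hq
    exact hq.2.1.prime.squarefree

/-! ### `aden` is squarefree -/

theorem den_squarefree (m c : ℕ) : Squarefree (bernoulli m * (c : ℚ)).den := by
  rcases Nat.even_or_odd m with ⟨k, hk⟩ | hodd
  · have : m = 2 * k := by omega
    rw [this]
    exact bern_den_squarefree c
  · rcases Nat.lt_or_ge 1 m with h | h
    · rw [bernoulli_eq_zero_of_odd hodd h, zero_mul]
      exact squarefree_one
    · have hm : m = 1 := by
        rcases hodd with ⟨t, ht⟩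
        omega
      rw [hm, bernoulli_one]
      have h3 := Rat.mul_den_dvd (-1 / 2 : ℚ) (c : ℚ)
      rw [Rat.den_natCast, mul_one] at h3
      have h4 : (-1 / 2 : ℚ).den = 2 := by norm_num
      rw [h4] at h3
      exact Squarefree.squarefree_of_dvd h3 Nat.prime_two.prime.squarefree

theorem rad_squarefree (N : ℕ) : Squarefree (∏ p ∈ N.primeFactors, p) := by
  apply Finset.squarefree_prod_of_pairwise_isCoprime
  · intro a ha b hb hab
    rw [mem_coe, Nat.mem_primeFactors] at ha hb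
    exact Nat.coprime_iff_isRelPrime.mp ((Nat.coprime_primes ha.1 hb.1).mpr hab)
  · intro q hq
    rw [Nat.mem_primeFactors] at hq
    exact hq.1.prime.squarefree

theorem aden_squarefree {n : ℕ} (hn : 1 ≤ n) : Squarefree (aden (n - 1)) := by
  refine Squarefree.squarefree_of_dvd ?_ (rad_squarefree (aden (n - 1)))
  apply aden_dvd hn
  intro m hm
  rw [← Nat.prod_primeFactors_of_squarefree (den_squarefree m (n.choose m))]
  apply Finset.prod_dvd_prod_of_subset
  exact Nat.primeFactors_mono (dvd_aden hm) (aden_ne_zero hn)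

theorem prime_dvd_rad {N p : ℕ} (hN : N ≠ 0) (hp : p.Prime) : p ∣ rad N ↔ p ∣ N := by
  unfold rad
  constructor
  · intro h
    exact h.trans (Nat.prod_primeFactors_dvd N)
  · intro h
    exact Finset.dvd_prod_of_mem (fun p => p) (Nat.mem_primeFactors.mpr ⟨hp, h, hN⟩)

theorem eq_of_primes {n : ℕ} (hn : 1 ≤ n)
    (h : ∀ p, p.Prime → (p ∣ aden (n - 1) ↔ p ∣ n + 1)) : aden (n - 1) = rad (n + 1) := by
  rw [← Nat.prod_primeFactors_of_squarefree (aden_squarefree hn)]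
  unfold rad
  congr 1
  ext p
  rw [Nat.mem_primeFactors, Nat.mem_primeFactors]
  constructor
  · rintro ⟨h1, h2, _⟩
    exact ⟨h1, (h p h1).mp h2, by omega⟩
  · rintro ⟨h1, h2, _⟩
    exact ⟨h1, (h p h1).mpr h2, aden_ne_zero hn⟩

/-! ### Lucas -/

/-- all digits of `m` in base `p` are at most those of `n` (at most `f` digits) -/
def nz : ℕ → ℕ → ℕ → ℕ → Bool
  | 0, _, _, m => m == 0
  | f + 1, p, n, m => m == 0 || (decide (m % p ≤ n % p) && nz f p (n / p) (m / p))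

theorem small_choose {p a b : ℕ} (hp : p.Prime) (ha : a < p) : ¬ p ∣ a.choose b ↔ b ≤ a := by
  constructor
  · intro h
    by_contra hcon
    apply h
    rw [Nat.choose_eq_zero_of_lt (by omega)]
    exact dvd_zero _
  · intro h hd
    have h1 := Nat.choose_mul_factorial_mul_factorial h
    have h2 : p ∣ a.factorial := by
      rw [← h1, mul_assoc]
      exact hd.mul_right _
    rw [hp.dvd_factorial] at h2
    omega

theorem lucas_iff {p n m : ℕ} (hp : p.Prime) :
    ¬ p ∣ n.choose m ↔ m % p ≤ n % p ∧ ¬ p ∣ (n / p).choose (m / p) := by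
  have : Fact p.Prime := ⟨hp⟩
  have h1 := (Choose.choose_modEq_choose_mod_mul_choose_div_nat (n := n) (k := m) (p := p)).dvd_iff
    (dvd_refl p)
  rw [h1, hp.dvd_mul, not_or, small_choose hp (Nat.mod_lt _ hp.pos)]

theorem nz_iff {p : ℕ} (hp : p.Prime) (f : ℕ) : ∀ n m, m < 2 ^ f →
    (nz f p n m = true ↔ ¬ p ∣ n.choose m) := by
  induction f with
  | zero =>
    intro n m hm
    have : m = 0 := by omega
    subst this
    simp [nz, hp.one_lt.ne']
  | succ f ih =>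
    intro n m hm
    rcases Nat.eq_zero_or_pos m with h | h
    · subst h
      simp [nz, hp.one_lt.ne']
    · have h1 : m / p < 2 ^ f := by
        apply Nat.div_lt_of_lt_mul
        rw [pow_succ] at hm
        have := hp.two_le
        nlinarith [Nat.pow_pos (n := f) (show 0 < 2 by norm_num)]
      have h2 : (m == 0) = false := by
        rw [beq_eq_false_iff_ne]
        omega
      rw [nz, h2, Bool.false_or, Bool.and_eq_true, decide_eq_true_iff, ih _ _ h1,
        ← lucas_iff (n := n) (m := m) hp]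

end Arith

open Arith in
theorem ne_of_wit {n p : ℕ} (h : Wit n p) : aden (n - 1) ≠ rad (n + 1) := by
  obtain ⟨hp, hn, hs, hd⟩ := h
  have hp2 := hp.two_le
  intro heq
  apply hd
  rw [← prime_dvd_rad (by omega) hp, ← heq]
  -- `n = a p + b`
  set a := n / p with ha
  set b := n % p with hb
  have hab : p * a + b = n := Nat.div_add_mod n p
  have hbp : b < p := Nat.mod_lt _ hp.pos
  have hap : a < p := Nat.div_lt_of_lt_mul hn
  have hp3 : p ≠ 2 := by
    rintro rfl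
    have h1 : a ≤ 1 := by omega
    have h2 : b ≤ 1 := by omega
    have h3 : a = 1 := by omega
    have h4 : b = 1 := by omega
    apply hd
    rw [← hab, h3, h4]
    norm_num
  have hodd : Odd p := hp.odd_of_ne_two hp3
  -- `m = (p - 1) (p - b) = (p - 1 - b) p + b`
  obtain ⟨t, ht⟩ : ∃ t, p = b + 1 + t := ⟨p - (b + 1), by omega⟩
  have hta : t < a := by omega
  have hm1 : p * t + b = (p - 1) * (t + 1) := by
    have h1 : p = (p - 1) + 1 := by omega
    have h2 : p - 1 = b + t := by omega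
    calc p * t + b = ((p - 1) + 1) * t + b := by rw [← h1]
      _ = (p - 1) * t + (b + t) := by ring
      _ = (p - 1) * t + (p - 1) := by rw [h2]
      _ = (p - 1) * (t + 1) := by ring
  have hmn : p * t + b < n := by
    rw [← hab]
    have := Nat.mul_lt_mul_of_pos_left hta hp.pos
    omega
  have heven : Even (p - 1) := by
    obtain ⟨s, hs⟩ := hodd
    exact ⟨s, by omega⟩
  obtain ⟨s, hs'⟩ := heven
  have hk : p * t + b = 2 * (s * (t + 1)) := by
    rw [hm1, hs']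
    ring
  have hk0 : 0 < s * (t + 1) := by
    have : 0 < s := by omega
    positivity
  rw [prime_dvd_aden (by omega) hp]
  refine ⟨p * t + b, hmn, ?_⟩
  rw [hk, den_dvd_iff hp hk0, ← hk]
  refine ⟨?_, ?_⟩
  · rw [hm1]
    exact dvd_mul_right _ _
  · rw [lucas_iff hp, ← ha, ← hb]
    have h1 : (p * t + b) % p = b := by
      rw [Nat.mul_add_mod]
      exact Nat.mod_eq_of_lt hbp
    have h2 : (p * t + b) / p = t := by
      rw [Nat.mul_add_div hp.pos, Nat.div_eq_of_lt hbp, add_zero]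
    rw [h1, h2]
    exact ⟨le_rfl, (small_choose hp hap).mpr hta.le⟩

namespace Arith

/-- `(p, m)` witnesses that `n` is not a solution -/
def good (n p m : ℕ) : Bool :=
  decide (1 < m) && (m % 2 == 0) && decide (m < n) && (m % (p - 1) == 0) && nz 11 p n m &&
    !((n + 1) % p == 0)

theorem ne_of_good {n p m : ℕ} (hn : n ≤ 1080) (hp : p.Prime) (h : good n p m = true) :
    aden (n - 1) ≠ rad (n + 1) := by
  unfold good at h
  simp only [Bool.and_eq_true, decide_eq_true_eq, beq_iff_eq, Bool.not_eq_true',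
    beq_eq_false_iff_ne] at h
  obtain ⟨⟨⟨⟨⟨h1, h2⟩, h3⟩, h4⟩, h5⟩, h6⟩ := h
  rw [nz_iff hp 11 n m (by omega)] at h5
  intro heq
  have hd : ¬ p ∣ n + 1 := fun h => h6 (Nat.mod_eq_zero_of_dvd h)
  apply hd
  rw [← prime_dvd_rad (by omega) hp, ← heq, prime_dvd_aden (by omega) hp]
  refine ⟨m, h3, ?_⟩
  obtain ⟨k, hk⟩ : ∃ k, m = 2 * k := ⟨m / 2, by omega⟩
  subst hk
  rw [den_dvd_iff hp (by omega)]
  exact ⟨Nat.dvd_of_mod_eq_zero h4, h5⟩

/-- witnesses `(n, p, m)` -/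
def W : List (ℕ × ℕ × ℕ) := [
  (6, 2, 2), (7, 3, 4), (10, 2, 2), (12, 2, 4), (13, 3, 4), (14, 2, 2), (15, 3, 6), (16, 3, 4),
  (17, 5, 12), (18, 2, 2), (19, 3, 10), (20, 2, 4), (21, 3, 12), (22, 2, 2), (23, 5, 8),
  (24, 2, 8), (25, 3, 4), (26, 2, 2), (28, 2, 4), (30, 2, 2), (31, 3, 4), (32, 7, 18),
  (33, 3, 6), (34, 2, 2), (36, 2, 4), (37, 3, 10), (38, 2, 2), (39, 3, 12), (40, 2, 8),
  (41, 5, 16), (42, 2, 2), (43, 3, 4), (44, 2, 4), (45, 3, 18), (46, 2, 2), (47, 5, 12),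
  (48, 2, 16), (49, 3, 4), (50, 2, 2), (51, 3, 6), (52, 2, 4), (53, 5, 28), (54, 2, 2),
  (55, 3, 28), (56, 2, 8), (57, 3, 30), (58, 2, 2), (60, 2, 4), (61, 3, 4), (62, 2, 2),
  (63, 3, 36), (64, 3, 10), (65, 5, 40), (66, 2, 2), (67, 3, 4), (68, 2, 4), (69, 3, 6),
  (70, 2, 2), (71, 5, 16), (72, 2, 8), (73, 3, 10), (74, 2, 2), (75, 3, 12), (76, 2, 4),
  (77, 5, 52), (78, 2, 2), (79, 3, 4), (80, 2, 16), (81, 5, 56), (82, 2, 2), (83, 5, 8),
  (84, 2, 4), (85, 3, 4), (86, 2, 2), (87, 3, 6), (88, 2, 8), (89, 7, 12), (90, 2, 2),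
  (91, 3, 10), (92, 2, 4), (93, 3, 12), (94, 2, 2), (95, 5, 20), (96, 2, 32), (97, 3, 4),
  (98, 2, 2), (99, 3, 18), (100, 2, 4), (101, 5, 76), (102, 2, 2), (103, 3, 4), (104, 2, 8),
  (105, 3, 6), (106, 2, 2), (107, 5, 32), (108, 2, 4), (109, 3, 28), (110, 2, 2), (111, 3, 30),
  (112, 2, 16), (113, 5, 8), (114, 2, 2), (115, 3, 4), (116, 2, 4), (117, 3, 36), (118, 2, 2),
  (119, 11, 20), (120, 2, 8), (121, 3, 4), (122, 2, 2), (123, 3, 6), (124, 2, 4), (125, 13, 60),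
  (126, 2, 2), (127, 3, 10), (128, 7, 30), (129, 3, 12), (130, 2, 2), (131, 7, 12), (132, 2, 4),
  (133, 3, 4), (134, 2, 2), (135, 3, 54), (136, 2, 8), (137, 5, 12), (138, 2, 2), (139, 3, 4),
  (140, 2, 4), (141, 3, 6), (142, 2, 2), (143, 5, 8), (144, 2, 16), (145, 3, 10), (146, 2, 2),
  (147, 3, 12), (148, 2, 4), (149, 13, 84), (150, 2, 2), (151, 3, 4), (152, 2, 8), (153, 3, 18),
  (154, 2, 2), (155, 23, 132), (156, 2, 4), (157, 3, 4), (158, 2, 2), (159, 3, 6), (160, 2, 32),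
  (161, 5, 36), (162, 2, 2), (163, 3, 82), (164, 2, 4), (165, 3, 84), (166, 2, 2), (167, 5, 12),
  (168, 2, 8), (169, 3, 4), (170, 2, 2), (171, 3, 90), (172, 2, 4), (173, 5, 8), (174, 2, 2),
  (175, 3, 4), (176, 2, 16), (177, 3, 6), (178, 2, 2), (179, 7, 18), (180, 2, 4), (181, 3, 10),
  (182, 2, 2), (183, 3, 12), (184, 2, 8), (185, 5, 60), (186, 2, 2), (187, 3, 4), (188, 2, 4),
  (189, 3, 108), (190, 2, 2), (191, 5, 16), (192, 2, 64), (193, 3, 4), (194, 2, 2), (195, 3, 6),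
  (196, 2, 4), (197, 5, 12), (198, 2, 2), (199, 3, 10), (200, 2, 8), (201, 3, 12), (202, 2, 2),
  (203, 5, 28), (204, 2, 4), (205, 3, 4), (206, 2, 2), (207, 3, 18), (208, 2, 16),
  (209, 17, 192), (210, 2, 2), (211, 3, 4), (212, 2, 4), (213, 3, 6), (214, 2, 2), (215, 5, 40),
  (216, 2, 8), (217, 3, 28), (218, 2, 2), (219, 3, 30), (220, 2, 4), (221, 5, 16), (222, 2, 2),
  (223, 3, 4), (224, 2, 32), (225, 3, 36), (226, 2, 2), (227, 5, 52), (228, 2, 4), (229, 3, 4),
  (230, 2, 2), (231, 3, 6), (232, 2, 8), (233, 5, 8), (234, 2, 2), (235, 3, 10), (236, 2, 4),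
  (237, 3, 12), (238, 2, 2), (239, 7, 36), (240, 2, 16), (241, 3, 4), (242, 2, 2), (243, 5, 8),
  (244, 2, 4), (245, 5, 20), (246, 2, 2), (247, 3, 4), (248, 2, 8), (249, 3, 6), (250, 2, 2),
  (251, 11, 130), (252, 2, 4), (253, 3, 10), (254, 2, 2), (255, 3, 12), (256, 3, 4),
  (257, 5, 132), (258, 2, 2), (259, 3, 4), (260, 2, 4), (261, 3, 18), (262, 2, 2), (263, 5, 8),
  (264, 2, 8), (265, 3, 4), (266, 2, 2), (267, 3, 6), (268, 2, 4), (269, 7, 24), (270, 2, 2),
  (271, 3, 28), (272, 2, 16), (273, 3, 30), (274, 2, 2), (275, 7, 30), (276, 2, 4), (277, 3, 4),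
  (278, 2, 2), (279, 3, 36), (280, 2, 8), (281, 5, 156), (282, 2, 2), (283, 3, 4), (284, 2, 4),
  (285, 3, 6), (286, 2, 2), (287, 5, 12), (288, 2, 32), (289, 3, 10), (290, 2, 2), (291, 3, 12),
  (292, 2, 4), (293, 5, 8), (294, 2, 2), (295, 3, 4), (296, 2, 8), (297, 3, 54), (298, 2, 2),
  (299, 7, 54), (300, 2, 4), (301, 3, 4), (302, 2, 2), (303, 3, 6), (304, 2, 16), (305, 5, 180),
  (306, 2, 2), (307, 3, 10), (308, 2, 4), (309, 3, 12), (310, 2, 2), (311, 5, 36), (312, 2, 8),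
  (313, 3, 4), (314, 2, 2), (315, 3, 18), (316, 2, 4), (317, 5, 12), (318, 2, 2), (319, 3, 4),
  (320, 2, 64), (321, 3, 6), (322, 2, 2), (323, 5, 8), (324, 2, 4), (325, 3, 82), (326, 2, 2),
  (327, 3, 84), (328, 2, 8), (329, 7, 84), (330, 2, 2), (331, 3, 4), (332, 2, 4), (333, 3, 90),
  (334, 2, 2), (335, 5, 60), (336, 2, 16), (337, 3, 4), (338, 2, 2), (339, 3, 6), (340, 2, 4),
  (341, 5, 16), (342, 2, 2), (343, 3, 10), (344, 2, 8), (345, 3, 12), (346, 2, 2), (347, 5, 12),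
  (348, 2, 4), (349, 3, 4), (350, 2, 2), (351, 3, 108), (352, 2, 32), (353, 5, 28), (354, 2, 2),
  (355, 3, 4), (356, 2, 4), (357, 3, 6), (358, 2, 2), (359, 11, 40), (360, 2, 8), (361, 3, 10),
  (362, 2, 2), (363, 3, 12), (364, 2, 4), (365, 5, 40), (366, 2, 2), (367, 3, 4), (368, 2, 16),
  (369, 3, 18), (370, 2, 2), (371, 5, 16), (372, 2, 4), (373, 3, 4), (374, 2, 2), (375, 3, 6),
  (376, 2, 8), (377, 5, 252), (378, 2, 2), (379, 3, 28), (380, 2, 4), (381, 3, 30), (382, 2, 2),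
  (383, 5, 8), (384, 2, 128), (385, 3, 4), (386, 2, 2), (387, 3, 36), (388, 2, 4), (389, 7, 18),
  (390, 2, 2), (391, 3, 4), (392, 2, 8), (393, 3, 6), (394, 2, 2), (395, 5, 20), (396, 2, 4),
  (397, 3, 10), (398, 2, 2), (399, 3, 12), (400, 2, 16), (401, 5, 276), (402, 2, 2), (403, 3, 4),
  (404, 2, 4), (405, 3, 162), (406, 2, 2), (407, 5, 32), (408, 2, 8), (409, 3, 4), (410, 2, 2),
  (411, 3, 6), (412, 2, 4), (413, 5, 8), (414, 2, 2), (415, 3, 10), (416, 2, 32), (417, 3, 12),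
  (418, 2, 2), (419, 17, 96), (420, 2, 4), (421, 3, 4), (422, 2, 2), (423, 3, 18), (424, 2, 8),
  (425, 5, 300), (426, 2, 2), (427, 3, 4), (428, 2, 4), (429, 3, 6), (430, 2, 2), (431, 5, 56),
  (432, 2, 16), (433, 3, 28), (434, 2, 2), (435, 3, 30), (436, 2, 4), (437, 5, 12), (438, 2, 2),
  (439, 3, 4), (440, 2, 8), (441, 3, 36), (442, 2, 2), (443, 5, 8), (444, 2, 4), (445, 3, 4),
  (446, 2, 2), (447, 3, 6), (448, 2, 64), (449, 11, 20), (450, 2, 2), (451, 3, 10), (452, 2, 4),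
  (453, 3, 12), (454, 2, 2), (455, 5, 80), (456, 2, 8), (457, 3, 4), (458, 2, 2), (459, 3, 54),
  (460, 2, 4), (461, 5, 36), (462, 2, 2), (463, 3, 4), (464, 2, 16), (465, 3, 6), (466, 2, 2),
  (467, 5, 12), (468, 2, 4), (469, 3, 10), (470, 2, 2), (471, 3, 12), (472, 2, 8), (473, 5, 8),
  (474, 2, 2), (475, 3, 4), (476, 2, 4), (477, 3, 18), (478, 2, 2), (479, 7, 24), (480, 2, 32),
  (481, 3, 4), (482, 2, 2), (483, 3, 6), (484, 2, 4), (485, 5, 60), (486, 2, 2), (487, 3, 244),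
  (488, 2, 8), (489, 3, 246), (490, 2, 2), (491, 5, 16), (492, 2, 4), (493, 3, 4), (494, 2, 2),
  (495, 3, 252), (496, 2, 16), (497, 5, 12), (498, 2, 2), (499, 3, 4), (500, 2, 4), (501, 3, 6),
  (502, 2, 2), (503, 5, 128), (504, 2, 8), (505, 3, 10), (506, 2, 2), (507, 3, 12), (508, 2, 4),
  (509, 7, 12), (510, 2, 2), (511, 3, 4), (512, 5, 12), (513, 3, 270), (514, 2, 2),
  (515, 5, 140), (516, 2, 4), (517, 3, 4), (518, 2, 2), (519, 3, 6), (520, 2, 8), (521, 5, 16),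
  (522, 2, 2), (523, 3, 10), (524, 2, 4), (525, 3, 12), (526, 2, 2), (527, 5, 152), (528, 2, 16),
  (529, 3, 4), (530, 2, 2), (531, 3, 18), (532, 2, 4), (533, 5, 8), (534, 2, 2), (535, 3, 4),
  (536, 2, 8), (537, 3, 6), (538, 2, 2), (539, 17, 80), (540, 2, 4), (541, 3, 28), (542, 2, 2),
  (543, 3, 30), (544, 2, 32), (545, 5, 20), (546, 2, 2), (547, 3, 4), (548, 2, 4), (549, 3, 36),
  (550, 2, 2), (551, 5, 176), (552, 2, 8), (553, 3, 4), (554, 2, 2), (555, 3, 6), (556, 2, 4),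
  (557, 5, 32), (558, 2, 2), (559, 3, 10), (560, 2, 16), (561, 3, 12), (562, 2, 2), (563, 5, 8),
  (564, 2, 4), (565, 3, 4), (566, 2, 2), (567, 3, 324), (568, 2, 8), (569, 7, 30), (570, 2, 2),
  (571, 3, 4), (572, 2, 4), (573, 3, 6), (574, 2, 2), (575, 5, 200), (576, 2, 64), (577, 3, 10),
  (578, 2, 2), (579, 3, 12), (580, 2, 4), (581, 5, 56), (582, 2, 2), (583, 3, 4), (584, 2, 8),
  (585, 3, 18), (586, 2, 2), (587, 5, 12), (588, 2, 4), (589, 3, 4), (590, 2, 2), (591, 3, 6),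
  (592, 2, 16), (593, 5, 8), (594, 2, 2), (595, 3, 28), (596, 2, 4), (597, 3, 30), (598, 2, 2),
  (599, 7, 60), (600, 2, 8), (601, 3, 4), (602, 2, 2), (603, 3, 36), (604, 2, 4), (605, 5, 80),
  (606, 2, 2), (607, 3, 4), (608, 2, 32), (609, 3, 6), (610, 2, 2), (611, 5, 36), (612, 2, 4),
  (613, 3, 10), (614, 2, 2), (615, 3, 12), (616, 2, 8), (617, 5, 12), (618, 2, 2), (619, 3, 4),
  (620, 2, 4), (621, 3, 54), (622, 2, 2), (623, 5, 8), (624, 2, 16), (625, 3, 4), (626, 2, 2),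
  (627, 3, 6), (628, 2, 4), (629, 13, 96), (630, 2, 2), (631, 3, 10), (632, 2, 8), (633, 3, 12),
  (634, 2, 2), (635, 7, 12), (636, 2, 4), (637, 3, 4), (638, 2, 2), (639, 3, 18), (640, 2, 128),
  (641, 5, 16), (642, 2, 2), (643, 3, 4), (644, 2, 4), (645, 3, 6), (646, 2, 2), (647, 5, 12),
  (648, 2, 8), (649, 3, 82), (650, 2, 2), (651, 3, 84), (652, 2, 4), (653, 5, 28), (654, 2, 2),
  (655, 3, 4), (656, 2, 16), (657, 3, 90), (658, 2, 2), (659, 7, 120), (660, 2, 4), (661, 3, 4),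
  (662, 2, 2), (663, 3, 6), (664, 2, 8), (665, 5, 40), (666, 2, 2), (667, 3, 10), (668, 2, 4),
  (669, 3, 12), (670, 2, 2), (671, 5, 16), (672, 2, 32), (673, 3, 4), (674, 2, 2), (675, 3, 108),
  (676, 2, 4), (677, 5, 52), (678, 2, 2), (679, 3, 4), (680, 2, 8), (681, 3, 6), (682, 2, 2),
  (683, 5, 8), (684, 2, 4), (685, 3, 10), (686, 2, 2), (687, 3, 12), (688, 2, 16), (689, 11, 40),
  (690, 2, 2), (691, 3, 4), (692, 2, 4), (693, 3, 18), (694, 2, 2), (695, 5, 20), (696, 2, 8),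
  (697, 3, 4), (698, 2, 2), (699, 3, 6), (700, 2, 4), (701, 5, 76), (702, 2, 2), (703, 3, 28),
  (704, 2, 64), (705, 3, 30), (706, 2, 2), (707, 5, 32), (708, 2, 4), (709, 3, 4), (710, 2, 2),
  (711, 3, 36), (712, 2, 8), (713, 5, 8), (714, 2, 2), (715, 3, 4), (716, 2, 4), (717, 3, 6),
  (718, 2, 2), (719, 7, 12), (720, 2, 16), (721, 3, 10), (722, 2, 2), (723, 3, 12), (724, 2, 4),
  (725, 5, 100), (726, 2, 2), (727, 3, 4), (728, 2, 8), (729, 7, 36), (730, 2, 2), (731, 5, 56),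
  (732, 2, 4), (733, 3, 4), (734, 2, 2), (735, 3, 6), (736, 2, 32), (737, 5, 12), (738, 2, 2),
  (739, 3, 10), (740, 2, 4), (741, 3, 12), (742, 2, 2), (743, 5, 8), (744, 2, 8), (745, 3, 4),
  (746, 2, 2), (747, 3, 18), (748, 2, 4), (749, 13, 60), (750, 2, 2), (751, 3, 4), (752, 2, 16),
  (753, 3, 6), (754, 2, 2), (755, 11, 150), (756, 2, 4), (757, 3, 28), (758, 2, 2), (759, 3, 30),
  (760, 2, 8), (761, 5, 136), (762, 2, 2), (763, 3, 4), (764, 2, 4), (765, 3, 36), (766, 2, 2),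
  (767, 5, 12), (768, 2, 256), (769, 3, 4), (770, 2, 2), (771, 3, 6), (772, 2, 4), (773, 5, 8),
  (774, 2, 2), (775, 3, 10), (776, 2, 8), (777, 3, 12), (778, 2, 2), (779, 7, 30), (780, 2, 4),
  (781, 3, 4), (782, 2, 2), (783, 3, 54), (784, 2, 16), (785, 5, 160), (786, 2, 2), (787, 3, 4),
  (788, 2, 4), (789, 3, 6), (790, 2, 2), (791, 5, 16), (792, 2, 8), (793, 3, 10), (794, 2, 2),
  (795, 3, 12), (796, 2, 4), (797, 5, 12), (798, 2, 2), (799, 3, 4), (800, 2, 32), (801, 3, 18),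
  (802, 2, 2), (803, 5, 28), (804, 2, 4), (805, 3, 4), (806, 2, 2), (807, 3, 6), (808, 2, 8),
  (809, 7, 18), (810, 2, 2), (811, 3, 82), (812, 2, 4), (813, 3, 84), (814, 2, 2), (815, 5, 40),
  (816, 2, 16), (817, 3, 4), (818, 2, 2), (819, 3, 90), (820, 2, 4), (821, 5, 16), (822, 2, 2),
  (823, 3, 4), (824, 2, 8), (825, 3, 6), (826, 2, 2), (827, 5, 52), (828, 2, 4), (829, 3, 10),
  (830, 2, 2), (831, 3, 12), (832, 2, 64), (833, 5, 8), (834, 2, 2), (835, 3, 4), (836, 2, 4),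
  (837, 3, 108), (838, 2, 2), (839, 11, 80), (840, 2, 8), (841, 3, 4), (842, 2, 2), (843, 3, 6),
  (844, 2, 4), (845, 5, 20), (846, 2, 2), (847, 3, 10), (848, 2, 16), (849, 3, 12), (850, 2, 2),
  (851, 5, 76), (852, 2, 4), (853, 3, 4), (854, 2, 2), (855, 3, 18), (856, 2, 8), (857, 5, 32),
  (858, 2, 2), (859, 3, 4), (860, 2, 4), (861, 3, 6), (862, 2, 2), (863, 5, 8), (864, 2, 32),
  (865, 3, 28), (866, 2, 2), (867, 3, 30), (868, 2, 4), (869, 7, 36), (870, 2, 2), (871, 3, 4),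
  (872, 2, 8), (873, 3, 36), (874, 2, 2), (875, 7, 42), (876, 2, 4), (877, 3, 4), (878, 2, 2),
  (879, 3, 6), (880, 2, 16), (881, 5, 256), (882, 2, 2), (883, 3, 10), (884, 2, 4), (885, 3, 12),
  (886, 2, 2), (887, 5, 12), (888, 2, 8), (889, 3, 4), (890, 2, 2), (891, 3, 162), (892, 2, 4),
  (893, 5, 8), (894, 2, 2), (895, 3, 4), (896, 2, 128), (897, 3, 6), (898, 2, 2), (899, 7, 66),
  (900, 2, 4), (901, 3, 10), (902, 2, 2), (903, 3, 12), (904, 2, 8), (905, 5, 280), (906, 2, 2),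
  (907, 3, 4), (908, 2, 4), (909, 3, 18), (910, 2, 2), (911, 5, 36), (912, 2, 16), (913, 3, 4),
  (914, 2, 2), (915, 3, 6), (916, 2, 4), (917, 5, 12), (918, 2, 2), (919, 3, 28), (920, 2, 8),
  (921, 3, 30), (922, 2, 2), (923, 5, 8), (924, 2, 4), (925, 3, 4), (926, 2, 2), (927, 3, 36),
  (928, 2, 32), (929, 7, 12), (930, 2, 2), (931, 3, 4), (932, 2, 4), (933, 3, 6), (934, 2, 2),
  (935, 5, 60), (936, 2, 8), (937, 3, 10), (938, 2, 2), (939, 3, 12), (940, 2, 4), (941, 5, 16),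
  (942, 2, 2), (943, 3, 4), (944, 2, 16), (945, 3, 54), (946, 2, 2), (947, 5, 12), (948, 2, 4),
  (949, 3, 4), (950, 2, 2), (951, 3, 6), (952, 2, 8), (953, 5, 28), (954, 2, 2), (955, 3, 10),
  (956, 2, 4), (957, 3, 12), (958, 2, 2), (959, 7, 126), (960, 2, 64), (961, 3, 4), (962, 2, 2),
  (963, 3, 18), (964, 2, 4), (965, 5, 40), (966, 2, 2), (967, 3, 4), (968, 2, 8), (969, 3, 6),
  (970, 2, 2), (971, 5, 16), (972, 2, 4), (973, 3, 244), (974, 2, 2), (975, 3, 246),
  (976, 2, 16), (977, 5, 52), (978, 2, 2), (979, 3, 4), (980, 2, 4), (981, 3, 252), (982, 2, 2),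
  (983, 5, 8), (984, 2, 8), (985, 3, 4), (986, 2, 2), (987, 3, 6), (988, 2, 4), (989, 7, 156),
  (990, 2, 2), (991, 3, 10), (992, 2, 32), (993, 3, 12), (994, 2, 2), (995, 5, 20), (996, 2, 4),
  (997, 3, 4), (998, 2, 2), (999, 3, 270), (1000, 2, 8), (1001, 5, 376), (1002, 2, 2),
  (1003, 3, 4), (1004, 2, 4), (1005, 3, 6), (1006, 2, 2), (1007, 5, 132), (1008, 2, 16),
  (1009, 3, 10), (1010, 2, 2), (1011, 3, 12), (1012, 2, 4), (1013, 5, 8), (1014, 2, 2),
  (1015, 3, 4), (1016, 2, 8), (1017, 3, 18), (1018, 2, 2), (1019, 7, 18), (1020, 2, 4),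
  (1021, 3, 4), (1022, 2, 2), (1023, 3, 6), (1024, 3, 4), (1025, 5, 400), (1026, 2, 2),
  (1027, 3, 28), (1028, 2, 4), (1029, 3, 30), (1030, 2, 2), (1031, 5, 156), (1032, 2, 8),
  (1033, 3, 4), (1034, 2, 2), (1035, 3, 36), (1036, 2, 4), (1037, 5, 12), (1038, 2, 2),
  (1039, 3, 4), (1040, 2, 16), (1041, 3, 6), (1042, 2, 2), (1043, 5, 8), (1044, 2, 4),
  (1045, 3, 10), (1046, 2, 2), (1047, 3, 12), (1048, 2, 8), (1049, 11, 70), (1050, 2, 2),
  (1051, 3, 4), (1052, 2, 4), (1053, 3, 324), (1054, 2, 2), (1055, 5, 180), (1056, 2, 32),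
  (1057, 3, 4), (1058, 2, 2), (1059, 3, 6), (1060, 2, 4), (1061, 5, 36), (1062, 2, 2),
  (1063, 3, 10), (1064, 2, 8), (1065, 3, 12), (1066, 2, 2), (1067, 5, 12), (1068, 2, 4),
  (1069, 3, 4), (1070, 2, 2), (1071, 3, 18), (1072, 2, 16), (1073, 5, 8), (1074, 2, 2),
  (1075, 3, 4), (1076, 2, 4), (1077, 3, 6), (1078, 2, 2), (1079, 11, 100), (1080, 2, 8)]

def excl : List ℕ := [1, 2, 4, 3, 5, 8, 9, 11, 27, 29, 35, 59]

theorem W_ok : (W.all fun t => ([2, 3, 5, 7, 11, 13, 17, 19, 23].contains t.2.1) &&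
    good t.1 t.2.1 t.2.2) = true := by
  decide +kernel

theorem W_cover : W.map (fun t => t.1) =
    (List.range 1081).filter (fun n => decide (0 < n) && !(excl.contains n)) := by
  decide +kernel

theorem ne_of_notMem {n : ℕ} (h1 : 1 ≤ n) (h2 : n ≤ 1080) (h3 : n ∉ excl) :
    aden (n - 1) ≠ rad (n + 1) := by
  have h4 : n ∈ W.map (fun t => t.1) := by
    rw [W_cover, List.mem_filter, List.mem_range]
    refine ⟨by omega, ?_⟩
    rw [Bool.and_eq_true, decide_eq_true_iff]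
    refine ⟨h1, ?_⟩
    simpa using h3
  rw [List.mem_map] at h4
  obtain ⟨t, ht, rfl⟩ := h4
  have h5 := W_ok
  rw [List.all_eq_true] at h5
  have h6 := h5 t ht
  rw [Bool.and_eq_true] at h6
  have hp : t.2.1.Prime := by
    have h7 := h6.1
    simp only [List.contains_cons, List.contains_nil, Bool.or_false, Bool.or_eq_true,
      beq_iff_eq] at h7
    rcases h7 with h | h | h | h | h | h | h | h | h <;> rw [h] <;> norm_num
  exact ne_of_good h2 hp h6.2

/-- where a prime in a denominator comes from -/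
theorem dvd_cases {n p m : ℕ} (hp : p.Prime)
    (h : p ∣ (bernoulli m * (n.choose m : ℚ)).den) :
    (p = 2 ∧ m = 1 ∧ n % 2 = 1) ∨
      (1 < m ∧ m % 2 = 0 ∧ (p - 1) ∣ m ∧ ¬ p ∣ n.choose m) := by
  rcases Nat.even_or_odd m with ⟨k, hk⟩ | hodd
  · rcases Nat.eq_zero_or_pos k with h0 | h0
    · exfalso
      have hm : m = 0 := by omega
      rw [hm, bernoulli_zero, Nat.choose_zero_right] at h
      norm_num at h
      exact hp.one_lt.ne' h
    · right
      have hm : m = 2 * k := by omega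
      rw [hm, den_dvd_iff hp h0, ← hm] at h
      exact ⟨by omega, by omega, h.1, h.2⟩
  · rcases Nat.lt_or_ge 1 m with h1 | h1
    · exfalso
      rw [bernoulli_eq_zero_of_odd hodd h1, zero_mul] at h
      norm_num at h
      exact hp.one_lt.ne' h
    · left
      have hm : m = 1 := by
        rcases hodd with ⟨t, ht⟩
        omega
      rw [hm, bernoulli_one, Nat.choose_one_right] at h
      have h2 : p = 2 := by
        have h3 := Rat.mul_den_dvd (-1 / 2 : ℚ) (n : ℚ)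
        rw [Rat.den_natCast, mul_one] at h3
        have h4 : (-1 / 2 : ℚ).den = 2 := by norm_num
        rw [h4] at h3
        exact (Nat.prime_dvd_prime_iff_eq hp Nat.prime_two).mp (h.trans h3)
      refine ⟨h2, hm, ?_⟩
      by_contra hcon
      obtain ⟨t, ht⟩ : ∃ t, n = 2 * t := ⟨n / 2, by omega⟩
      have h5 : (-1 / 2 : ℚ) * (n : ℚ) = ((-(t : ℤ) : ℤ) : ℚ) := by
        rw [ht]
        push_cast
        ring
      rw [h5, Rat.den_intCast] at h
      exact hp.one_lt.ne' (Nat.dvd_one.mp h)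

theorem ne_of_prime {n : ℕ} (hn : 1 ≤ n) (hp : (n + 1).Prime) : aden (n - 1) ≠ rad (n + 1) := by
  intro heq
  have h1 : n + 1 ∣ aden (n - 1) := by
    rw [heq, prime_dvd_rad (by omega) hp]
  obtain ⟨m, hm, h2⟩ := (prime_dvd_aden hn hp).mp h1
  rcases dvd_cases hp h2 with ⟨h3, h4, _⟩ | ⟨h3, _, h4, _⟩
  · omega
  · have := Nat.le_of_dvd (by omega) h4
    omega

/-- there is an even `m` which shows that `p` divides `aden (n - 1)` -/
def wit (n p : ℕ) : Bool :=
  (List.range n).any fun m => decide (1 < m) && (m % 2 == 0) && (m % (p - 1) == 0) && nz 11 p n m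

theorem wit_iff {n p : ℕ} (hn : n ≤ 1080) (hp : p.Prime) :
    wit n p = true ↔ ∃ m, m < n ∧ 1 < m ∧ m % 2 = 0 ∧ (p - 1) ∣ m ∧ ¬ p ∣ n.choose m := by
  unfold wit
  rw [List.any_eq_true]
  simp only [List.mem_range, Bool.and_eq_true, decide_eq_true_eq, beq_iff_eq]
  constructor
  · rintro ⟨m, h1, ⟨⟨h2, h3⟩, h4⟩, h5⟩
    rw [nz_iff hp 11 n m (by omega)] at h5
    exact ⟨m, h1, h2, h3, Nat.dvd_of_mod_eq_zero h4, h5⟩
  · rintro ⟨m, h1, h2, h3, h4, h5⟩
    rw [← nz_iff hp 11 n m (by omega)] at h5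
    exact ⟨m, h1, ⟨⟨h2, h3⟩, Nat.mod_eq_zero_of_dvd h4⟩, h5⟩

def P60 : List ℕ := [2, 3, 5, 7, 11, 13, 17, 19, 23, 29, 31, 37, 41, 43, 47, 53, 59]

theorem mem_P60 {p : ℕ} (hp : p.Prime) (h : p < 60) : p ∈ P60 := by
  have h2 := hp.two_le
  interval_cases p <;> first | decide | (exfalso; revert hp; norm_num)

def sols : List ℕ := [3, 5, 8, 9, 11, 27, 29, 35, 59]

theorem sols_ok : (sols.all fun n => P60.all fun p => ((n + 1) % p == 0) == wit n p) = true := by
  decide +kernel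

theorem sols_le : ∀ n ∈ sols, 1 ≤ n ∧ n ≤ 59 := by decide

theorem eq_of_mem {n : ℕ} (h : n ∈ sols) : aden (n - 1) = rad (n + 1) := by
  obtain ⟨hn1, hn2⟩ := sols_le n h
  have h1 := sols_ok
  rw [List.all_eq_true] at h1
  have h2 := h1 n h
  rw [List.all_eq_true] at h2
  apply eq_of_primes hn1
  intro p hp
  rcases Nat.lt_or_ge p 60 with h60 | h60
  · have h3 := h2 p (mem_P60 hp h60)
    rw [beq_iff_eq] at h3
    rw [prime_dvd_aden hn1 hp]
    constructor
    · rintro ⟨m, hm, h4⟩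
      rcases dvd_cases hp h4 with ⟨h5, _, h6⟩ | h5
      · subst h5
        omega
      · have h6 : wit n p = true := (wit_iff (by omega) hp).mpr ⟨m, hm, h5⟩
        rw [h6, beq_iff_eq] at h3
        exact Nat.dvd_of_mod_eq_zero h3
    · intro h4
      have h5 : ((n + 1) % p == 0) = true := by
        rw [beq_iff_eq]
        exact Nat.mod_eq_zero_of_dvd h4
      rw [h5] at h3
      obtain ⟨m, hm, h6, h7, h8, h9⟩ := (wit_iff (by omega) hp).mp h3.symm
      refine ⟨m, hm, ?_⟩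
      obtain ⟨k, hk⟩ : ∃ k, m = 2 * k := ⟨m / 2, by omega⟩
      subst hk
      rw [den_dvd_iff hp (by omega)]
      exact ⟨h8, h9⟩
  · constructor
    · intro h3
      exfalso
      obtain ⟨m, hm, h4⟩ := (prime_dvd_aden hn1 hp).mp h3
      rcases dvd_cases hp h4 with ⟨h5, _, h6⟩ | ⟨h5, _, h6, _⟩
      · omega
      · have := Nat.le_of_dvd (by omega) h6
        omega
    · intro h3
      exfalso
      have h4 := Nat.le_of_dvd (by omega) h3
      have h5 : p = 60 := by omega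
      rw [h5] at hp
      revert hp
      norm_num

end Arith

open Arith in
theorem small_cases : ∀ n : ℕ, 1 ≤ n → n ≤ 1080 →
    (aden (n - 1) = rad (n + 1) ↔ n ∈ ({3, 5, 8, 9, 11, 27, 29, 35, 59} : Finset ℕ)) := by
  intro n h1 h2
  constructor
  · intro h
    by_contra hcon
    by_cases h3 : n ∈ excl
    · have h4 : n = 1 ∨ n = 2 ∨ n = 4 := by
        simp only [excl, List.mem_cons, List.not_mem_nil, or_false] at h3
        simp only [Finset.mem_insert, Finset.mem_singleton] at hcon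
        omega
      have h5 : (n + 1).Prime := by
        rcases h4 with h | h | h <;> rw [h] <;> norm_num
      exact ne_of_prime h1 h5 h
    · exact ne_of_notMem h1 h2 h3 h
  · intro h
    apply eq_of_mem
    simpa [sols] using h

end KB
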