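import Mathlib

/-!
Kernel-evaluable check of bounds for `Fi y = sum_{k in Lp} y/k - sum_{k in Lm} y/k`, `y < 10^6`.
Base 256 digit vectors inside natural numbers.
-/

set_option autoImplicit false

namespace KB

@[reducible] def force (x : ℕ) (k : ℕ → Bool) : Bool :=
  Nat.rec (k 0) (fun n _ => k (Nat.succ n)) x

/-- pattern of the multiples of `k` seen from offset `s`, base 256 -/
@[reducible] def pat (k s : ℕ) : ℕ :=
  Nat.shiftRight (Nat.div (Nat.sub (Nat.pow 2 (Nat.mul 8 (Nat.mul k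
    (Nat.add (Nat.div (Nat.add 10000 k) k) 1)))) 1) (Nat.sub (Nat.pow 2 (Nat.mul 8 k)) 1))
    (Nat.mul 8 s)

/-- sum of patterns (forced accumulator) -/
@[reducible] def sumPat (m : ℕ) (k : ℕ → Bool) (l : List ℕ) : ℕ → Bool :=
  List.rec k (fun h _ ih acc => force (Nat.add acc (pat h (Nat.mod m h))) ih) l

/-- entry fields -/
@[reducible] def eLen (e : ℕ) : ℕ := Nat.mod e 1024
@[reducible] def eLo (e : ℕ) : ℕ := Nat.mod (Nat.div e 1024) 8192
@[reducible] def eW (e : ℕ) : ℕ := Nat.mod (Nat.div e 8388608) 8192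

/-- check of a block of `n` digits: prefix sums stay between `lo` and `lo + w` -/
@[reducible] def blk (n lo w : ℕ) (k : ℕ → ℕ → Bool) (U F : ℕ) : Bool :=
  (fun P O f => (fun H Q =>
    Bool.rec false (Bool.rec false (Bool.rec false (Bool.rec false (Bool.rec false (Bool.rec false
      (force (Nat.shiftRight U (Nat.mul 8 n)) fun U' =>
        force (Nat.sub (Nat.add lo (Nat.shiftRight Q (Nat.mul 8 (Nat.sub n 1)))) 32) fun F' =>
          k U' F')
      (Nat.beq (Nat.land (Nat.add Q (Nat.mul (Nat.sub 95 w) O)) H) 0))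
      (Nat.beq (Nat.land (Nat.add Q (Nat.mul 96 O)) H) H))
      (Nat.beq (Nat.land Q H) 0)) (Nat.ble f 127)) (Nat.ble lo (Nat.add F 32))) (Nat.ble 1 n))
    (Nat.mul 128 O)
    (Nat.land (Nat.mul (Nat.add (Nat.add (Nat.land U (Nat.sub P 1)) f)
      (Nat.sub P (Nat.mul 128 O))) O) (Nat.sub P 1)))
    (Nat.pow 2 (Nat.mul 8 n)) (Nat.div (Nat.sub (Nat.pow 2 (Nat.mul 8 n)) 1) 255)
    (Nat.sub (Nat.add F 32) lo)

/-- process a list of entries -/
@[reducible] def ents (k : ℕ → Bool) (es : List ℕ) : ℕ → ℕ → Bool :=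
  List.rec (fun _ F => k F) (fun e _ ih W F => blk (eLen e) (eLo e) (eW e) ih W F) es

/-- process a list of chunks of 1000 digits each -/
@[reducible] def chunks (k : ℕ → Bool) (cs : List (List ℕ)) : ℕ → ℕ → Bool :=
  List.rec (fun _ F => k F) (fun es _ ih W F =>
    force (Nat.land W (Nat.sub (Nat.pow 2 8000) 1)) fun U =>
      ents (fun F' => force (Nat.shiftRight W 8000) fun W' => ih W' F') es U F) cs

/-- `(2^a - 1)/255` -/
def bigOf (a : ℕ) : ℕ := Nat.div (Nat.sub (Nat.pow 2 a) 1) 255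

/-- build the digit vector `128 + D (m + i)`, pass it to `k` -/
@[reducible] def wsum (O : ℕ) (A B C D : List ℕ) (m : ℕ) (k : ℕ → Bool) : Bool :=
    sumPat m (fun V1 => sumPat m (fun V2 =>
    sumPat m (fun V3 => sumPat m (fun V4 =>
      Bool.rec false (Bool.rec false (Bool.rec false (Bool.rec false
      (force (Nat.sub (Nat.add (Nat.add V1 V2) (Nat.mul 128 O)) (Nat.add V3 V4)) k)
        (Nat.beq (Nat.land V1 (Nat.mul 192 O)) 0))
        (Nat.beq (Nat.land V2 (Nat.mul 192 O)) 0))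
        (Nat.beq (Nat.land V3 (Nat.mul 192 O)) 0))
        (Nat.beq (Nat.land V4 (Nat.mul 192 O)) 0)) D 0) C 0) B 0) A 0

/-- process superchunks of 10000 digits -/
@[reducible] def sups (O : ℕ) (A B C D : List ℕ) (k : ℕ → Bool) (css : List (List (List ℕ))) :
    ℕ → ℕ → Bool :=
  List.rec (fun _ F => k F) (fun cs _ ih T F =>
    wsum O A B C D (Nat.mul 10000 T) fun W => chunks (fun F' => ih (Nat.succ T) F') cs W F) css

/-- the first superchunk, digits `1, ..., 9999` -/
@[reducible] def sup0 (O : ℕ) (A B C D : List ℕ) (k : ℕ → Bool) (es : List ℕ) (cs : List (List ℕ))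
    (F : ℕ) : Bool :=
  wsum O A B C D 1 fun W =>
    ents (fun F' => chunks k cs (Nat.shiftRight W 7992) F') es
      (Nat.land W (Nat.sub (Nat.pow 2 7992) 1)) F

end KB
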