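import Pool.Agent.Helper77.KB.NV
import Pool.Agent.Helper77.KB.HDef

/-! Soundness of the block check. -/

set_option autoImplicit false

open Finset

namespace KB

theorem force_eq (x : ℕ) (k : ℕ → Bool) : force x k = k x := by
  cases x <;> rfl

theorem brec (b X : Bool) : (Bool.rec (motive := fun _ => Bool) false X b = true) ↔ b = true ∧ X = true := by
  cases b <;> simp

theorem land_lt {d : ℕ} (h : d < 256) (h1 : d &&& 128 = 0) : d < 128 := by
  revert h1; revert d; decide +kernel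

theorem land_ge {d : ℕ} (h : d < 256) (h1 : d &&& 128 = 128) : 128 ≤ d := by
  revert h1; revert d; decide +kernel

theorem land_lt64 {d : ℕ} (h : d < 256) (h1 : d &&& 192 = 0) : d < 64 := by
  revert h1; revert d; decide +kernel

/-- partial sums -/
def PS (f : ℤ) (D : ℕ → ℤ) (i : ℕ) : ℤ := f + ∑ j ∈ range i, D j

theorem PS_succ (f : ℤ) (D : ℕ → ℤ) (i : ℕ) : PS f D (i + 1) = PS f D i + D i := by
  unfold PS; rw [Finset.sum_range_succ]; ring

theorem telesc (f : ℤ) (D : ℕ → ℤ) (n : ℕ) :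
    255 * ∑ i ∈ range n, PS f D (i + 1) * 256 ^ i =
      PS f D n * 256 ^ n - (f + ∑ i ∈ range n, D i * 256 ^ i) := by
  induction n with
  | zero => simp [PS]
  | succ n ih =>
    rw [Finset.sum_range_succ, Finset.sum_range_succ, mul_add, ih, PS_succ, pow_succ]
    ring

theorem NV_cast (e : ℕ → ℕ) (n : ℕ) : ((NV e n : ℕ) : ℤ) = ∑ i ∈ range n, (e i : ℤ) * 256 ^ i := by
  unfold NV; push_cast; rfl

/-- the digits of `Q` are the partial sums -/
theorem digits_eq {n : ℕ} {f : ℤ} {D : ℕ → ℤ} {d : ℕ → ℕ} (hD : ∀ i, i < n → |D i| ≤ 127)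
    (hf0 : 0 ≤ f) (hf1 : f ≤ 127) (hd : ∀ i, i < n → d i < 128)
    (hc : ((NV d n : ℕ) : ℤ) ≡ ∑ i ∈ range n, PS f D (i + 1) * 256 ^ i [ZMOD 256 ^ n]) :
    ∀ i, i < n → PS f D (i + 1) = d i := by
  intro i
  induction i using Nat.strong_induction_on with
  | _ i ih =>
    intro hi
    have h1 : ((NV d n : ℕ) : ℤ) ≡ ∑ j ∈ range n, PS f D (j + 1) * 256 ^ j [ZMOD 256 ^ (i + 1)] :=
      hc.of_dvd (pow_dvd_pow _ (by omega))
    rw [NV_cast] at h1
    have h2 : ∀ g : ℕ → ℤ, (∑ j ∈ range n, g j * 256 ^ j) ≡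
        (∑ j ∈ range i, g j * 256 ^ j) + g i * 256 ^ i [ZMOD 256 ^ (i + 1)] := by
      intro g
      obtain ⟨b, rfl⟩ := Nat.exists_eq_add_of_lt hi
      have h3 : ∑ j ∈ range (i + b + 1), g j * 256 ^ j =
          (∑ j ∈ range i, g j * 256 ^ j) + g i * 256 ^ i +
          256 ^ (i + 1) * ∑ j ∈ range b, g (i + 1 + j) * 256 ^ j := by
        have h4 : i + b + 1 = (i + 1) + b := by ring
        rw [h4, Finset.sum_range_add, Finset.sum_range_succ, Finset.mul_sum]
        congr 1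
        apply Finset.sum_congr rfl
        intro j _
        ring
      rw [h3]
      exact (Int.modEq_iff_dvd.2 ⟨- ∑ j ∈ range b, g (i + 1 + j) * 256 ^ j, by ring⟩)
    have h5 := ((h2 (fun j => (d j : ℤ))).symm.trans h1).trans (h2 (fun j => PS f D (j + 1)))
    have h6 : ∑ j ∈ range i, (d j : ℤ) * 256 ^ j = ∑ j ∈ range i, PS f D (j + 1) * 256 ^ j := by
      apply Finset.sum_congr rfl
      intro j hj
      rw [Finset.mem_range] at hj
      rw [ih j hj (by omega)]
    rw [h6] at h5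
    have h7 : (256 : ℤ) ^ (i + 1) ∣ PS f D (i + 1) * 256 ^ i - (d i : ℤ) * 256 ^ i := by
      have := Int.modEq_iff_dvd.1 h5
      convert this using 1
      ring
    have h8 : (256 : ℤ) ∣ PS f D (i + 1) - d i := by
      rw [← sub_mul, pow_succ, mul_comm ((256 : ℤ) ^ i)] at h7
      exact Int.dvd_of_mul_dvd_mul_right (by positivity) h7
    have h9 : 0 ≤ PS f D i ∧ PS f D i ≤ 127 := by
      rcases Nat.eq_zero_or_pos i with h | h
      · subst h; simp [PS]; exact ⟨hf0, hf1⟩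
      · have h10 := ih (i - 1) (by omega) (by omega)
        rw [Nat.sub_add_cancel h] at h10
        have h11 := hd (i - 1) (by omega)
        rw [h10]
        constructor
        · positivity
        · have : (d (i - 1) : ℤ) < 128 := by exact_mod_cast h11
          omega
    have h10 := hD i hi
    rw [abs_le] at h10
    have h11 := hd i hi
    rw [PS_succ] at h8 ⊢
    obtain ⟨c, hc⟩ := h8
    have h12 : (d i : ℤ) < 128 := by exact_mod_cast h11
    have h13 : (0 : ℤ) ≤ d i := by positivity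
    omega

/-- `U` has the digits `128 + D i`, `i < N` -/
def Rep (U N : ℕ) (D : ℕ → ℤ) : Prop :=
  ∃ e : ℕ → ℕ, (∀ i, i < N → (e i : ℤ) = 128 + D i ∧ |D i| ≤ 127) ∧ U % 256 ^ N = NV e N

theorem Rep.mask {U N n : ℕ} {D : ℕ → ℤ} (h : Rep U N D) (hn : n ≤ N) :
    ∃ e : ℕ → ℕ, (∀ i, i < n → (e i : ℤ) = 128 + D i ∧ |D i| ≤ 127) ∧
      U &&& (2 ^ (8 * n) - 1) = NV e n := by
  obtain ⟨e, he, hU⟩ := h
  refine ⟨e, fun i hi => he i (by omega), ?_⟩
  have hlt : ∀ i, i < n → e i < 256 := by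
    intro i hi
    have h1 := (he i (by omega)).1
    have h2 := (he i (by omega)).2
    rw [abs_le] at h2
    omega
  rw [land_mask, ← NV_mod hlt hn, ← hU, Nat.mod_mod_of_dvd _ (pow_dvd_pow _ hn)]

theorem Rep.shift {U N n : ℕ} {D : ℕ → ℤ} (h : Rep U N D) (hn : n ≤ N) :
    Rep (U >>> (8 * n)) (N - n) (fun i => D (n + i)) := by
  obtain ⟨e, he, hU⟩ := h
  refine ⟨fun i => e (n + i), fun i hi => he (n + i) (by omega), ?_⟩
  have hlt : ∀ i, i < n → e i < 256 := by
    intro i hi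
    have h1 := (he i (by omega)).1
    have h2 := (he i (by omega)).2
    rw [abs_le] at h2
    omega
  rw [← NV_div hlt hn, ← hU, shift_eq]
  obtain ⟨b, rfl⟩ := Nat.exists_eq_add_of_le hn
  rw [Nat.add_sub_cancel_left, pow_add, Nat.mod_mul_right_div_self]

theorem Rep.of_mask {U N n : ℕ} {D : ℕ → ℤ} (h : Rep U N D) (hn : n ≤ N) :
    Rep (U &&& (2 ^ (8 * n) - 1)) n D := by
  obtain ⟨e, he, hU⟩ := h.mask hn
  refine ⟨e, he, ?_⟩
  rw [hU, Nat.mod_eq_of_lt]
  apply NV_lt
  intro i hi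
  have h1 := (he i (by omega)).1
  have h2 := (he i (by omega)).2
  rw [abs_le] at h2
  omega

theorem blk_sound {n lo w N U F : ℕ} {D : ℕ → ℤ} {k : ℕ → ℕ → Bool}
    (hR : Rep U N D) (hn : n ≤ N) (h : blk n lo w k U F = true) :
    (∀ i, i < n → (lo : ℤ) ≤ PS F D (i + 1) ∧ PS F D (i + 1) ≤ lo + w) ∧
      ∃ F' : ℕ, (F' : ℤ) = PS F D n ∧ k (U >>> (8 * n)) F' = true := by
  unfold blk at h
  simp only [brec, force_eq] at h
  obtain ⟨h1, h2, h3, h4, h5, h6, h7⟩ := h
  have hn1 : 1 ≤ n := Nat.le_of_ble_eq_true h1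
  have hlo : lo ≤ F + 32 := Nat.le_of_ble_eq_true h2
  have hf : F + 32 - lo ≤ 127 := Nat.le_of_ble_eq_true h3
  replace h4 := Nat.eq_of_beq_eq_true h4
  replace h5 := Nat.eq_of_beq_eq_true h5
  replace h6 := Nat.eq_of_beq_eq_true h6
  obtain ⟨e, he, hU⟩ := hR.mask hn
  -- names
  set f : ℕ := F + 32 - lo with hfdef
  have hO : Nat.div (Nat.sub (Nat.pow 2 (Nat.mul 8 n)) 1) 255 = NV (fun _ => 1) n := NV_one n
  have hP : Nat.pow 2 (Nat.mul 8 n) = 256 ^ n := pow_eq n
  have hmask : ∀ x, Nat.land x (Nat.sub (Nat.pow 2 (Nat.mul 8 n)) 1) = x % 256 ^ n :=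
    fun x => land_mask x n
  have hU' : Nat.land U (Nat.sub (Nat.pow 2 (Nat.mul 8 n)) 1) = NV e n := hU
  rw [hU', hmask, hO, hP] at h4 h5 h6 h7
  set Q : ℕ := (Nat.mul (Nat.add (Nat.add (NV e n) (Nat.sub (Nat.add F 32) lo))
      (Nat.sub (256 ^ n) (Nat.mul 128 (NV (fun _ => 1) n)))) (NV (fun _ => 1) n)) % 256 ^ n
    with hQdef
  have hQlt : Q < 256 ^ n := Nat.mod_lt _ (by positivity)
  set d : ℕ → ℕ := fun i => Q / 256 ^ i % 256 with hddef
  have hdQ : NV d n = Q := NV_digits Q n hQlt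
  have hd256 : ∀ i, i < n → d i < 256 := fun i _ => Nat.mod_lt _ (by norm_num)
  have hH : Nat.mul 128 (NV (fun _ => 1) n) = NV (fun _ => 128) n := by
    show 128 * NV (fun _ => 1) n = _
    rw [NV_mul]
  have h128 : ∀ i, i < n → (fun _ : ℕ => 128) i < 256 := fun i _ => by norm_num
  rw [hH] at h4 h5 h6
  -- top bit zero
  have hd128 : ∀ i, i < n → d i < 128 := by
    intro i hi
    have h8 : NV d n &&& NV (fun _ => 128) n = NV (fun _ => 0) n := by
      rw [hdQ]
      have : NV (fun _ => 0) n = 0 := by simp [NV]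
      rw [this]; exact h4
    rw [NV_land hd256 h128] at h8
    have h9 := NV_inj (e := fun i => d i &&& 128) (f := fun _ => 0)
      (fun i hi => lt_of_le_of_lt (Nat.and_le_left) (hd256 i hi)) (fun i _ => by norm_num) h8 i hi
    exact land_lt (hd256 i hi) h9
  have hd32 : ∀ i, i < n → 32 ≤ d i := by
    intro i hi
    have h8 : Nat.add Q (Nat.mul 96 (NV (fun _ => 1) n)) = NV (fun i => d i + 96) n := by
      show Q + 96 * NV (fun _ => 1) n = _
      rw [NV_mul, ← hdQ, NV_add']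
    rw [h8] at h5
    have h9 : ∀ i, i < n → d i + 96 < 256 := fun i hi => by have := hd128 i hi; omega
    have h10 : NV (fun i => (d i + 96) &&& 128) n = NV (fun _ => 128) n := by
      rw [← NV_land h9 h128]; exact h5
    have h11 := NV_inj (e := fun i => (d i + 96) &&& 128) (f := fun _ => 128)
      (fun i hi => lt_of_le_of_lt (Nat.and_le_left) (h9 i hi)) h128 h10 i hi
    have := land_ge (h9 i hi) h11
    omega
  have hdw : ∀ i, i < n → d i ≤ 32 + w := by
    intro i hi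
    have h8 : Nat.add Q (Nat.mul (Nat.sub 95 w) (NV (fun _ => 1) n)) =
        NV (fun i => d i + (95 - w)) n := by
      show Q + (95 - w) * NV (fun _ => 1) n = _
      rw [NV_mul, ← hdQ, NV_add']
      simp only [mul_one]
    rw [h8] at h6
    have h9 : ∀ i, i < n → d i + (95 - w) < 256 := fun i hi => by have := hd128 i hi; omega
    have h10 : NV (fun i => (d i + (95 - w)) &&& 128) n = NV (fun _ => 0) n := by
      rw [← NV_land h9 h128]
      have : NV (fun _ => 0) n = 0 := by simp [NV]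
      rw [this]; exact h6
    have h11 := NV_inj (e := fun i => (d i + (95 - w)) &&& 128) (f := fun _ => 0)
      (fun i hi => lt_of_le_of_lt (Nat.and_le_left) (h9 i hi)) (fun i _ => by norm_num) h10 i hi
    have := land_lt (h9 i hi) h11
    have := hd128 i hi
    omega
  -- the congruence
  have hPZ : (128 * NV (fun _ => 1) n : ℕ) ≤ 256 ^ n := by
    rw [NV_mul]
    exact (NV_lt (fun i _ => by norm_num)).le
  have hone : 255 * (NV (fun _ => 1) n : ℤ) = 256 ^ n - 1 := by
    have h : 255 * NV (fun _ => 1) n + 1 = 256 ^ n := by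
      clear * -
      induction n with
      | zero => simp [NV]
      | succ n ih => rw [NV_succ, pow_succ]; omega
    have h' : (255 * (NV (fun _ => 1) n : ℤ)) + 1 = 256 ^ n := by exact_mod_cast h
    linarith
  have hcong : ((NV d n : ℕ) : ℤ) ≡ ∑ i ∈ range n, PS f D (i + 1) * 256 ^ i [ZMOD 256 ^ n] := by
    rw [hdQ]
    have hEZ : ((NV e n : ℕ) : ℤ) = 128 * (NV (fun _ => 1) n : ℤ) + ∑ i ∈ range n, D i * 256 ^ i := by
      rw [NV_cast, NV_cast, Finset.mul_sum, ← Finset.sum_add_distrib]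
      apply Finset.sum_congr rfl
      intro i hi
      rw [(he i (Finset.mem_range.1 hi)).1]
      push_cast; ring
    have hX : ((Nat.mul (Nat.add (Nat.add (NV e n) (Nat.sub (Nat.add F 32) lo))
        (Nat.sub (256 ^ n) (Nat.mul 128 (NV (fun _ => 1) n)))) (NV (fun _ => 1) n) : ℕ) : ℤ) =
        ((f + ∑ i ∈ range n, D i * 256 ^ i) + 256 ^ n) * (NV (fun _ => 1) n : ℤ) := by
      show (((NV e n + (F + 32 - lo) + (256 ^ n - 128 * NV (fun _ => 1) n)) *
        NV (fun _ => 1) n : ℕ) : ℤ) = _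
      rw [← hfdef]
      push_cast [Nat.cast_sub hPZ]
      rw [hEZ]; ring
    have hT := telesc f D n
    have hQZ : ((Q : ℕ) : ℤ) ≡ ((f + ∑ i ∈ range n, D i * 256 ^ i) + 256 ^ n) *
        (NV (fun _ => 1) n : ℤ) [ZMOD 256 ^ n] := by
      rw [← hX, hQdef]
      push_cast
      exact Int.mod_modEq _ _
    refine hQZ.trans ?_
    apply Int.modEq_iff_dvd.2
    refine ⟨-(PS f D n * (NV (fun _ => 1) n : ℤ)) + ∑ i ∈ range n, PS f D (i + 1) * 256 ^ i
      - (NV (fun _ => 1) n : ℤ), ?_⟩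
    have h1 : (f + ∑ i ∈ range n, D i * 256 ^ i : ℤ) =
        PS f D n * 256 ^ n - 255 * ∑ i ∈ range n, PS f D (i + 1) * 256 ^ i := by linarith
    rw [h1]
    linear_combination (∑ i ∈ range n, PS f D (i + 1) * 256 ^ i) * hone
  have hfin := digits_eq (fun i hi => (he i hi).2) (by positivity) (by exact_mod_cast hf) hd128 hcong
  have hPSf : ∀ i, PS F D i = lo - 32 + PS f D i := by
    intro i
    unfold PS
    have : (f : ℤ) = F + 32 - lo := by
      rw [hfdef]; push_cast [Nat.cast_sub hlo]; ring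
    rw [this]; ring
  constructor
  · intro i hi
    rw [hPSf, hfin i hi]
    have h8 := hd32 i hi
    have h9 := hdw i hi
    constructor
    · have : (32 : ℤ) ≤ d i := by exact_mod_cast h8
      linarith
    · have : (d i : ℤ) ≤ 32 + w := by exact_mod_cast h9
      linarith
  · refine ⟨_, ?_, h7⟩
    obtain ⟨m, rfl⟩ : ∃ m, n = m + 1 := ⟨n - 1, by omega⟩
    have h8 : Nat.shiftRight Q (Nat.mul 8 (Nat.sub (m + 1) 1)) = d m := by
      show Q >>> (8 * m) = Q / 256 ^ m % 256
      rw [shift_eq, Nat.mod_eq_of_lt]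
      rw [Nat.div_lt_iff_lt_mul (by positivity)]
      rw [pow_succ] at hQlt; linarith
    rw [h8]
    show (((lo + d m) - 32 : ℕ) : ℤ) = _
    have h9 := hd32 m (by omega)
    rw [hPSf, hfin m (by omega)]
    push_cast [Nat.cast_sub (show 32 ≤ lo + d m by omega)]
    ring

end KB
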