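import Pool.Agent.Helper77.KB.Saw

set_option autoImplicit false

open Finset

namespace KB

namespace Count

/-- Nat division comparison. -/
lemma div_cmp {n p : ℕ} (hn : 1 ≤ n) (hp : 2 ≤ p) (hnp : n < p * p) :
    (n - 1) / (p - 1) = if n / p + n % p < p then n / p else n / p + 1 := by
  have h0 := Nat.div_add_mod n p
  set a := n / p with ha
  set b := n % p with hb
  have hb1 : b < p := Nat.mod_lt _ (by omega)
  have ha1 : a < p := by
    rw [ha, Nat.div_lt_iff_lt_mul (by omega)]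
    exact hnp
  obtain ⟨q, rfl⟩ : ∃ q, p = q + 1 := ⟨p - 1, by omega⟩
  have hq : 1 ≤ q := by omega
  have hmul : (q + 1) * a = a * q + a := by ring
  have hab : 1 ≤ a + b := by
    rcases Nat.eq_zero_or_pos a with h | h
    · rw [h] at h0
      omega
    · omega
  have hn1 : n - 1 = a * q + (a + b - 1) := by omega
  split_ifs with h
  · have h1 : a + b - 1 < q := by omega
    have h2 : n - 1 = (a + b - 1) + q * a := by rw [hn1]; ring
    rw [show q + 1 - 1 = q from rfl, h2, Nat.add_mul_div_left _ _ (by omega),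
      Nat.div_eq_of_lt h1, zero_add]
  · have h1 : a + b - 1 - q < q := by omega
    have h2 : n - 1 = (a + b - 1 - q) + q * (a + 1) := by
      rw [hn1]
      have : q * (a + 1) = a * q + q := by ring
      omega
    rw [show q + 1 - 1 = q from rfl, h2, Nat.add_mul_div_left _ _ (by omega),
      Nat.div_eq_of_lt h1, zero_add]

lemma fract_div (m p : ℕ) : Int.fract ((m : ℝ) / (p : ℝ)) = (m : ℝ) / p - ((m / p : ℕ) : ℝ) := by
  have h : ⌊(m : ℝ) / (p : ℝ)⌋ = ((m / p : ℕ) : ℤ) := by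
    have h1 : (0 : ℝ) ≤ (m : ℝ) / (p : ℝ) := by positivity
    rw [← Nat.floor_div_eq_div (K := ℝ) m p, Int.natCast_floor_eq_floor h1]
  rw [Int.fract, h, Int.cast_natCast]

/-- the weight -/
noncomputable def g (n t : ℝ) : ℝ := 1 - (n - 1) / (t - 1) + n / t

lemma ind_eq {n p : ℕ} (hn : 1 ≤ n) (hp : 2 ≤ p) (hnp : n < p * p) :
    (if n / p + n % p < p then (1 : ℝ) else 0) =
      g n p + ((Int.fract (((n : ℝ) - 1) / ((p : ℝ) - 1)) - 1 / 2) -
        (Int.fract ((n : ℝ) / (p : ℝ)) - 1 / 2)) := by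
  have h1 : ((n : ℝ) - 1) = ((n - 1 : ℕ) : ℝ) := by push_cast [Nat.cast_sub hn]; ring
  have h2 : ((p : ℝ) - 1) = ((p - 1 : ℕ) : ℝ) := by
    push_cast [Nat.cast_sub (show 1 ≤ p by omega)]; ring
  rw [g, h1, h2, fract_div, fract_div, div_cmp hn hp hnp]
  split_ifs with h
  · ring
  · push_cast; ring

/-- primitive of `1 - n / t ^ 2` -/
noncomputable def H (R t : ℝ) : ℝ := (t - R) ^ 2 / t

noncomputable def h (n t : ℝ) : ℝ := 1 - n / t ^ 2

lemma H_sub {R n a b : ℝ} (hR : R ^ 2 = n) (ha : 0 < a) (hb : 0 < b) :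
    H R b - H R a = (b - a) * (1 - n / (a * b)) := by
  rw [H, H, ← hR]
  field_simp
  ring

lemma H_le {R n a b : ℝ} (hR : R ^ 2 = n) (hn : 0 ≤ n) (ha : 0 < a) (hab : a ≤ b) :
    H R b - H R a ≤ (b - a) * h n b := by
  have hb : 0 < b := lt_of_lt_of_le ha hab
  rw [H_sub hR ha hb, h]
  have h1 : n / b ^ 2 ≤ n / (a * b) := by
    apply div_le_div_of_nonneg_left hn (by positivity)
    nlinarith
  nlinarith

lemma le_H {R n a b : ℝ} (hR : R ^ 2 = n) (hn : 0 ≤ n) (ha : 0 < a) (hab : a ≤ b) :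
    (b - a) * h n a ≤ H R b - H R a := by
  have hb : 0 < b := lt_of_lt_of_le ha hab
  rw [H_sub hR ha hb, h]
  have h1 : n / (a * b) ≤ n / a ^ 2 := by
    apply div_le_div_of_nonneg_left hn (by positivity)
    nlinarith
  nlinarith

lemma g_eq {n t : ℝ} (ht : 1 < t) : g n t = h n t + h n t / (t - 1) := by
  rw [g, h]
  have h1 : t - 1 ≠ 0 := by linarith
  have h2 : t ≠ 0 := by linarith
  field_simp
  ring

lemma tele_le (F G : ℕ → ℝ) (A N : ℕ) (hF : ∀ k, A ≤ k → k < A + N → F k ≤ G (k + 1) - G k) :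
    ∑ k ∈ Ico A (A + N), F k ≤ G (A + N) - G A := by
  induction N with
  | zero => simp
  | succ N ih =>
    rw [← add_assoc, Finset.sum_Ico_succ_top (by omega)]
    have h1 := ih fun k hk hk' => hF k hk (by omega)
    have h2 := hF (A + N) (by omega) (by omega)
    linarith

lemma le_tele (F G : ℕ → ℝ) (A N : ℕ) (hF : ∀ k, A ≤ k → k < A + N → G (k + 1) - G k ≤ F k) :
    G (A + N) - G A ≤ ∑ k ∈ Ico A (A + N), F k := by
  induction N with
  | zero => simp
  | succ N ih =>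
    rw [← add_assoc, Finset.sum_Ico_succ_top (by omega)]
    have h1 := ih fun k hk hk' => hF k hk (by omega)
    have h2 := hF (A + N) (by omega) (by omega)
    linarith

/-- the main term -/
lemma main_term (n s P1 d r : ℕ) (A N : ℕ) (hd : 1 ≤ d) (hs : 2 ^ 46 ≤ s)
    (hds : d * 1000000 ≤ s) (hsn : s * s ≤ n) (hns : n < (s + 1) * (s + 1)) (hP : P1 = s + s / 50)
    (hA : s < d * A + r) (hA' : d * A + r ≤ s + d) (hN : d * (A + N) + r ≤ P1 + d)
    (hN' : P1 < d * (A + N) + r) :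
    |∑ k ∈ Ico A (A + N), g n ((d : ℝ) * k + r) - H (Real.sqrt n) P1 / d| ≤ 1 := by
  set R := Real.sqrt n with hRdef
  have hR : R ^ 2 = (n : ℝ) := Real.sq_sqrt (Nat.cast_nonneg n)
  have hR0 : 0 ≤ R := Real.sqrt_nonneg _
  have hn0 : (0 : ℝ) ≤ (n : ℝ) := Nat.cast_nonneg n
  have hsR : (s : ℝ) ^ 2 ≤ n := by
    have : ((s * s : ℕ) : ℝ) ≤ n := by exact_mod_cast hsn
    push_cast at this
    nlinarith
  have hRs : (n : ℝ) < ((s : ℝ) + 1) ^ 2 := by
    have : (n : ℝ) < (((s + 1) * (s + 1) : ℕ) : ℝ) := by exact_mod_cast hns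
    push_cast at this
    nlinarith
  have hs' : (2 : ℝ) ^ 46 ≤ s := by exact_mod_cast hs
  have hs1 : (70000000000000 : ℝ) ≤ s := by
    have : (70000000000000 : ℝ) ≤ 2 ^ 46 := by norm_num
    linarith
  have hd' : (1 : ℝ) ≤ d := by exact_mod_cast hd
  have hds' : (d : ℝ) * 1000000 ≤ s := by exact_mod_cast hds
  have hs0 : (0 : ℝ) < s := by linarith
  have hsR1 : (s : ℝ) ≤ R := by
    by_contra hc
    push Not at hc
    nlinarith
  have hRs1 : R < (s : ℝ) + 1 := by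
    by_contra hc
    push Not at hc
    nlinarith
  have hP1 : (P1 : ℝ) ≤ s + s / 50 := by
    have : ((s / 50 : ℕ) : ℝ) ≤ (s : ℝ) / 50 := by
      have := Nat.cast_div_le (α := ℝ) (m := s) (n := 50)
      simpa using this
    rw [hP]
    push_cast
    linarith
  have hsP : (s : ℝ) + 1 ≤ P1 := by
    have : s + 1 ≤ P1 := by omega
    exact_mod_cast this
  have hA1 : (s : ℝ) + 1 ≤ (d : ℝ) * A + r := by
    have : s + 1 ≤ d * A + r := by omega
    exact_mod_cast this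
  have hA2 : (d : ℝ) * A + r ≤ s + d := by exact_mod_cast hA'
  have hN1 : (d : ℝ) * ((A + N : ℕ) : ℝ) + r ≤ P1 + d := by exact_mod_cast hN
  have hN2 : (P1 : ℝ) < (d : ℝ) * ((A + N : ℕ) : ℝ) + r := by exact_mod_cast hN'
  have hhnn : ∀ t : ℝ, (s : ℝ) + 1 ≤ t → 0 ≤ h n t := by
    intro t ht
    rw [h, sub_nonneg, div_le_one (by nlinarith)]
    nlinarith
  have hh1 : ∀ t : ℝ, (s : ℝ) + 1 ≤ t → t ≤ P1 + d → h n t ≤ 0.1 := by
    intro t ht ht'
    have h2 : t ≤ 1.03 * s := by nlinarith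
    have h3 : 0.9 ≤ (n : ℝ) / t ^ 2 := by
      rw [le_div_iff₀ (by nlinarith)]
      nlinarith
    rw [h]
    linarith
  have hmono : ∀ k : ℕ, A ≤ k → (s : ℝ) + 1 ≤ (d : ℝ) * k + r := by
    intro k hk
    have h1 : (A : ℝ) ≤ k := by exact_mod_cast hk
    nlinarith
  have hmono' : ∀ k : ℕ, k ≤ A + N → (d : ℝ) * k + r ≤ P1 + d := by
    intro k hk
    have h1 : (k : ℝ) ≤ ((A + N : ℕ) : ℝ) := by exact_mod_cast hk
    nlinarith
  -- the sum of `h`
  have hup : ∑ k ∈ Ico A (A + N), (d : ℝ) * h n ((d : ℝ) * k + r) ≤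
      H R ((d : ℝ) * ((A + N : ℕ) : ℝ) + r) - H R ((d : ℝ) * A + r) := by
    refine tele_le _ (fun k : ℕ => H R ((d : ℝ) * k + r)) A N fun k hk hk' => ?_
    have h1 := le_H (a := (d : ℝ) * k + r) (b := (d : ℝ) * ((k + 1 : ℕ) : ℝ) + r) hR hn0
      (by linarith [hmono k hk]) (by push_cast; linarith)
    refine le_trans (le_of_eq ?_) h1
    push_cast
    ring
  have hlo : H R ((d : ℝ) * ((A + N : ℕ) : ℝ) + r - d) - H R ((d : ℝ) * A + r - d) ≤
      ∑ k ∈ Ico A (A + N), (d : ℝ) * h n ((d : ℝ) * k + r) := by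
    refine le_tele _ (fun k : ℕ => H R ((d : ℝ) * k + r - d)) A N fun k hk hk' => ?_
    have h1 := H_le (a := (d : ℝ) * k + r - d) (b := (d : ℝ) * k + r) hR hn0
      (by nlinarith [hmono k hk]) (by linarith)
    have h2 : (d : ℝ) * ((k + 1 : ℕ) : ℝ) + r - d = (d : ℝ) * k + r := by push_cast; ring
    rw [h2]
    refine le_trans h1 (le_of_eq ?_)
    ring
  have hHnn : ∀ t : ℝ, 0 < t → 0 ≤ H R t := fun t ht => by rw [H]; positivity
  have hup2 : H R ((d : ℝ) * ((A + N : ℕ) : ℝ) + r) ≤ H R P1 + d * 0.1 := by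
    have h1 := H_le (a := (P1 : ℝ)) (b := (d : ℝ) * ((A + N : ℕ) : ℝ) + r) hR hn0
      (by linarith) hN2.le
    have h2 := hh1 ((d : ℝ) * ((A + N : ℕ) : ℝ) + r) (by linarith) hN1
    have h3 := hhnn ((d : ℝ) * ((A + N : ℕ) : ℝ) + r) (by linarith)
    nlinarith
  have hlo2 : H R P1 - d * 0.1 ≤ H R ((d : ℝ) * ((A + N : ℕ) : ℝ) + r - d) := by
    have h1 := H_le (a := (d : ℝ) * ((A + N : ℕ) : ℝ) + r - d) (b := (P1 : ℝ)) hR hn0
      (by linarith) (by linarith)
    have h2 := hh1 (P1 : ℝ) (by linarith) (by linarith)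
    have h3 := hhnn (P1 : ℝ) (by linarith)
    nlinarith
  have hlo3 : H R ((d : ℝ) * A + r - d) ≤ d * 0.1 := by
    set v := (d : ℝ) * A + r - d with hv
    have hv1 : (s : ℝ) - d ≤ v := by linarith
    have hv2 : v ≤ s := by linarith
    have hv0 : 0 < v := by linarith
    rw [H, div_le_iff₀ hv0]
    have h1 : R - v ≤ d + 1 := by linarith
    have h2 : 0 ≤ R - v := by linarith
    have h3 : (v - R) ^ 2 ≤ (d + 1) ^ 2 := by
      have : (v - R) ^ 2 = (R - v) ^ 2 := by ring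
      rw [this]
      exact pow_le_pow_left₀ h2 h1 2
    have h4 : ((d : ℝ) + 1) ^ 2 ≤ d * 0.1 * v := by
      have h5 : (999999 : ℝ) * d ≤ v := by linarith
      nlinarith
    linarith
  -- the sum of `g`
  have hgh : ∀ k ∈ Ico A (A + N), g n ((d : ℝ) * k + r) ≤ h n ((d : ℝ) * k + r) + 0.1 / s := by
    intro k hk
    rw [mem_Ico] at hk
    have h1 := hmono k hk.1
    have h2 := hh1 _ h1 (hmono' k hk.2.le)
    have h3 := hhnn _ h1
    rw [g_eq (by linarith)]
    have : h n ((d : ℝ) * k + r) / ((d : ℝ) * k + r - 1) ≤ 0.1 / s := by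
      apply div_le_div₀ (by norm_num) h2 hs0 (by linarith)
    linarith
  have hhg : ∀ k ∈ Ico A (A + N), h n ((d : ℝ) * k + r) ≤ g n ((d : ℝ) * k + r) := by
    intro k hk
    rw [mem_Ico] at hk
    have h1 := hmono k hk.1
    have h3 := hhnn _ h1
    rw [g_eq (by linarith)]
    have : 0 ≤ h n ((d : ℝ) * k + r) / ((d : ℝ) * k + r - 1) := div_nonneg h3 (by linarith)
    linarith
  have hNs : (N : ℝ) ≤ s := by
    have h1 : (d : ℝ) * ((A + N : ℕ) : ℝ) = d * A + d * N := by push_cast; ring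
    have h2 : (d : ℝ) * N ≤ s := by nlinarith
    nlinarith
  have hS1 : ∑ k ∈ Ico A (A + N), g n ((d : ℝ) * k + r) ≤
      ∑ k ∈ Ico A (A + N), h n ((d : ℝ) * k + r) + 0.1 := by
    have h1 := sum_le_sum hgh
    rw [sum_add_distrib, sum_const, Nat.card_Ico, nsmul_eq_mul] at h1
    have h2 : ((A + N - A : ℕ) : ℝ) * (0.1 / s) ≤ 0.1 := by
      rw [show A + N - A = N by omega, ← mul_div_assoc, div_le_iff₀ hs0]
      nlinarith
    linarith
  have hS2 := sum_le_sum hhg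
  rw [← mul_sum] at hup hlo
  have hd0 : (0 : ℝ) < d := by linarith
  set S := ∑ k ∈ Ico A (A + N), h n ((d : ℝ) * k + r) with hSdef
  have hA0 := hHnn ((d : ℝ) * A + r) (by linarith)
  have hfin1 : S ≤ H R P1 / d + 0.1 := by
    have : S = (d * S) / d := by field_simp
    rw [this, div_add' _ _ _ hd0.ne']
    apply div_le_div_of_nonneg_right _ hd0.le
    linarith
  have hfin2 : H R P1 / d - 0.2 ≤ S := by
    have : S = (d * S) / d := by field_simp
    rw [this, div_sub' hd0.ne']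
    apply div_le_div_of_nonneg_right _ hd0.le
    linarith
  rw [abs_le]
  constructor
  · linarith
  · linarith

lemma second_diff {c u e : ℝ} (hu : 0 < u) (he : 0 < e) :
    c / (u + 2 * e) - 2 * (c / (u + e)) + c / u = 2 * c * e ^ 2 / (u * (u + e) * (u + 2 * e)) := by
  field_simp
  ring

lemma sd_upper {c u d s : ℝ} (hs : 70000000000000 ≤ s) (hd : 1 ≤ d) (hc0 : 0 ≤ c)
    (hc : c ≤ s ^ 2 + 2 * s) (hu : s ≤ u) :
    c / (u + 2 * d) - 2 * (c / (u + d)) + c / u ≤ 2.01 * d ^ 2 / s := by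
  have hs0 : 0 < s := by linarith
  have hu0 : 0 < u := by linarith
  rw [second_diff hu0 (by linarith)]
  have h1 : s * s * s ≤ u * (u + d) * (u + 2 * d) := by
    have h2 : s * s ≤ u * (u + d) := mul_le_mul hu (by linarith) hs0.le hu0.le
    exact mul_le_mul h2 (by linarith) hs0.le (by positivity)
  calc 2 * c * d ^ 2 / (u * (u + d) * (u + 2 * d)) ≤ 2 * c * d ^ 2 / (s * s * s) :=
        div_le_div_of_nonneg_left (by positivity) (by positivity) h1
    _ ≤ 2.01 * d ^ 2 / s := by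
        rw [div_le_div_iff₀ (by positivity) hs0]
        have h3 : 2 * c ≤ 2.01 * (s * s) := by nlinarith
        have h4 : 0 ≤ d ^ 2 * s := by positivity
        nlinarith

lemma sd_lower {c u d s : ℝ} (hs : 70000000000000 ≤ s) (hd : 1 ≤ d) (hds : d * 1000000 ≤ s)
    (hc : s ^ 2 - 1 ≤ c) (hu : 0 < u) (hu2 : u ≤ s + s / 50) :
    2 * d ^ 2 / (1.07 * s) ≤ c / (u + 2 * d) - 2 * (c / (u + d)) + c / u := by
  have hs0 : 0 < s := by linarith
  rw [second_diff hu (by linarith)]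
  have h1 : u * (u + d) * (u + 2 * d) ≤ (1.02001 * s) * (1.02001 * s) * (1.02001 * s) := by
    have h2 : u * (u + d) ≤ (1.02001 * s) * (1.02001 * s) :=
      mul_le_mul (by linarith) (by linarith) (by linarith) (by linarith)
    exact mul_le_mul h2 (by linarith) (by linarith) (by positivity)
  have hc0 : 0 ≤ c := by nlinarith
  rw [div_le_div_iff₀ (by positivity) (by positivity)]
  have h3 : (1.02001 * s) * (1.02001 * s) * (1.02001 * s) ≤ c * (1.07 * s) := by
    have : (1.02001 * s) * (1.02001 * s) * (1.02001 * s) ≤ (s ^ 2 - 1) * (1.07 * s) := by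
      have h4 : 1 ≤ s ^ 2 * 0.001 := by nlinarith
      have h5 : (1.02001 * 1.02001 * 1.02001 * s ^ 2 : ℝ) ≤ 1.07 * (s ^ 2 - 1) := by
        nlinarith
      nlinarith
    refine le_trans this (mul_le_mul_of_nonneg_right hc (by positivity))
  have h4 := le_trans h1 h3
  have h5 : 0 ≤ 2 * d ^ 2 := by positivity
  nlinarith

/-- the numerical heart -/
lemma numeric {s d y N Q L M : ℝ} (hd : 1 ≤ d) (hy : 5000 ≤ y) (hsy : s = 2.01 * d ^ 2 * y ^ 3)
    (hN0 : 0 ≤ N) (hN : N ≤ s / (50 * d) + 1) (hQ : Q ≤ y) (hQ' : y - 1 ≤ Q) (hL0 : 0 ≤ L)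
    (hLM : L ≤ M) (hLQ : L ≤ 0.0019 * Q) :
    2 * (N * ((2.01 * d ^ 2 / s) / (2 * d ^ 2 / (1.07 * s))) / Q * (2 * L + 14) +
      2 * (Q + 1) * (2.01 * d ^ 2 / s) * N +
        8 / (Q * (2 * d ^ 2 / (1.07 * s))) * (5 / 6 + 3 * (1 + L) / Q) + (7 + L + Q / 2)) + 1 ≤
      y ^ 2 * (d * (0.1736 * M + 1.217) + 14.5) := by
  have hy0 : 0 < y := by linarith
  have hQ0 : 0 < Q := by linarith
  have hd0 : 0 < d := by linarith
  have hs0 : 0 < s := by rw [hsy]; positivity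
  have hy2 : 25000000 ≤ y ^ 2 := by nlinarith
  have hy3 : y ^ 3 = y * y ^ 2 := by ring
  have e1 : (2.01 * d ^ 2 / s) / (2 * d ^ 2 / (1.07 * s)) = 1.07535 := by
    field_simp
    norm_num
  have e2 : 2.01 * d ^ 2 / s = 1 / y ^ 3 := by
    rw [hsy]
    field_simp
  have e3 : 8 / (Q * (2 * d ^ 2 / (1.07 * s))) = 8.6028 * y ^ 3 / Q := by
    rw [hsy]
    field_simp
    norm_num
  have e4 : s / (50 * d) = 0.0402 * d * y ^ 3 := by
    rw [hsy]
    field_simp
    norm_num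
  rw [e1, e2, e3]
  rw [e4] at hN
  have hNQ : N / Q ≤ 0.0403 * d * y ^ 2 := by
    rw [div_le_iff₀ hQ0]
    have h1 : 0.0403 * d * y ^ 2 * (y - 1) ≤ 0.0403 * d * y ^ 2 * Q :=
      mul_le_mul_of_nonneg_left hQ' (by positivity)
    have h2 : 0.0402 * d * y ^ 3 + 1 ≤ 0.0403 * d * y ^ 2 * (y - 1) := by
      have h3 : 1 ≤ d * y ^ 2 := by nlinarith
      have h4 : d * y ^ 2 * 5000 ≤ d * y ^ 2 * y :=
        mul_le_mul_of_nonneg_left hy (by positivity)
      nlinarith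
    linarith
  have t1 : N * 1.07535 / Q * (2 * L + 14) ≤ y ^ 2 * (d * (0.0868 * M + 0.6073)) := by
    have h1 : N * 1.07535 / Q = N / Q * 1.07535 := by ring
    rw [h1]
    have h2 : N / Q * 1.07535 ≤ 0.04338 * d * y ^ 2 := by
      have h3 : 0 ≤ d * y ^ 2 := by positivity
      nlinarith
    have h4 : N / Q * 1.07535 * (2 * L + 14) ≤ 0.04338 * d * y ^ 2 * (2 * M + 14) := by
      apply mul_le_mul h2 (by linarith) (by linarith) (by positivity)
    have h5 : 0 ≤ d * y ^ 2 := by positivity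
    have h6 : 0 ≤ d * y ^ 2 * M := mul_nonneg h5 (by linarith)
    nlinarith
  have t2 : 2 * (Q + 1) * (1 / y ^ 3) * N ≤ y ^ 2 * (d * 0.0001) := by
    have h1 : 1 / y ^ 3 * N ≤ 0.0403 * d := by
      rw [one_div, inv_mul_le_iff₀ (by positivity)]
      have h3 : 1 ≤ 0.0001 * d * y ^ 3 := by
        rw [hy3]
        have h4 : 25000000 * 5000 ≤ y * y ^ 2 := by nlinarith
        nlinarith
      linarith
    have h2 : 2 * (Q + 1) * (1 / y ^ 3) * N = 2 * (Q + 1) * (1 / y ^ 3 * N) := by ring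
    rw [h2]
    have h3 : 2 * (Q + 1) * (1 / y ^ 3 * N) ≤ 2 * (y + 1) * (0.0403 * d) := by
      apply mul_le_mul (by linarith) h1 (by positivity) (by positivity)
    have h4 : 2 * (y + 1) * 0.0403 ≤ y ^ 2 * 0.0001 := by nlinarith
    nlinarith
  have t3 : 8.6028 * y ^ 3 / Q * (5 / 6 + 3 * (1 + L) / Q) ≤ 7.24 * y ^ 2 := by
    have h1 : y ^ 3 / Q ≤ 1.0003 * y ^ 2 := by
      rw [div_le_iff₀ hQ0]
      have h2 : 1.0003 * y ^ 2 * (y - 1) ≤ 1.0003 * y ^ 2 * Q :=
        mul_le_mul_of_nonneg_left hQ' (by positivity)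
      have h4 : y ^ 2 * 5000 ≤ y ^ 2 * y :=
        mul_le_mul_of_nonneg_left hy (by positivity)
      nlinarith
    have h3 : 3 * (1 + L) / Q ≤ 0.0065 := by
      rw [div_le_iff₀ hQ0]
      linarith
    have h4 : 8.6028 * y ^ 3 / Q = 8.6028 * (y ^ 3 / Q) := by ring
    rw [h4]
    have h5 : 8.6028 * (y ^ 3 / Q) * (5 / 6 + 3 * (1 + L) / Q) ≤
        8.6028 * (1.0003 * y ^ 2) * (5 / 6 + 0.0065) := by
      apply mul_le_mul (by linarith) (by linarith) (by positivity) (by positivity)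
    have h6 : 0 ≤ y ^ 2 := by positivity
    nlinarith
  have t4 : 7 + L + Q / 2 ≤ 0.0005 * y ^ 2 := by nlinarith
  have h7 : 0 ≤ d * y ^ 2 := by positivity
  have h8 : 0 ≤ d * y ^ 2 * M := mul_nonneg h7 (by linarith)
  nlinarith

/-- `s ^ (2/3)` from below -/
lemma rpow_lower {s y ρ : ℝ} (hs : 0 < s) (h : (ρ * y ^ 2) ^ 3 ≤ s ^ 2) :
    ρ * y ^ 2 ≤ s ^ (2 / 3 : ℝ) := by
  have h1 : (s ^ (2 / 3 : ℝ)) ^ 3 = s ^ 2 := by
    rw [← Real.rpow_natCast (s ^ (2 / 3 : ℝ)) 3, ← Real.rpow_mul hs.le]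
    norm_num
  rw [← h1] at h
  exact le_of_pow_le_pow_left₀ (by norm_num) (by positivity) h

/-- the final numerical comparison -/
lemma final_num {s y M : ℝ} {d : ℕ} (hd : 1 ≤ d) (hy : 5000 ≤ y)
    (hsy : s = 2.01 * (d : ℝ) ^ 2 * y ^ 3) (hM0 : 0 ≤ M) (hM : M = Real.log y) :
    y ^ 2 * (d * (0.1736 * M + 1.217) + 14.5) ≤
      ((if d = 1 then 11 else 5) + 0.05 * Real.log s) * s ^ (2 / 3 : ℝ) := by
  have hd0 : (0 : ℝ) < d := by exact_mod_cast hd
  have hd1 : (1 : ℝ) ≤ d := by exact_mod_cast hd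
  have hy0 : 0 < y := by linarith
  have hs0 : 0 < s := by rw [hsy]; positivity
  have hlog : 3 * M + 0.69 ≤ Real.log s := by
    have h1 : 2 * y ^ 3 ≤ s := by
      rw [hsy]
      have : 1 ≤ (d : ℝ) ^ 2 := by nlinarith
      have : 0 < y ^ 3 := by positivity
      nlinarith
    have h2 := Real.log_le_log (by positivity) h1
    rw [Real.log_mul (by norm_num) (by positivity), Real.log_pow] at h2
    have h3 := Real.log_two_gt_d9
    push_cast at h2
    rw [hM]
    linarith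
  rcases Nat.eq_or_lt_of_le hd with h1 | h1
  · subst h1
    have h2 : 1.592 * y ^ 2 ≤ s ^ (2 / 3 : ℝ) := by
      apply rpow_lower hs0
      rw [hsy]
      have : 0 < y ^ 6 := by positivity
      norm_num
      nlinarith
    rw [if_pos rfl]
    have h3 : (11 + 0.05 * (3 * M + 0.69)) * (1.592 * y ^ 2) ≤
        (11 + 0.05 * Real.log s) * s ^ (2 / 3 : ℝ) := by
      apply mul_le_mul (by linarith) h2 (by positivity)
      have : 0 ≤ Real.log s := by linarith
      positivity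
    have h4 : 0 ≤ y ^ 2 := by positivity
    have h5 : 0 ≤ y ^ 2 * M := by positivity
    push_cast
    nlinarith
  · have hd2 : (2 : ℝ) ≤ d := by exact_mod_cast h1
    have h2 : 1.98 * d * y ^ 2 ≤ s ^ (2 / 3 : ℝ) := by
      apply rpow_lower hs0
      rw [hsy]
      have h3 : 0 < (d : ℝ) ^ 3 * y ^ 6 := by positivity
      have h4 : (2 : ℝ) * ((d : ℝ) ^ 3 * y ^ 6) ≤ d * ((d : ℝ) ^ 3 * y ^ 6) :=
        mul_le_mul_of_nonneg_right hd2 h3.le
      nlinarith
    rw [if_neg (by omega)]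
    have h3 : (5 + 0.05 * (3 * M + 0.69)) * (1.98 * d * y ^ 2) ≤
        (5 + 0.05 * Real.log s) * s ^ (2 / 3 : ℝ) := by
      apply mul_le_mul (by linarith) h2 (by positivity)
      have : 0 ≤ Real.log s := by linarith
      positivity
    have h4 : 0 ≤ y ^ 2 := by positivity
    have h5 : 0 ≤ d * y ^ 2 * M := by positivity
    have h6 : 2 * y ^ 2 ≤ d * y ^ 2 := by nlinarith
    nlinarith

/-- `log Q` is small compared with `Q` -/
lemma log_small {Q : ℝ} (hQ : 4999 ≤ Q) : Real.log Q ≤ 0.0019 * Q := by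
  have h1 : Real.log (Q / 8192) ≤ Q / 8192 - 1 := Real.log_le_sub_one_of_pos (by positivity)
  have h2 : Real.log (Q / 8192) = Real.log Q - 13 * Real.log 2 := by
    rw [Real.log_div (by linarith) (by norm_num), show (8192 : ℝ) = 2 ^ 13 by norm_num,
      Real.log_pow]
    push_cast
    ring
  have h3 := Real.log_two_lt_d9
  rw [h2] at h1
  linarith

/-- the counted set as a sum -/
lemma Sc_eq (n d r s P1 A N : ℕ) (hr : r < d)
    (hA : s < d * A + r) (hA' : d * A + r ≤ s + d) (hN : d * (A + N) + r ≤ P1 + d)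
    (hN' : P1 < d * (A + N) + r) :
    (Sc n d r s P1 : ℝ) = ∑ k ∈ Ico A (A + N),
      if n / (d * k + r) + n % (d * k + r) < d * k + r then (1 : ℝ) else 0 := by
  have hd : 0 < d := by omega
  have himg : (Ioc s P1).filter (fun p => p % d = r) =
      (Ico A (A + N)).image (fun k => d * k + r) := by
    ext p
    simp only [mem_filter, mem_Ioc, mem_image, mem_Ico]
    constructor
    · rintro ⟨⟨h1, h2⟩, h3⟩
      have h4 : d * (p / d) + r = p := by rw [← h3]; exact Nat.div_add_mod p d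
      refine ⟨p / d, ⟨?_, ?_⟩, h4⟩
      · by_contra hc
        push Not at hc
        have h5 : d * (p / d + 1) ≤ d * A := Nat.mul_le_mul_left d hc
        have h6 : d * (p / d + 1) = d * (p / d) + d := by ring
        omega
      · by_contra hc
        push Not at hc
        have h5 : d * (A + N) ≤ d * (p / d) := Nat.mul_le_mul_left d hc
        omega
    · rintro ⟨k, ⟨h1, h2⟩, rfl⟩
      have h3 : d * A ≤ d * k := Nat.mul_le_mul_left d h1
      have h4 : d * (k + 1) ≤ d * (A + N) := Nat.mul_le_mul_left d h2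
      have h5 : d * (k + 1) = d * k + d := by ring
      refine ⟨⟨by omega, by omega⟩, ?_⟩
      rw [Nat.mul_add_mod, Nat.mod_eq_of_lt hr]
  have h1 : Sc n d r s P1 = (((Ioc s P1).filter (fun p => p % d = r)).filter
      (fun p => n / p + n % p < p)).card := by
    rw [Sc, filter_filter]
  rw [h1, himg, card_filter, Nat.cast_sum, sum_image]
  · refine sum_congr rfl fun k _ => ?_
    split_ifs <;> simp
  · intro a _ b _ hab
    have h2 : d * a = d * b := by
      have : d * a + r = d * b + r := hab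
      omega
    exact Nat.eq_of_mul_eq_mul_left hd h2

lemma ten6 {s d : ℕ} (hs : 2 ^ 46 ≤ s) (hds : d ^ 12 ≤ s) : d * 1000000 ≤ s := by
  rcases le_or_gt 100 d with h | h
  · have h1 : 100 ^ 11 ≤ d ^ 11 := Nat.pow_le_pow_left h 11
    calc d * 1000000 ≤ d * d ^ 11 := Nat.mul_le_mul_left d (by omega)
      _ = d ^ 12 := by ring
      _ ≤ s := hds
  · omega

lemma y_large {s y : ℝ} {d : ℕ} (hd : 1 ≤ d) (hs : 2 ^ 46 ≤ s) (hds : (d : ℝ) ^ 12 ≤ s)
    (hy0 : 0 < y) (hsy : s = 2.01 * (d : ℝ) ^ 2 * y ^ 3) : 5000 ≤ y := by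
  by_contra hc
  push Not at hc
  have hd0 : (0 : ℝ) < d := by exact_mod_cast hd
  have hs0 : 0 < s := lt_of_lt_of_le (by positivity) hs
  have h1 : s ^ 6 = 2.01 ^ 6 * (d : ℝ) ^ 12 * y ^ 18 := by rw [hsy]; ring
  have h2 : y ^ 18 ≤ 5000 ^ 18 := pow_le_pow_left₀ hy0.le hc.le 18
  have h3 : s ^ 6 ≤ 2.01 ^ 6 * s * 5000 ^ 18 := by
    rw [h1]
    apply mul_le_mul _ h2 (by positivity) (by positivity)
    apply mul_le_mul_of_nonneg_left hds (by norm_num)
  have h4 : s ^ 5 ≤ 2.01 ^ 6 * 5000 ^ 18 := by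
    have h5 : s * s ^ 5 ≤ s * (2.01 ^ 6 * 5000 ^ 18) := by nlinarith
    exact le_of_mul_le_mul_left h5 hs0
  have h6 : (2 ^ 46 : ℝ) ^ 5 ≤ s ^ 5 := pow_le_pow_left₀ (by positivity) hs 5
  have h7 : (2.01 ^ 6 * 5000 ^ 18 : ℝ) < (2 ^ 46) ^ 5 := by norm_num
  linarith

end Count

open KB.Count in
theorem Sc_est (n d r : ℕ) (hd : 1 ≤ d) (hr : r < d) (hs : 2 ^ 46 ≤ Nat.sqrt n)
    (hds : d ^ 12 ≤ Nat.sqrt n) :
    |(Sc n d r (Nat.sqrt n) (Nat.sqrt n + Nat.sqrt n / 50) : ℝ) -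
      ((Nat.sqrt n + Nat.sqrt n / 50 : ℕ) - Real.sqrt n) ^ 2 /
        ((Nat.sqrt n + Nat.sqrt n / 50 : ℕ) : ℝ) / d| ≤
      ((if d = 1 then 11 else 5) + 0.05 * Real.log (Nat.sqrt n)) *
        (Nat.sqrt n : ℝ) ^ (2 / 3 : ℝ) := by
  have hsn := Nat.sqrt_le n
  have hns : n < (Nat.sqrt n + 1) * (Nat.sqrt n + 1) := Nat.lt_succ_sqrt n
  set s := Nat.sqrt n with hsdef
  obtain ⟨P1, hP⟩ : ∃ P1, P1 = s + s / 50 := ⟨_, rfl⟩
  rw [← hP]
  have h6 := ten6 hs hds
  have hdpos : 0 < d := by omega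
  -- the range of `k`
  obtain ⟨A, hAdef⟩ : ∃ A, A = (s - r) / d + 1 := ⟨_, rfl⟩
  have e1 := Nat.div_add_mod (s - r) d
  have e2 : (s - r) % d < d := Nat.mod_lt _ hdpos
  have e3 : d * A = d * ((s - r) / d) + d := by rw [hAdef]; ring
  have hA : s < d * A + r := by omega
  have hA' : d * A + r ≤ s + d := by omega
  obtain ⟨B, hBdef⟩ : ∃ B, B = (P1 - r) / d + 1 := ⟨_, rfl⟩
  have e4 := Nat.div_add_mod (P1 - r) d
  have e5 : (P1 - r) % d < d := Nat.mod_lt _ hdpos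
  have e6 : d * B = d * ((P1 - r) / d) + d := by rw [hBdef]; ring
  have hAB : A ≤ B := by
    rw [hAdef, hBdef]
    exact Nat.succ_le_succ (Nat.div_le_div_right (by omega))
  obtain ⟨N, rfl⟩ : ∃ N, B = A + N := ⟨B - A, by omega⟩
  have hN : d * (A + N) + r ≤ P1 + d := by omega
  have hN' : P1 < d * (A + N) + r := by omega
  have hmain := main_term n s P1 d r A N hd hs h6 hsn hns hP hA hA' hN hN'
  rw [Sc_eq n d r s P1 A N hr hA hA' hN hN']
  -- real versions
  have hs' : (2 : ℝ) ^ 46 ≤ s := by exact_mod_cast hs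
  have hs1 : (70000000000000 : ℝ) ≤ s := by
    have : (70000000000000 : ℝ) ≤ 2 ^ 46 := by norm_num
    linarith
  have hs0 : (0 : ℝ) < s := by linarith
  have hd' : (1 : ℝ) ≤ d := by exact_mod_cast hd
  have hd0 : (0 : ℝ) < d := by linarith
  have h6' : (d : ℝ) * 1000000 ≤ s := by exact_mod_cast h6
  have hsR : (s : ℝ) ^ 2 ≤ n := by
    have : ((s * s : ℕ) : ℝ) ≤ n := by exact_mod_cast hsn
    push_cast at this
    nlinarith
  have hRs : (n : ℝ) ≤ (s : ℝ) ^ 2 + 2 * s := by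
    have h1 : n ≤ s * s + 2 * s := by
      have : (s + 1) * (s + 1) = s * s + 2 * s + 1 := by ring
      omega
    have : (n : ℝ) ≤ ((s * s + 2 * s : ℕ) : ℝ) := by exact_mod_cast h1
    push_cast at this
    nlinarith
  have hP1 : (P1 : ℝ) ≤ s + s / 50 := by
    have : ((s / 50 : ℕ) : ℝ) ≤ (s : ℝ) / 50 := by
      have := Nat.cast_div_le (α := ℝ) (m := s) (n := 50)
      simpa using this
    rw [hP]
    push_cast
    linarith
  -- the cube root
  obtain ⟨y, hy0, hsy⟩ : ∃ y : ℝ, 0 < y ∧ (s : ℝ) = 2.01 * (d : ℝ) ^ 2 * y ^ 3 := by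
    refine ⟨((s : ℝ) / (2.01 * (d : ℝ) ^ 2)) ^ (1 / 3 : ℝ), by positivity, ?_⟩
    have h1 : (((s : ℝ) / (2.01 * (d : ℝ) ^ 2)) ^ (1 / 3 : ℝ)) ^ 3 =
        (s : ℝ) / (2.01 * (d : ℝ) ^ 2) := by
      rw [← Real.rpow_natCast _ 3, ← Real.rpow_mul (by positivity)]
      norm_num
    rw [h1]
    field_simp
  have hy := y_large hd hs' (by exact_mod_cast hds) hy0 hsy
  obtain ⟨Q, hQdef⟩ : ∃ Q, Q = ⌊y⌋₊ := ⟨_, rfl⟩
  have hQ1 : (Q : ℝ) ≤ y := by rw [hQdef]; exact Nat.floor_le hy0.le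
  have hQ2 : y - 1 ≤ Q := by
    have := Nat.lt_floor_add_one y
    rw [← hQdef] at this
    linarith
  have hQ4 : 4 ≤ Q := by
    have : (4 : ℝ) ≤ Q := by linarith
    exact_mod_cast this
  have hQ0 : (0 : ℝ) < Q := by linarith
  have hlam : (0 : ℝ) < 2 * (d : ℝ) ^ 2 / (1.07 * s) := by positivity
  have hQL : 2.01 * (d : ℝ) ^ 2 / s * (Q : ℝ) ^ 3 ≤ 1 := by
    have h1 : (Q : ℝ) ^ 3 ≤ y ^ 3 := pow_le_pow_left₀ hQ0.le hQ1 3
    have h2 : 2.01 * (d : ℝ) ^ 2 / s = 1 / y ^ 3 := by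
      rw [hsy]
      field_simp
    rw [h2, div_mul_eq_mul_div, one_mul, div_le_one (by positivity)]
    exact h1
  have hNb : (N : ℝ) ≤ s / (50 * d) + 1 := by
    have h1 : (d : ℝ) * A + d * N + r ≤ P1 + d := by
      have : ((d * (A + N) + r : ℕ) : ℝ) ≤ ((P1 + d : ℕ) : ℝ) := by exact_mod_cast hN
      push_cast at this
      linarith
    have h2 : (s : ℝ) ≤ d * A + r := by
      have : (s : ℝ) < ((d * A + r : ℕ) : ℝ) := by exact_mod_cast hA
      push_cast at this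
      linarith
    have h3 : (d : ℝ) * N ≤ s / 50 + d := by linarith
    have h4 : s / (50 * (d : ℝ)) + 1 = (s / 50 + d) / d := by
      field_simp
    rw [h4, le_div_iff₀ hd0]
    linarith
  have hL0 : 0 ≤ Real.log Q := Real.log_nonneg (by linarith)
  have hLM : Real.log Q ≤ Real.log y := Real.log_le_log hQ0 hQ1
  have hLQ : Real.log Q ≤ 0.0019 * Q := log_small (by linarith)
  have hnum := numeric (s := (s : ℝ)) (d := (d : ℝ)) (y := y) (N := (N : ℝ)) (Q := (Q : ℝ))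
    (L := Real.log Q) (M := Real.log y) hd' hy hsy (Nat.cast_nonneg N) hNb hQ1 hQ2 hL0 hLM hLQ
  have hfin := final_num (s := (s : ℝ)) (y := y) (M := Real.log y) hd hy hsy
    (le_trans hL0 hLM) rfl
  -- the two sawtooth sums
  have hk1 : ∀ k : ℕ, A ≤ k → (s : ℝ) + 1 ≤ (d : ℝ) * k + r := by
    intro k hk
    have h1 : d * A ≤ d * k := Nat.mul_le_mul_left d hk
    have h2 : s + 1 ≤ d * k + r := by omega
    exact_mod_cast h2
  have hk2 : ∀ k : ℕ, k < A + N → (d : ℝ) * k + r ≤ P1 := by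
    intro k hk
    have h1 : d * (k + 1) ≤ d * (A + N) := Nat.mul_le_mul_left d hk
    have h2 : d * (k + 1) = d * k + d := by ring
    have h3 : d * k + r ≤ P1 := by omega
    exact_mod_cast h3
  have hsaw1 := saw_bound (fun k : ℕ => (n : ℝ) / ((d : ℝ) * k + r)) A N Q
    (2 * (d : ℝ) ^ 2 / (1.07 * s)) (2.01 * (d : ℝ) ^ 2 / s) hQ4 hlam
    (by
      intro k hk hk'
      have h1 := hk1 k hk
      have h2 := hk2 k hk'
      have h3 := sd_lower (c := (n : ℝ)) (u := (d : ℝ) * k + r) (d := (d : ℝ)) (s := (s : ℝ))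
        hs1 hd' h6' (by linarith) (by linarith) (by linarith)
      refine le_trans h3 (le_of_eq ?_)
      push_cast
      ring_nf)
    (by
      intro k hk hk'
      have h1 := hk1 k hk
      have h2 := hk2 k hk'
      have h3 := sd_upper (c := (n : ℝ)) (u := (d : ℝ) * k + r) (d := (d : ℝ)) (s := (s : ℝ))
        hs1 hd' (by positivity) hRs (by linarith)
      refine le_trans (le_of_eq ?_) h3
      push_cast
      ring_nf) hQL
  have hsaw2 := saw_bound (fun k : ℕ => ((n : ℝ) - 1) / ((d : ℝ) * k + r - 1)) A N Q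
    (2 * (d : ℝ) ^ 2 / (1.07 * s)) (2.01 * (d : ℝ) ^ 2 / s) hQ4 hlam
    (by
      intro k hk hk'
      have h1 := hk1 k hk
      have h2 := hk2 k hk'
      have h3 := sd_lower (c := (n : ℝ) - 1) (u := (d : ℝ) * k + r - 1) (d := (d : ℝ))
        (s := (s : ℝ)) hs1 hd' h6' (by linarith) (by linarith) (by linarith)
      refine le_trans h3 (le_of_eq ?_)
      push_cast
      ring_nf)
    (by
      intro k hk hk'
      have h1 := hk1 k hk
      have h2 := hk2 k hk'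
      have h3 := sd_upper (c := (n : ℝ) - 1) (u := (d : ℝ) * k + r - 1) (d := (d : ℝ))
        (s := (s : ℝ)) hs1 hd' (by nlinarith) (by linarith) (by linarith)
      refine le_trans (le_of_eq ?_) h3
      push_cast
      ring_nf) hQL
  -- the decomposition
  have hdec : ∑ k ∈ Ico A (A + N),
      (if n / (d * k + r) + n % (d * k + r) < d * k + r then (1 : ℝ) else 0) =
      ∑ k ∈ Ico A (A + N), g n ((d : ℝ) * k + r) +
      (∑ k ∈ Ico A (A + N), (Int.fract (((n : ℝ) - 1) / ((d : ℝ) * k + r - 1)) - 1 / 2) -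
        ∑ k ∈ Ico A (A + N), (Int.fract ((n : ℝ) / ((d : ℝ) * k + r)) - 1 / 2)) := by
    rw [← sum_sub_distrib, ← sum_add_distrib]
    refine sum_congr rfl fun k hk => ?_
    rw [mem_Ico] at hk
    have h1 : d * A ≤ d * k := Nat.mul_le_mul_left d hk.1
    have h2 : s + 1 ≤ d * k + r := by omega
    have h3 : n < (d * k + r) * (d * k + r) :=
      lt_of_lt_of_le hns (Nat.mul_le_mul h2 h2)
    have h4 : 1 ≤ n := by
      have : 1 * 1 ≤ s * s := Nat.mul_le_mul (by omega) (by omega)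
      omega
    rw [ind_eq h4 (by omega) h3]
    push_cast
    ring
  rw [hdec]
  have hHeq : ((P1 : ℝ) - Real.sqrt n) ^ 2 / (P1 : ℝ) / d = H (Real.sqrt n) P1 / d := rfl
  rw [hHeq]
  rw [abs_le] at hmain hsaw1 hsaw2 ⊢
  refine ⟨?_, ?_⟩
  · linarith [hmain.1, hsaw1.2, hsaw2.1]
  · linarith [hmain.2, hsaw1.1, hsaw2.2]

end KB
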