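import Pool.Agent.Helper77.KB.Defs

/-!
# KB-2: the finite check
-/

set_option autoImplicit false
set_option maxRecDepth 100000

namespace KB

namespace Finite

/-- force the evaluation of a natural number by the kernel -/
def force {β : Type} (x : ℕ) (f : ℕ → β) : β :=
  Nat.rec (motive := fun _ => β) (f 0) (fun k _ => f (Nat.succ k)) x

theorem force_eq {β : Type} (x : ℕ) (f : ℕ → β) : force x f = f x := by
  cases x <;> rfl

/-- force the evaluation of a positive natural number by the kernel -/
def forceB (x : ℕ) (f : ℕ → Bool) : Bool :=
  Nat.rec (motive := fun _ => Bool) false (fun k _ => f (Nat.succ k)) x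

theorem of_forceB {x : ℕ} {f : ℕ → Bool} (h : forceB x f = true) : f x = true := by
  cases x with
  | zero => exact absurd (show false = true from h) (by decide)
  | succ k => exact h

/-- branching -/
theorem of_rec {a b c : Bool} (h : Bool.rec (motive := fun _ => Bool) a b c = true) :
    (c = true ∧ b = true) ∨ (c = false ∧ a = true) := by
  cases c with
  | true => exact Or.inl ⟨rfl, h⟩
  | false => exact Or.inr ⟨rfl, h⟩

/-- product of the numbers which are coprime to the product so far -/
def primLoop (fuel : ℕ) : ℕ → ℕ → ℕ :=
  Nat.rec (motive := fun _ => ℕ → ℕ → ℕ) (fun _ acc => acc)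
    (fun _ ih k acc =>
      cond (Nat.beq (Nat.gcd k acc) 1)
        (force (Nat.mul acc k) fun a => force (Nat.succ k) fun k' => ih k' a)
        (force (Nat.succ k) fun k' => ih k' acc)) fuel

theorem primLoop_succ (f k acc : ℕ) : primLoop (f + 1) k acc =
    cond (Nat.beq (Nat.gcd k acc) 1) (primLoop f (k + 1) (acc * k)) (primLoop f (k + 1) acc) := by
  show cond (Nat.beq (Nat.gcd k acc) 1)
        (force (Nat.mul acc k) fun a => force (Nat.succ k) fun k' => primLoop f k' a)
        (force (Nat.succ k) fun k' => primLoop f k' acc) = _
  rw [force_eq, force_eq]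
  rfl

theorem primLoop_dvd (f : ℕ) : ∀ k acc : ℕ, (∀ p, p.Prime → p < k → p ∣ acc) →
    ∀ p, p.Prime → p < k + f → p ∣ primLoop f k acc := by
  induction f with
  | zero => intro k acc h p hp hlt; exact h p hp (by simpa using hlt)
  | succ f ih =>
    intro k acc h p hp hlt
    rw [primLoop_succ]
    cases hg : Nat.beq (Nat.gcd k acc) 1 with
    | true =>
      rw [cond_true]
      refine ih (k + 1) (acc * k) ?_ p hp (by omega)
      intro q hq hqk
      rcases Nat.lt_succ_iff_lt_or_eq.1 hqk with h1 | h1
      · exact dvd_mul_of_dvd_left (h q hq h1) _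
      · rw [h1]; exact dvd_mul_left _ _
    | false =>
      rw [cond_false]
      refine ih (k + 1) acc ?_ p hp (by omega)
      intro q hq hqk
      rcases Nat.lt_succ_iff_lt_or_eq.1 hqk with h1 | h1
      · exact h q hq h1
      · subst h1
        by_contra hnd
        have hc : Nat.gcd q acc = 1 := (Nat.Prime.coprime_iff_not_dvd hq).2 hnd
        rw [hc] at hg
        exact absurd hg (by decide)

/-- the product of the primes up to `11590` -/
def PP : ℕ :=
  1206748254707025772955900234223959497219776082040953065499274349049583757625903482165779814498475431711432290462068511512244811208926352292930805362654967397464736945853385118056441951085589150981717723725245531521103153163477324494753157394643071487506833702507912550931600475227975498012366002880384015616884406292025783087467781939462642482382103444229237983257031554095087533635125991485061921677118101182132104664207312547445503963021520756581284173248041992200391898859754142541825788840908280474139971303699651551438533653691764520926405663142791077651597608936049592685002026555302513000597997743286140919235385246099737981531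1487734284572791182220978759134932187010439755993871946098932929014930441434538643182706338888062945468902586820641633078440860578677662439228523894290137883183769507689824737968086861945130292662226906961693454436031622628729372772380347135041511634865878844236620101769968809054896933735913147272504413278983349749495163971341837889140493022479547453647931938172163652764932900382601646237069156123744459223974045274168593309646696376056106149345336474831622733143598652287254330158177613251717211250080474888020537123813792431881735919032128336430727819548188156811369920744641046667050534729484549853404680965847282115895728671071527331072882180551633503998506914717893587154180914887269466591157353603276510870310376518927768482907205316085206939048539283351990382654439813465325320788084372533435853208788600643313469460093426892661964000900662769120911759812541650887138149641792158044472226643904110753580504828072734552145153151655684016975496418965047302563055505824249608209569894423479778814812076148646585762328203989928952656416734276590928488555860408244367728039257027903612405844773351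2604091248083503331847210560446770498889204560048946185565613824500790904500828460737952061416305313568033977174101304731908148777398677902624396129594425271482903260843873028377631123402186052615912613060623914922604588731601840932304208426144377394278533487031938242407139515111922071714466890245231339038680510406146192475663555193372107302816841573412190960002128620343418319921843046178225971528230878133093628604109125156484963483067072695833104008305745330580859945473326452821671529345462921566744303422639318968482531317552098796208298528151137118038678811233035742831899947146322357998599079052178141431737605227575237140151046094521054026215159842114375766280389453139106759830980156109390456006092481394296802043613620497656866797150914725802760610860896260543031634228323220280820894520225492245387015411752163137736530220158258232447359064764193133462295483418200797690636277941624490091567136567165510364760244545762070778784617019095276357229231541551972627578965486101907850375156993564527538493847471238710775562213002904406445038268685833357381068643764683899380838250993023893637784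6156088674736797302062497823337308669135987338127881367507673838371236255097489534418747188037836256181163461414122816650110302803802355626866134700281258557422735311087621926038866830764242143702004716487654749240705985983950699888701030238270387498947934496220148920188943210693203308778150729794288838640075922082655002163423964508293704581696528670483721056371577859468242571985041328714438589725678952838228953950121388522909191393026920588098593391193945288067391538462026199546723373888241479347618206746515934517415059151553584005158741465581800267890142951056796969674052466250343408956434119761509507732775795368624665192779550265506106144496387753040373726008538650991386549653988371163717041545775437815144667781862939871414303944391330409372968680907936771263992416551914690410141794112216502118865203168205712177889374943781022189411611136802916436311532606539040287864153608215711701227326348611128880010998477074547497905358038604250708479778525183481615511998972046611982802866126029869722802937066328814703482253155215691969399772706837062271843543261761089238495086653451818239797205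7422050280583067212354882608072441594422240482507126618596762954071224275581281041083431513929025294114411551620157117885088600680338717874521884926545145597484324617570952979815820538321155622550696097487207136455239101487542374124575407418691689967145076258415275277430703099261155098211591400158238176845990475163118890740917836937615877856368215694908352339786989849412141336571597529065864759585780592485705529345052540735943492328054959246049549693650301243653780685189314487871620238927178734368944977973641032933977467559143516840422047321648988297043389887386650773279823530021942013123720394920459250112449447790780541539970929378315159525349421047622821809182891878742583790445337777723690725625111623361167223557741967361168785482144273226766493448582178196043432254351266695973125623827756713598731813299568689032288612600712514021827720356747390413670289918214640802869525746995911204340855804969605478325628863633913845069837826491765137057408235392293517702818484704196799433734532046683821421436502582026570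

theorem PP_eq : Nat.beq (primLoop 11589 2 1) PP = true := by decide +kernel

theorem dvd_PP (p : ℕ) (hp : p.Prime) (hlt : p < 11591) : p ∣ PP := by
  rw [← Nat.eq_of_beq_eq_true PP_eq]
  refine primLoop_dvd 11589 2 1 ?_ p hp (by omega)
  intro q hq hq2
  have := hq.two_le
  omega

theorem prime_of_gcd {y P B : ℕ} (hP : ∀ p, p.Prime → p < B → p ∣ P) (h1 : 1 < y)
    (h2 : y < B * B) (hg : Nat.gcd y P = 1) : y.Prime := by
  by_contra hnp
  have hm : (Nat.minFac y).Prime := Nat.minFac_prime (by omega)
  have hsq : Nat.minFac y ^ 2 ≤ y := Nat.minFac_sq_le_self (by omega) hnp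
  have hlt : Nat.minFac y < B := by
    by_contra hcon
    push Not at hcon
    have : B * B ≤ Nat.minFac y * Nat.minFac y := Nat.mul_le_mul hcon hcon
    rw [← pow_two (Nat.minFac y)] at this
    omega
  have hd : Nat.minFac y ∣ Nat.gcd y P := Nat.dvd_gcd (Nat.minFac_dvd y) (hP _ hm hlt)
  rw [hg] at hd
  exact hm.one_lt.ne' (Nat.dvd_one.1 hd)

/-! ### three consecutive members of a chain of primes -/

theorem two_missed {n q0 p p' q3 : ℕ} (h0 : q0 * q0 ≤ n) (hn : n < p * p) (hpp : p + 2 ≤ p')
    (hq3 : p' ≤ q3) (hs : (q3 - q0) * (q3 - q0) < q3) (hm : n / p + n % p < p)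
    (hm' : n / p' + n % p' < p') : False := by
  have e : p * (n / p) + n % p = n := Nat.div_add_mod n p
  have e' : p' * (n / p') + n % p' = n := Nat.div_add_mod n p'
  have hq0p : q0 < p := Nat.mul_self_lt_mul_self_iff.1 (lt_of_le_of_lt h0 hn)
  generalize n / p = a at *
  generalize n % p = b at *
  generalize n / p' = a' at *
  generalize n % p' = b' at *
  -- real versions
  have E : (p : ℝ) * a + b = n := by exact_mod_cast e
  have E' : (p' : ℝ) * a' + b' = n := by exact_mod_cast e'
  have HM : (a : ℝ) + b + 1 ≤ p := by exact_mod_cast hm
  have HM' : (a' : ℝ) + b' + 1 ≤ p' := by exact_mod_cast hm'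
  have HB : (0 : ℝ) ≤ b := Nat.cast_nonneg _
  have HB' : (0 : ℝ) ≤ b' := Nat.cast_nonneg _
  have HA : (0 : ℝ) ≤ a := Nat.cast_nonneg _
  have HA' : (0 : ℝ) ≤ a' := Nat.cast_nonneg _
  have HP : (p : ℝ) + 2 ≤ p' := by exact_mod_cast hpp
  have HQ : (p' : ℝ) ≤ q3 := by exact_mod_cast hq3
  have H0 : (q0 : ℝ) * q0 ≤ n := by exact_mod_cast h0
  have HN : (n : ℝ) < p * p := by exact_mod_cast hn
  have hq03 : q0 ≤ q3 := by omega
  have HS : ((q3 : ℝ) - q0) * (q3 - q0) < q3 := by
    have : (((q3 - q0) * (q3 - q0) : ℕ) : ℝ) < q3 := by exact_mod_cast hs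
    rw [Nat.cast_mul, Nat.cast_sub hq03] at this
    exact this
  have Hq0p : (q0 : ℝ) < p := by exact_mod_cast hq0p
  obtain ⟨r, hr0, hrr, hrq, hrp⟩ : ∃ r : ℝ, 0 ≤ r ∧ r * r = n ∧ (q0 : ℝ) ≤ r ∧ r < p := by
    refine ⟨Real.sqrt n, Real.sqrt_nonneg _, Real.mul_self_sqrt (Nat.cast_nonneg _), ?_, ?_⟩
    · apply Real.le_sqrt_of_sq_le
      rw [pow_two]; exact H0
    · rw [Real.sqrt_lt' (by linarith)]
      rw [pow_two]; exact HN
  have hv : ∀ x y z : ℝ, 0 ≤ x → 0 ≤ y → x * y + z = n → y + z + 1 ≤ x → 2 * r ≤ x + y := by
    intro x y z hx hy h1 h2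
    by_contra hcon
    push Not at hcon
    have h3 : (x + y) * (x + y) < (2 * r) * (2 * r) :=
      mul_self_lt_mul_self (by linarith) hcon
    have h4 := mul_self_nonneg (x - y - 2)
    linarith
  have hu : ∀ x y z : ℝ, 0 ≤ z → x * y + z = n → x ≤ q3 → y ≤ q3 →
      (x + y) * q3 ≤ q3 * q3 + n := by
    intro x y z hz h1 h2 h3
    have h4 := mul_nonneg (show (0 : ℝ) ≤ q3 - x by linarith) (show (0 : ℝ) ≤ q3 - y by linarith)
    linarith
  have v1 := hv p a b (by linarith) HA E HM
  have v1' := hv p' a' b' (by linarith) HA' E' HM'
  have u1 := hu p a b HB E (by linarith) (by linarith)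
  have u1' := hu p' a' b' HB' E' (by linarith) (by linarith)
  have hlast : (q3 : ℝ) * q3 + n < q3 * (1 + 2 * r) := by
    have h1 : ((q3 : ℝ) - r) * (q3 - r) ≤ (q3 - q0) * (q3 - q0) := by
      have h2 : (0 : ℝ) ≤ q3 - r := by linarith
      have h3 : (q3 : ℝ) - r ≤ q3 - q0 := by linarith
      exact mul_le_mul h3 h3 h2 (by linarith)
    linarith
  have hq3pos : (0 : ℝ) < q3 := by linarith
  have veq : p + a = p' + a' := by
    rcases Nat.lt_trichotomy (p + a) (p' + a') with h | h | h
    · exfalso
      have h1 : (p : ℝ) + a + 1 ≤ p' + a' := by exact_mod_cast h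
      have h2 : (2 * r + 1) * q3 ≤ (p' + a') * q3 :=
        mul_le_mul_of_nonneg_right (by linarith) hq3pos.le
      linarith
    · exact h
    · exfalso
      have h1 : (p' : ℝ) + a' + 1 ≤ p + a := by exact_mod_cast h
      have h2 : (2 * r + 1) * q3 ≤ (p + a) * q3 :=
        mul_le_mul_of_nonneg_right (by linarith) hq3pos.le
      linarith
  have VEQ : (p : ℝ) + a = p' + a' := by exact_mod_cast veq
  obtain ⟨i, hi⟩ : ∃ i : ℝ, (p' : ℝ) = p + i := ⟨p' - p, by ring⟩
  have hi2 : 2 ≤ i := by linarith
  have hA' : (a' : ℝ) = a - i := by linarith
  rw [hA', hi] at E' HM'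
  have hb' : (b' : ℝ) = b + i * (p - a) + i * i := by linarith
  have k1 := mul_nonneg (show (0 : ℝ) ≤ i - 2 by linarith) (show (0 : ℝ) ≤ p - a by linarith)
  have k2 := mul_nonneg (show (0 : ℝ) ≤ i - 2 by linarith) (show (0 : ℝ) ≤ i by linarith)
  linarith

/-- four members of the chain -/
structure Good (q0 q1 q2 q3 : ℕ) : Prop where
  p1 : q1.Prime
  p2 : q2.Prime
  p3 : q3.Prime
  l0 : q0 < q1
  l1 : q1 < q2
  l2 : q2 < q3
  three : 3 ≤ q1
  sq : (q3 - q0) * (q3 - q0) < q3

theorem two_dvd {n q1 p p' : ℕ} (hn : n < q1 * q1) (h1 : q1 ≤ p) (hlt : p < p')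
    (hp : p.Prime) (hp' : p'.Prime) (hd : p ∣ n + 1) (hd' : p' ∣ n + 1) : False := by
  have hc : Nat.Coprime p p' := (Nat.coprime_primes hp hp').2 hlt.ne
  have := Nat.le_of_dvd (by omega) (hc.mul_dvd_of_dvd_of_dvd hd hd')
  have h2 : q1 * q1 < p * p' := by nlinarith [hp.pos]
  omega

theorem add_two_le {p p' : ℕ} (h3 : 3 ≤ p) (hp : p.Prime) (hp' : p'.Prime) (hlt : p < p') :
    p + 2 ≤ p' := by
  have o1 := hp.odd_of_ne_two (by omega)
  have o2 := hp'.odd_of_ne_two (by omega)
  rcases o1 with ⟨k, rfl⟩
  rcases o2 with ⟨k', rfl⟩
  omega

theorem wit3 {q0 q1 q2 q3 n : ℕ} (g : Good q0 q1 q2 q3) (h0 : q0 * q0 ≤ n)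
    (hn : n < q1 * q1) : ∃ p, Wit n p := by
  have l12 := add_two_le g.three g.p1 g.p2 g.l1
  have l23 := add_two_le (by have := g.three; have := g.l1; omega) g.p2 g.p3 g.l2
  have n2 : n < q2 * q2 := lt_trans hn (Nat.mul_self_lt_mul_self g.l1)
  have n3 : n < q3 * q3 := lt_trans n2 (Nat.mul_self_lt_mul_self g.l2)
  by_contra hcon
  push Not at hcon
  have key : ∀ p, p.Prime → n < p * p → (n / p + n % p < p) ∨ p ∣ n + 1 := by
    intro p hp hnp
    by_contra hc
    push Not at hc
    exact hcon p ⟨hp, hnp, hc.1, hc.2⟩
  have m12 : ¬ (n / q1 + n % q1 < q1 ∧ n / q2 + n % q2 < q2) := fun h =>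
    two_missed h0 hn l12 g.l2.le g.sq h.1 h.2
  have m13 : ¬ (n / q1 + n % q1 < q1 ∧ n / q3 + n % q3 < q3) := fun h =>
    two_missed h0 hn (by omega) le_rfl g.sq h.1 h.2
  have m23 : ¬ (n / q2 + n % q2 < q2 ∧ n / q3 + n % q3 < q3) := fun h =>
    two_missed h0 n2 l23 le_rfl g.sq h.1 h.2
  have d12 : ¬ (q1 ∣ n + 1 ∧ q2 ∣ n + 1) := fun h =>
    two_dvd hn le_rfl g.l1 g.p1 g.p2 h.1 h.2
  have d13 : ¬ (q1 ∣ n + 1 ∧ q3 ∣ n + 1) := fun h =>
    two_dvd hn le_rfl (g.l1.trans g.l2) g.p1 g.p3 h.1 h.2
  have d23 : ¬ (q2 ∣ n + 1 ∧ q3 ∣ n + 1) := fun h =>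
    two_dvd hn g.l1.le g.l2 g.p2 g.p3 h.1 h.2
  have k1 := key q1 g.p1 hn
  have k2 := key q2 g.p2 n2
  have k3 := key q3 g.p3 n3
  tauto

/-- the chain of primes: `y` is the next candidate, jumps of size `J` -/
def chain (P B J t0 t1 t2 t3 fuel : ℕ) : ℕ → ℕ → ℕ → ℕ → ℕ → Bool :=
  Nat.rec (motive := fun _ => ℕ → ℕ → ℕ → ℕ → ℕ → Bool)
    (fun q0 q1 q2 q3 _ =>
      and (Nat.beq q0 t0) (and (Nat.beq q1 t1) (and (Nat.beq q2 t2) (Nat.beq q3 t3))))
    (fun _ ih q0 q1 q2 q3 y =>
      Bool.rec (motive := fun _ => Bool)
        (forceB (Nat.add y 2) fun y' => ih q0 q1 q2 q3 y')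
        (Bool.rec (motive := fun _ => Bool) false
          (forceB (Nat.add y J) fun y' => ih q1 q2 q3 y y')
          (and (Nat.ble (Nat.succ (Nat.mul (Nat.sub y q1) (Nat.sub y q1))) y) (Nat.ble y B)))
        (Nat.beq (Nat.gcd y P) 1)) fuel

theorem chain_succ (P B J t0 t1 t2 t3 f q0 q1 q2 q3 y : ℕ) :
    chain P B J t0 t1 t2 t3 (f + 1) q0 q1 q2 q3 y =
      Bool.rec (motive := fun _ => Bool)
        (forceB (y + 2) fun y' => chain P B J t0 t1 t2 t3 f q0 q1 q2 q3 y')
        (Bool.rec (motive := fun _ => Bool) false
          (forceB (y + J) fun y' => chain P B J t0 t1 t2 t3 f q1 q2 q3 y y')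
          (and (Nat.ble (Nat.succ ((y - q1) * (y - q1))) y) (Nat.ble y B)))
        (Nat.beq (Nat.gcd y P) 1) := rfl

/-- conclusion of one chunk of the chain -/
def Cov (q0 q1 q2 q3 t0 t1 t2 t3 : ℕ) : Prop :=
  Good q0 q1 q2 q3 → Good t0 t1 t2 t3 ∧ ∀ n, q0 * q0 ≤ n → n < t0 * t0 → ∃ p, Wit n p

theorem chain_sound (P B C J t0 t1 t2 t3 f : ℕ) (hJ : 0 < J)
    (hP : ∀ p, p.Prime → p < C → p ∣ P) (hBC : B < C * C) : ∀ q0 q1 q2 q3 y : ℕ, q3 < y →
    chain P B J t0 t1 t2 t3 f q0 q1 q2 q3 y = true → Cov q0 q1 q2 q3 t0 t1 t2 t3 := by
  induction f with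
  | zero =>
    intro q0 q1 q2 q3 y _ h g
    have h' : and (Nat.beq q0 t0) (and (Nat.beq q1 t1) (and (Nat.beq q2 t2) (Nat.beq q3 t3))) =
      true := h
    rw [Bool.and_eq_true, Bool.and_eq_true, Bool.and_eq_true] at h'
    obtain ⟨h0, h1, h2, h3⟩ := h'
    have e0 := Nat.eq_of_beq_eq_true h0
    have e1 := Nat.eq_of_beq_eq_true h1
    have e2 := Nat.eq_of_beq_eq_true h2
    have e3 := Nat.eq_of_beq_eq_true h3
    subst e0 e1 e2 e3
    exact ⟨g, fun n h h' => absurd h' (by omega)⟩
  | succ f ih =>
    intro q0 q1 q2 q3 y hy h g
    rw [chain_succ] at h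
    rcases of_rec h with ⟨hg, h⟩ | ⟨hg, h⟩
    · rcases of_rec h with ⟨hc, h⟩ | ⟨hc, h⟩
      · have h := of_forceB h
        rw [Bool.and_eq_true] at hc
        have hb1 := Nat.le_of_ble_eq_true hc.1
        have hb2 := Nat.le_of_ble_eq_true hc.2
        have hg' := Nat.eq_of_beq_eq_true hg
        have hyp : y.Prime := prime_of_gcd hP (by have := g.p3.two_le; omega)
          (by omega) hg'
        have g' : Good q1 q2 q3 y := ⟨g.p2, g.p3, hyp, g.l1, g.l2, hy,
          by have := g.three; have := g.l1; omega, by omega⟩
        obtain ⟨gt, hcov⟩ := ih q1 q2 q3 y (y + J) (by omega) h g'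
        refine ⟨gt, fun n hn hn' => ?_⟩
        rcases Nat.lt_or_ge n (q1 * q1) with hlt | hge
        · exact wit3 g hn hlt
        · exact hcov n hge hn'
      · exact absurd h (by decide)
    · exact ih q0 q1 q2 q3 (y + 2) (by omega) (of_forceB h) g

/-! ### the small range -/

/-- cover an interval: `s` is a lower bound for the candidates, `p` the current candidate -/
def cover (Q B T fuel : ℕ) : ℕ → ℕ → ℕ → Bool :=
  Nat.rec (motive := fun _ => ℕ → ℕ → ℕ → Bool)
    (fun n _ _ => Nat.ble T n)
    (fun _ ih n s p =>
      Bool.rec (motive := fun _ => Bool)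
        (Bool.rec (motive := fun _ => Bool)
          (forceB (Nat.add p 2) fun p' => ih n s p')
          (forceB (Nat.pred (Nat.mul (Nat.succ (Nat.div n p)) p)) fun n' => ih n' s s)
          (and (Nat.beq (Nat.gcd p Q) 1) (and (Nat.ble p B)
            (and (Nat.ble p (Nat.add (Nat.div n p) (Nat.mod n p)))
              (Nat.ble (Nat.succ (Nat.succ n)) (Nat.mul (Nat.succ (Nat.div n p)) p))))))
        (forceB (Nat.add s 2) fun s' => ih n s' s')
        (Nat.ble (Nat.mul s s) n)) fuel

theorem cover_succ (Q B T f n s p : ℕ) : cover Q B T (f + 1) n s p =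
    Bool.rec (motive := fun _ => Bool)
        (Bool.rec (motive := fun _ => Bool)
          (forceB (p + 2) fun p' => cover Q B T f n s p')
          (forceB ((n / p + 1) * p - 1) fun n' => cover Q B T f n' s s)
          (and (Nat.beq (Nat.gcd p Q) 1) (and (Nat.ble p B)
            (and (Nat.ble p (n / p + n % p)) (Nat.ble (n + 2) ((n / p + 1) * p))))))
        (forceB (s + 2) fun s' => cover Q B T f n s' s')
        (Nat.ble (s * s) n) := rfl

theorem cover_sound (Q B C T f : ℕ) (hQ : ∀ p, p.Prime → p < C → p ∣ Q) (hBC : B < C * C) :
    ∀ n s p : ℕ, s ≤ p → 2 ≤ s → cover Q B T f n s p = true →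
      ∀ m, n ≤ m → m < T → ∃ q, Wit m q := by
  induction f with
  | zero =>
    intro n s p _ _ h m hm hm'
    have := Nat.le_of_ble_eq_true (show Nat.ble T n = true from h)
    omega
  | succ f ih =>
    intro n s p hsp hs h m hm hm'
    rw [cover_succ] at h
    rcases of_rec h with ⟨h1, h⟩ | ⟨h1, h⟩
    · exact ih n (s + 2) (s + 2) le_rfl (by omega) (of_forceB h) m hm hm'
    · have hns : n < s * s := by
        by_contra hcon
        push Not at hcon
        rw [Nat.ble_eq_true_of_le hcon] at h1
        exact absurd h1 (by decide)
      rcases of_rec h with ⟨h2, h⟩ | ⟨h2, h⟩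
      · have h := of_forceB h
        rw [Bool.and_eq_true, Bool.and_eq_true, Bool.and_eq_true] at h2
        obtain ⟨c1, c2, c3, c4⟩ := h2
        have c1 := Nat.eq_of_beq_eq_true c1
        have c2 := Nat.le_of_ble_eq_true c2
        have c3 := Nat.le_of_ble_eq_true c3
        have c4 := Nat.le_of_ble_eq_true c4
        have hp : p.Prime := prime_of_gcd hQ (by omega) (by omega) c1
        have hnp : n < p * p := lt_of_lt_of_le hns (Nat.mul_le_mul hsp hsp)
        have hppos : 0 < p := hp.pos
        rcases Nat.lt_or_ge m ((n / p + 1) * p - 1) with hlt | hge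
        · refine ⟨p, hp, ?_, ?_, ?_⟩
          · have ha : n / p < p := by rw [Nat.div_lt_iff_lt_mul hppos]; exact hnp
            have : (n / p + 1) * p ≤ p * p := Nat.mul_le_mul_right p ha
            omega
          · have hdm := Nat.div_add_mod n p
            have e1 : m / p = n / p := by
              apply Nat.div_eq_of_lt_le
              · have : n / p * p ≤ n := Nat.div_mul_le_self n p
                omega
              · omega
            have hdm' := Nat.div_add_mod m p
            rw [e1] at hdm'
            rw [e1]
            omega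
          · intro hd
            obtain ⟨k, hk⟩ := hd
            have h3 : n / p * p ≤ n := Nat.div_mul_le_self n p
            have h4 : n / p < k := by
              by_contra hcon
              push Not at hcon
              have : p * k ≤ p * (n / p) := Nat.mul_le_mul_left p hcon
              rw [mul_comm p (n / p)] at this
              omega
            have h5 : (n / p + 1) * p ≤ p * k := by
              rw [mul_comm]
              exact Nat.mul_le_mul_left p h4
            omega
        · exact ih _ s s le_rfl hs h m hge hm'
      · exact ih n s (p + 2) (by omega) hs (of_forceB h) m hm hm'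

theorem primLoop_dvd' (C : ℕ) (p : ℕ) (hp : p.Prime) (hlt : p < C) :
    p ∣ primLoop (C - 2) 2 1 := by
  have := hp.two_le
  refine primLoop_dvd (C - 2) 2 1 ?_ p hp (by omega)
  intro q hq hq2
  have := hq.two_le
  omega

theorem cover1 : force (primLoop 35 2 1) (fun Q => cover Q 1368 200000 6248 1081 33 33) =
    true := by decide +kernel

theorem cover2 : force (primLoop 57 2 1)
    (fun Q => cover Q 3480 6265009 41009 200000 447 447) = true := by decide +kernel

theorem range1 (n : ℕ) (h1 : 1081 ≤ n) (h2 : n < 200000) : ∃ p, Wit n p := by
  have h := cover1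
  rw [force_eq] at h
  exact cover_sound (primLoop 35 2 1) 1368 37 200000 6248 (primLoop_dvd' 37) (by norm_num)
    1081 33 33 le_rfl (by norm_num) h n h1 h2

theorem range2 (n : ℕ) (h1 : 200000 ≤ n) (h2 : n < 6265009) : ∃ p, Wit n p := by
  have h := cover2
  rw [force_eq] at h
  exact cover_sound (primLoop 57 2 1) 3480 59 6265009 41009 (primLoop_dvd' 59) (by norm_num)
    200000 447 447 le_rfl (by norm_num) h n h1 h2

/-! ### the chain -/

theorem chunk0 : chain (primLoop 125 2 1) 16128 2 3259 3271 3299 3301 381
    2503 2521 2531 2539 2541 = true := by decide +kernel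

theorem chunk1 : chain (primLoop 125 2 1) 16128 6 4271 4283 4289 4297 316
    3259 3271 3299 3301 3307 = true := by decide +kernel

theorem chunk2 : chain (primLoop 125 2 1) 16128 12 5557 5569 5581 5623 283
    4271 4283 4289 4297 4309 = true := by decide +kernel

theorem chunk3 : chain (primLoop 125 2 1) 16128 10 7283 7297 7307 7321 433
    5557 5569 5581 5623 5633 = true := by decide +kernel

theorem chunk4 : chain (primLoop 125 2 1) 16128 18 9461 9479 9497 9521 332
    7283 7297 7307 7321 7339 = true := by decide +kernel

theorem chunk5 : chain (primLoop 125 2 1) 16128 18 12323 12343 12373 12391 499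
    9461 9479 9497 9521 9539 = true := by decide +kernel

theorem chunk6 : chain PP 134350000 24 16033 16057 16087 16111 474
    12323 12343 12373 12391 12415 = true := by decide +kernel

theorem chunk7 : chain PP 134350000 26 20849 20879 20921 20947 642
    16033 16057 16087 16111 16137 = true := by decide +kernel

theorem chunk8 : chain PP 134350000 34 27103 27143 27179 27239 666
    20849 20879 20921 20947 20981 = true := by decide +kernel

theorem chunk9 : chain PP 134350000 32 35323 35363 35401 35437 1039
    27103 27143 27179 27239 27271 = true := by decide +kernel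

theorem chunk10 : chain PP 134350000 40 45943 45989 46049 46091 1109
    35323 35363 35401 35437 35477 = true := by decide +kernel

theorem chunk11 : chain PP 134350000 60 59723 59791 59863 59929 829
    45943 45989 46049 46091 46151 = true := by decide +kernel

theorem chunk12 : chain PP 134350000 68 77711 77783 77863 77933 1115
    59723 59791 59863 59929 59997 = true := by decide +kernel

theorem chunk13 : chain PP 134350000 66 101117 101183 101267 101333 1396
    77711 77783 77863 77933 77999 = true := by decide +kernel

theorem chunk14 : chain PP 134350000 78 131543 131627 131707 131797 1780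
    101117 101183 101267 101333 101411 = true := by decide +kernel

theorem chunk15 : chain PP 134350000 98 171053 171161 171263 171383 1889
    131543 131627 131707 131797 131895 = true := by decide +kernel

theorem chunk16 : chain PP 134350000 116 222493 222613 222731 222857 2367
    171053 171161 171263 171383 171499 = true := by decide +kernel

theorem chunk17 : chain PP 134350000 140 289309 289453 289603 289759 2470
    222493 222613 222731 222857 222997 = true := by decide +kernel

theorem chunk18 : chain PP 134350000 146 376283 376463 376609 376757 3251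
    289309 289453 289603 289759 289905 = true := by decide +kernel

theorem chunk19 : chain PP 134350000 180 489283 489479 489659 489847 3145
    376283 376463 376609 376757 376937 = true := by decide +kernel

theorem chunk20 : chain PP 134350000 210 636359 636569 636781 636997 3583
    489283 489479 489659 489847 490057 = true := by decide +kernel

theorem chunk21 : chain PP 134350000 240 827369 827633 827873 828119 4169
    636359 636569 636781 636997 637237 = true := by decide +kernel

theorem chunk22 : chain PP 134350000 278 1075727 1076011 1076303 1076587 5416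
    827369 827633 827873 828119 828397 = true := by decide +kernel

theorem chunk23 : chain PP 134350000 314 1398841 1399183 1399499 1399813 6705
    1075727 1076011 1076303 1076587 1076901 = true := by decide +kernel

theorem chunk24 : chain PP 134350000 370 1818833 1819217 1819591 1819999 7325
    1398841 1399183 1399499 1399813 1400183 = true := by decide +kernel

theorem chunk25 : chain PP 134350000 414 2364793 2365213 2365631 2366053 7905
    1818833 1819217 1819591 1819999 1820413 = true := by decide +kernel

theorem chunk26 : chain PP 134350000 484 3074497 3074987 3075481 3075971 10088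
    2364793 2365213 2365631 2366053 2366537 = true := by decide +kernel

theorem chunk27 : chain PP 134350000 562 3997493 3998069 3998639 3999209 11659
    3074497 3074987 3075481 3075971 3076533 = true := by decide +kernel

theorem chunk28 : chain PP 134350000 632 5197063 5197721 5198357 5199011 13686
    3997493 3998069 3998639 3999209 3999841 = true := by decide +kernel

theorem chunk29 : chain PP 134350000 730 6756709 6757441 6758179 6758909 14821
    5197063 5197721 5198357 5199011 5199741 = true := by decide +kernel

theorem chunk30 : chain PP 134350000 832 8784431 8785267 8786119 8786951 17606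
    6756709 6757441 6758179 6758909 6759741 = true := by decide +kernel

theorem chunk31 : chain PP 134350000 954 11420971 11421947 11422903 11423857 19925
    8784431 8785267 8786119 8786951 8787905 = true := by decide +kernel

theorem chunk32 : chain PP 134350000 1102 14848007 14849111 14850217 14851327 23035
    11420971 11421947 11422903 11423857 11424959 = true := by decide +kernel

theorem chunk33 : chain PP 134350000 1250 19304093 19305371 19306621 19307887 26808
    14848007 14849111 14850217 14851327 14852577 = true := by decide +kernel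

theorem chunk34 : chain PP 134350000 1434 25096147 25097587 25099027 25100479 30864
    19304093 19305371 19306621 19307887 19309321 = true := by decide +kernel

theorem chunk35 : chain PP 134350000 1638 32626471 32628119 32629777 32631419 33754
    25096147 25097587 25099027 25100479 25102117 = true := by decide +kernel

theorem chunk36 : chain PP 134350000 1870 42416027 42417919 42419807 42421703 42078
    32626471 32628119 32629777 32631419 32633289 = true := by decide +kernel

theorem chunk37 : chain PP 134350000 2140 55142873 55145021 55147207 55149359 47107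
    42416027 42417919 42419807 42421703 42423843 = true := by decide +kernel

theorem chunk38 : chain PP 134350000 2442 71687489 71689951 71692399 71694869 54835
    55142873 55145021 55147207 55149359 55151801 = true := by decide +kernel

theorem chunk39 : chain PP 134350000 2790 93195511 93198311 93201131 93203921 62546
    71687489 71689951 71692399 71694869 71697659 = true := by decide +kernel

theorem chunk40 : chain PP 134350000 3172 121158241 121161451 121164707 121167901 76785
    93195511 93198311 93201131 93203921 93207093 = true := by decide +kernel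

theorem chunk41 : chain PP 134350000 3618 134222261 134225879 134229499 134233147 31055
    121158241 121161451 121164707 121167901 121171519 = true := by decide +kernel

theorem good0 : Good 2503 2521 2531 2539 :=
  ⟨by norm_num, by norm_num, by norm_num, by norm_num, by norm_num, by norm_num, by norm_num,
    by norm_num⟩

theorem cov_trans {q0 q1 q2 q3 s0 s1 s2 s3 t0 t1 t2 t3 : ℕ} (h1 : Cov q0 q1 q2 q3 s0 s1 s2 s3)
    (h2 : Cov s0 s1 s2 s3 t0 t1 t2 t3) : Cov q0 q1 q2 q3 t0 t1 t2 t3 := by
  intro g
  obtain ⟨gs, c1⟩ := h1 g
  obtain ⟨gt, c2⟩ := h2 gs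
  refine ⟨gt, fun n hn hn' => ?_⟩
  rcases Nat.lt_or_ge n (s0 * s0) with h | h
  · exact c1 n hn h
  · exact c2 n h hn'

theorem cov0 : Cov 2503 2521 2531 2539 3259 3271 3299 3301 :=
  chain_sound (primLoop 125 2 1) 16128 127 2 _ _ _ _ _ (by norm_num)
    (primLoop_dvd' 127) (by norm_num) _ _ _ _ _ (by norm_num) chunk0

theorem cov1 : Cov 2503 2521 2531 2539 4271 4283 4289 4297 :=
  cov_trans cov0 (chain_sound (primLoop 125 2 1) 16128 127 6 _ _ _ _ _ (by norm_num)
    (primLoop_dvd' 127) (by norm_num) _ _ _ _ _ (by norm_num) chunk1)

theorem cov2 : Cov 2503 2521 2531 2539 5557 5569 5581 5623 :=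
  cov_trans cov1 (chain_sound (primLoop 125 2 1) 16128 127 12 _ _ _ _ _ (by norm_num)
    (primLoop_dvd' 127) (by norm_num) _ _ _ _ _ (by norm_num) chunk2)

theorem cov3 : Cov 2503 2521 2531 2539 7283 7297 7307 7321 :=
  cov_trans cov2 (chain_sound (primLoop 125 2 1) 16128 127 10 _ _ _ _ _ (by norm_num)
    (primLoop_dvd' 127) (by norm_num) _ _ _ _ _ (by norm_num) chunk3)

theorem cov4 : Cov 2503 2521 2531 2539 9461 9479 9497 9521 :=
  cov_trans cov3 (chain_sound (primLoop 125 2 1) 16128 127 18 _ _ _ _ _ (by norm_num)
    (primLoop_dvd' 127) (by norm_num) _ _ _ _ _ (by norm_num) chunk4)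

theorem cov5 : Cov 2503 2521 2531 2539 12323 12343 12373 12391 :=
  cov_trans cov4 (chain_sound (primLoop 125 2 1) 16128 127 18 _ _ _ _ _ (by norm_num)
    (primLoop_dvd' 127) (by norm_num) _ _ _ _ _ (by norm_num) chunk5)

theorem cov6 : Cov 2503 2521 2531 2539 16033 16057 16087 16111 :=
  cov_trans cov5 (chain_sound PP 134350000 11591 24 _ _ _ _ _ (by norm_num)
    dvd_PP (by norm_num) _ _ _ _ _ (by norm_num) chunk6)

theorem cov7 : Cov 2503 2521 2531 2539 20849 20879 20921 20947 :=
  cov_trans cov6 (chain_sound PP 134350000 11591 26 _ _ _ _ _ (by norm_num)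
    dvd_PP (by norm_num) _ _ _ _ _ (by norm_num) chunk7)

theorem cov8 : Cov 2503 2521 2531 2539 27103 27143 27179 27239 :=
  cov_trans cov7 (chain_sound PP 134350000 11591 34 _ _ _ _ _ (by norm_num)
    dvd_PP (by norm_num) _ _ _ _ _ (by norm_num) chunk8)

theorem cov9 : Cov 2503 2521 2531 2539 35323 35363 35401 35437 :=
  cov_trans cov8 (chain_sound PP 134350000 11591 32 _ _ _ _ _ (by norm_num)
    dvd_PP (by norm_num) _ _ _ _ _ (by norm_num) chunk9)

theorem cov10 : Cov 2503 2521 2531 2539 45943 45989 46049 46091 :=
  cov_trans cov9 (chain_sound PP 134350000 11591 40 _ _ _ _ _ (by norm_num)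
    dvd_PP (by norm_num) _ _ _ _ _ (by norm_num) chunk10)

theorem cov11 : Cov 2503 2521 2531 2539 59723 59791 59863 59929 :=
  cov_trans cov10 (chain_sound PP 134350000 11591 60 _ _ _ _ _ (by norm_num)
    dvd_PP (by norm_num) _ _ _ _ _ (by norm_num) chunk11)

theorem cov12 : Cov 2503 2521 2531 2539 77711 77783 77863 77933 :=
  cov_trans cov11 (chain_sound PP 134350000 11591 68 _ _ _ _ _ (by norm_num)
    dvd_PP (by norm_num) _ _ _ _ _ (by norm_num) chunk12)

theorem cov13 : Cov 2503 2521 2531 2539 101117 101183 101267 101333 :=
  cov_trans cov12 (chain_sound PP 134350000 11591 66 _ _ _ _ _ (by norm_num)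
    dvd_PP (by norm_num) _ _ _ _ _ (by norm_num) chunk13)

theorem cov14 : Cov 2503 2521 2531 2539 131543 131627 131707 131797 :=
  cov_trans cov13 (chain_sound PP 134350000 11591 78 _ _ _ _ _ (by norm_num)
    dvd_PP (by norm_num) _ _ _ _ _ (by norm_num) chunk14)

theorem cov15 : Cov 2503 2521 2531 2539 171053 171161 171263 171383 :=
  cov_trans cov14 (chain_sound PP 134350000 11591 98 _ _ _ _ _ (by norm_num)
    dvd_PP (by norm_num) _ _ _ _ _ (by norm_num) chunk15)

theorem cov16 : Cov 2503 2521 2531 2539 222493 222613 222731 222857 :=
  cov_trans cov15 (chain_sound PP 134350000 11591 116 _ _ _ _ _ (by norm_num)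
    dvd_PP (by norm_num) _ _ _ _ _ (by norm_num) chunk16)

theorem cov17 : Cov 2503 2521 2531 2539 289309 289453 289603 289759 :=
  cov_trans cov16 (chain_sound PP 134350000 11591 140 _ _ _ _ _ (by norm_num)
    dvd_PP (by norm_num) _ _ _ _ _ (by norm_num) chunk17)

theorem cov18 : Cov 2503 2521 2531 2539 376283 376463 376609 376757 :=
  cov_trans cov17 (chain_sound PP 134350000 11591 146 _ _ _ _ _ (by norm_num)
    dvd_PP (by norm_num) _ _ _ _ _ (by norm_num) chunk18)

theorem cov19 : Cov 2503 2521 2531 2539 489283 489479 489659 489847 :=
  cov_trans cov18 (chain_sound PP 134350000 11591 180 _ _ _ _ _ (by norm_num)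
    dvd_PP (by norm_num) _ _ _ _ _ (by norm_num) chunk19)

theorem cov20 : Cov 2503 2521 2531 2539 636359 636569 636781 636997 :=
  cov_trans cov19 (chain_sound PP 134350000 11591 210 _ _ _ _ _ (by norm_num)
    dvd_PP (by norm_num) _ _ _ _ _ (by norm_num) chunk20)

theorem cov21 : Cov 2503 2521 2531 2539 827369 827633 827873 828119 :=
  cov_trans cov20 (chain_sound PP 134350000 11591 240 _ _ _ _ _ (by norm_num)
    dvd_PP (by norm_num) _ _ _ _ _ (by norm_num) chunk21)

theorem cov22 : Cov 2503 2521 2531 2539 1075727 1076011 1076303 1076587 :=
  cov_trans cov21 (chain_sound PP 134350000 11591 278 _ _ _ _ _ (by norm_num)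
    dvd_PP (by norm_num) _ _ _ _ _ (by norm_num) chunk22)

theorem cov23 : Cov 2503 2521 2531 2539 1398841 1399183 1399499 1399813 :=
  cov_trans cov22 (chain_sound PP 134350000 11591 314 _ _ _ _ _ (by norm_num)
    dvd_PP (by norm_num) _ _ _ _ _ (by norm_num) chunk23)

theorem cov24 : Cov 2503 2521 2531 2539 1818833 1819217 1819591 1819999 :=
  cov_trans cov23 (chain_sound PP 134350000 11591 370 _ _ _ _ _ (by norm_num)
    dvd_PP (by norm_num) _ _ _ _ _ (by norm_num) chunk24)

theorem cov25 : Cov 2503 2521 2531 2539 2364793 2365213 2365631 2366053 :=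
  cov_trans cov24 (chain_sound PP 134350000 11591 414 _ _ _ _ _ (by norm_num)
    dvd_PP (by norm_num) _ _ _ _ _ (by norm_num) chunk25)

theorem cov26 : Cov 2503 2521 2531 2539 3074497 3074987 3075481 3075971 :=
  cov_trans cov25 (chain_sound PP 134350000 11591 484 _ _ _ _ _ (by norm_num)
    dvd_PP (by norm_num) _ _ _ _ _ (by norm_num) chunk26)

theorem cov27 : Cov 2503 2521 2531 2539 3997493 3998069 3998639 3999209 :=
  cov_trans cov26 (chain_sound PP 134350000 11591 562 _ _ _ _ _ (by norm_num)
    dvd_PP (by norm_num) _ _ _ _ _ (by norm_num) chunk27)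

theorem cov28 : Cov 2503 2521 2531 2539 5197063 5197721 5198357 5199011 :=
  cov_trans cov27 (chain_sound PP 134350000 11591 632 _ _ _ _ _ (by norm_num)
    dvd_PP (by norm_num) _ _ _ _ _ (by norm_num) chunk28)

theorem cov29 : Cov 2503 2521 2531 2539 6756709 6757441 6758179 6758909 :=
  cov_trans cov28 (chain_sound PP 134350000 11591 730 _ _ _ _ _ (by norm_num)
    dvd_PP (by norm_num) _ _ _ _ _ (by norm_num) chunk29)

theorem cov30 : Cov 2503 2521 2531 2539 8784431 8785267 8786119 8786951 :=
  cov_trans cov29 (chain_sound PP 134350000 11591 832 _ _ _ _ _ (by norm_num)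
    dvd_PP (by norm_num) _ _ _ _ _ (by norm_num) chunk30)

theorem cov31 : Cov 2503 2521 2531 2539 11420971 11421947 11422903 11423857 :=
  cov_trans cov30 (chain_sound PP 134350000 11591 954 _ _ _ _ _ (by norm_num)
    dvd_PP (by norm_num) _ _ _ _ _ (by norm_num) chunk31)

theorem cov32 : Cov 2503 2521 2531 2539 14848007 14849111 14850217 14851327 :=
  cov_trans cov31 (chain_sound PP 134350000 11591 1102 _ _ _ _ _ (by norm_num)
    dvd_PP (by norm_num) _ _ _ _ _ (by norm_num) chunk32)

theorem cov33 : Cov 2503 2521 2531 2539 19304093 19305371 19306621 19307887 :=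
  cov_trans cov32 (chain_sound PP 134350000 11591 1250 _ _ _ _ _ (by norm_num)
    dvd_PP (by norm_num) _ _ _ _ _ (by norm_num) chunk33)

theorem cov34 : Cov 2503 2521 2531 2539 25096147 25097587 25099027 25100479 :=
  cov_trans cov33 (chain_sound PP 134350000 11591 1434 _ _ _ _ _ (by norm_num)
    dvd_PP (by norm_num) _ _ _ _ _ (by norm_num) chunk34)

theorem cov35 : Cov 2503 2521 2531 2539 32626471 32628119 32629777 32631419 :=
  cov_trans cov34 (chain_sound PP 134350000 11591 1638 _ _ _ _ _ (by norm_num)
    dvd_PP (by norm_num) _ _ _ _ _ (by norm_num) chunk35)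

theorem cov36 : Cov 2503 2521 2531 2539 42416027 42417919 42419807 42421703 :=
  cov_trans cov35 (chain_sound PP 134350000 11591 1870 _ _ _ _ _ (by norm_num)
    dvd_PP (by norm_num) _ _ _ _ _ (by norm_num) chunk36)

theorem cov37 : Cov 2503 2521 2531 2539 55142873 55145021 55147207 55149359 :=
  cov_trans cov36 (chain_sound PP 134350000 11591 2140 _ _ _ _ _ (by norm_num)
    dvd_PP (by norm_num) _ _ _ _ _ (by norm_num) chunk37)

theorem cov38 : Cov 2503 2521 2531 2539 71687489 71689951 71692399 71694869 :=
  cov_trans cov37 (chain_sound PP 134350000 11591 2442 _ _ _ _ _ (by norm_num)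
    dvd_PP (by norm_num) _ _ _ _ _ (by norm_num) chunk38)

theorem cov39 : Cov 2503 2521 2531 2539 93195511 93198311 93201131 93203921 :=
  cov_trans cov38 (chain_sound PP 134350000 11591 2790 _ _ _ _ _ (by norm_num)
    dvd_PP (by norm_num) _ _ _ _ _ (by norm_num) chunk39)

theorem cov40 : Cov 2503 2521 2531 2539 121158241 121161451 121164707 121167901 :=
  cov_trans cov39 (chain_sound PP 134350000 11591 3172 _ _ _ _ _ (by norm_num)
    dvd_PP (by norm_num) _ _ _ _ _ (by norm_num) chunk40)

theorem cov41 : Cov 2503 2521 2531 2539 134222261 134225879 134229499 134233147 :=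
  cov_trans cov40 (chain_sound PP 134350000 11591 3618 _ _ _ _ _ (by norm_num)
    dvd_PP (by norm_num) _ _ _ _ _ (by norm_num) chunk41)

end Finite

open KB.Finite in
theorem finite_wit : ∀ n : ℕ, 1081 ≤ n → n < 2 ^ 54 → ∃ p, Wit n p := by
  intro n h1 h2
  rcases Nat.lt_or_ge n 200000 with h | h
  · exact range1 n h1 h
  rcases Nat.lt_or_ge n 6265009 with h' | h'
  · exact range2 n h h'
  refine (cov41 good0).2 n (by omega) (lt_of_lt_of_le h2 (by norm_num))

end KB
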