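import Pool.Agent.Helper77.KB.Stages
import Pool.Agent.Helper77.KB.PsiFinal
import Pool.Agent.Helper77.KB.Finite
import Pool.Agent.Helper77.KB.Arith

/-! Assembly. -/

set_option autoImplicit false

open Finset

namespace KB

/-- lower bound for `theta (P1) - theta s` -/
theorem diff_low {s j : ℕ} (hj : 27 ≤ j) (h1 : 2 ^ j ≤ s) (h2 : s < 2 ^ (j + 1)) {u l : ℝ}
    (hu : (UV j : ℝ) / 100000 ≤ u) (hl1 : (LV j : ℝ) / 100000 ≤ l) (hl2 : (LV (j + 1) : ℝ) / 100000 ≤ l)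
    (hl : l ≤ 1) :
    (s : ℝ) * (0.02 - 1.02 * l - u) - 1.2 * Real.sqrt s - 1 ≤
      Chebyshev.theta ((s + s / 50 : ℕ) : ℝ) - Chebyshev.theta (s : ℝ) := by
  have h1' : (2 : ℝ) ^ j ≤ s := by exact_mod_cast h1
  have h2' : (s : ℝ) < 2 ^ (j + 1) := by exact_mod_cast h2
  have hs0 : (0 : ℝ) < s := lt_of_lt_of_le (by positivity) h1'
  set P : ℝ := ((s + s / 50 : ℕ) : ℝ) with hP
  have hP1 : P ≤ 1.02 * s := by
    have := Nat.cast_div_le (m := s) (n := 50) (α := ℝ)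
    rw [hP]; push_cast at this ⊢; norm_num; linarith
  have hP2 : 1.02 * s - 1 ≤ P := by
    have := (Nat.lt_mul_div_succ s (show 0 < 50 by norm_num)).le
    have h3 : (s : ℝ) ≤ ((50 * (s / 50 + 1) : ℕ) : ℝ) := by exact_mod_cast this
    rw [hP]; push_cast at h3 ⊢; norm_num; linarith
  have hP3 : (s : ℝ) ≤ P := by rw [hP]; exact_mod_cast Nat.le_add_right _ _
  have hP4 : (0 : ℝ) ≤ P := by linarith
  have a1 : Chebyshev.theta (s : ℝ) ≤ (1 + u) * s := by
    refine (Chebyshev.theta_le_psi _).trans (((cell_all j s h1' h2').2).trans ?_)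
    apply mul_le_mul_of_nonneg_right _ hs0.le
    linarith
  have a2 : (1 - l) * P ≤ Chebyshev.psi P := by
    rcases lt_or_ge P (2 ^ (j + 1)) with h | h
    · refine le_trans ?_ (cell_all j P (h1'.trans hP3) h).1
      apply mul_le_mul_of_nonneg_right _ hP4
      linarith
    · refine le_trans ?_ (cell_all (j + 1) P h (by
        rw [pow_succ 2 (j + 1)]
        norm_num at hP1 ⊢
        nlinarith)).1
      apply mul_le_mul_of_nonneg_right _ hP4
      linarith
  have h24 : (2 : ℝ) ^ 24 ≤ P := by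
    have : (2 : ℝ) ^ 24 ≤ 2 ^ j := pow_le_pow_right₀ (by norm_num) (by omega)
    linarith
  have a3 := psi_theta h24
  have a4 : Real.sqrt P ≤ 1.01 * Real.sqrt s := by
    rw [Real.sqrt_le_left (by positivity), mul_pow, Real.sq_sqrt hs0.le]
    norm_num at hP1 ⊢
    linarith
  have a6 : (1 - l) * (1.02 * s - 1) ≤ (1 - l) * P := mul_le_mul_of_nonneg_left hP2 (by linarith)
  have a7 : 0 ≤ l := le_trans (by positivity) hl1
  norm_num at *
  have a5 := Real.sqrt_nonneg (s : ℝ)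
  linarith

theorem log_P {s : ℕ} (hs : 1 ≤ s) : Real.log ((s + s / 50 : ℕ) : ℝ) ≤ Real.log s + 0.02 := by
  have hs0 : (0 : ℝ) < s := by exact_mod_cast hs
  have hP1 : ((s + s / 50 : ℕ) : ℝ) ≤ 1.02 * s := by
    have := Nat.cast_div_le (m := s) (n := 50) (α := ℝ)
    push_cast at this ⊢; norm_num; linarith
  have h1 : Real.log ((s + s / 50 : ℕ) : ℝ) ≤ Real.log (1.02 * s) := by
    apply Real.log_le_log _ hP1
    push_cast; positivity
  rw [Real.log_mul (by norm_num) hs0.ne'] at h1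
  have h2 := Real.log_le_sub_one_of_pos (show (0 : ℝ) < 1.02 by norm_num)
  norm_num at *
  linarith

theorem sqrt_le_div {s j : ℕ} (h1 : 2 ^ (2 * j) ≤ s) : Real.sqrt (s : ℝ) ≤ s / 2 ^ j := by
  have h1' : (2 : ℝ) ^ (2 * j) ≤ s := by exact_mod_cast h1
  have h2 : (2 : ℝ) ^ j ≤ Real.sqrt s := by
    apply Real.le_sqrt_of_sq_le
    rw [← pow_mul, mul_comm]; exact h1'
  have h3 : Real.sqrt (s : ℝ) * Real.sqrt s = s := Real.mul_self_sqrt (by positivity)
  rw [le_div_iff₀ (by positivity)]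
  calc Real.sqrt (s : ℝ) * 2 ^ j ≤ Real.sqrt s * Real.sqrt s :=
        mul_le_mul_of_nonneg_left h2 (Real.sqrt_nonneg _)
    _ = s := h3

/-- the inequality which has to be contradicted -/
theorem main_ineq {n j : ℕ} (hno : ∀ p, ¬ Wit n p) (hj : 27 ≤ j) (h1 : 2 ^ j ≤ Nat.sqrt n)
    (h2 : Nat.sqrt n < 2 ^ (j + 1)) {u l : ℝ}
    (hu : (UV j : ℝ) / 100000 ≤ u) (hl1 : (LV j : ℝ) / 100000 ≤ l) (hl2 : (LV (j + 1) : ℝ) / 100000 ≤ l)
    (hl : l ≤ 1) :
    (Nat.sqrt n : ℝ) * (0.02 - 1.02 * l - u) - 1.2 * Real.sqrt (Nat.sqrt n) - 1 ≤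
      ((MP n (Nat.sqrt n + Nat.sqrt n / 50) : ℝ) + 1) * (Real.log (Nat.sqrt n) + 0.02) := by
  have hs : 1 ≤ Nat.sqrt n := le_trans Nat.one_le_two_pow h1
  have k1 := diff_low hj h1 h2 hu hl1 hl2 hl
  have k2 := key_ineq (P1 := Nat.sqrt n + Nat.sqrt n / 50) hno (by omega) (by omega)
  refine k1.trans (k2.trans ?_)
  exact mul_le_mul_of_nonneg_left (log_P hs) (by positivity)

theorem log_cell {s j : ℕ} (hs : 1 ≤ s) (h2 : s < 2 ^ (j + 1)) :
    Real.log s ≤ (j + 1) * 0.6931471808 := by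
  have h2' : (s : ℝ) ≤ 2 ^ (j + 1) := by exact_mod_cast h2.le
  have := Real.log_le_log (by exact_mod_cast hs) h2'
  rw [Real.log_pow] at this
  have l2 := Real.log_two_lt_d9
  push_cast at this
  have : ((j : ℝ) + 1) * Real.log 2 ≤ (j + 1) * 0.6931471808 :=
    mul_le_mul_of_nonneg_left l2.le (by positivity)
  linarith

theorem stage0_aux {n j : ℕ} (hno : ∀ p, ¬ Wit n p) (hj : 27 ≤ j) (h1 : 2 ^ j ≤ Nat.sqrt n)
    (h2 : Nat.sqrt n < 2 ^ (j + 1)) {u l : ℝ}
    (hu : (UV j : ℝ) / 100000 ≤ u) (hl1 : (LV j : ℝ) / 100000 ≤ l) (hl2 : (LV (j + 1) : ℝ) / 100000 ≤ l)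
    (hl : l ≤ 1) {k : ℕ} (hk : 2 * k ≤ j)
    (hc : (1 / 2550 + 2 / 2 ^ j) * (((j : ℝ) + 1) * 0.6931471808 + 0.02) + 1.2 / 2 ^ k + 1 / 2 ^ j <
      0.02 - 1.02 * l - u) : False := by
  have hs : 1 ≤ Nat.sqrt n := le_trans Nat.one_le_two_pow h1
  have h27 : 2 ^ 27 ≤ Nat.sqrt n := le_trans (Nat.pow_le_pow_right (by norm_num) hj) h1
  have k1 := main_ineq hno hj h1 h2 hu hl1 hl2 hl
  have k2 := MP_stage0 (n := n) (le_trans (by norm_num) h27)
  have k3 := log_cell hs h2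
  have k4 : Real.sqrt ((Nat.sqrt n : ℕ) : ℝ) ≤ (Nat.sqrt n : ℝ) / 2 ^ k :=
    sqrt_le_div (le_trans (Nat.pow_le_pow_right (by norm_num) hk) h1)
  have h1' : (2 : ℝ) ^ j ≤ (Nat.sqrt n : ℝ) := by exact_mod_cast h1
  set s : ℝ := ((Nat.sqrt n : ℕ) : ℝ) with hsd
  have hs0 : 0 < s := lt_of_lt_of_le (by positivity) h1'
  have k5 : (1 : ℝ) ≤ s / 2 ^ j := by rw [le_div_iff₀ (by positivity)]; linarith
  have hL0 : 0 ≤ Real.log s := Real.log_natCast_nonneg _
  have k6 : ((MP n (Nat.sqrt n + Nat.sqrt n / 50) : ℝ) + 1) * (Real.log s + 0.02) ≤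
      (s * (1 / 2550 + 2 / 2 ^ j)) * (((j : ℝ) + 1) * 0.6931471808 + 0.02) := by
    apply mul_le_mul _ (by linarith) (by positivity) (by positivity)
    have : s * (1 / 2550 + 2 / 2 ^ j) = s / 2550 + 2 * (s / 2 ^ j) := by ring
    rw [this]; linarith
  have k7 := mul_lt_mul_of_pos_left hc hs0
  have e1 : s * ((1 / 2550 + 2 / 2 ^ j) * (((j : ℝ) + 1) * 0.6931471808 + 0.02) + 1.2 / 2 ^ k + 1 / 2 ^ j) =
    (s * (1 / 2550 + 2 / 2 ^ j)) * (((j : ℝ) + 1) * 0.6931471808 + 0.02) + 1.2 * (s / 2 ^ k) + s / 2 ^ j := by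
    ring
  rw [e1] at k7
  have k8 : (1.2 : ℝ) * Real.sqrt s ≤ 1.2 * (s / 2 ^ k) := mul_le_mul_of_nonneg_left k4 (by norm_num)
  linarith

theorem tabs : UV 27 = 430 ∧ UV 28 = 370 ∧ UV 29 = 337 ∧ UV 30 = 407 ∧ UV 31 = 461 ∧ UV 32 = 477 ∧
    UV 33 = 469 ∧ UV 34 = 452 ∧ UV 35 = 429 ∧ UV 36 = 407 ∧ UV 37 = 390 ∧ UV 38 = 370 ∧
    LV 27 = 439 ∧ LV 28 = 381 ∧ LV 29 = 347 ∧ LV 30 = 422 ∧ LV 31 = 475 ∧ LV 32 = 488 ∧
    LV 33 = 477 ∧ LV 34 = 460 ∧ LV 35 = 439 ∧ LV 36 = 418 ∧ LV 37 = 402 ∧ LV 38 = 382 := by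
  decide

theorem stage0 {n j : ℕ} (hno : ∀ p, ¬ Wit n p) (hj : 27 ≤ j) (hj2 : j < 46) (h1 : 2 ^ j ≤ Nat.sqrt n)
    (h2 : Nat.sqrt n < 2 ^ (j + 1)) : False := by
  obtain ⟨a27, a28, a29, a30, a31, a32, a33, a34, a35, a36, a37, a38,
    b27, b28, b29, b30, b31, b32, b33, b34, b35, b36, b37, b38⟩ := tabs
  have c : ∀ j, 39 ≤ j → UV j = 360 := fun j h => UV_large h
  have d : ∀ j, 39 ≤ j → LV j = 370 := fun j h => LV_large h
  rcases Nat.lt_or_ge j 39 with h39 | h39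
  · interval_cases j
    · exact stage0_aux (u := 0.0043) (l := 0.00439) (k := 13) hno hj h1 h2 (by rw [a27]; norm_num)
        (by rw [b27]; norm_num) (by rw [b28]; norm_num) (by norm_num) (by norm_num) (by norm_num)
    · exact stage0_aux (u := 0.0037) (l := 0.00381) (k := 14) hno hj h1 h2 (by rw [a28]; norm_num)
        (by rw [b28]; norm_num) (by rw [b29]; norm_num) (by norm_num) (by norm_num) (by norm_num)
    · exact stage0_aux (u := 0.00337) (l := 0.00422) (k := 14) hno hj h1 h2 (by rw [a29]; norm_num)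
        (by rw [b29]; norm_num) (by rw [b30]; norm_num) (by norm_num) (by norm_num) (by norm_num)
    · exact stage0_aux (u := 0.00407) (l := 0.00475) (k := 15) hno hj h1 h2 (by rw [a30]; norm_num)
        (by rw [b30]; norm_num) (by rw [b31]; norm_num) (by norm_num) (by norm_num) (by norm_num)
    · exact stage0_aux (u := 0.00461) (l := 0.00488) (k := 15) hno hj h1 h2 (by rw [a31]; norm_num)
        (by rw [b31]; norm_num) (by rw [b32]; norm_num) (by norm_num) (by norm_num) (by norm_num)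
    · exact stage0_aux (u := 0.00477) (l := 0.00488) (k := 16) hno hj h1 h2 (by rw [a32]; norm_num)
        (by rw [b32]; norm_num) (by rw [b33]; norm_num) (by norm_num) (by norm_num) (by norm_num)
    · exact stage0_aux (u := 0.00469) (l := 0.00477) (k := 16) hno hj h1 h2 (by rw [a33]; norm_num)
        (by rw [b33]; norm_num) (by rw [b34]; norm_num) (by norm_num) (by norm_num) (by norm_num)
    · exact stage0_aux (u := 0.00452) (l := 0.0046) (k := 17) hno hj h1 h2 (by rw [a34]; norm_num)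
        (by rw [b34]; norm_num) (by rw [b35]; norm_num) (by norm_num) (by norm_num) (by norm_num)
    · exact stage0_aux (u := 0.00429) (l := 0.00439) (k := 17) hno hj h1 h2 (by rw [a35]; norm_num)
        (by rw [b35]; norm_num) (by rw [b36]; norm_num) (by norm_num) (by norm_num) (by norm_num)
    · exact stage0_aux (u := 0.00407) (l := 0.00418) (k := 18) hno hj h1 h2 (by rw [a36]; norm_num)
        (by rw [b36]; norm_num) (by rw [b37]; norm_num) (by norm_num) (by norm_num) (by norm_num)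
    · exact stage0_aux (u := 0.0039) (l := 0.00402) (k := 18) hno hj h1 h2 (by rw [a37]; norm_num)
        (by rw [b37]; norm_num) (by rw [b38]; norm_num) (by norm_num) (by norm_num) (by norm_num)
    · exact stage0_aux (u := 0.0037) (l := 0.00382) (k := 19) hno hj h1 h2 (by rw [a38]; norm_num)
        (by rw [b38]; norm_num) (by rw [d 39 (by norm_num)]; norm_num) (by norm_num) (by norm_num) (by norm_num)
  · interval_cases j
    all_goals
      exact stage0_aux (u := 0.0036) (l := 0.0037) (k := 19) hno hj h1 h2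
        (by rw [c _ (by norm_num)]; norm_num) (by rw [d _ (by norm_num)]; norm_num)
        (by rw [d _ (by norm_num)]; norm_num) (by norm_num) (by norm_num) (by norm_num)

/-- pieces of stage 1 -/
theorem piece1 {L y s b Y : ℝ} (hs : s = y ^ 3) (hL0 : 0 ≤ L) (hL : L ≤ b) (hY0 : 0 < Y) (hY : Y ≤ y)
    (hc : (1 / 5100 + (5 + 0.05 * b) / Y + 1 / Y ^ 3) * (b + 0.02) < 0.0126257) :
    (s / 5100 + (5 + 0.05 * L) * y ^ 2 + 1) * (L + 0.02) < 0.0126257 * s := by
  have hy : 0 < y := lt_of_lt_of_le hY0 hY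
  have hs0 : 0 < s := by rw [hs]; positivity
  have e1 : y ^ 2 ≤ s / Y := by
    rw [le_div_iff₀ hY0, hs]
    nlinarith [pow_pos hy 2]
  have e2 : 1 ≤ s / Y ^ 3 := by
    rw [le_div_iff₀ (by positivity), hs, one_mul]
    exact pow_le_pow_left₀ hY0.le hY 3
  have e3 : (5 + 0.05 * L) * y ^ 2 ≤ (5 + 0.05 * b) * (s / Y) :=
    mul_le_mul (by linarith) e1 (by positivity) (by linarith)
  have e4 : (s / 5100 + (5 + 0.05 * L) * y ^ 2 + 1) * (L + 0.02) ≤
      (s / 5100 + (5 + 0.05 * b) * (s / Y) + s / Y ^ 3) * (b + 0.02) :=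
    mul_le_mul (by linarith) (by linarith) (by linarith) (by
      have := div_pos hs0 hY0
      have := div_pos hs0 (pow_pos hY0 3)
      have : 0 ≤ (5 + 0.05 * b) * (s / Y) := mul_nonneg (by linarith) (by linarith)
      linarith)
  have e5 : (s / 5100 + (5 + 0.05 * b) * (s / Y) + s / Y ^ 3) * (b + 0.02) =
    s * ((1 / 5100 + (5 + 0.05 * b) / Y + 1 / Y ^ 3) * (b + 0.02)) := by ring
  rw [e5] at e4
  have := mul_lt_mul_of_pos_left hc hs0
  linarith

theorem exp_ge {L : ℝ} (k : ℕ) (h : (3 * k : ℝ) ≤ L) : (2.7182818283 : ℝ) ^ k ≤ Real.exp (L / 3) := by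
  have h1 : Real.exp ((k : ℝ) * 1) ≤ Real.exp (L / 3) := Real.exp_le_exp.mpr (by linarith)
  rw [Real.exp_nat_mul] at h1
  have h2 : (2.7182818283 : ℝ) ^ k ≤ Real.exp 1 ^ k :=
    pow_le_pow_left₀ (by norm_num) Real.exp_one_gt_d9.le k
  linarith

theorem stage1_num {L y s : ℝ} (hy : y = Real.exp (L / 3)) (hs : s = y ^ 3) (hL0 : 0 ≤ L)
    (hy0 : 41285 ≤ y) (hL : L ≤ 62) :
    (s / 5100 + (5 + 0.05 * L) * y ^ 2 + 1) * (L + 0.02) < 0.0126257 * s := by
  rcases le_or_gt L 33 with h1 | h1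
  · exact piece1 (b := 33) (Y := 41285) hs hL0 h1 (by norm_num) hy0 (by norm_num)
  rcases le_or_gt L 36 with h2 | h2
  · have h := exp_ge (L := L) 11 (by norm_num; linarith)
    rw [← hy] at h
    exact piece1 (b := 36) (Y := 59874) hs hL0 h2 (by norm_num) (le_trans (by norm_num) h) (by norm_num)
  rcases le_or_gt L 42 with h3 | h3
  · have h := exp_ge (L := L) 12 (by norm_num; linarith)
    rw [← hy] at h
    exact piece1 (b := 42) (Y := 162754) hs hL0 h3 (by norm_num) (le_trans (by norm_num) h) (by norm_num)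
  rcases le_or_gt L 52 with h4 | h4
  · have h := exp_ge (L := L) 14 (by norm_num; linarith)
    rw [← hy] at h
    exact piece1 (b := 52) (Y := 1202604) hs hL0 h4 (by norm_num) (le_trans (by norm_num) h) (by norm_num)
  · have h := exp_ge (L := L) 17 (by norm_num; linarith)
    rw [← hy] at h
    exact piece1 (b := 62) (Y := 24154952) hs hL0 hL (by norm_num) (le_trans (by norm_num) h) (by norm_num)

theorem stage2_num {L y s : ℝ} (hy : y = Real.exp (L / 3)) (hs : s = y ^ 3) (hL0 : 62 ≤ L)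
    (hL : L ≤ 92) :
    (s / 7650 + 2 * ((5 + 0.05 * L) * y ^ 2) + 1) * (L + 0.02) < 0.0126257 * s := by
  have h := exp_ge (L := L) 20 (by norm_num; linarith)
  rw [← hy] at h
  have hY : (480000000 : ℝ) ≤ y := le_trans (by norm_num) h
  have hs0 : 0 < s := by rw [hs]; positivity
  have e1 : y ^ 2 ≤ s / 480000000 := by
    rw [le_div_iff₀ (by norm_num), hs]
    nlinarith [pow_pos (show 0 < y by linarith) 2]
  have e2 : 1 ≤ s / 480000000 := by
    rw [le_div_iff₀ (by norm_num), hs]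
    nlinarith [pow_pos (show 0 < y by linarith) 2]
  have e3 : (5 + 0.05 * L) * y ^ 2 ≤ (5 + 0.05 * 92) * (s / 480000000) :=
    mul_le_mul (by linarith) e1 (by positivity) (by norm_num)
  have e4 : (s / 7650 + 2 * ((5 + 0.05 * L) * y ^ 2) + 1) * (L + 0.02) ≤
      (s / 7650 + 2 * ((5 + 0.05 * 92) * (s / 480000000)) + s / 480000000) * (92 + 0.02) :=
    mul_le_mul (by linarith) (by linarith) (by linarith) (by positivity)
  norm_num at e4 ⊢
  linarith

theorem stage3_num {L s r R : ℝ} (hs : s = Real.exp L) (hL0 : 90 ≤ L) (hr : r = Real.exp (L / 25))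
    (hR1 : R ≤ r) (hR2 : r < R + 1) :
    2 ≤ R ∧ (s / 2550 / Real.log R + R ^ 4 * ((11 + 0.05 * L) * Real.exp (L / 3) ^ 2) + 1) * (L + 0.02) <
      0.0126257 * s := by
  have hr36 : 36 ≤ r := by
    by_contra hlt
    push Not at hlt
    have h0 : 0 < r := by rw [hr]; exact Real.exp_pos _
    have h1 : r ^ 5 < 36 ^ 5 := pow_lt_pow_left₀ hlt h0.le (by norm_num)
    have h2 : r ^ 5 = Real.exp (L / 5) := by
      rw [hr, ← Real.exp_nat_mul]; congr 1; push_cast; ring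
    have h3 := Real.exp_le_exp.mpr (show ((18 : ℕ) : ℝ) * 1 ≤ L / 5 by push_cast; linarith)
    rw [Real.exp_nat_mul] at h3
    have h4 : (2.7182818283 : ℝ) ^ 18 ≤ Real.exp 1 ^ 18 :=
      pow_le_pow_left₀ (by norm_num) Real.exp_one_gt_d9.le 18
    rw [h2] at h1
    have h5 : (36 : ℝ) ^ 5 ≤ (2.7182818283 : ℝ) ^ 18 := by norm_num
    linarith
  have hR3 : 35 / 36 * r ≤ R := by linarith
  have hR0 : 0 < R := by linarith
  have hs0 : 0 < s := by rw [hs]; exact Real.exp_pos _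
  have hlogR : L / 25 - 1 / 35 ≤ Real.log R := by
    have h1 : Real.log (35 / 36 * r) ≤ Real.log R := Real.log_le_log (by positivity) hR3
    rw [Real.log_mul (by norm_num) (by linarith), hr, Real.log_exp] at h1
    have h2 := Real.one_sub_inv_le_log_of_pos (show (0 : ℝ) < 35 / 36 by norm_num)
    norm_num at h2
    linarith
  have hlog0 : 0 < Real.log R := by linarith
  refine ⟨by linarith, ?_⟩
  have t1 : s / 2550 / Real.log R * (L + 0.02) ≤ s * (25.3 / 2550) := by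
    have h1 : (L + 0.02) / Real.log R ≤ 25.3 := by
      rw [div_le_iff₀ hlog0]
      norm_num at hlogR ⊢
      linarith
    have h2 : s / 2550 / Real.log R * (L + 0.02) = s / 2550 * ((L + 0.02) / Real.log R) := by ring
    rw [h2, show s * (25.3 / 2550) = s / 2550 * 25.3 by ring]
    exact mul_le_mul_of_nonneg_left h1 (by positivity)
  set w := Real.exp (13 * L / 75) with hw
  have hw0 : 0 < w := Real.exp_pos _
  have hpoly : (11 + 0.05 * L) * (L + 0.02) ≤ 0.002 * w := by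
    obtain ⟨v, hv⟩ : ∃ v, L = 75 / 13 * (15 + v) := ⟨13 * L / 75 - 15, by ring⟩
    have hv0 : 0 ≤ v := by
      have : 13 * L / 75 = 15 + v := by rw [hv]; ring
      linarith
    have h1 : w = Real.exp 1 ^ 15 * Real.exp v := by
      rw [hw, ← Real.exp_nat_mul, ← Real.exp_add, hv]
      congr 1; push_cast; ring
    have h2 := Real.quadratic_le_exp_of_nonneg hv0
    have h3 : (2.7182818283 : ℝ) ^ 15 ≤ Real.exp 1 ^ 15 :=
      pow_le_pow_left₀ (by norm_num) Real.exp_one_gt_d9.le 15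
    have h4 : (3269000 : ℝ) ≤ Real.exp 1 ^ 15 := le_trans (by norm_num) h3
    have h5 : 3269000 * (1 + v + v ^ 2 / 2) ≤ w := by
      rw [h1]
      exact mul_le_mul h4 h2 (by positivity) (by positivity)
    have h6 : (11 + 0.05 * L) * (L + 0.02) ≤ 0.002 * (3269000 * (1 + v + v ^ 2 / 2)) := by
      rw [hv]
      norm_num
      nlinarith [mul_nonneg hv0 hv0]
    linarith
  have t2 : R ^ 4 * ((11 + 0.05 * L) * Real.exp (L / 3) ^ 2) * (L + 0.02) ≤ 0.002 * s := by
    have h1 : R ^ 4 ≤ r ^ 4 := pow_le_pow_left₀ hR0.le hR1 4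
    have h2 : r ^ 4 * Real.exp (L / 3) ^ 2 * w = s := by
      rw [hr, hs, hw, ← Real.exp_nat_mul, ← Real.exp_nat_mul, ← Real.exp_add, ← Real.exp_add]
      congr 1; push_cast; ring
    have hr0 : 0 < r := by linarith
    have h3 : R ^ 4 * ((11 + 0.05 * L) * Real.exp (L / 3) ^ 2) * (L + 0.02) ≤
        r ^ 4 * ((11 + 0.05 * L) * Real.exp (L / 3) ^ 2) * (L + 0.02) := by
      apply mul_le_mul_of_nonneg_right _ (by linarith)
      apply mul_le_mul_of_nonneg_right h1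
      have := Real.exp_pos (L / 3)
      positivity
    have h4 : r ^ 4 * ((11 + 0.05 * L) * Real.exp (L / 3) ^ 2) * (L + 0.02) ≤
        (r ^ 4 * Real.exp (L / 3) ^ 2) * (0.002 * w) := by
      have : r ^ 4 * ((11 + 0.05 * L) * Real.exp (L / 3) ^ 2) * (L + 0.02) =
        (r ^ 4 * Real.exp (L / 3) ^ 2) * ((11 + 0.05 * L) * (L + 0.02)) := by ring
      rw [this]
      exact mul_le_mul_of_nonneg_left hpoly (by positivity)
    have h5 : (r ^ 4 * Real.exp (L / 3) ^ 2) * (0.002 * w) = 0.002 * s := by rw [← h2]; ring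
    linarith
  have t3 : L + 0.02 ≤ 0.0002 * s := by
    have h1 : w ≤ s := by
      rw [hw, hs]; exact Real.exp_le_exp.mpr (by linarith)
    nlinarith
  have e : (s / 2550 / Real.log R + R ^ 4 * ((11 + 0.05 * L) * Real.exp (L / 3) ^ 2) + 1) * (L + 0.02) =
    s / 2550 / Real.log R * (L + 0.02) + R ^ 4 * ((11 + 0.05 * L) * Real.exp (L / 3) ^ 2) * (L + 0.02) +
      (L + 0.02) := by ring
  rw [e]
  norm_num at *
  linarith

theorem large_wit {n : ℕ} (hn : 2 ^ 54 ≤ n) : ∃ p, Wit n p := by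
  by_contra hcon
  have hno : ∀ p, ¬ Wit n p := fun p hp => hcon ⟨p, hp⟩
  have hs27 : 2 ^ 27 ≤ Nat.sqrt n := by
    rw [Nat.le_sqrt]
    exact le_trans (by norm_num) hn
  have hs0 : Nat.sqrt n ≠ 0 := by omega
  have hj1 : 2 ^ Nat.log 2 (Nat.sqrt n) ≤ Nat.sqrt n := Nat.pow_log_le_self 2 hs0
  have hj2 : Nat.sqrt n < 2 ^ (Nat.log 2 (Nat.sqrt n) + 1) :=
    Nat.lt_pow_succ_log_self (by norm_num) _
  have hj27 : 27 ≤ Nat.log 2 (Nat.sqrt n) := (Nat.le_log_iff_pow_le (by norm_num) hs0).mpr hs27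
  rcases Nat.lt_or_ge (Nat.log 2 (Nat.sqrt n)) 46 with h46 | h46
  · exact stage0 hno hj27 h46 hj1 hj2
  have hs46 : 2 ^ 46 ≤ Nat.sqrt n := le_trans (Nat.pow_le_pow_right (by norm_num) h46) hj1
  have k1 := main_ineq (u := 0.0036) (l := 0.0037) hno hj27 hj1 hj2
    (by rw [UV_large (by omega)]; norm_num) (by rw [LV_large (by omega)]; norm_num)
    (by rw [LV_large (by omega)]; norm_num) (by norm_num)
  have k2 : Real.sqrt ((Nat.sqrt n : ℕ) : ℝ) ≤ (Nat.sqrt n : ℝ) / 2 ^ 23 := sqrt_le_div hs46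
  have hs46' : (2 : ℝ) ^ 46 ≤ (Nat.sqrt n : ℝ) := by exact_mod_cast hs46
  have hm1 := MP_stage1 hs46
  have hm2 := MP_stage2 hs46
  have hm3 := fun R hR hRs => MP_selberg (n := n) (R := R) hs46 hR hRs
  have hV := VV_le (n := n) (by omega)
  unfold EE at hm1 hm2
  unfold EF at hm3
  set m : ℝ := (MP n (Nat.sqrt n + Nat.sqrt n / 50) : ℝ) with hm
  set s : ℝ := ((Nat.sqrt n : ℕ) : ℝ) with hsd
  have hsp : 0 < s := lt_of_lt_of_le (by positivity) hs46'
  set L := Real.log s with hLd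
  have hsL : s = Real.exp L := by rw [hLd, Real.exp_log hsp]
  have hL0 : 0 ≤ L := Real.log_natCast_nonneg _
  have k3 : 0.0126257 * s ≤ (m + 1) * (L + 0.02) := by
    refine le_trans ?_ k1
    norm_num at *
    linarith
  have hy3 : s = Real.exp (L / 3) ^ 3 := by
    rw [← Real.exp_nat_mul, hsL]; congr 1; push_cast; ring
  have hy2 : s ^ (2 / 3 : ℝ) = Real.exp (L / 3) ^ 2 := by
    rw [hsL, ← Real.exp_mul, ← Real.exp_nat_mul]
    congr 1; push_cast
    ring
  rw [hy2] at hm1 hm2 hm3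
  have hy0 : 41285 ≤ Real.exp (L / 3) := by
    by_contra hlt
    push Not at hlt
    have h1 : Real.exp (L / 3) ^ 3 < 41285 ^ 3 := pow_lt_pow_left₀ hlt (Real.exp_pos _).le (by norm_num)
    rw [← hy3] at h1
    norm_num at h1 hs46'
    linarith
  rcases le_or_gt L 62 with h1 | h1
  · have h := stage1_num rfl hy3 hL0 hy0 h1
    have h2 : (m + 1) * (L + 0.02) ≤ (s / 5100 + (5 + 0.05 * L) * Real.exp (L / 3) ^ 2 + 1) * (L + 0.02) :=
      mul_le_mul_of_nonneg_right (by linarith) (by linarith)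
    linarith
  rcases le_or_gt L 92 with h2 | h2
  · have h := stage2_num rfl hy3 h1.le h2
    have h2 : (m + 1) * (L + 0.02) ≤
        (s / 7650 + 2 * ((5 + 0.05 * L) * Real.exp (L / 3) ^ 2) + 1) * (L + 0.02) :=
      mul_le_mul_of_nonneg_right (by linarith) (by linarith)
    linarith
  · set r := Real.exp (L / 25) with hr
    have hr0 : 0 ≤ r := (Real.exp_pos _).le
    have hRr : ((⌊r⌋₊ : ℕ) : ℝ) ≤ r := Nat.floor_le hr0
    obtain ⟨g1, g2⟩ := stage3_num hsL (by linarith) hr hRr (Nat.lt_floor_add_one r)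
    have g3 : ⌊r⌋₊ ^ 25 ≤ Nat.sqrt n := by
      have : ((⌊r⌋₊ : ℕ) : ℝ) ^ 25 ≤ s := by
        refine (pow_le_pow_left₀ (by positivity) hRr 25).trans (le_of_eq ?_)
        rw [hr, ← Real.exp_nat_mul, hsL]; congr 1; push_cast; ring
      rw [hsd] at this
      exact_mod_cast this
    have g4 := hm3 ⌊r⌋₊ (by exact_mod_cast g1) g3
    have hlogR : 0 ≤ Real.log ((⌊r⌋₊ : ℕ) : ℝ) := Real.log_natCast_nonneg _
    have g5 : VV n / Real.log ((⌊r⌋₊ : ℕ) : ℝ) ≤ s / 2550 / Real.log ((⌊r⌋₊ : ℕ) : ℝ) :=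
      div_le_div_of_nonneg_right hV hlogR
    have g6 : (m + 1) * (L + 0.02) ≤ (s / 2550 / Real.log ((⌊r⌋₊ : ℕ) : ℝ) +
        ((⌊r⌋₊ : ℕ) : ℝ) ^ 4 * ((11 + 0.05 * L) * Real.exp (L / 3) ^ 2) + 1) * (L + 0.02) :=
      mul_le_mul_of_nonneg_right (by linarith) (by linarith)
    linarith

theorem all_wit {n : ℕ} (hn : 1081 ≤ n) : ∃ p, Wit n p := by
  rcases Nat.lt_or_ge n (2 ^ 54) with h | h
  · exact finite_wit n hn h
  · exact large_wit h

theorem solution_set : {n : ℕ | 1 ≤ n ∧ aden (n - 1) = rad (n + 1)} =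
    {3, 5, 8, 9, 11, 27, 29, 35, 59} := by
  ext n
  show (1 ≤ n ∧ aden (n - 1) = rad (n + 1)) ↔ n ∈ ({3, 5, 8, 9, 11, 27, 29, 35, 59} : Set ℕ)
  constructor
  · rintro ⟨h1, h2⟩
    have h3 : n ≤ 1080 := by
      by_contra h
      push Not at h
      obtain ⟨p, hp⟩ := all_wit (n := n) (by omega)
      exact ne_of_wit hp h2
    have h4 := (small_cases n h1 h3).mp h2
    simpa using h4
  · intro h
    have h' : n ∈ ({3, 5, 8, 9, 11, 27, 29, 35, 59} : Finset ℕ) := by simpa using h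
    have h1 : 1 ≤ n ∧ n ≤ 1080 := by
      simp only [Finset.mem_insert, Finset.mem_singleton] at h'
      omega
    exact ⟨h1.1, (small_cases n h1.1 h1.2).mpr h'⟩

end KB
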