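import Pool.Agent.Helper77.KB.HData

/-! Kernel checks of the digit blocks. -/

set_option autoImplicit false

namespace KB

set_option maxRecDepth 1000000 in
theorem hc0 : sup0 (bigOf 96000) LA LB LC LD (fun F => Nat.beq F 53) he0 hd0 16 = true := by decide +kernel

set_option maxRecDepth 1000000 in
theorem hc1 : sups (bigOf 96000) LA LB LC LD (fun F => Nat.beq F 146) hd1 1 53 = true := by decide +kernel

set_option maxRecDepth 1000000 in
theorem hc2 : sups (bigOf 96000) LA LB LC LD (fun F => Nat.beq F 457) hd2 3 146 = true := by decide +kernel

set_option maxRecDepth 1000000 in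
theorem hc3 : sups (bigOf 96000) LA LB LC LD (fun F => Nat.beq F 897) hd3 10 457 = true := by decide +kernel

set_option maxRecDepth 1000000 in
theorem hc4 : sups (bigOf 96000) LA LB LC LD (fun F => Nat.beq F 1777) hd4 20 897 = true := by decide +kernel

set_option maxRecDepth 1000000 in
theorem hc5 : sups (bigOf 96000) LA LB LC LD (fun F => Nat.beq F 2669) hd5 40 1777 = true := by decide +kernel

set_option maxRecDepth 1000000 in
theorem hc6 : sups (bigOf 96000) LA LB LC LD (fun F => Nat.beq F 3548) hd6 60 2669 = true := by decide +kernel

set_option maxRecDepth 1000000 in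
theorem hc7 : sups (bigOf 96000) LA LB LC LD (fun F => Nat.beq F 4423) hd7 80 3548 = true := by decide +kernel

end KB
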