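import Pool.Agent.Helper77.KB.HSound
import Pool.Agent.Helper77.KB.HCheck

/-! The verified table. -/

set_option autoImplicit false

open Finset

namespace KB

/-- all blocks, starting at `y = 1`, up to `999999` -/
def AllE : List ℕ :=
  he0 ++ hd0.flatten ++ (hd1.map List.flatten).flatten ++ (hd2.map List.flatten).flatten ++
  (hd3.map List.flatten).flatten ++ (hd4.map List.flatten).flatten ++
  (hd5.map List.flatten).flatten ++ (hd6.map List.flatten).flatten ++
  (hd7.map List.flatten).flatten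

instance (cs : List (List ℕ)) : Decidable (CL cs) := by unfold CL tl; infer_instance
instance (cs : List (List (List ℕ))) : Decidable (SL cs) := by unfold SL; infer_instance
instance (l : List ℕ) : Decidable (OKL l) := by unfold OKL; infer_instance

theorem okA : OKL LA := by decide +kernel
theorem okB : OKL LB := by decide +kernel
theorem okC : OKL LC := by decide +kernel
theorem okD : OKL LD := by decide +kernel
theorem l_he0 : tl he0 = 999 := by decide +kernel
theorem l_hd0 : CL hd0 ∧ hd0.length = 9 := by decide +kernel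
theorem l_hd1 : SL hd1 ∧ hd1.length = 2 := by decide +kernel
theorem l_hd2 : SL hd2 ∧ hd2.length = 7 := by decide +kernel
theorem l_hd3 : SL hd3 ∧ hd3.length = 10 := by decide +kernel
theorem l_hd4 : SL hd4 ∧ hd4.length = 20 := by decide +kernel
theorem l_hd5 : SL hd5 ∧ hd5.length = 20 := by decide +kernel
theorem l_hd6 : SL hd6 ∧ hd6.length = 20 := by decide +kernel
theorem l_hd7 : SL hd7 ∧ hd7.length = 20 := by decide +kernel

theorem beq_cast {F n : ℕ} {x : ℤ} (h : (F : ℤ) = x) (h2 : Nat.beq F n = true) : ((n : ℕ) : ℤ) = x := by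
  rw [← Nat.eq_of_beq_eq_true h2, h]

theorem good_all : Good LA LB LC LD 0 AllE := by
  obtain ⟨g0, F0, a0, b0⟩ := sup0_sound bigO_eq le_rfl okA okB okC okD l_he0 l_hd0.1 l_hd0.2 hc0
  have c0 := beq_cast a0 b0
  obtain ⟨g1, F1, a1, b1⟩ := sups_sound bigO_eq le_rfl okA okB okC okD (y := 9999) (by norm_num)
    l_hd1.1 c0 hc1
  rw [l_hd1.2] at a1
  have c1 := beq_cast a1 b1
  obtain ⟨g2, F2, a2, b2⟩ := sups_sound bigO_eq le_rfl okA okB okC okD (y := 29999) (by norm_num)
    l_hd2.1 c1 hc2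
  rw [l_hd2.2] at a2
  have c2 := beq_cast a2 b2
  obtain ⟨g3, F3, a3, b3⟩ := sups_sound bigO_eq le_rfl okA okB okC okD (y := 99999) (by norm_num)
    l_hd3.1 c2 hc3
  rw [l_hd3.2] at a3
  have c3 := beq_cast a3 b3
  obtain ⟨g4, F4, a4, b4⟩ := sups_sound bigO_eq le_rfl okA okB okC okD (y := 199999) (by norm_num)
    l_hd4.1 c3 hc4
  rw [l_hd4.2] at a4
  have c4 := beq_cast a4 b4
  obtain ⟨g5, F5, a5, b5⟩ := sups_sound bigO_eq le_rfl okA okB okC okD (y := 399999) (by norm_num)
    l_hd5.1 c4 hc5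
  rw [l_hd5.2] at a5
  have c5 := beq_cast a5 b5
  obtain ⟨g6, F6, a6, b6⟩ := sups_sound bigO_eq le_rfl okA okB okC okD (y := 599999) (by norm_num)
    l_hd6.1 c5 hc6
  rw [l_hd6.2] at a6
  have c6 := beq_cast a6 b6
  obtain ⟨g7, F7, a7, b7⟩ := sups_sound bigO_eq le_rfl okA okB okC okD (y := 799999) (by norm_num)
    l_hd7.1 c6 hc7
  unfold AllE
  have t0 : tl (he0 ++ hd0.flatten) = 9999 := by
    rw [tl_append, l_he0, tl_flatten l_hd0.1, l_hd0.2]
  have t1 := tl_sups l_hd1.1
  have t2 := tl_sups l_hd2.1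
  have t3 := tl_sups l_hd3.1
  have t4 := tl_sups l_hd4.1
  have t5 := tl_sups l_hd5.1
  have t6 := tl_sups l_hd6.1
  rw [l_hd1.2] at t1
  rw [l_hd2.2] at t2
  rw [l_hd3.2] at t3
  rw [l_hd4.2] at t4
  rw [l_hd5.2] at t5
  rw [l_hd6.2] at t6
  refine Good_append (Good_append (Good_append (Good_append (Good_append (Good_append
    (Good_append g0 ?_) ?_) ?_) ?_) ?_) ?_) ?_
  · rw [t0]; exact g1
  · rw [tl_append, t0, t1]; exact g2
  · rw [tl_append, tl_append, t0, t1, t2]; exact g3
  · rw [tl_append, tl_append, tl_append, t0, t1, t2, t3]; exact g4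
  · rw [tl_append, tl_append, tl_append, tl_append, t0, t1, t2, t3, t4]; exact g5
  · rw [tl_append, tl_append, tl_append, tl_append, tl_append, t0, t1, t2, t3, t4, t5]; exact g6
  · rw [tl_append, tl_append, tl_append, tl_append, tl_append, tl_append, t0, t1, t2, t3, t4, t5,
      t6]
    exact g7

end KB
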