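import Pool.Agent.Helper77.KB.GDef
import Pool.Agent.Helper77.KB.HFinal

/-! Kernel checks of the step functions. -/

set_option autoImplicit false

namespace KB

def exU1 : List (ℕ × ℕ × ℕ) := [(0, 0, 0), (9, 4500000000, 4913631620), (10, 27168786594, 21159963820), (11, 14778029103, 16905350156), (12, 4530488367, 4758261118), (13, 926985097, 635417681), (14, 592931349, 400954575), (15, 166600496, 201854510), (16, 79164001, 53817003), (17, 33001513, 10905125), (18, 4241526, 0), (19, 285713384, 0)]

def exL1 : List (ℕ × ℕ × ℕ) := [(0, 0, 0), (9, 1956947163, 0), (10, 24579146713, 26931739251), (11, 14860752894, 11237662786), (12, 3954284450, 2249030966), (13, 555724981, 728871247), (14, 496192679, 339470791), (15, 190592049, 162211607), (16, 61649512, 11357097), (17, 28897618, 22948717), (18, 10051077, 0), (19, 287681648, 0)]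

def exU2 : List (ℕ × ℕ × ℕ) := [(0, 0, 0), (9, 4500000000, 4913631620), (10, 48519085100, 43942770423), (11, 33705584573, 35812996879), (12, 22720391689, 23227572795), (13, 13734535998, 13722005788), (14, 8462422751, 8693149387), (15, 3243338627, 3062156222), (16, 1307096080, 1317214381), (17, 655130922, 614429065), (18, 277197356, 293309404), (19, 428412534, 139763792)]

def exL2 : List (ℕ × ℕ × ℕ) := [(0, 0, 0), (9, 3923532614, 2000000000), (10, 47010739201, 50639599462), (11, 34735478771, 31408988204), (12, 21493315065, 21075975996), (13, 12232237552, 12278209348), (14, 8493286604, 8170328038), (15, 3549036420, 3382730488), (16, 1150148138, 1139976481), (17, 635406528, 619006725), (18, 259967194, 263856864), (19, 426579371, 135651029)]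

set_option maxRecDepth 1000000 in
theorem gk1 : gok 36 43 AllE 0 = true := by decide +kernel

set_option maxRecDepth 1000000 in
theorem gk2 : gok 50 57 AllE 0 = true := by decide +kernel

set_option maxRecDepth 1000000 in
theorem sU1 : scanB 36 644 AllE 0 32 0 0 0 exU1 = true := by decide +kernel

set_option maxRecDepth 1000000 in
theorem sL1 : scanB 43 645 AllE 0 32 0 0 0 exL1 = true := by decide +kernel

set_option maxRecDepth 1000000 in
theorem sU2 : scanB 50 644 AllE 0 32 0 0 0 exU2 = true := by decide +kernel

set_option maxRecDepth 1000000 in
theorem sL2 : scanB 57 645 AllE 0 32 0 0 0 exL2 = true := by decide +kernel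

end KB
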