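import Pool.Agent.Helper77.KB.HDef

/-! Kernel functions: check of the step functions and their weights. -/

set_option autoImplicit false

namespace KB

@[reducible] def fld (s e : ℕ) : ℕ := Nat.mod (Nat.div e (Nat.pow 2 s)) 128

/-- check of one block for the two step functions with fields at `s` (upper) and `t` (lower) -/
@[reducible] def gok1 (s t e y : ℕ) : Bool :=
  Bool.rec false (Bool.rec false (Bool.rec false
    (Nat.ble 1 (eLen e))
    (Nat.beq (Nat.div (Nat.succ y) 1000) (Nat.div (Nat.add y (eLen e)) 1000)))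
    (Nat.ble (Nat.add 33000000000 (Nat.mul 4411869772 (Nat.div (Nat.succ y) 1000)))
      (Nat.add (Nat.mul 500000000 (fld s e)) (Nat.mul 1000000000 (eLo e)))))
    (Nat.ble (Nat.mul 1000000000 (Nat.add (eLo e) (eW e)))
      (Nat.add 1000000000 (Nat.add (Nat.mul 500000000 (fld t e))
        (Nat.mul 4411869771 (Nat.div (Nat.succ y) 1000)))))

@[reducible] def gok (s t : ℕ) (es : List ℕ) : ℕ → Bool :=
  List.rec (fun _ => true) (fun e _ ih y =>
    Bool.rec false (force (Nat.add y (eLen e)) ih) (gok1 s t e y)) es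

/-- emission: compare with the expected list -/
@[reducible] def emit (e P N : ℕ) (k : List (ℕ × ℕ × ℕ) → Bool) (ex : List (ℕ × ℕ × ℕ)) : Bool :=
  List.rec false (fun x xs _ =>
    Bool.rec false (Bool.rec false (Bool.rec false (k xs) (Nat.ble x.2.2 N)) (Nat.ble P x.2.1))
      (Nat.beq e x.1)) ex

/-- add the jump from `ap` to `a` (half units) at `m`, scale `10^12` -/
@[reducible] def addJ (ap a m P N : ℕ) (k : ℕ → ℕ → Bool) : Bool :=
  force (Nat.add P (Nat.div (Nat.add (Nat.mul 500000000000 (Nat.sub a ap)) (Nat.sub m 1)) m)) fun P' =>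
    force (Nat.add N (Nat.div (Nat.mul 500000000000 (Nat.sub ap a)) m)) fun N' => k P' N'

/-- scan of the blocks -/
@[reducible] def scanB (s T2 : ℕ) (es : List ℕ) :
    ℕ → ℕ → ℕ → ℕ → ℕ → List (ℕ × ℕ × ℕ) → Bool :=
  List.rec
    (fun y ap e P N ex =>
      Bool.rec false (addJ ap T2 (Nat.succ y) P N fun P' N' =>
        emit e P' N' (fun xs => List.rec true (fun _ _ _ => false) xs) ex)
        (Nat.ble (Nat.add y 2) (Nat.pow 2 (Nat.succ e))))
    (fun x _ ih y ap e P N ex =>
      force (Nat.add y (eLen x)) fun y' => force (fld s x) fun a =>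
      Bool.rec
        (emit e P N (fun ex' => force (Nat.log2 (Nat.succ y)) fun e' =>
          addJ ap a (Nat.succ y) 0 0 fun P' N' => ih y' a e' P' N' ex') ex)
        (addJ ap a (Nat.succ y) P N fun P' N' => ih y' a e P' N' ex)
        (Nat.ble (Nat.add y 2) (Nat.pow 2 (Nat.succ e)))) es

end KB
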