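import Pool.Agent.Helper77.KB.Pat

/-! Soundness of the digit check, list level. -/

set_option autoImplicit false

open Finset

namespace KB

theorem Rep.of_mask' {U N n a : ℕ} {D : ℕ → ℤ} (h : Rep U N D) (ha : a = 8 * n) (hn : n ≤ N) :
    Rep (Nat.land U (Nat.sub (Nat.pow 2 a) 1)) n D := by
  subst ha; exact h.of_mask hn

theorem Rep.shift' {U N n a : ℕ} {D : ℕ → ℤ} (h : Rep U N D) (ha : a = 8 * n) (hn : n ≤ N) :
    Rep (Nat.shiftRight U a) (N - n) (fun i => D (n + i)) := by
  subst ha; exact h.shift hn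

/-- `16 + sum_{A,B} y/h - sum_{C,D} y/h` -/
def Fo (A B C D : List ℕ) (y : ℕ) : ℤ :=
  16 + ((A.map fun h => y / h).sum : ℕ) + ((B.map fun h => y / h).sum : ℕ)
    - ((C.map fun h => y / h).sum : ℕ) - ((D.map fun h => y / h).sum : ℕ)

theorem sum_div_succ (l : List ℕ) (y : ℕ) :
    (l.map fun h => (y + 1) / h).sum = (l.map fun h => y / h).sum + cnt l (y + 1) := by
  induction l with
  | nil => simp [cnt]
  | cons a l ih =>
    simp only [List.map_cons, List.sum_cons, cnt] at ih ⊢
    rw [ih, Nat.succ_div]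
    omega

theorem Fo_succ (A B C D : List ℕ) (y : ℕ) : Fo A B C D (y + 1) = Fo A B C D y + DD A B C D (y + 1) := by
  unfold Fo DD
  rw [sum_div_succ, sum_div_succ, sum_div_succ, sum_div_succ]
  push_cast
  ring

theorem PS_Fo (A B C D : List ℕ) (y : ℕ) (i : ℕ) :
    PS (Fo A B C D y) (fun i => DD A B C D (y + 1 + i)) i = Fo A B C D (y + i) := by
  induction i with
  | zero => simp [PS]
  | succ i ih =>
    rw [PS_succ, ih, ← add_assoc, Fo_succ, show y + 1 + i = y + i + 1 by ring]

/-- the bounds of the blocks hold, starting at `y + 1` -/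
def Good (A B C D : List ℕ) : ℕ → List ℕ → Prop
  | _, [] => True
  | y, e :: es => (∀ i, i < eLen e → (eLo e : ℤ) ≤ Fo A B C D (y + 1 + i) ∧
      Fo A B C D (y + 1 + i) ≤ eLo e + eW e) ∧ Good A B C D (y + eLen e) es

def tl (es : List ℕ) : ℕ := (es.map fun e => eLen e).sum

theorem tl_cons (e : ℕ) (es : List ℕ) : tl (e :: es) = eLen e + tl es := by simp [tl]

theorem tl_append (a b : List ℕ) : tl (a ++ b) = tl a + tl b := by simp [tl]

theorem Good_append {A B C D : List ℕ} {y : ℕ} {a b : List ℕ} (h1 : Good A B C D y a)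
    (h2 : Good A B C D (y + tl a) b) : Good A B C D y (a ++ b) := by
  induction a generalizing y with
  | nil => simpa [tl] using h2
  | cons e a ih =>
    rw [List.cons_append]
    refine ⟨h1.1, ih h1.2 ?_⟩
    rw [tl_cons] at h2
    rwa [add_assoc]

theorem ents_sound {A B C D : List ℕ} {k : ℕ → Bool} {es : List ℕ} {y N U F : ℕ}
    (hR : Rep U N (fun i => DD A B C D (y + 1 + i))) (hF : (F : ℤ) = Fo A B C D y)
    (hN : tl es ≤ N) (h : ents k es U F = true) :
    Good A B C D y es ∧ ∃ F' : ℕ, (F' : ℤ) = Fo A B C D (y + tl es) ∧ k F' = true := by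
  induction es generalizing y N U F with
  | nil => exact ⟨trivial, F, by simpa [tl] using hF, h⟩
  | cons e es ih =>
    change blk (eLen e) (eLo e) (eW e) (ents k es) U F = true at h
    rw [tl_cons] at hN
    obtain ⟨h1, F', hF', hk⟩ := blk_sound hR (by omega) h
    rw [hF, PS_Fo] at hF'
    have hR' := hR.shift (n := eLen e) (by omega)
    have hR'' : Rep (U >>> (8 * eLen e)) (N - eLen e)
        (fun i => DD A B C D (y + eLen e + 1 + i)) := by
      convert hR' using 3
      ring
    obtain ⟨g1, F'', g2, g3⟩ := ih hR'' hF' (by omega) hk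
    refine ⟨⟨?_, g1⟩, F'', ?_, g3⟩
    · intro i hi
      have := h1 i hi
      rw [hF, PS_Fo] at this
      rwa [show y + (i + 1) = y + 1 + i by ring] at this
    · rw [g2, tl_cons, add_assoc]

/-- all chunks have total length 1000 -/
def CL (cs : List (List ℕ)) : Prop := ∀ es ∈ cs, tl es = 1000

theorem chunks_sound {A B C D : List ℕ} {k : ℕ → Bool} {cs : List (List ℕ)} {y N W F : ℕ}
    (hc : CL cs)
    (hR : Rep W N (fun i => DD A B C D (y + 1 + i))) (hF : (F : ℤ) = Fo A B C D y)
    (hN : 1000 * cs.length ≤ N) (h : chunks k cs W F = true) :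
    Good A B C D y cs.flatten ∧
      ∃ F' : ℕ, (F' : ℤ) = Fo A B C D (y + 1000 * cs.length) ∧ k F' = true := by
  induction cs generalizing y N W F with
  | nil => exact ⟨trivial, F, by simpa using hF, h⟩
  | cons es cs ih =>
    change force (Nat.land W (Nat.sub (Nat.pow 2 8000) 1)) (fun U =>
      ents (fun F' => force (Nat.shiftRight W 8000) fun W' => chunks k cs W' F') es U F) = true at h
    rw [force_eq] at h
    rw [List.length_cons] at hN
    have h1000 : tl es = 1000 := hc es List.mem_cons_self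
    have hR1 : Rep (Nat.land W (Nat.sub (Nat.pow 2 8000) 1)) 1000
        (fun i => DD A B C D (y + 1 + i)) := hR.of_mask' (by norm_num) (by omega)
    obtain ⟨g1, F', g2, g3⟩ := ents_sound hR1 hF (by omega) h
    rw [force_eq] at g3
    have hR2 := hR.shift' (n := 1000) (a := 8000) (by norm_num) (by omega)
    have hR3 : Rep (Nat.shiftRight W 8000) (N - 1000)
        (fun i => DD A B C D (y + 1000 + 1 + i)) := by
      convert hR2 using 3
      ring
    rw [h1000] at g2
    obtain ⟨f1, F'', f2, f3⟩ := ih (fun es he => hc es (List.mem_cons_of_mem _ he)) hR3 g2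
      (by omega) g3
    refine ⟨?_, F'', ?_, f3⟩
    · rw [List.flatten_cons]
      refine Good_append g1 ?_
      rw [h1000]; exact f1
    · rw [f2, List.length_cons]
      congr 1; ring

theorem tl_flatten {cs : List (List ℕ)} (hc : CL cs) : tl cs.flatten = 1000 * cs.length := by
  induction cs with
  | nil => simp [tl]
  | cons es cs ih =>
    rw [List.flatten_cons, tl_append, ih (fun es he => hc es (List.mem_cons_of_mem _ he)),
      hc es List.mem_cons_self, List.length_cons]
    ring

def SL (css : List (List (List ℕ))) : Prop := ∀ cs ∈ css, CL cs ∧ cs.length = 10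

theorem sups_sound {O NN : ℕ} (hO : O = NV (fun _ => 1) NN) (hNN : 12000 ≤ NN)
    {A B C D : List ℕ} (hA : OKL A) (hB : OKL B) (hC : OKL C) (hD : OKL D)
    {k : ℕ → Bool} {css : List (List (List ℕ))} {T y F : ℕ} (hT : y + 1 = 10000 * T)
    (hc : SL css) (hF : (F : ℤ) = Fo A B C D y) (h : sups O A B C D k css T F = true) :
    Good A B C D y (css.map List.flatten).flatten ∧
      ∃ F' : ℕ, (F' : ℤ) = Fo A B C D (y + 10000 * css.length) ∧ k F' = true := by
  induction css generalizing T y F with
  | nil => exact ⟨trivial, F, by simpa using hF, h⟩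
  | cons cs css ih =>
    change wsum O A B C D (Nat.mul 10000 T) (fun W => chunks
      (fun F' => sups O A B C D k css (Nat.succ T) F') cs W F) = true at h
    obtain ⟨W, hW, h1⟩ := wsum_sound hO hNN hA hB hC hD h
    have hW' : Rep W 10000 (fun i => DD A B C D (y + 1 + i)) := by
      rw [hT]; exact hW
    obtain ⟨hcl, hlen⟩ := hc cs List.mem_cons_self
    obtain ⟨g1, F', g2, g3⟩ := chunks_sound hcl hW' hF (by omega) h1
    rw [hlen] at g2
    obtain ⟨f1, F'', f2, f3⟩ := ih (T := T + 1) (y := y + 1000 * 10) (F := F') (by omega)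
      (fun cs he => hc cs (List.mem_cons_of_mem _ he)) g2 g3
    refine ⟨?_, F'', ?_, f3⟩
    · rw [List.map_cons, List.flatten_cons]
      refine Good_append g1 ?_
      rw [tl_flatten hcl, hlen]; exact f1
    · rw [f2, List.length_cons]
      congr 1; ring

theorem tl_sups {css : List (List (List ℕ))} (hc : SL css) :
    tl (css.map List.flatten).flatten = 10000 * css.length := by
  induction css with
  | nil => simp [tl]
  | cons cs css ih =>
    rw [List.map_cons, List.flatten_cons, tl_append,
      ih (fun es he => hc es (List.mem_cons_of_mem _ he)),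
      tl_flatten (hc cs List.mem_cons_self).1, (hc cs List.mem_cons_self).2, List.length_cons]
    ring

theorem sup0_sound {O NN : ℕ} (hO : O = NV (fun _ => 1) NN) (hNN : 12000 ≤ NN)
    {A B C D : List ℕ} (hA : OKL A) (hB : OKL B) (hC : OKL C) (hD : OKL D)
    {k : ℕ → Bool} {es : List ℕ} {cs : List (List ℕ)} (he : tl es = 999) (hc : CL cs)
    (hl : cs.length = 9) (h : sup0 O A B C D k es cs 16 = true) :
    Good A B C D 0 (es ++ cs.flatten) ∧
      ∃ F' : ℕ, (F' : ℤ) = Fo A B C D 9999 ∧ k F' = true := by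
  obtain ⟨W, hW, h1⟩ := wsum_sound hO hNN hA hB hC hD h
  have h0 : ((16 : ℕ) : ℤ) = Fo A B C D 0 := by
    have : ∀ l : List ℕ, (l.map fun h => 0 / h).sum = 0 := by
      intro l
      simp
    unfold Fo
    rw [this, this, this, this]
    norm_num
  have hW' : Rep W 10000 (fun i => DD A B C D (0 + 1 + i)) := by simpa using hW
  have hR1 : Rep (Nat.land W (Nat.sub (Nat.pow 2 7992) 1)) 999
        (fun i => DD A B C D (0 + 1 + i)) := hW'.of_mask' (by norm_num) (by omega)
  obtain ⟨g1, F', g2, g3⟩ := ents_sound hR1 h0 (by omega) h1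
  have hR2 := hW'.shift' (n := 999) (a := 7992) (by norm_num) (by omega)
  have hR3 : Rep (Nat.shiftRight W 7992) (10000 - 999)
      (fun i => DD A B C D (0 + 999 + 1 + i)) := by
    convert hR2 using 3
    ring
  rw [he] at g2
  obtain ⟨f1, F'', f2, f3⟩ := chunks_sound hc hR3 g2 (by omega) g3
  refine ⟨Good_append g1 (by rw [he]; exact f1), F'', ?_, f3⟩
  rw [f2, hl]

end KB
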