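import Mathlib

/-! Chebyshev-type identity and inequality. -/

set_option autoImplicit false

open Finset ArithmeticFunction

namespace KB


theorem log_fact_eq {M N : ℕ} (h : M ≤ N) :
    Real.log (M.factorial : ℝ) = ∑ d ∈ Ioc 0 N, vonMangoldt d * ((M / d : ℕ) : ℝ) := by
  have h1 : Real.log (M.factorial : ℝ) = ∑ n ∈ Ioc 0 M, Real.log n := by
    induction M with
    | zero => simp
    | succ M ih =>
      rw [Nat.factorial_succ, ← Finset.insert_Ioc_right_eq_Ioc_add_one (Nat.zero_le M), Finset.sum_insert (by simp)]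
      push_cast
      rw [Real.log_mul (by positivity) (by positivity), ih (by omega)]
  rw [h1]
  have h2 : ∀ n ∈ Ioc 0 M, Real.log n = ∑ d ∈ Ioc 0 N, if d ∣ n then vonMangoldt d else 0 := by
    intro n hn
    rw [Finset.mem_Ioc] at hn
    rw [← vonMangoldt_sum, ← Finset.sum_filter]
    apply Finset.sum_congr _ (fun _ _ => rfl)
    ext d
    rw [Nat.mem_divisors, Finset.mem_filter, Finset.mem_Ioc]
    constructor
    · rintro ⟨h3, h4⟩
      exact ⟨⟨Nat.pos_of_dvd_of_pos h3 hn.1, (Nat.le_of_dvd hn.1 h3).trans (hn.2.trans h)⟩, h3⟩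
    · rintro ⟨_, h3⟩
      exact ⟨h3, by omega⟩
  rw [Finset.sum_congr rfl h2, Finset.sum_comm]
  apply Finset.sum_congr rfl
  intro d _
  rw [← Finset.sum_filter, Finset.sum_const, Nat.Ioc_filter_dvd_card_eq_div, nsmul_eq_mul, mul_comm]

theorem log_fact_div (N k : ℕ) :
    Real.log ((N / k).factorial : ℝ) = ∑ d ∈ Ioc 0 N, vonMangoldt d * ((N / d / k : ℕ) : ℝ) := by
  rw [log_fact_eq (Nat.div_le_self N k)]
  apply Finset.sum_congr rfl
  intro d _
  rw [Nat.div_div_eq_div_mul, Nat.div_div_eq_div_mul, mul_comm k d]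

theorem psi_nat (N : ℕ) : Chebyshev.psi (N : ℝ) = ∑ d ∈ Ioc 0 N, vonMangoldt d := by
  unfold Chebyshev.psi
  rw [Nat.floor_natCast]

theorem psi_div {N m : ℕ} (hm : 1 ≤ m) :
    Chebyshev.psi ((N / m : ℕ) : ℝ) = ∑ d ∈ Ioc 0 N, if m ≤ N / d then vonMangoldt d else 0 := by
  rw [psi_nat, ← Finset.sum_filter]
  apply Finset.sum_congr _ (fun _ _ => rfl)
  ext d
  rw [Finset.mem_filter, Finset.mem_Ioc, Finset.mem_Ioc]
  constructor
  · rintro ⟨h1, h2⟩
    refine ⟨⟨h1, h2.trans (Nat.div_le_self _ _)⟩, ?_⟩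
    rw [Nat.le_div_iff_mul_le h1]
    rw [Nat.le_div_iff_mul_le (by omega)] at h2
    rwa [mul_comm]
  · rintro ⟨⟨h1, _⟩, h2⟩
    refine ⟨h1, ?_⟩
    rw [Nat.le_div_iff_mul_le h1] at h2
    rw [Nat.le_div_iff_mul_le (by omega)]
    rwa [mul_comm]

/-- step function of a list of jumps -/
def Gv (l : List (ℕ × ℝ)) (y : ℕ) : ℝ := (l.map fun a => if a.1 ≤ y then a.2 else 0).sum

theorem sum_Gv (l : List (ℕ × ℝ)) (hl : ∀ a ∈ l, 1 ≤ a.1) (N : ℕ) :
    ∑ d ∈ Ioc 0 N, vonMangoldt d * Gv l (N / d) =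
      (l.map fun a => a.2 * Chebyshev.psi ((N / a.1 : ℕ) : ℝ)).sum := by
  induction l with
  | nil => simp [Gv]
  | cons a l ih =>
    have h1 := ih (fun b hb => hl b (List.mem_cons_of_mem _ hb))
    rw [List.map_cons, List.sum_cons, ← h1, psi_div (hl a List.mem_cons_self), Finset.mul_sum,
      ← Finset.sum_add_distrib]
    apply Finset.sum_congr rfl
    intro d _
    unfold Gv
    rw [List.map_cons, List.sum_cons]
    split_ifs <;> ring

theorem list_sum_log (l : List ℕ) (N : ℕ) :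
    (l.map fun k => Real.log ((N / k).factorial : ℝ)).sum =
      ∑ d ∈ Ioc 0 N, vonMangoldt d * (((l.map fun k => N / d / k).sum : ℕ) : ℝ) := by
  induction l with
  | nil => simp
  | cons a l ih =>
    rw [List.map_cons, List.sum_cons, ih, log_fact_div, ← Finset.sum_add_distrib]
    apply Finset.sum_congr rfl
    intro d _
    rw [List.map_cons, List.sum_cons]
    push_cast
    ring

end KB
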