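import Pool.Agent.Helper77.KB.GDef
import Pool.Agent.Helper77.KB.HSound
import Pool.Agent.Helper77.KB.Ident

/-! Soundness of the step function checks. -/

set_option autoImplicit false

open Finset

namespace KB

/-- list of jumps of the step function with field `s` -/
noncomputable def jl (s T2 : ℕ) : List ℕ → ℕ → ℕ → List (ℕ × ℝ)
  | [], y, ap => [(y + 1, ((T2 : ℝ) - ap) / 2)]
  | x :: es, y, ap => (y + 1, ((fld s x : ℝ) - ap) / 2) :: jl s T2 es (y + eLen x) (fld s x)

theorem Gv_cons (a : ℕ × ℝ) (l : List (ℕ × ℝ)) (z : ℕ) :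
    Gv (a :: l) z = (if a.1 ≤ z then a.2 else 0) + Gv l z := by simp [Gv]

theorem Gv_jl_zero (s T2 : ℕ) (es : List ℕ) (y ap z : ℕ) (h : z ≤ y) :
    Gv (jl s T2 es y ap) z = 0 := by
  induction es generalizing y ap with
  | nil => simp [jl, Gv]; omega
  | cons x es ih =>
    rw [jl, Gv_cons, ih _ _ (by omega), if_neg (by show ¬ (y + 1 ≤ z); omega), zero_add]

theorem jl_pos (s T2 : ℕ) (es : List ℕ) (y ap : ℕ) : ∀ a ∈ jl s T2 es y ap, 1 ≤ a.1 := by
  induction es generalizing y ap with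
  | nil =>
    intro a ha
    simp only [jl, List.mem_singleton] at ha
    subst ha; simp
  | cons x es ih =>
    intro a ha
    rw [jl, List.mem_cons] at ha
    rcases ha with rfl | ha
    · simp
    · exact ih _ _ a ha

theorem gok1_sound {s t e y : ℕ} (h : gok1 s t e y = true) :
    1 ≤ eLen e ∧ (y + 1) / 1000 = (y + eLen e) / 1000 ∧
    33000000000 + 4411869772 * ((y + 1) / 1000) ≤ 500000000 * fld s e + 1000000000 * eLo e ∧
    1000000000 * (eLo e + eW e) ≤ 1000000000 + (500000000 * fld t e + 4411869771 * ((y + 1) / 1000)) := by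
  unfold gok1 at h
  rw [brec, brec, brec] at h
  obtain ⟨h1, h2, h3, h4⟩ := h
  exact ⟨Nat.le_of_ble_eq_true h4, Nat.eq_of_beq_eq_true h3, Nat.le_of_ble_eq_true h2,
    Nat.le_of_ble_eq_true h1⟩

section

variable {A B C D : List ℕ} {c : ℝ}

/-- the function `F` -/
noncomputable def Fr (A B C D : List ℕ) (c : ℝ) (y : ℕ) : ℝ :=
  (Fo A B C D y : ℝ) - 16 + c * ((y / 1000 : ℕ) : ℝ)

theorem gok_sound {s t : ℕ} (hc1 : 4.411869771 ≤ -c) (hc2 : -c ≤ 4.411869772)
    {es : List ℕ} {y : ℕ} (h : gok s t es y = true) (hG : Good A B C D y es)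
    {TU TL : ℕ} (hU : ∀ z, 1 ≤ z → 1 - Fr A B C D c z ≤ ((TU : ℝ) - 32) / 2)
    (hL : ∀ z, 1 ≤ z → Fr A B C D c z - 1 ≤ ((TL : ℝ) - 32) / 2) (ap bp : ℕ) :
    ∀ z, y + 1 ≤ z →
      1 - Fr A B C D c z ≤ ((ap : ℝ) - 32) / 2 + Gv (jl s TU es y ap) z ∧
      Fr A B C D c z - 1 ≤ ((bp : ℝ) - 32) / 2 + Gv (jl t TL es y bp) z := by
  induction es generalizing y ap bp with
  | nil =>
    intro z hz
    have h1 := hU z (by omega)
    have h2 := hL z (by omega)
    simp only [jl, Gv, List.map_cons, List.map_nil, List.sum_cons, List.sum_nil]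
    rw [if_pos hz, if_pos hz]
    constructor <;> linarith
  | cons x es ih =>
    intro z hz
    change Bool.rec (motive := fun _ => Bool) false (force (Nat.add y (eLen x)) (gok s t es)) (gok1 s t x y) = true at h
    rw [brec, force_eq] at h
    obtain ⟨h1, h2⟩ := h
    obtain ⟨k1, k2, k3, k4⟩ := gok1_sound h1
    rw [jl, jl, Gv_cons, Gv_cons, if_pos hz, if_pos hz]
    rcases Nat.lt_or_ge (y + eLen x) z with hlt | hge
    · have := ih h2 hG.2 (fld s x) (fld t x) z hlt
      obtain ⟨g1, g2⟩ := this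
      constructor
      · show 1 - Fr A B C D c z ≤ ((ap : ℝ) - 32) / 2 + (((fld s x : ℝ) - ap) / 2 +
          Gv (jl s TU es (y + eLen x) (fld s x)) z)
        have g1' : 1 - Fr A B C D c z ≤ ((fld s x : ℝ) - 32) / 2 +
          Gv (jl s TU es (y + eLen x) (fld s x)) z := g1
        linarith
      · show Fr A B C D c z - 1 ≤ ((bp : ℝ) - 32) / 2 + (((fld t x : ℝ) - bp) / 2 +
          Gv (jl t TL es (y + eLen x) (fld t x)) z)
        have g2' : Fr A B C D c z - 1 ≤ ((fld t x : ℝ) - 32) / 2 +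
          Gv (jl t TL es (y + eLen x) (fld t x)) z := g2
        linarith
    · rw [Gv_jl_zero _ _ _ _ _ _ hge, Gv_jl_zero _ _ _ _ _ _ hge]
      have hj : z / 1000 = (y + 1) / 1000 := by
        have a1 : (y + 1) / 1000 ≤ z / 1000 := Nat.div_le_div_right hz
        have a2 : z / 1000 ≤ (y + eLen x) / 1000 := Nat.div_le_div_right hge
        omega
      have hb := hG.1 (z - (y + 1)) (by omega)
      rw [show y + 1 + (z - (y + 1)) = z by omega] at hb
      obtain ⟨b1, b2⟩ := hb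
      have b1' : (eLo x : ℝ) ≤ (Fo A B C D z : ℝ) := by exact_mod_cast b1
      have b2' : (Fo A B C D z : ℝ) ≤ eLo x + eW x := by exact_mod_cast b2
      have k3' : (33000000000 : ℝ) + 4411869772 * (((y + 1) / 1000 : ℕ) : ℝ) ≤
          500000000 * fld s x + 1000000000 * eLo x := by exact_mod_cast k3
      have k4' : (1000000000 : ℝ) * (eLo x + eW x) ≤
          1000000000 + (500000000 * fld t x + 4411869771 * (((y + 1) / 1000 : ℕ) : ℝ)) := by
        exact_mod_cast k4
      have hj0 : (0 : ℝ) ≤ (((y + 1) / 1000 : ℕ) : ℝ) := by positivity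
      unfold Fr
      rw [hj]
      set J : ℝ := (((y + 1) / 1000 : ℕ) : ℝ)
      have e1 : -c * J ≤ 4.411869772 * J := mul_le_mul_of_nonneg_right hc2 hj0
      have e2 : 4.411869771 * J ≤ -c * J := mul_le_mul_of_nonneg_right hc1 hj0
      constructor
      · norm_num at e1 ⊢
        nlinarith
      · norm_num at e2 ⊢
        nlinarith

end

/-- weighted sum of the jumps -/
noncomputable def wj (Wp Wn : ℕ → ℝ) (l : List (ℕ × ℝ)) : ℝ :=
  (l.map fun a => (max a.2 0 / a.1) * Wp (Nat.log 2 a.1) - (max (-a.2) 0 / a.1) * Wn (Nat.log 2 a.1)).sum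

noncomputable def vex (Wp Wn : ℕ → ℝ) (ex : List (ℕ × ℕ × ℕ)) : ℝ :=
  (ex.map fun a => (a.2.1 : ℝ) * Wp a.1 - (a.2.2 : ℝ) * Wn a.1).sum

theorem wj_cons (Wp Wn : ℕ → ℝ) (a : ℕ × ℝ) (l : List (ℕ × ℝ)) :
    wj Wp Wn (a :: l) = ((max a.2 0 / a.1) * Wp (Nat.log 2 a.1) -
      (max (-a.2) 0 / a.1) * Wn (Nat.log 2 a.1)) + wj Wp Wn l := by simp [wj]

theorem emit_sound {Wp Wn : ℕ → ℝ} (hWp : ∀ e, 0 ≤ Wp e) (hWn : ∀ e, 0 ≤ Wn e)
    {e P N : ℕ} {k : List (ℕ × ℕ × ℕ) → Bool} {ex : List (ℕ × ℕ × ℕ)}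
    (h : emit e P N k ex = true) :
    ∃ xs, (P : ℝ) * Wp e - N * Wn e + vex Wp Wn xs ≤ vex Wp Wn ex ∧ k xs = true := by
  cases ex with
  | nil => exact absurd h (by simp)
  | cons x xs =>
    change Bool.rec (motive := fun _ => Bool) false (Bool.rec (motive := fun _ => Bool) false
      (Bool.rec (motive := fun _ => Bool) false (k xs) (Nat.ble x.2.2 N)) (Nat.ble P x.2.1))
      (Nat.beq e x.1) = true at h
    rw [brec, brec, brec] at h
    obtain ⟨h1, h2, h3, h4⟩ := h
    refine ⟨xs, ?_, h4⟩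
    have h1' := Nat.eq_of_beq_eq_true h1
    have h2' : (P : ℝ) ≤ x.2.1 := by exact_mod_cast Nat.le_of_ble_eq_true h2
    have h3' : (x.2.2 : ℝ) ≤ N := by exact_mod_cast Nat.le_of_ble_eq_true h3
    simp only [vex, List.map_cons, List.sum_cons]
    rw [← h1']
    have := mul_le_mul_of_nonneg_right h2' (hWp e)
    have := mul_le_mul_of_nonneg_right h3' (hWn e)
    linarith

theorem addJ_sound {ap a m P N : ℕ} (hm : 1 ≤ m) {k : ℕ → ℕ → Bool} (h : addJ ap a m P N k = true) :
    ∃ P' N' : ℕ, (P : ℝ) + 10 ^ 12 * (max (((a : ℝ) - ap) / 2) 0 / m) ≤ P' ∧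
      (N' : ℝ) ≤ N + 10 ^ 12 * (max (-(((a : ℝ) - ap) / 2)) 0 / m) ∧ k P' N' = true := by
  unfold addJ at h
  rw [force_eq, force_eq] at h
  refine ⟨_, _, ?_, ?_, h⟩
  · show (P : ℝ) + _ ≤ ((P + (500000000000 * (a - ap) + (m - 1)) / m : ℕ) : ℝ)
    have hm0 : (0 : ℝ) < m := by exact_mod_cast hm
    have h1 : 500000000000 * (a - ap) ≤ m * ((500000000000 * (a - ap) + (m - 1)) / m) := by
      have := Nat.lt_mul_div_succ (500000000000 * (a - ap) + (m - 1)) (show 0 < m by omega)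
      rw [mul_add, mul_one] at this
      omega
    have h2 : (500000000000 : ℝ) * ((a - ap : ℕ) : ℝ) ≤
        m * (((500000000000 * (a - ap) + (m - 1)) / m : ℕ) : ℝ) := by exact_mod_cast h1
    have h3 : max (((a : ℝ) - ap) / 2) 0 ≤ ((a - ap : ℕ) : ℝ) / 2 := by
      apply max_le
      · have : (a : ℝ) - ap ≤ ((a - ap : ℕ) : ℝ) := by
          rw [sub_le_iff_le_add]
          exact_mod_cast (show a ≤ (a - ap) + ap by omega)
        linarith
      · positivity
    push_cast
    rw [add_le_add_iff_left]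
    rw [mul_div_assoc', div_le_iff₀ hm0]
    have : (10 : ℝ) ^ 12 * max (((a : ℝ) - ap) / 2) 0 ≤ 10 ^ 12 * (((a - ap : ℕ) : ℝ) / 2) :=
      mul_le_mul_of_nonneg_left h3 (by positivity)
    push_cast at h2
    nlinarith
  · show ((N + (500000000000 * (ap - a)) / m : ℕ) : ℝ) ≤ _
    have hm0 : (0 : ℝ) < m := by exact_mod_cast hm
    have h1 : m * ((500000000000 * (ap - a)) / m) ≤ 500000000000 * (ap - a) := Nat.mul_div_le _ _
    have h2 : (m : ℝ) * (((500000000000 * (ap - a)) / m : ℕ) : ℝ) ≤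
        500000000000 * ((ap - a : ℕ) : ℝ) := by exact_mod_cast h1
    have h3 : ((ap - a : ℕ) : ℝ) / 2 ≤ max (-(((a : ℝ) - ap) / 2)) 0 := by
      rcases Nat.le_total a ap with h | h
      · rw [Nat.cast_sub h]
        apply le_max_of_le_left
        linarith
      · rw [Nat.sub_eq_zero_of_le h]
        simp
    push_cast
    rw [add_le_add_iff_left]
    rw [mul_div_assoc', le_div_iff₀ hm0]
    have : (10 : ℝ) ^ 12 * (((ap - a : ℕ) : ℝ) / 2) ≤ 10 ^ 12 * max (-(((a : ℝ) - ap) / 2)) 0 :=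
      mul_le_mul_of_nonneg_left h3 (by positivity)
    push_cast at h2
    nlinarith

theorem scan_sound {Wp Wn : ℕ → ℝ} (hWp : ∀ e, 0 ≤ Wp e) (hWn : ∀ e, 0 ≤ Wn e) {s T2 : ℕ}
    {es : List ℕ} {y ap e P N : ℕ} {ex : List (ℕ × ℕ × ℕ)} (he : 2 ^ e ≤ y + 1)
    (h : scanB s T2 es y ap e P N ex = true) :
    10 ^ 12 * wj Wp Wn (jl s T2 es y ap) + (P * Wp e - N * Wn e) ≤ vex Wp Wn ex := by
  induction es generalizing y ap e P N ex with
  | nil =>
    change Bool.rec (motive := fun _ => Bool) false (addJ ap T2 (Nat.succ y) P N fun P' N' =>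
        emit e P' N' (fun xs => List.rec true (fun _ _ _ => false) xs) ex)
        (Nat.ble (Nat.add y 2) (Nat.pow 2 (Nat.succ e))) = true at h
    rw [brec] at h
    obtain ⟨h1, h2⟩ := h
    have h1' : y + 2 ≤ 2 ^ (e + 1) := Nat.le_of_ble_eq_true h1
    have hlog : Nat.log 2 (y + 1) = e := Nat.log_eq_of_pow_le_of_lt_pow he (by omega)
    obtain ⟨P', N', h3, h4, h5⟩ := addJ_sound (by omega) h2
    obtain ⟨xs, h6, h7⟩ := emit_sound hWp hWn h5
    have hxs : vex Wp Wn xs = 0 := by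
      cases xs with
      | nil => simp [vex]
      | cons x xs => exact absurd h7 (by simp)
    rw [hxs, add_zero] at h6
    refine le_trans ?_ h6
    simp only [jl, wj, List.map_cons, List.map_nil, List.sum_cons, List.sum_nil, add_zero]
    rw [hlog]
    have h8 := mul_le_mul_of_nonneg_right h3 (hWp e)
    have h9 := mul_le_mul_of_nonneg_right h4 (hWn e)
    push_cast at h8 h9 ⊢
    nlinarith
  | cons x es ih =>
    change force (Nat.add y (eLen x)) (fun y' => force (fld s x) fun a =>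
      Bool.rec
        (emit e P N (fun ex' => force (Nat.log2 (Nat.succ y)) fun e' =>
          addJ ap a (Nat.succ y) 0 0 fun P' N' => scanB s T2 es y' a e' P' N' ex') ex)
        (addJ ap a (Nat.succ y) P N fun P' N' => scanB s T2 es y' a e P' N' ex)
        (Nat.ble (Nat.add y 2) (Nat.pow 2 (Nat.succ e)))) = true at h
    rw [force_eq, force_eq] at h
    rw [jl, wj_cons]
    cases hb : Nat.ble (Nat.add y 2) (Nat.pow 2 (Nat.succ e)) with
    | true =>
      rw [hb] at h
      change (addJ ap (fld s x) (Nat.succ y) P N fun P' N' =>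
        scanB s T2 es (y + eLen x) (fld s x) e P' N' ex) = true at h
      have h1' : y + 2 ≤ 2 ^ (e + 1) := Nat.le_of_ble_eq_true hb
      have hlog : Nat.log 2 (y + 1) = e := Nat.log_eq_of_pow_le_of_lt_pow he (by omega)
      obtain ⟨P', N', h3, h4, h5⟩ := addJ_sound (by omega) h
      have h6 := ih (by omega) h5
      rw [hlog]
      have h8 := mul_le_mul_of_nonneg_right h3 (hWp e)
      have h9 := mul_le_mul_of_nonneg_right h4 (hWn e)
      push_cast at h8 h9 h6 ⊢
      nlinarith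
    | false =>
      rw [hb] at h
      change (emit e P N (fun ex' => force (Nat.log2 (Nat.succ y)) fun e' =>
          addJ ap (fld s x) (Nat.succ y) 0 0 fun P' N' =>
            scanB s T2 es (y + eLen x) (fld s x) e' P' N' ex') ex) = true at h
      obtain ⟨xs, h6, h7⟩ := emit_sound hWp hWn h
      rw [force_eq] at h7
      have hlog : Nat.log2 (Nat.succ y) = Nat.log 2 (y + 1) := Nat.log2_eq_log_two
      rw [hlog] at h7
      obtain ⟨P', N', h3, h4, h5⟩ := addJ_sound (by omega) h7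
      have hpow : 2 ^ Nat.log 2 (y + 1) ≤ y + 1 := Nat.pow_log_le_self 2 (by omega)
      have h8 := ih (by omega) h5
      have h9 := mul_le_mul_of_nonneg_right h3 (hWp (Nat.log 2 (y + 1)))
      have h10 := mul_le_mul_of_nonneg_right h4 (hWn (Nat.log 2 (y + 1)))
      push_cast at h8 h9 h10 ⊢
      nlinarith

end KB
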