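import Pool.Agent.Helper77.KB.HDef

set_option autoImplicit false

namespace KB

def LA : List ℕ := [1, 10, 15, 22, 33, 35, 39, 51, 57, 62, 69, 77, 85, 87, 93, 95, 111, 118, 122, 129, 134, 142, 145, 155, 159, 166, 178, 185, 194, 202, 205, 209, 213, 215, 218, 221, 235, 247, 253, 259, 265, 274, 287, 295, 299, 302, 305, 314, 321, 326, 329, 334, 339, 346, 358, 365, 377, 382, 390, 393, 395, 403, 411, 415, 422, 437, 446, 451, 454, 462, 469, 473, 481, 485, 493, 501, 505, 511, 515, 519, 527, 535, 538, 543, 546, 553, 559, 565, 570, 579, 583, 589, 597, 614, 623, 629, 634, 649, 662, 669, 674, 681, 687, 690, 695, 698, 703, 707, 714, 718, 723, 734, 745, 749, 755, 763, 767, 771, 779, 785, 791, 794, 799, 803, 813, 817, 831, 838, 843, 851, 862, 866, 870, 878, 886, 893, 898, 901, 910, 914, 921, 923, 930, 934, 943, 951, 958, 965, 973, 979, 985, 993, 998]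

def LB : List ℕ := [6, 14, 21, 26, 34, 38, 46, 55, 58, 65, 74, 82, 86, 91, 94, 106, 115, 119, 123, 133, 141, 143, 146, 158, 161, 177, 183, 187, 201, 203, 206, 210, 214, 217, 219, 226, 237, 249, 254, 262, 267, 278, 291, 298, 301, 303, 309, 319, 323, 327, 330, 335, 341, 355, 362, 371, 381, 386, 391, 394, 398, 407, 413, 417, 427, 445, 447, 453, 458, 466, 471, 478, 482, 489, 497, 502, 510, 514, 517, 526, 533, 537, 542, 545, 551, 554, 562, 566, 573, 581, 586, 591, 611, 622, 626, 633, 635, 655, 667, 671, 679, 685, 689, 694, 697, 699, 706, 713, 717, 721, 731, 737, 746, 753, 758, 766, 770, 778, 781, 789, 793, 798, 802, 807, 815, 818, 835, 842, 849, 858, 865, 869, 871, 879, 889, 895, 899, 905, 913, 917, 922, 926, 933, 939, 949, 955, 959, 966, 974, 982, 989, 995]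

def LC : List ℕ := [2, 5, 11, 17, 23, 30, 37, 42, 47, 59, 66, 70, 73, 79, 89, 101, 103, 107, 110, 114, 130, 137, 139, 151, 157, 165, 170, 174, 181, 186, 191, 195, 199, 222, 227, 230, 233, 239, 246, 255, 258, 266, 271, 277, 282, 285, 290, 307, 311, 317, 322, 337, 347, 353, 357, 366, 370, 374, 383, 389, 399, 402, 409, 418, 421, 429, 431, 434, 438, 442, 449, 457, 463, 467, 474, 483, 491, 498, 503, 509, 521, 530, 541, 555, 561, 569, 574, 582, 590, 595, 599, 602, 607, 610, 615, 618, 627, 638, 642, 645, 647, 653, 658, 661, 665, 673, 678, 683, 701, 709, 715, 727, 733, 741, 743, 754, 759, 762, 773, 782, 787, 795, 805, 809, 814, 822, 826, 829, 834, 853, 857, 861, 874, 881, 885, 890, 897, 903, 907, 915, 929, 937, 941, 946, 953, 962, 969, 971, 978, 986, 991, 997]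

def LD : List ℕ := [3, 7, 13, 19, 29, 31, 41, 43, 53, 61, 67, 71, 78, 83, 97, 102, 105, 109, 113, 127, 131, 138, 149, 154, 163, 167, 173, 179, 182, 190, 193, 197, 211, 223, 229, 231, 238, 241, 251, 257, 263, 269, 273, 281, 283, 286, 293, 310, 313, 318, 331, 345, 349, 354, 359, 367, 373, 379, 385, 397, 401, 406, 410, 419, 426, 430, 433, 435, 439, 443, 455, 461, 465, 470, 479, 487, 494, 499, 506, 518, 523, 534, 547, 557, 563, 571, 577, 587, 593, 598, 601, 606, 609, 613, 617, 619, 631, 641, 643, 646, 651, 654, 659, 663, 670, 677, 682, 691, 705, 710, 719, 730, 739, 742, 751, 757, 761, 769, 777, 786, 790, 797, 806, 811, 821, 823, 827, 830, 839, 854, 859, 863, 877, 883, 887, 894, 902, 906, 911, 919, 935, 938, 942, 947, 957, 967, 970, 977, 983, 987, 994]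

end KB
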