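import Pool.Agent.Helper77.KB.Defs

/-! Reduction to the number of missed primes. -/

set_option autoImplicit false

open Finset

namespace KB

/-- number of missed primes -/
def MP (n P1 : ℕ) : ℕ :=
  ((Ioc (Nat.sqrt n) P1).filter fun p => p.Prime ∧ n / p + n % p < p).card

theorem card_dvd_le {n P1 : ℕ} :
    ((Ioc (Nat.sqrt n) P1).filter fun p => p.Prime ∧ p ∣ n + 1).card ≤ 1 := by
  rw [Finset.card_le_one]
  intro a ha b hb
  rw [Finset.mem_filter, Finset.mem_Ioc] at ha hb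
  by_contra hne
  have h1 : a * b ∣ n + 1 :=
    ((Nat.coprime_primes ha.2.1 hb.2.1).mpr hne).mul_dvd_of_dvd_of_dvd ha.2.2 hb.2.2
  have h2 := Nat.le_of_dvd (by omega) h1
  have h3 := Nat.lt_succ_sqrt n
  rcases lt_or_gt_of_ne hne with h | h
  · nlinarith [ha.1.1]
  · nlinarith [hb.1.1]

theorem card_primes_le {n P1 : ℕ} (hno : ∀ p, ¬ Wit n p) :
    ((Ioc (Nat.sqrt n) P1).filter fun p => p.Prime).card ≤ MP n P1 + 1 := by
  have hsub : ((Ioc (Nat.sqrt n) P1).filter fun p => p.Prime) ⊆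
      ((Ioc (Nat.sqrt n) P1).filter fun p => p.Prime ∧ n / p + n % p < p) ∪
      ((Ioc (Nat.sqrt n) P1).filter fun p => p.Prime ∧ p ∣ n + 1) := by
    intro p hp
    rw [Finset.mem_filter] at hp
    rw [Finset.mem_union, Finset.mem_filter, Finset.mem_filter]
    by_cases h : n / p + n % p < p
    · exact Or.inl ⟨hp.1, hp.2, h⟩
    · refine Or.inr ⟨hp.1, hp.2, ?_⟩
      by_contra h2
      have h3 := (Finset.mem_Ioc.mp hp.1).1
      exact hno p ⟨hp.2, Nat.sqrt_lt.mp h3, by omega, h2⟩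
  refine (Finset.card_le_card hsub).trans ((Finset.card_union_le _ _).trans ?_)
  have := card_dvd_le (n := n) (P1 := P1)
  unfold MP
  omega

theorem theta_diff {s P1 : ℕ} (h : s ≤ P1) :
    Chebyshev.theta (P1 : ℝ) - Chebyshev.theta (s : ℝ) =
      ∑ p ∈ (Ioc s P1).filter fun p => p.Prime, Real.log p := by
  unfold Chebyshev.theta
  rw [Nat.floor_natCast, Nat.floor_natCast]
  rw [sub_eq_iff_eq_add, ← Finset.sum_union]
  · apply Finset.sum_congr _ (fun _ _ => rfl)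
    ext p
    simp only [Finset.mem_filter, Finset.mem_union, Finset.mem_Ioc]
    constructor
    · rintro ⟨⟨h1, h2⟩, h3⟩
      rcases Nat.lt_or_ge s p with h4 | h4
      · exact Or.inl ⟨⟨h4, h2⟩, h3⟩
      · exact Or.inr ⟨⟨h1, h4⟩, h3⟩
    · rintro (⟨⟨h1, h2⟩, h3⟩ | ⟨⟨h1, h2⟩, h3⟩)
      · exact ⟨⟨by omega, h2⟩, h3⟩
      · exact ⟨⟨h1, by omega⟩, h3⟩
  · rw [Finset.disjoint_left]
    intro p h1 h2
    simp only [Finset.mem_filter, Finset.mem_Ioc] at h1 h2
    omega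

theorem key_ineq {n P1 : ℕ} (hno : ∀ p, ¬ Wit n p) (hP : Nat.sqrt n ≤ P1) (hP0 : 1 ≤ P1) :
    Chebyshev.theta (P1 : ℝ) - Chebyshev.theta ((Nat.sqrt n : ℕ) : ℝ) ≤
      ((MP n P1 : ℝ) + 1) * Real.log P1 := by
  rw [theta_diff hP]
  have h1 : ∑ p ∈ (Ioc (Nat.sqrt n) P1).filter fun p => p.Prime, Real.log p ≤
      ∑ p ∈ (Ioc (Nat.sqrt n) P1).filter fun p => p.Prime, Real.log P1 := by
    apply Finset.sum_le_sum
    intro p hp
    rw [Finset.mem_filter, Finset.mem_Ioc] at hp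
    apply Real.log_le_log (by exact_mod_cast hp.2.pos) (by exact_mod_cast hp.1.2)
  refine h1.trans ?_
  rw [Finset.sum_const, nsmul_eq_mul]
  apply mul_le_mul_of_nonneg_right _ (Real.log_nonneg (by exact_mod_cast hP0))
  exact_mod_cast card_primes_le hno

end KB
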