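import Pool.Agent.Helper77.KB.LogTab

/-! Sums of logarithms over the four lists. -/

set_option autoImplicit false

namespace KB

set_option maxRecDepth 100000 in
theorem wA : wchk LA.tail 3369400292486157 903853050876305493 764682072824680867 = true := by
  decide +kernel
set_option maxRecDepth 100000 in
theorem wB : wchk LB 3512666306888632 901379928587826727 858720426524135891 = true := by
  decide +kernel
set_option maxRecDepth 100000 in
theorem wC : wchk LC 3993489569144010 892803640421916939 1444063265831708299 = true := by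
  decide +kernel
set_option maxRecDepth 100000 in
theorem wD : wchk LD 3858507837354134 888888933825959645 1174927363745316721 = true := by
  decide +kernel

theorem lenA : LA.length = 153 := by decide +kernel
theorem lenA' : LA.tail.length = 152 := by decide +kernel
theorem lenB : LB.length = 152 := by decide +kernel
theorem lenC : LC.length = 152 := by decide +kernel
theorem lenD : LD.length = 151 := by decide +kernel
theorem eqA : LA = 1 :: LA.tail := by decide +kernel

theorem s1A : s1 LA = s1 LA.tail := by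
  rw [eqA, s1_cons]; simp
theorem s2A : s2 LA = s2 LA.tail := by
  rw [eqA, s2_cons]; simp
theorem s3A : s3 LA = 1 + s3 LA.tail := by
  rw [eqA, s3_cons]; simp

theorem sumsA : (3.369400292 : ℝ) ≤ s1 LA ∧ s1 LA ≤ 3.3694003989 ∧ 903.853 ≤ s2 LA ∧
    1.76468207282468 ≤ s3 LA ∧ s3 LA ≤ 1.76468207282469 := by
  obtain ⟨h1, h2, h3, h4, h5, h6⟩ := wchk_sound 1000000000000000000 (by norm_num) rfl
    693147180300000 (by norm_num) rfl wA
  rw [lenA'] at h2 h4 h6
  rw [s1A, s2A, s3A]
  norm_num at h1 h2 h3 h4 h5 h6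
  refine ⟨?_, ?_, ?_, ?_, ?_⟩ <;> linarith

theorem sumsB : (3.512666306 : ℝ) ≤ s1 LB ∧ s1 LB ≤ 3.5126664134 ∧ 901.379 ≤ s2 LB ∧
    0.85872042652413 ≤ s3 LB ∧ s3 LB ≤ 0.85872042652414 := by
  obtain ⟨h1, h2, h3, h4, h5, h6⟩ := wchk_sound 1000000000000000000 (by norm_num) rfl
    693147180300000 (by norm_num) rfl wB
  rw [lenB] at h2 h4 h6
  norm_num at h1 h2 h3 h4 h5 h6
  refine ⟨?_, ?_, ?_, ?_, ?_⟩ <;> linarith

theorem sumsC : (3.993489569 : ℝ) ≤ s1 LC ∧ s1 LC ≤ 3.9934896756 ∧ 892.803 ≤ s2 LC ∧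
    1.44406326583170 ≤ s3 LC ∧ s3 LC ≤ 1.44406326583171 := by
  obtain ⟨h1, h2, h3, h4, h5, h6⟩ := wchk_sound 1000000000000000000 (by norm_num) rfl
    693147180300000 (by norm_num) rfl wC
  rw [lenC] at h2 h4 h6
  norm_num at h1 h2 h3 h4 h5 h6
  refine ⟨?_, ?_, ?_, ?_, ?_⟩ <;> linarith

theorem sumsD : (3.858507837 : ℝ) ≤ s1 LD ∧ s1 LD ≤ 3.8585079432 ∧ 888.888 ≤ s2 LD ∧
    1.17492736374531 ≤ s3 LD ∧ s3 LD ≤ 1.17492736374532 := by
  obtain ⟨h1, h2, h3, h4, h5, h6⟩ := wchk_sound 1000000000000000000 (by norm_num) rfl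
    693147180300000 (by norm_num) rfl wD
  rw [lenD] at h2 h4 h6
  norm_num at h1 h2 h3 h4 h5 h6
  refine ⟨?_, ?_, ?_, ?_, ?_⟩ <;> linarith

end KB
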