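import Pool.Agent.Helper77.KB.Blk
import Pool.Agent.Helper77.KB.HLists

/-! Numerical values of the logarithms of `2, ..., 1000` and sums over lists. -/

set_option autoImplicit false

open Finset

namespace KB

/-- sum of `X / (w^(2j+1) (2j+1))`, `j < 8`, rounded down, where `w2 = w^2` -/
@[reducible] def dlw (X w w2 : ℕ) : ℕ :=
  (fun t0 => (fun t1 => (fun t2 => (fun t3 => (fun t4 => (fun t5 => (fun t6 => (fun t7 =>
    Nat.add t0 (Nat.add (Nat.div t1 3) (Nat.add (Nat.div t2 5) (Nat.add (Nat.div t3 7)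
      (Nat.add (Nat.div t4 9) (Nat.add (Nat.div t5 11) (Nat.add (Nat.div t6 13)
        (Nat.div t7 15))))))))
    (Nat.div t6 w2)) (Nat.div t5 w2)) (Nat.div t4 w2)) (Nat.div t3 w2)) (Nat.div t2 w2))
    (Nat.div t1 w2)) (Nat.div t0 w2)) (Nat.div X w)

theorem dlw_eq (X w : ℕ) : dlw X w (w * w) = ∑ j ∈ range 8, X / (w ^ (2 * j + 1) * (2 * j + 1)) := by
  have e0 : X / (w ^ (2 * 0 + 1) * (2 * 0 + 1)) = X / w := by congr 1; ring
  have e1 : X / (w ^ (2 * 1 + 1) * (2 * 1 + 1)) = X / w / (w * w) / 3 := by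
    simp only [Nat.div_div_eq_div_mul]; congr 1; ring
  have e2 : X / (w ^ (2 * 2 + 1) * (2 * 2 + 1)) = X / w / (w * w) / (w * w) / 5 := by
    simp only [Nat.div_div_eq_div_mul]; congr 1; ring
  have e3 : X / (w ^ (2 * 3 + 1) * (2 * 3 + 1)) = X / w / (w * w) / (w * w) / (w * w) / 7 := by
    simp only [Nat.div_div_eq_div_mul]; congr 1; ring
  have e4 : X / (w ^ (2 * 4 + 1) * (2 * 4 + 1)) =
      X / w / (w * w) / (w * w) / (w * w) / (w * w) / 9 := by
    simp only [Nat.div_div_eq_div_mul]; congr 1; ring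
  have e5 : X / (w ^ (2 * 5 + 1) * (2 * 5 + 1)) =
      X / w / (w * w) / (w * w) / (w * w) / (w * w) / (w * w) / 11 := by
    simp only [Nat.div_div_eq_div_mul]; congr 1; ring
  have e6 : X / (w ^ (2 * 6 + 1) * (2 * 6 + 1)) =
      X / w / (w * w) / (w * w) / (w * w) / (w * w) / (w * w) / (w * w) / 13 := by
    simp only [Nat.div_div_eq_div_mul]; congr 1; ring
  have e7 : X / (w ^ (2 * 7 + 1) * (2 * 7 + 1)) =
      X / w / (w * w) / (w * w) / (w * w) / (w * w) / (w * w) / (w * w) / (w * w) / 15 := by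
    simp only [Nat.div_div_eq_div_mul]; congr 1; ring
  simp only [Finset.sum_range_succ, Finset.sum_range_zero, zero_add]
  rw [e0, e1, e2, e3, e4, e5, e6, e7]
  simp only [add_assoc]
  rfl

/-- `10^15 (log (k+1) - log k)`, rounded down -/
@[reducible] def dl (k : ℕ) : ℕ :=
  dlw 2000000000000000 (Nat.add (Nat.mul 2 k) 1)
    (Nat.mul (Nat.add (Nat.mul 2 k) 1) (Nat.add (Nat.mul 2 k) 1))

theorem dl_eq (k X : ℕ) (hX : X = 2000000000000000) :
    dl k = ∑ j ∈ range 8, X / ((2 * k + 1) ^ (2 * j + 1) * (2 * j + 1)) := by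
  subst hX
  exact dlw_eq _ (2 * k + 1)

theorem dl_bounds_aux (k X : ℕ) (hk : 2 ≤ k) (hX : (X : ℝ) = 2 * 10 ^ 15) :
    ((∑ j ∈ range 8, X / ((2 * k + 1) ^ (2 * j + 1) * (2 * j + 1)) : ℕ) : ℝ) ≤
      10 ^ 15 * (Real.log ((k + 1 : ℕ) : ℝ) - Real.log (k : ℝ)) ∧
    10 ^ 15 * (Real.log ((k + 1 : ℕ) : ℝ) - Real.log (k : ℝ)) ≤
      ((∑ j ∈ range 8, X / ((2 * k + 1) ^ (2 * j + 1) * (2 * j + 1)) : ℕ) : ℝ) + 200 := by
  have hk0 : (0 : ℝ) < k := by positivity
  have h := Real.hasSum_log_one_add_inv hk0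
  have hlog : Real.log (1 + (k : ℝ)⁻¹) = Real.log ((k + 1 : ℕ) : ℝ) - Real.log (k : ℝ) := by
    rw [← Real.log_div (by positivity) (by positivity)]
    congr 1
    push_cast
    field_simp
  rw [hlog] at h
  set a := Real.log ((k + 1 : ℕ) : ℝ) - Real.log (k : ℝ) with ha
  set z : ℝ := 1 / (2 * (k : ℝ) + 1) with hz
  have hz0 : 0 ≤ z := by positivity
  have hz1 : z ≤ 1 / 5 := by
    rw [hz]
    apply one_div_le_one_div_of_le (by norm_num)
    have : (2 : ℝ) ≤ k := by exact_mod_cast hk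
    linarith
  set f : ℕ → ℝ := fun j => 2 * (1 / (2 * (j : ℝ) + 1)) * z ^ (2 * j + 1) with hf
  have h' : HasSum f a := h
  have hfl : ∀ j : ℕ, ((X / ((2 * k + 1) ^ (2 * j + 1) * (2 * j + 1)) : ℕ) : ℝ) ≤
      10 ^ 15 * f j ∧ 10 ^ 15 * f j ≤
      ((X / ((2 * k + 1) ^ (2 * j + 1) * (2 * j + 1)) : ℕ) : ℝ) + 1 := by
    intro j
    have h0 : 0 < (2 * k + 1) ^ (2 * j + 1) * (2 * j + 1) := by positivity
    have e : 10 ^ 15 * f j = (X : ℝ) / (((2 * k + 1) ^ (2 * j + 1) * (2 * j + 1) : ℕ) : ℝ) := by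
      rw [hf, hz, hX]
      push_cast
      rw [one_div_pow]
      field_simp
    rw [e]
    generalize (2 * k + 1) ^ (2 * j + 1) * (2 * j + 1) = m at h0
    refine ⟨Nat.cast_div_le, ?_⟩
    rw [div_le_iff₀ (by exact_mod_cast h0)]
    have := (Nat.lt_mul_div_succ X h0).le
    have h2 : (X : ℝ) ≤ ((m * (X / m + 1) : ℕ) : ℝ) := by exact_mod_cast this
    rw [Nat.cast_mul, Nat.cast_add, Nat.cast_one] at h2
    linarith
  have hsum1 : ((∑ j ∈ range 8, X / ((2 * k + 1) ^ (2 * j + 1) * (2 * j + 1)) : ℕ) : ℝ) ≤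
      10 ^ 15 * ∑ j ∈ range 8, f j := by
    rw [Nat.cast_sum, Finset.mul_sum]
    exact Finset.sum_le_sum fun j _ => (hfl j).1
  have hsum2 : 10 ^ 15 * ∑ j ∈ range 8, f j ≤
      ((∑ j ∈ range 8, X / ((2 * k + 1) ^ (2 * j + 1) * (2 * j + 1)) : ℕ) : ℝ) + 8 := by
    rw [Nat.cast_sum, Finset.mul_sum]
    refine (Finset.sum_le_sum fun j _ => (hfl j).2).trans ?_
    rw [Finset.sum_add_distrib]
    simp
  have hnn : ∀ j, 0 ≤ f j := fun j => by positivity
  have hlow : ∑ j ∈ range 8, f j ≤ a := sum_le_hasSum _ (fun j _ => hnn j) h'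
  constructor
  · linarith
  · have htail := (hasSum_nat_add_iff' 8).mpr h'
    have hg : HasSum (fun j : ℕ => (2 / 17 * z ^ 17) * (z ^ 2) ^ j) ((2 / 17 * z ^ 17) * (1 - z ^ 2)⁻¹) :=
      (hasSum_geometric_of_lt_one (by positivity) (by nlinarith)).mul_left _
    have hle : ∀ j : ℕ, f (j + 8) ≤ (2 / 17 * z ^ 17) * (z ^ 2) ^ j := by
      intro j
      have e1 : z ^ (2 * (j + 8) + 1) = z ^ 17 * (z ^ 2) ^ j := by ring
      have e2 : f (j + 8) = (2 * (1 / (2 * ((j + 8 : ℕ) : ℝ) + 1))) * (z ^ 17 * (z ^ 2) ^ j) := by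
        rw [← e1]
      rw [e2, show 2 / 17 * z ^ 17 * (z ^ 2) ^ j = (2 * (1 / 17)) * (z ^ 17 * (z ^ 2) ^ j) by ring]
      apply mul_le_mul_of_nonneg_right _ (by positivity)
      apply mul_le_mul_of_nonneg_left _ (by norm_num)
      apply one_div_le_one_div_of_le (by norm_num)
      push_cast
      have : (0 : ℝ) ≤ j := by positivity
      linarith
    have h3 := hasSum_le hle htail hg
    have h4 : (2 / 17 * z ^ 17) * (1 - z ^ 2)⁻¹ ≤ 2 / 17 * (1 / 5) ^ 17 * (25 / 24) := by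
      apply mul_le_mul _ _ (by
        apply inv_nonneg.mpr
        nlinarith) (by positivity)
      · apply mul_le_mul_of_nonneg_left _ (by norm_num)
        exact pow_le_pow_left₀ hz0 hz1 17
      · rw [inv_le_comm₀ (by nlinarith) (by norm_num)]
        nlinarith
    have h5 : (10 : ℝ) ^ 15 * (2 / 17 * (1 / 5) ^ 17 * (25 / 24)) ≤ 192 := by norm_num
    linarith

theorem dl_bounds (k : ℕ) (hk : 2 ≤ k) :
    (dl k : ℝ) ≤ 10 ^ 15 * (Real.log ((k + 1 : ℕ) : ℝ) - Real.log (k : ℝ)) ∧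
    10 ^ 15 * (Real.log ((k + 1 : ℕ) : ℝ) - Real.log (k : ℝ)) ≤ dl k + 200 := by
  rw [dl_eq k _ rfl]
  exact dl_bounds_aux k _ hk (by norm_num)

/-- forced version of `dl` -/
@[reducible] def dlf (k : ℕ) (K : ℕ → Bool) : Bool :=
  force (Nat.add (Nat.mul 2 k) 1) fun w => force (Nat.mul w w) fun w2 =>
  force (Nat.div 2000000000000000 w) fun t0 => force (Nat.div t0 w2) fun t1 =>
  force (Nat.div t1 w2) fun t2 => force (Nat.div t2 w2) fun t3 => force (Nat.div t3 w2) fun t4 =>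
  force (Nat.div t4 w2) fun t5 => force (Nat.div t5 w2) fun t6 => force (Nat.div t6 w2) fun t7 =>
  force (Nat.add t0 (Nat.add (Nat.div t1 3) (Nat.add (Nat.div t2 5) (Nat.add (Nat.div t3 7)
      (Nat.add (Nat.div t4 9) (Nat.add (Nat.div t5 11) (Nat.add (Nat.div t6 13)
        (Nat.div t7 15)))))))) K

theorem dlf_eq (k : ℕ) (K : ℕ → Bool) : dlf k K = K (dl k) := by
  unfold dlf
  simp only [force_eq]

/-- walk through the integers `k, k+1, ...` accumulating sums over the (sorted) list -/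
@[reducible] def wk (fin : ℕ → ℕ → ℕ → Bool) (n : ℕ) :
    ℕ → ℕ → List ℕ → ℕ → ℕ → ℕ → Bool :=
  Nat.rec (fun _ _ L S1 S2 S3 => List.rec (fin S1 S2 S3) (fun _ _ _ => false) L)
    (fun _ ih k lg L S1 S2 S3 =>
      List.rec (fin S1 S2 S3) (fun h t _ =>
      dlf k fun d => force (Nat.add lg d) fun lg' => force (Nat.succ k) fun k' =>
        Bool.rec (ih k' lg' L S1 S2 S3)
          (force (Nat.add S1 (Nat.div lg k)) fun S1' => force (Nat.add S2 lg) fun S2' =>
            force (Nat.add S3 (Nat.div 1000000000000000000 k)) fun S3' => ih k' lg' t S1' S2' S3')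
          (Nat.beq h k)) L) n

/-- sum of `log k / k` -/
noncomputable def s1 (L : List ℕ) : ℝ := (L.map fun k => Real.log k / k).sum
/-- sum of `log k` -/
noncomputable def s2 (L : List ℕ) : ℝ := (L.map fun k => Real.log k).sum
/-- sum of `1 / k` -/
noncomputable def s3 (L : List ℕ) : ℝ := (L.map fun k => 1 / (k : ℝ)).sum

theorem s1_cons (h : ℕ) (t : List ℕ) : s1 (h :: t) = Real.log h / h + s1 t := by simp [s1]
theorem s2_cons (h : ℕ) (t : List ℕ) : s2 (h :: t) = Real.log h + s2 t := by simp [s2]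
theorem s3_cons (h : ℕ) (t : List ℕ) : s3 (h :: t) = 1 / h + s3 t := by simp [s3]

theorem div_bd (a k X : ℕ) (hk : 1 ≤ k) (hX : a = X) :
    ((a / k : ℕ) : ℝ) ≤ X / k ∧ (X : ℝ) / k ≤ ((a / k : ℕ) : ℝ) + 1 := by
  subst hX
  refine ⟨Nat.cast_div_le, ?_⟩
  rw [div_le_iff₀ (by exact_mod_cast (show 0 < k by omega))]
  have := (Nat.lt_mul_div_succ a (show 0 < k by omega)).le
  have h2 : (a : ℝ) ≤ ((k * (a / k + 1) : ℕ) : ℝ) := by exact_mod_cast this
  rw [Nat.cast_mul, Nat.cast_add, Nat.cast_one] at h2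
  linarith

theorem wk_sound {fin : ℕ → ℕ → ℕ → Bool} (Y : ℕ) (hY : (Y : ℝ) = 10 ^ 18) (hY' : 1000000000000000000 = Y)
    {n : ℕ} {k lg : ℕ} {L : List ℕ} {S1 S2 S3 : ℕ} (hk : 2 ≤ k)
    (hkn : k + n ≤ 1001)
    (h1 : (lg : ℝ) ≤ 10 ^ 15 * Real.log k) (h2 : 10 ^ 15 * Real.log k ≤ lg + 500000 + 200 * (k - 2))
    (h : wk fin n k lg L S1 S2 S3 = true) :
    ∃ A B C : ℕ, fin A B C = true ∧
      (A : ℝ) ≤ S1 + 10 ^ 15 * s1 L ∧ S1 + 10 ^ 15 * s1 L ≤ A + 700001 * L.length ∧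
      (B : ℝ) ≤ S2 + 10 ^ 15 * s2 L ∧ S2 + 10 ^ 15 * s2 L ≤ B + 700000 * L.length ∧
      (C : ℝ) ≤ S3 + 10 ^ 18 * s3 L ∧ S3 + 10 ^ 18 * s3 L ≤ C + L.length := by
  induction n generalizing k lg L S1 S2 S3 with
  | zero =>
    cases L with
    | nil => exact ⟨S1, S2, S3, h, by simp [s1], by simp [s1], by simp [s2], by simp [s2],
        by simp [s3], by simp [s3]⟩
    | cons a t => exact absurd h (by simp)
  | succ n ih =>
    cases L with
    | nil => exact ⟨S1, S2, S3, h, by simp [s1], by simp [s1], by simp [s2], by simp [s2],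
        by simp [s3], by simp [s3]⟩
    | cons a t =>
      change (dlf k fun d => force (Nat.add lg d) fun lg' => force (Nat.succ k) fun k' =>
        Bool.rec (motive := fun _ => Bool) (wk fin n k' lg' (a :: t) S1 S2 S3)
          (force (Nat.add S1 (Nat.div lg k)) fun S1' => force (Nat.add S2 lg) fun S2' =>
            force (Nat.add S3 (Nat.div 1000000000000000000 k)) fun S3' => wk fin n k' lg' t S1' S2' S3')
          (Nat.beq a k)) = true at h
      rw [dlf_eq, force_eq, force_eq] at h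
      obtain ⟨d1, d2⟩ := dl_bounds k hk
      have e1 : ((Nat.add lg (dl k) : ℕ) : ℝ) = lg + dl k := Nat.cast_add _ _
      have g1 : ((Nat.add lg (dl k) : ℕ) : ℝ) ≤ 10 ^ 15 * Real.log ((k + 1 : ℕ) : ℝ) := by
        rw [e1]; linarith
      have g2 : 10 ^ 15 * Real.log ((k + 1 : ℕ) : ℝ) ≤
          ((Nat.add lg (dl k) : ℕ) : ℝ) + 500000 + 200 * (((k + 1 : ℕ) : ℝ) - 2) := by
        rw [e1]; push_cast at d2 ⊢; linarith
      cases hb : Nat.beq a k with
      | false =>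
        rw [hb] at h
        exact ih (by omega) (by omega) g1 g2 h
      | true =>
        rw [hb] at h
        change (force (Nat.add S1 (Nat.div lg k)) fun S1' => force (Nat.add S2 lg) fun S2' =>
            force (Nat.add S3 (Nat.div 1000000000000000000 k)) fun S3' =>
              wk fin n (Nat.succ k) (Nat.add lg (dl k)) t S1' S2' S3') = true at h
        rw [force_eq, force_eq, force_eq] at h
        have hak : a = k := Nat.eq_of_beq_eq_true hb
        subst hak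
        obtain ⟨A, B, C, f0, f1, f2, f3, f4, f5, f6⟩ := ih (by omega) (by omega) g1 g2 h
        have hk1 : (a : ℝ) + n ≤ 1000 := by
          have : a + n ≤ 1000 := by omega
          exact_mod_cast this
        have hn0 : (0 : ℝ) ≤ n := by positivity
        have ha0 : (0 : ℝ) < a := by exact_mod_cast (show 0 < a by omega)
        have ha1 : (1 : ℝ) ≤ a := by exact_mod_cast (show 1 ≤ a by omega)
        have k2 : 10 ^ 15 * Real.log a ≤ lg + 700000 := by linarith
        obtain ⟨m1, m2⟩ := div_bd lg a lg (by omega) rfl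
        obtain ⟨m3, m4⟩ := div_bd 1000000000000000000 a Y (by omega) hY'
        have c1 : ((Nat.add S1 (Nat.div lg a) : ℕ) : ℝ) = S1 + ((lg / a : ℕ) : ℝ) := Nat.cast_add _ _
        have c2 : ((Nat.add S2 lg : ℕ) : ℝ) = S2 + (lg : ℝ) := Nat.cast_add _ _
        have c3 : ((Nat.add S3 (Nat.div 1000000000000000000 a) : ℕ) : ℝ) =
          S3 + ((1000000000000000000 / a : ℕ) : ℝ) := Nat.cast_add _ _
        rw [c1] at f1 f2
        rw [c2] at f3 f4
        rw [c3] at f5 f6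
        have n1 : (lg : ℝ) / a ≤ 10 ^ 15 * (Real.log a / a) := by
          rw [mul_div_assoc']
          exact (div_le_div_iff_of_pos_right ha0).mpr h1
        have n2 : 10 ^ 15 * (Real.log a / a) ≤ lg / a + 700000 := by
          rw [mul_div_assoc', div_le_iff₀ ha0, add_mul, div_mul_cancel₀ _ ha0.ne']
          nlinarith
        have n3 : (10 : ℝ) ^ 18 * (1 / a) = Y / a := by rw [hY]; ring
        rw [List.length_cons, s1_cons, s2_cons, s3_cons]
        push_cast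
        refine ⟨A, B, C, f0, ?_, ?_, ?_, ?_, ?_, ?_⟩
        · linarith
        · linarith
        · linarith
        · linarith
        · rw [mul_add, n3]; linarith
        · rw [mul_add, n3]; linarith

/-- check the sums of a list -/
@[reducible] def wchk (L : List ℕ) (A B C : ℕ) : Bool :=
  wk (fun x y z => Bool.rec false (Bool.rec false (Nat.beq z C) (Nat.beq y B)) (Nat.beq x A)) 999
    2 693147180300000 L 0 0 0

theorem wchk_sound (Y : ℕ) (hY : (Y : ℝ) = 10 ^ 18) (hY' : 1000000000000000000 = Y)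
    (Z : ℕ) (hZ : (Z : ℝ) = 0.6931471803 * 10 ^ 15) (hZ' : 693147180300000 = Z)
    {L : List ℕ} {A B C : ℕ} (h : wchk L A B C = true) :
      (A : ℝ) ≤ 10 ^ 15 * s1 L ∧ 10 ^ 15 * s1 L ≤ A + 700001 * L.length ∧
      (B : ℝ) ≤ 10 ^ 15 * s2 L ∧ 10 ^ 15 * s2 L ≤ B + 700000 * L.length ∧
      (C : ℝ) ≤ 10 ^ 18 * s3 L ∧ 10 ^ 18 * s3 L ≤ C + L.length := by
  unfold wchk at h
  rw [hZ'] at h
  have l1 := Real.log_two_gt_d9
  have l2 := Real.log_two_lt_d9
  obtain ⟨A', B', C', f0, f1, f2, f3, f4, f5, f6⟩ := wk_sound Y hY hY' (by norm_num) (by norm_num)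
    (by rw [hZ]; push_cast; linarith) (by rw [hZ]; push_cast; linarith) h
  rw [brec, brec] at f0
  obtain ⟨e1, e2, e3⟩ := f0
  have e1 := Nat.eq_of_beq_eq_true e1
  have e2 := Nat.eq_of_beq_eq_true e2
  have e3 := Nat.eq_of_beq_eq_true e3
  subst e1 e2 e3
  simp only [Nat.cast_zero, zero_add] at f1 f2 f3 f4 f5 f6
  exact ⟨f1, f2, f3, f4, f5, f6⟩

end KB
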