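import Mathlib

/-! Digit vectors in base 256. -/

set_option autoImplicit false

open Finset

namespace KB

/-- the number with base 256 digits `e 0, ..., e (n-1)` -/
def NV (e : ℕ → ℕ) (n : ℕ) : ℕ := ∑ i ∈ range n, e i * 256 ^ i

theorem NV_zero (e : ℕ → ℕ) : NV e 0 = 0 := by simp [NV]

theorem NV_succ (e : ℕ → ℕ) (n : ℕ) : NV e (n + 1) = NV e n + e n * 256 ^ n := by
  unfold NV; rw [Finset.sum_range_succ]

theorem NV_congr {e f : ℕ → ℕ} {n : ℕ} (h : ∀ i, i < n → e i = f i) : NV e n = NV f n := by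
  unfold NV
  apply Finset.sum_congr rfl
  intro i hi
  rw [h i (Finset.mem_range.1 hi)]

theorem NV_lt {e : ℕ → ℕ} {n : ℕ} (h : ∀ i, i < n → e i < 256) : NV e n < 256 ^ n := by
  induction n with
  | zero => simp [NV]
  | succ n ih =>
    rw [NV_succ, pow_succ]
    have h1 := ih (fun i hi => h i (by omega))
    have h2 := h n (by omega)
    have h3 : e n * 256 ^ n ≤ 255 * 256 ^ n := Nat.mul_le_mul_right _ (by omega)
    omega

theorem NV_add (e : ℕ → ℕ) (a b : ℕ) :
    NV e (a + b) = NV e a + 256 ^ a * NV (fun i => e (a + i)) b := by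
  induction b with
  | zero => simp [NV]
  | succ b ih =>
    rw [← add_assoc, NV_succ, ih, NV_succ]
    ring

theorem NV_mod {e : ℕ → ℕ} {n a : ℕ} (h : ∀ i, i < a → e i < 256) (ha : a ≤ n) :
    NV e n % 256 ^ a = NV e a := by
  obtain ⟨b, rfl⟩ := Nat.exists_eq_add_of_le ha
  rw [NV_add, Nat.add_mul_mod_self_left, Nat.mod_eq_of_lt (NV_lt h)]

theorem NV_div {e : ℕ → ℕ} {n a : ℕ} (h : ∀ i, i < a → e i < 256) (ha : a ≤ n) :
    NV e n / 256 ^ a = NV (fun i => e (a + i)) (n - a) := by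
  obtain ⟨b, rfl⟩ := Nat.exists_eq_add_of_le ha
  rw [NV_add, Nat.add_mul_div_left _ _ (by positivity), Nat.div_eq_of_lt (NV_lt h), zero_add,
    Nat.add_sub_cancel_left]

theorem pow_eq (n : ℕ) : 2 ^ (8 * n) = 256 ^ n := by
  rw [pow_mul]; norm_num

theorem NV_one (n : ℕ) : (2 ^ (8 * n) - 1) / 255 = NV (fun _ => 1) n := by
  have h : 255 * NV (fun _ => 1) n + 1 = 256 ^ n := by
    induction n with
    | zero => simp [NV]
    | succ n ih => rw [NV_succ, pow_succ]; omega
  rw [pow_eq]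
  omega

theorem NV_mul (c : ℕ) (e : ℕ → ℕ) (n : ℕ) : c * NV e n = NV (fun i => c * e i) n := by
  unfold NV
  rw [Finset.mul_sum]
  exact Finset.sum_congr rfl (fun i _ => by ring)

theorem NV_add' (e f : ℕ → ℕ) (n : ℕ) : NV e n + NV f n = NV (fun i => e i + f i) n := by
  unfold NV
  rw [← Finset.sum_add_distrib]
  exact Finset.sum_congr rfl (fun i _ => by ring)

theorem NV_sub {e f : ℕ → ℕ} {n : ℕ} (h : ∀ i, i < n → f i ≤ e i) :
    NV e n - NV f n = NV (fun i => e i - f i) n := by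
  have : NV e n = NV (fun i => e i - f i) n + NV f n := by
    rw [NV_add']
    exact NV_congr (fun i hi => by have := h i hi; omega)
  omega

theorem NV_inj {e f : ℕ → ℕ} {n : ℕ} (he : ∀ i, i < n → e i < 256) (hf : ∀ i, i < n → f i < 256)
    (h : NV e n = NV f n) : ∀ i, i < n → e i = f i := by
  intro i hi
  have h1 : NV e n / 256 ^ i % 256 ^ 1 = NV f n / 256 ^ i % 256 ^ 1 := by rw [h]
  rw [NV_div (fun j hj => he j (by omega)) (by omega),
    NV_div (fun j hj => hf j (by omega)) (by omega),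
    NV_mod (fun j hj => he (i + j) (by omega)) (by omega),
    NV_mod (fun j hj => hf (i + j) (by omega)) (by omega)] at h1
  simpa [NV] using h1

/-- every number below `256^n` is a digit vector -/
theorem NV_digits (Q n : ℕ) (h : Q < 256 ^ n) : NV (fun i => Q / 256 ^ i % 256) n = Q := by
  induction n generalizing Q with
  | zero => simp at h; subst h; simp [NV]
  | succ n ih =>
    have h1 : Q = Q % 256 ^ n + 256 ^ n * (Q / 256 ^ n) := (Nat.mod_add_div _ _).symm
    have h2 : Q / 256 ^ n < 256 := by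
      rw [Nat.div_lt_iff_lt_mul (by positivity)]
      rw [pow_succ] at h; linarith
    rw [NV_succ]
    have h3 : NV (fun i => Q / 256 ^ i % 256) n = NV (fun i => (Q % 256 ^ n) / 256 ^ i % 256) n := by
      apply NV_congr
      intro i hi
      obtain ⟨b, rfl⟩ := Nat.exists_eq_add_of_lt hi
      have h4 : (256 : ℕ) ^ (i + b + 1) = 256 ^ i * 256 ^ (b + 1) := by rw [← pow_add]; congr 1
      rw [h4, Nat.mod_mul_right_div_self, Nat.mod_mod_of_dvd]
      exact dvd_pow_self _ (by omega)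
    rw [h3, ih _ (Nat.mod_lt _ (by positivity)), Nat.mod_eq_of_lt h2]
    rw [mul_comm (Q / 256 ^ n)]
    exact h1.symm

theorem land_block {a b c d n : ℕ} (ha : a < 2 ^ n) (hc : c < 2 ^ n) :
    (a + 2 ^ n * b) &&& (c + 2 ^ n * d) = (a &&& c) + 2 ^ n * (b &&& d) := by
  have hac : (a &&& c) < 2 ^ n := Nat.and_lt_two_pow _ hc
  apply Nat.eq_of_testBit_eq
  intro j
  rw [Nat.testBit_and, add_comm a, add_comm c, add_comm (a &&& c),
    Nat.testBit_two_pow_mul_add _ ha, Nat.testBit_two_pow_mul_add _ hc,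
    Nat.testBit_two_pow_mul_add _ hac]
  split_ifs <;> rw [Nat.testBit_and]

theorem NV_land {e f : ℕ → ℕ} {n : ℕ} (he : ∀ i, i < n → e i < 256)
    (hf : ∀ i, i < n → f i < 256) : NV e n &&& NV f n = NV (fun i => e i &&& f i) n := by
  induction n with
  | zero => simp [NV]
  | succ n ih =>
    have h1 := ih (fun i hi => he i (by omega)) (fun i hi => hf i (by omega))
    rw [NV_succ, NV_succ, NV_succ, mul_comm (e n), mul_comm (f n), mul_comm (e n &&& f n),
      ← pow_eq, land_block, h1]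
    · rw [pow_eq]; exact NV_lt (fun i hi => he i (by omega))
    · rw [pow_eq]; exact NV_lt (fun i hi => hf i (by omega))

theorem land_mask (U a : ℕ) : U &&& (2 ^ (8 * a) - 1) = U % 256 ^ a := by
  rw [Nat.and_two_pow_sub_one_eq_mod, pow_eq]

theorem shift_eq (U a : ℕ) : U >>> (8 * a) = U / 256 ^ a := by
  rw [Nat.shiftRight_eq_div_pow, pow_eq]

end KB
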