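import Pool.Agent.Helper77.KB.Blk

/-! Soundness of the pattern sums. -/

set_option autoImplicit false

open Finset

namespace KB

/-- number of elements of `l` dividing `y` -/
def cnt (l : List ℕ) (y : ℕ) : ℕ := (l.map fun h => if h ∣ y then 1 else 0).sum

theorem cnt_le (l : List ℕ) (y : ℕ) : cnt l y ≤ l.length := by
  unfold cnt
  induction l with
  | nil => simp
  | cons a l ih =>
    simp only [List.map_cons, List.sum_cons, List.length_cons]
    split_ifs <;> omega

theorem geom_NV {h : ℕ} (hh : 1 ≤ h) (J : ℕ) :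
    ∑ j ∈ range J, (256 ^ h) ^ j = NV (fun i => if h ∣ i then 1 else 0) (h * J) := by
  induction J with
  | zero => simp [NV]
  | succ J ih =>
    rw [Finset.sum_range_succ, ih, Nat.mul_succ, NV_add]
    congr 1
    have h1 : NV (fun i => if h ∣ h * J + i then 1 else 0) h = 1 := by
      obtain ⟨m, rfl⟩ : ∃ m, h = m + 1 := ⟨h - 1, by omega⟩
      unfold NV
      rw [Finset.sum_range_succ']
      simp only [add_zero, dvd_mul_right, if_true, pow_zero, mul_one]
      rw [Finset.sum_eq_zero, zero_add]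
      intro i hi
      rw [Finset.mem_range] at hi
      rw [if_neg, zero_mul]
      intro hd
      rw [Nat.dvd_add_right (Dvd.intro J rfl)] at hd
      exact absurd (Nat.le_of_dvd (by omega) hd) (by omega)
    rw [h1, mul_one, ← pow_mul]

theorem NV_extend (e : ℕ → ℕ) {n N : ℕ} (h : n ≤ N) :
    NV e n = NV (fun i => if i < n then e i else 0) N := by
  obtain ⟨b, rfl⟩ := Nat.exists_eq_add_of_le h
  rw [NV_add]
  have h1 : NV (fun i => if n + i < n then e (n + i) else 0) b = 0 := by
    unfold NV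
    apply Finset.sum_eq_zero
    intro i _
    show (if n + i < n then e (n + i) else 0) * 256 ^ i = 0
    rw [if_neg (by omega), zero_mul]
  rw [h1, mul_zero, add_zero]
  apply NV_congr
  intro i hi
  rw [if_pos hi]

/-- digits of `pat h s` -/
def pd (h s i : ℕ) : ℕ := if i < h * ((10000 + h) / h + 1) - s then (if h ∣ s + i then 1 else 0) else 0

theorem pat_eq {NN : ℕ} (hNN : 12000 ≤ NN) {h s : ℕ} (h1 : 1 ≤ h) (h2 : h ≤ 1000) (hs : s < h) :
    pat h s = NV (pd h s) NN := by
  unfold pat
  set J := (10000 + h) / h + 1 with hJ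
  have hJ1 : h * J ≤ 10000 + 2 * h := by
    have := Nat.mul_div_le (10000 + h) h
    rw [hJ, mul_add, mul_one]; omega
  have hJ2 : 10000 + h < h * J := by
    rw [hJ]; exact Nat.lt_mul_div_succ _ (by omega)
  show ((2 ^ (8 * (h * J)) - 1) / (2 ^ (8 * h) - 1)) >>> (8 * s) = _
  rw [pow_eq, pow_eq, shift_eq, pow_mul, ← Nat.geomSum_eq (by
    calc 2 ≤ 256 ^ 1 := by norm_num
      _ ≤ 256 ^ h := Nat.pow_le_pow_right (by norm_num) h1), geom_NV h1,
    NV_div (fun i _ => by split_ifs <;> norm_num) (by omega), NV_extend _ (N := NN) (by omega)]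
  rfl

theorem pd_lt {h s i : ℕ} : pd h s i ≤ 1 := by
  unfold pd; split_ifs <;> norm_num

theorem pd_eq {h m i : ℕ} (h1 : 1 ≤ h) (hi : i < 10000) :
    pd h (m % h) i = if h ∣ m + i then 1 else 0 := by
  unfold pd
  have hs : m % h < h := Nat.mod_lt _ h1
  have hJ2 : 10000 + h < h * ((10000 + h) / h + 1) := Nat.lt_mul_div_succ _ (by omega)
  rw [if_pos (by omega)]
  have : (h ∣ m % h + i) ↔ (h ∣ m + i) := by
    rw [Nat.dvd_iff_mod_eq_zero, Nat.dvd_iff_mod_eq_zero, Nat.mod_add_mod]
  simp only [this]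

theorem sumPat_sound {NN : ℕ} (hNN : 12000 ≤ NN) {m : ℕ} {k : ℕ → Bool} {l : List ℕ} (hl : ∀ h ∈ l, 1 ≤ h ∧ h ≤ 1000)
    {acc : ℕ} (h : sumPat m k l acc = true) :
    k (acc + NV (fun i => (l.map fun h => pd h (m % h) i).sum) NN) = true := by
  induction l generalizing acc with
  | nil =>
    have : NV (fun i => (([] : List ℕ).map fun h => pd h (m % h) i).sum) NN = 0 := by
      simp [NV]
    rw [this, add_zero]
    exact h
  | cons a l ih =>
    have ha := hl a (List.mem_cons_self)
    change force (Nat.add acc (pat a (Nat.mod m a))) (sumPat m k l) = true at h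
    rw [force_eq] at h
    have h2 := ih (fun h hh => hl h (List.mem_cons_of_mem _ hh)) h
    have h3 : pat a (Nat.mod m a) = NV (pd a (m % a)) NN :=
      pat_eq hNN ha.1 ha.2 (Nat.mod_lt _ ha.1)
    rw [h3] at h2
    have h4 : Nat.add acc (NV (pd a (m % a)) NN) +
        NV (fun i => (l.map fun h => pd h (m % h) i).sum) NN =
        acc + NV (fun i => ((a :: l).map fun h => pd h (m % h) i).sum) NN := by
      show acc + _ + _ = _
      rw [add_assoc, NV_add']
      simp only [List.map_cons, List.sum_cons]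
    rw [h4] at h2
    exact h2

theorem bigOf_eq (n : ℕ) : bigOf (8 * n) = NV (fun _ => 1) n := NV_one n

theorem bigO_eq : bigOf 96000 = NV (fun _ => 1) 12000 :=
  (congrArg bigOf (by norm_num : 96000 = 8 * 12000)).trans (bigOf_eq 12000)

theorem mul_bigO {O NN : ℕ} (hO : O = NV (fun _ => 1) NN) (c : ℕ) :
    Nat.mul c O = NV (fun _ => c) NN := by
  rw [hO]
  show c * NV (fun _ => 1) NN = _
  rw [NV_mul]
  simp only [mul_one]

theorem sum_pd_le (m i : ℕ) (l : List ℕ) : (l.map fun h => pd h (m % h) i).sum ≤ l.length := by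
  induction l with
  | nil => simp
  | cons a l ih =>
    simp only [List.map_cons, List.sum_cons, List.length_cons]
    have := @pd_lt a (m % a) i
    omega

theorem sum_pd_eq (m i : ℕ) (l : List ℕ) (hl : ∀ h ∈ l, 1 ≤ h ∧ h ≤ 1000) (hi : i < 10000) :
    (l.map fun h => pd h (m % h) i).sum = cnt l (m + i) := by
  unfold cnt
  congr 1
  apply List.map_congr_left
  intro h hh
  exact pd_eq (hl h hh).1 hi

/-- `cnt A + cnt B - cnt C - cnt D` -/
def DD (A B C D : List ℕ) (y : ℕ) : ℤ := cnt A y + cnt B y - cnt C y - cnt D y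

def OKL (l : List ℕ) : Prop := (∀ h ∈ l, 1 ≤ h ∧ h ≤ 1000) ∧ l.length < 256

theorem small_digits {O NN : ℕ} (hO : O = NV (fun _ => 1) NN) {l : List ℕ} (hl : OKL l) {m : ℕ}
    (h : Nat.land (0 + NV (fun i => (l.map fun h => pd h (m % h) i).sum) NN)
      (Nat.mul 192 O) = 0) :
    ∀ i, i < NN → (l.map fun h => pd h (m % h) i).sum < 64 := by
  intro i hi
  have h1 : ∀ i, i < NN → (l.map fun h => pd h (m % h) i).sum < 256 :=
    fun i _ => lt_of_le_of_lt (sum_pd_le m i l) hl.2
  rw [mul_bigO hO, zero_add] at h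
  have h3 : NV (fun i => (l.map fun h => pd h (m % h) i).sum &&& 192) NN =
      NV (fun _ => 0) NN := by
    rw [← NV_land h1 (fun _ _ => by norm_num)]
    have : NV (fun _ => 0) NN = 0 := by simp [NV]
    rw [this]; exact h
  have h4 := NV_inj (e := fun i => (l.map fun h => pd h (m % h) i).sum &&& 192) (f := fun _ => 0)
      (fun i hi => lt_of_le_of_lt (Nat.and_le_left) (h1 i hi)) (fun i _ => by norm_num) h3 i hi
  exact land_lt64 (h1 i hi) h4

theorem wsum_sound {O NN : ℕ} (hO : O = NV (fun _ => 1) NN) (hNN : 12000 ≤ NN) {A B C D : List ℕ} (hA : OKL A) (hB : OKL B) (hC : OKL C) (hD : OKL D)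
    {m : ℕ} {k : ℕ → Bool} (h : wsum O A B C D m k = true) :
    ∃ W, Rep W 10000 (fun i => DD A B C D (m + i)) ∧ k W = true := by
  unfold wsum at h
  have h1 := sumPat_sound hNN hA.1 h
  replace h1 := sumPat_sound hNN hB.1 h1
  replace h1 := sumPat_sound hNN hC.1 h1
  replace h1 := sumPat_sound hNN hD.1 h1
  simp only [brec, force_eq] at h1
  obtain ⟨g4, g3, g2, g1, g⟩ := h1
  have g4' := small_digits hO hD (Nat.eq_of_beq_eq_true g4)
  have g3' := small_digits hO hC (Nat.eq_of_beq_eq_true g3)
  have g2' := small_digits hO hB (Nat.eq_of_beq_eq_true g2)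
  have g1' := small_digits hO hA (Nat.eq_of_beq_eq_true g1)
  refine ⟨_, ?_, g⟩
  rw [mul_bigO hO]
  set a : ℕ → ℕ := fun i => (A.map fun h => pd h (m % h) i).sum with ha
  set b : ℕ → ℕ := fun i => (B.map fun h => pd h (m % h) i).sum with hb
  set c : ℕ → ℕ := fun i => (C.map fun h => pd h (m % h) i).sum with hc
  set d : ℕ → ℕ := fun i => (D.map fun h => pd h (m % h) i).sum with hd
  have hW : Nat.sub (Nat.add (Nat.add (0 + NV a NN) (0 + NV b NN)) (NV (fun _ => 128) NN))
      (Nat.add (0 + NV c NN) (0 + NV d NN)) = NV (fun i => a i + b i + 128 - (c i + d i)) NN := by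
    show (0 + NV a NN) + (0 + NV b NN) + NV (fun _ => 128) NN - ((0 + NV c NN) + (0 + NV d NN)) = _
    rw [zero_add, zero_add, zero_add, zero_add, NV_add', NV_add', NV_add', NV_sub]
    intro i hi
    have := g3' i hi
    have := g4' i hi
    simp only [hc, hd]
    omega
  rw [hW]
  refine ⟨fun i => a i + b i + 128 - (c i + d i), ?_, ?_⟩
  · intro i hi
    have hiN : i < NN := by omega
    have e1 := g1' i hiN
    have e2 := g2' i hiN
    have e3 := g3' i hiN
    have e4 := g4' i hiN
    have ea : a i = cnt A (m + i) := sum_pd_eq m i A hA.1 hi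
    have eb : b i = cnt B (m + i) := sum_pd_eq m i B hB.1 hi
    have ec : c i = cnt C (m + i) := sum_pd_eq m i C hC.1 hi
    have ed : d i = cnt D (m + i) := sum_pd_eq m i D hD.1 hi
    change a i < 64 at e1
    change b i < 64 at e2
    change c i < 64 at e3
    change d i < 64 at e4
    have hDD : DD A B C D (m + i) = a i + b i - c i - d i := by
      unfold DD
      rw [← ea, ← eb, ← ec, ← ed]
    show ((a i + b i + 128 - (c i + d i) : ℕ) : ℤ) = 128 + DD A B C D (m + i) ∧
      |DD A B C D (m + i)| ≤ 127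
    rw [hDD]
    constructor
    · omega
    · rw [abs_le]; constructor <;> omega
  · apply NV_mod
    · intro i hi
      have hiN : i < NN := by omega
      have e1 := g1' i hiN
      have e2 := g2' i hiN
      change a i < 64 at e1
      change b i < 64 at e2
      omega
    · omega

end KB
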