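import Pool.Agent.Helper77.KB.Defs

/-! KB-6: Stirling bounds for `⌊t⌋!`. -/

set_option autoImplicit false

open Finset

namespace KB

namespace Stirling0

/-- `n log n - n` increases with slope `log`. -/
theorem h_le (x y : ℝ) (hx : 1 ≤ x) (hxy : x ≤ y) :
    x * Real.log x - x ≤ y * Real.log y - y ∧
      y * Real.log y - y ≤ x * Real.log x - x + (y - x) * Real.log y := by
  have hx0 : 0 < x := by linarith
  have hy0 : 0 < y := by linarith
  have hlx : 0 ≤ Real.log x := Real.log_nonneg hx
  -- log y - log x ≤ (y - x) / x and ≥ (y - x) / y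
  have h1 : Real.log (x / y) ≤ x / y - 1 := Real.log_le_sub_one_of_pos (by positivity)
  rw [Real.log_div hx0.ne' hy0.ne'] at h1
  have h1' : (Real.log x - Real.log y) * y ≤ (x / y - 1) * y :=
    mul_le_mul_of_nonneg_right h1 hy0.le
  have e1 : (x / y - 1) * y = x - y := by field_simp
  rw [e1] at h1'
  have h2 : Real.log (y / x) ≤ y / x - 1 := Real.log_le_sub_one_of_pos (by positivity)
  rw [Real.log_div hy0.ne' hx0.ne'] at h2
  have h2' : (Real.log y - Real.log x) * x ≤ (y / x - 1) * x :=
    mul_le_mul_of_nonneg_right h2 hx0.le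
  have e2 : (y / x - 1) * x = y - x := by field_simp
  rw [e2] at h2'
  constructor
  · -- y log y - y - (x log x - x) ≥ (y - x) log x ≥ 0
    have h3 : 0 ≤ (y - x) * Real.log x := mul_nonneg (by linarith) hlx
    nlinarith
  · nlinarith

theorem log_fac_upper (n : ℕ) (hn : 1 ≤ n) :
    Real.log (n.factorial : ℝ) ≤ n * Real.log n - n + Real.log n / 2 + 1 := by
  obtain ⟨m, rfl⟩ : ∃ m, n = m + 1 := ⟨n - 1, by omega⟩
  have hanti := Stirling.log_stirlingSeq'_antitone (Nat.zero_le m)
  simp only [Function.comp] at hanti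
  have h1 := Stirling.log_stirlingSeq_formula (m + 1)
  have h0 : Real.log (Stirling.stirlingSeq 1) = 1 - Real.log 2 / 2 := by
    rw [Stirling.stirlingSeq_one, Real.log_div (Real.exp_pos 1).ne' (by positivity), Real.log_exp,
      Real.log_sqrt (by norm_num)]
  have hanti' : Real.log (Stirling.stirlingSeq (m + 1)) ≤ Real.log (Stirling.stirlingSeq 1) :=
    hanti
  rw [h0, h1] at hanti'
  have hn0 : (0 : ℝ) < ((m + 1 : ℕ) : ℝ) := by positivity
  rw [Real.log_mul (by norm_num) hn0.ne', Real.log_div hn0.ne' (Real.exp_pos 1).ne',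
    Real.log_exp] at hanti'
  nlinarith

end Stirling0

theorem log_fac_bound (t : ℝ) (ht : 1 ≤ t) :
    |Real.log (⌊t⌋₊.factorial : ℝ) - (t * Real.log t - t)| ≤ Real.log t / 2 + 1 := by
  set n := ⌊t⌋₊ with hn
  have hn1 : 1 ≤ n := by
    rw [hn]
    exact (Nat.one_le_floor_iff t).2 ht
  have hn1' : (1 : ℝ) ≤ (n : ℝ) := by exact_mod_cast hn1
  have hnt : (n : ℝ) ≤ t := Nat.floor_le (by linarith)
  have htn : t < (n : ℝ) + 1 := Nat.lt_floor_add_one t
  obtain ⟨h1, h2⟩ := Stirling0.h_le (n : ℝ) t hn1' hnt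
  have hup := Stirling0.log_fac_upper n hn1
  have hlo := Stirling.le_log_factorial_stirling (n := n) (by omega)
  have hlogt : 0 ≤ Real.log t := Real.log_nonneg ht
  have hlogn : 0 ≤ Real.log (n : ℝ) := Real.log_nonneg hn1'
  have hlognt : Real.log (n : ℝ) ≤ Real.log t := Real.log_le_log (by linarith) hnt
  have hlogtn : Real.log t ≤ Real.log 2 + Real.log (n : ℝ) := by
    rw [← Real.log_mul (by norm_num) (by linarith)]
    exact Real.log_le_log (by linarith) (by linarith)
  have hlog2 : Real.log 2 < 1 := by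
    have := Real.log_two_lt_d9
    linarith
  have hpi : 0 ≤ Real.log (2 * Real.pi) := by
    apply Real.log_nonneg
    have := Real.pi_gt_three
    linarith
  have h3 : (t - n) * Real.log t ≤ Real.log t := by
    have : (t - n) * Real.log t ≤ 1 * Real.log t :=
      mul_le_mul_of_nonneg_right (by linarith) hlogt
    linarith
  rw [abs_le]
  constructor
  · linarith
  · linarith

end KB
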