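import Pool.Agent.Helper77.KB.GSound
import Pool.Agent.Helper77.KB.GCheck
import Pool.Agent.Helper77.KB.LogSum
import Pool.Agent.Helper77.KB.Stirling

/-! The two Chebyshev type inequalities for `psi x`, `x ≥ 1000`. -/

set_option autoImplicit false

open Finset ArithmeticFunction

namespace KB

theorem w1000 : wchk [1000] 6907755278720 6907755278720685 1000000000000000 = true := by
  decide +kernel

theorem log1000 : (6.907755278 : ℝ) ≤ Real.log 1000 ∧ Real.log 1000 ≤ 6.90775528 := by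
  obtain ⟨h1, h2, h3, h4, h5, h6⟩ := wchk_sound 1000000000000000000 (by norm_num) rfl
    693147180300000 (by norm_num) rfl w1000
  norm_num [s2] at h3 h4
  constructor <;> linarith

noncomputable def Scon : ℝ := s3 LA + s3 LB - s3 LC - s3 LD

noncomputable def ccon : ℝ := -(1000 * Scon)

theorem ccon_bd : 4.411869771 ≤ -ccon ∧ -ccon ≤ 4.411869772 ∧
    0.00441186977 ≤ Scon ∧ Scon ≤ 0.00441186978 := by
  obtain ⟨_, _, _, a1, a2⟩ := sumsA
  obtain ⟨_, _, _, b1, b2⟩ := sumsB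
  obtain ⟨_, _, _, c1, c2⟩ := sumsC
  obtain ⟨_, _, _, d1, d2⟩ := sumsD
  unfold ccon Scon
  norm_num at a1 a2 b1 b2 c1 c2 d1 d2 ⊢
  refine ⟨?_, ?_, ?_, ?_⟩ <;> linarith

/-- the fractional parts -/
theorem sum_div_bd (l : List ℕ) (hl : ∀ h ∈ l, 1 ≤ h ∧ h ≤ 1000) (y : ℕ) :
    (y : ℝ) * s3 l - l.length ≤ (((l.map fun k => y / k).sum : ℕ) : ℝ) ∧
      (((l.map fun k => y / k).sum : ℕ) : ℝ) ≤ y * s3 l := by
  induction l with
  | nil => simp [s3]
  | cons a l ih =>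
    obtain ⟨i1, i2⟩ := ih (fun h hh => hl h (List.mem_cons_of_mem _ hh))
    obtain ⟨m1, m2⟩ := div_bd y a y (hl a List.mem_cons_self).1 rfl
    rw [List.map_cons, List.sum_cons, s3_cons, List.length_cons]
    push_cast
    rw [mul_add, mul_one_div]
    push_cast at i1 i2
    constructor <;> linarith

theorem Fr_eq (A B C D : List ℕ) (c : ℝ) (y : ℕ) :
    Fr A B C D c y = (((A.map fun k => y / k).sum : ℕ) : ℝ) +
    (((B.map fun k => y / k).sum : ℕ) : ℝ) - (((C.map fun k => y / k).sum : ℕ) : ℝ) -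
    (((D.map fun k => y / k).sum : ℕ) : ℝ) + c * ((y / 1000 : ℕ) : ℝ) := by
  unfold Fr Fo
  generalize (A.map fun k => y / k).sum = p
  generalize (B.map fun k => y / k).sum = q
  generalize (C.map fun k => y / k).sum = r
  generalize (D.map fun k => y / k).sum = s
  push_cast
  ring

theorem Fr_tail (y : ℕ) :
    1 - Fr LA LB LC LD ccon y ≤ (((644 : ℕ) : ℝ) - 32) / 2 ∧
    Fr LA LB LC LD ccon y - 1 ≤ (((645 : ℕ) : ℝ) - 32) / 2 := by
  obtain ⟨a1, a2⟩ := sum_div_bd LA okA.1 y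
  obtain ⟨b1, b2⟩ := sum_div_bd LB okB.1 y
  obtain ⟨c1, c2⟩ := sum_div_bd LC okC.1 y
  obtain ⟨d1, d2⟩ := sum_div_bd LD okD.1 y
  rw [lenA] at a1
  rw [lenB] at b1
  rw [lenC] at c1
  rw [lenD] at d1
  obtain ⟨e1, e2, e3, e4⟩ := ccon_bd
  obtain ⟨m1, m2⟩ := div_bd y 1000 y (by norm_num) rfl
  have hid : (y : ℝ) * s3 LA + y * s3 LB - y * s3 LC - y * s3 LD = -ccon * (y / 1000) := by
    unfold ccon Scon; ring
  rw [Fr_eq]
  generalize (LA.map fun k => y / k).sum = p at *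
  generalize (LB.map fun k => y / k).sum = q at *
  generalize (LC.map fun k => y / k).sum = r at *
  generalize (LD.map fun k => y / k).sum = s at *
  push_cast at m1 m2 a1 a2 b1 b2 c1 c2 d1 d2
  have k1 : -ccon * ((y / 1000 : ℕ) : ℝ) ≤ -ccon * (y / 1000) :=
    mul_le_mul_of_nonneg_left m1 (by linarith)
  have k2 : -ccon * (y / 1000) ≤ -ccon * (((y / 1000 : ℕ) : ℝ) + 1) :=
    mul_le_mul_of_nonneg_left m2 (by linarith)
  push_cast at k1 k2 ⊢
  constructor <;> linarith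

/-- `sum over k of log (N/k)!` -/
noncomputable def lf (L : List ℕ) (N : ℕ) : ℝ := (L.map fun k => Real.log ((N / k).factorial : ℝ)).sum

theorem lf1 {x : ℝ} (hx : 1000 ≤ x) {k : ℕ} (h1 : 1 ≤ k) (h2 : k ≤ 1000) :
    |Real.log ((⌊x⌋₊ / k).factorial : ℝ) -
      (1 / k * (x * Real.log x - x) - x * (Real.log k / k))| ≤ (Real.log x - Real.log k) / 2 + 1 := by
  have hk0 : (0 : ℝ) < k := by exact_mod_cast (show 0 < k by omega)
  have hk1 : (k : ℝ) ≤ 1000 := by exact_mod_cast h2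
  have h := log_fac_bound (x / k) (by rw [le_div_iff₀ hk0]; linarith)
  rw [Nat.floor_div_natCast, Real.log_div (by positivity) (by positivity)] at h
  convert h using 3
  field_simp
  ring

theorem lf_bd {x : ℝ} (hx : 1000 ≤ x) (L : List ℕ) (hl : ∀ h ∈ L, 1 ≤ h ∧ h ≤ 1000) :
    |lf L ⌊x⌋₊ - (s3 L * (x * Real.log x - x) - x * s1 L)| ≤
      (L.length * Real.log x - s2 L) / 2 + L.length := by
  induction L with
  | nil => simp [lf, s1, s2, s3]
  | cons a L ih =>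
    have i1 := ih (fun h hh => hl h (List.mem_cons_of_mem _ hh))
    have i2 := lf1 hx (hl a List.mem_cons_self).1 (hl a List.mem_cons_self).2
    have e : lf (a :: L) ⌊x⌋₊ = Real.log ((⌊x⌋₊ / a).factorial : ℝ) + lf L ⌊x⌋₊ := by simp [lf]
    rw [e, s1_cons, s2_cons, s3_cons, List.length_cons]
    rw [abs_le] at i1 i2 ⊢
    push_cast
    constructor <;> linarith [i1.1, i1.2, i2.1, i2.2]

theorem sum_F (N : ℕ) :
    ∑ d ∈ Ioc 0 N, vonMangoldt d * Fr LA LB LC LD ccon (N / d) =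
      lf LA N + lf LB N - lf LC N - lf LD N + ccon * Real.log ((N / 1000).factorial : ℝ) := by
  have h1 := list_sum_log LA N
  have h2 := list_sum_log LB N
  have h3 := list_sum_log LC N
  have h4 := list_sum_log LD N
  have h5 := log_fact_div N 1000
  unfold lf
  rw [h1, h2, h3, h4, h5, Finset.mul_sum, ← Finset.sum_add_distrib, ← Finset.sum_sub_distrib,
    ← Finset.sum_sub_distrib, ← Finset.sum_add_distrib]
  apply Finset.sum_congr rfl
  intro d _
  rw [Fr_eq]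
  ring

theorem sum_F_bd {x : ℝ} (hx : 1000 ≤ x) :
    1.0004067 * x - (306.206 * Real.log x - 1196.2) ≤
      ∑ d ∈ Ioc 0 ⌊x⌋₊, vonMangoldt d * Fr LA LB LC LD ccon (⌊x⌋₊ / d) ∧
    ∑ d ∈ Ioc 0 ⌊x⌋₊, vonMangoldt d * Fr LA LB LC LD ccon (⌊x⌋₊ / d) ≤
      1.0004072 * x + (306.206 * Real.log x - 1196.2) := by
  rw [sum_F]
  have hA := lf_bd hx LA okA.1
  have hB := lf_bd hx LB okB.1
  have hC := lf_bd hx LC okC.1
  have hD := lf_bd hx LD okD.1
  have hK := lf1 hx (k := 1000) (by norm_num) (by norm_num)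
  rw [lenA] at hA
  rw [lenB] at hB
  rw [lenC] at hC
  rw [lenD] at hD
  rw [abs_le] at hA hB hC hD hK
  obtain ⟨A1, A2, A3, A4, A5⟩ := sumsA
  obtain ⟨B1, B2, B3, B4, B5⟩ := sumsB
  obtain ⟨C1, C2, C3, C4, C5⟩ := sumsC
  obtain ⟨D1, D2, D3, D4, D5⟩ := sumsD
  obtain ⟨e1, e2, e3, e4⟩ := ccon_bd
  obtain ⟨l1, l2⟩ := log1000
  have hlx : Real.log 1000 ≤ Real.log x := Real.log_le_log (by norm_num) hx
  have hx0 : 0 ≤ x := by linarith
  push_cast at hK hA hB hC hD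
  obtain ⟨hK1, hK2⟩ := hK
  set T := Real.log ((⌊x⌋₊ / 1000).factorial : ℝ) with hT
  have hcK1 : ccon * (T - (1 / 1000 * (x * Real.log x - x) - x * (Real.log 1000 / 1000))) ≤
      -ccon * ((Real.log x - Real.log 1000) / 2 + 1) := by
    have := mul_le_mul_of_nonneg_left hK1 (show 0 ≤ -ccon by linarith)
    linarith
  have hcK2 : -(-ccon * ((Real.log x - Real.log 1000) / 2 + 1)) ≤
      ccon * (T - (1 / 1000 * (x * Real.log x - x) - x * (Real.log 1000 / 1000))) := by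
    have := mul_le_mul_of_nonneg_left hK2 (show 0 ≤ -ccon by linarith)
    linarith
  have hmain : s3 LA * (x * Real.log x - x) + s3 LB * (x * Real.log x - x) -
      s3 LC * (x * Real.log x - x) - s3 LD * (x * Real.log x - x) +
      ccon * (1 / 1000 * (x * Real.log x - x)) = 0 := by
    unfold ccon Scon; ring
  have hcl : -ccon = 1000 * Scon := by unfold ccon; ring
  -- error of the `ccon` term
  have herr : -ccon * ((Real.log x - Real.log 1000) / 2 + 1) ≤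
      4.411869772 * ((Real.log x - 6.907755278) / 2 + 1) := by
    have h1 : -ccon * ((Real.log x - Real.log 1000) / 2 + 1) ≤
      4.411869772 * ((Real.log x - Real.log 1000) / 2 + 1) :=
      mul_le_mul_of_nonneg_right e2 (by linarith)
    linarith
  have hS1 : Scon * Real.log 1000 ≤ 0.0304761168 := by
    have : Scon * Real.log 1000 ≤ 0.00441186978 * 6.90775528 :=
      mul_le_mul e4 l2 (by linarith) (by norm_num)
    norm_num at this ⊢
    linarith
  have hS2 : 0.0304761166 ≤ Scon * Real.log 1000 := by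
    have : 0.00441186977 * 6.907755278 ≤ Scon * Real.log 1000 :=
      mul_le_mul e3 l1 (by norm_num) (by linarith)
    norm_num at this ⊢
    linarith
  have hSx : -(ccon * (x * (Real.log 1000 / 1000))) = x * (Scon * Real.log 1000) := by
    unfold ccon; ring
  have u1 : x * (-s1 LA - s1 LB + s1 LC + s1 LD + Scon * Real.log 1000) ≤ x * 1.0004072 :=
    mul_le_mul_of_nonneg_left (by norm_num at *; linarith) hx0
  have u2 : x * 1.0004067 ≤ x * (-s1 LA - s1 LB + s1 LC + s1 LD + Scon * Real.log 1000) :=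
    mul_le_mul_of_nonneg_left (by norm_num at *; linarith) hx0
  obtain ⟨hA1, hA2⟩ := hA
  obtain ⟨hB1, hB2⟩ := hB
  obtain ⟨hC1, hC2⟩ := hC
  obtain ⟨hD1, hD2⟩ := hD
  norm_num at A3 B3 C3 D3
  constructor
  · norm_num at *
    linarith
  · norm_num at *
    linarith

theorem psi_eq (x : ℝ) : Chebyshev.psi x = ∑ d ∈ Ioc 0 ⌊x⌋₊, vonMangoldt d := rfl

theorem gok_all {s t : ℕ} (h : gok s t AllE 0 = true) (y : ℕ) (hy : 1 ≤ y) :
    1 - Fr LA LB LC LD ccon y ≤ Gv (jl s 644 AllE 0 32) y ∧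
    Fr LA LB LC LD ccon y - 1 ≤ Gv (jl t 645 AllE 0 32) y := by
  obtain ⟨e1, e2, -, -⟩ := ccon_bd
  have := gok_sound e1 e2 h good_all (fun z _ => (Fr_tail z).1) (fun z _ => (Fr_tail z).2) 32 32 y
    (by omega)
  norm_num at this
  constructor <;> linarith [this.1, this.2]

theorem psi_up {s t : ℕ} (h : gok s t AllE 0 = true) {x : ℝ} (hx : 1000 ≤ x) :
    Chebyshev.psi x ≤ 1.0004072 * x + (306.206 * Real.log x - 1196.2) +
      ((jl s 644 AllE 0 32).map fun a => a.2 * Chebyshev.psi ((⌊x⌋₊ / a.1 : ℕ) : ℝ)).sum := by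
  rw [← sum_Gv _ (jl_pos _ _ _ _ _) ⌊x⌋₊]
  have h1 := (sum_F_bd hx).2
  have h2 : ∑ d ∈ Ioc 0 ⌊x⌋₊, vonMangoldt d * (1 - Fr LA LB LC LD ccon (⌊x⌋₊ / d)) ≤
      ∑ d ∈ Ioc 0 ⌊x⌋₊, vonMangoldt d * Gv (jl s 644 AllE 0 32) (⌊x⌋₊ / d) := by
    apply Finset.sum_le_sum
    intro d hd
    rw [Finset.mem_Ioc] at hd
    exact mul_le_mul_of_nonneg_left (gok_all h _ (Nat.div_pos hd.2 hd.1)).1 vonMangoldt_nonneg
  have h3 : ∑ d ∈ Ioc 0 ⌊x⌋₊, vonMangoldt d * (1 - Fr LA LB LC LD ccon (⌊x⌋₊ / d)) =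
      Chebyshev.psi x - ∑ d ∈ Ioc 0 ⌊x⌋₊, vonMangoldt d * Fr LA LB LC LD ccon (⌊x⌋₊ / d) := by
    rw [psi_eq, ← Finset.sum_sub_distrib]
    apply Finset.sum_congr rfl
    intro d _
    ring
  linarith

theorem psi_low {s t : ℕ} (h : gok s t AllE 0 = true) {x : ℝ} (hx : 1000 ≤ x) :
    1.0004067 * x - (306.206 * Real.log x - 1196.2) -
      ((jl t 645 AllE 0 32).map fun a => a.2 * Chebyshev.psi ((⌊x⌋₊ / a.1 : ℕ) : ℝ)).sum ≤
      Chebyshev.psi x := by
  rw [← sum_Gv _ (jl_pos _ _ _ _ _) ⌊x⌋₊]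
  have h1 := (sum_F_bd hx).1
  have h2 : ∑ d ∈ Ioc 0 ⌊x⌋₊, vonMangoldt d * (Fr LA LB LC LD ccon (⌊x⌋₊ / d) - 1) ≤
      ∑ d ∈ Ioc 0 ⌊x⌋₊, vonMangoldt d * Gv (jl t 645 AllE 0 32) (⌊x⌋₊ / d) := by
    apply Finset.sum_le_sum
    intro d hd
    rw [Finset.mem_Ioc] at hd
    exact mul_le_mul_of_nonneg_left (gok_all h _ (Nat.div_pos hd.2 hd.1)).2 vonMangoldt_nonneg
  have h3 : ∑ d ∈ Ioc 0 ⌊x⌋₊, vonMangoldt d * (Fr LA LB LC LD ccon (⌊x⌋₊ / d) - 1) =
      ∑ d ∈ Ioc 0 ⌊x⌋₊, vonMangoldt d * Fr LA LB LC LD ccon (⌊x⌋₊ / d) - Chebyshev.psi x := by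
    rw [psi_eq, ← Finset.sum_sub_distrib]
    apply Finset.sum_congr rfl
    intro d _
    ring
  linarith

end KB
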