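import Pool.Agent.Helper77.KB.PsiIneq
import Pool.Agent.Helper77.KB.Defs

/-! Bounds for `psi` on dyadic intervals, by recursion. -/

set_option autoImplicit false

open Finset ArithmeticFunction

namespace KB

/-- upper table for all `j`, unit `10^-5` -/
def UV (j : ℕ) : ℕ :=
  if j < 20 then uT j else
  if j < 39 then [1227, 979, 807, 690, 612, 559, 524, 430, 370, 337, 407, 461, 477, 469, 452, 429,
    407, 390, 370].getD (j - 20) 0 else 360

/-- lower table for all `j`, unit `10^-5` -/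
def LV (j : ℕ) : ℕ :=
  if j < 20 then lT j else
  if j < 39 then [1198, 972, 814, 707, 637, 591, 560, 439, 381, 347, 422, 475, 488, 477, 460, 439,
    418, 402, 382].getD (j - 20) 0 else 370

theorem UV_large {j : ℕ} (hj : 39 ≤ j) : UV j = 360 := by
  unfold UV; rw [if_neg (by omega), if_neg (by omega)]

theorem LV_large {j : ℕ} (hj : 39 ≤ j) : LV j = 370 := by
  unfold LV; rw [if_neg (by omega), if_neg (by omega)]

/-- the weights -/
def wu (j e : ℕ) : ℕ := 100000 + max (UV (j - e - 1)) (UV (j - e))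
def wl (j e : ℕ) : ℕ := 100000 - max (LV (j - e - 1)) (LV (j - e))

def psum (ex : List (ℕ × ℕ × ℕ)) (j : ℕ) : ℕ := (ex.map fun a => a.2.1 * wu j a.1).sum
def nsum (ex : List (ℕ × ℕ × ℕ)) (j : ℕ) : ℕ := (ex.map fun a => a.2.2 * wl j a.1).sum

/-- the check for the upper bound (scale `10^17`) -/
def chkU (ex : List (ℕ × ℕ × ℕ)) (j : ℕ) : Bool :=
  decide (100040720000000000 + ((212246 * j - 1196200) * 10 ^ 14 / 2 ^ j + 1) + psum ex j ≤
    100000000000000000 + UV j * 10 ^ 12 + nsum ex j)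

def chkL (ex : List (ℕ × ℕ × ℕ)) (j : ℕ) : Bool :=
  decide (100000000000000000 + ((212246 * j - 1196200) * 10 ^ 14 / 2 ^ j + 1) + psum ex j ≤
    100040670000000000 + LV j * 10 ^ 12 + nsum ex j)

theorem chk1 : ∀ j, j < 27 → 20 ≤ j → chkU exU1 j = true ∧ chkL exL1 j = true := by decide +kernel
theorem chk2 : ∀ j, j < 61 → 27 ≤ j → chkU exU2 j = true ∧ chkL exL2 j = true := by decide +kernel

theorem jl_le (s T2 : ℕ) (es : List ℕ) (y ap : ℕ) :
    ∀ a ∈ jl s T2 es y ap, a.1 ≤ y + tl es + 1 := by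
  induction es generalizing y ap with
  | nil =>
    intro a ha
    simp only [jl, List.mem_singleton] at ha
    subst ha; simp [tl]
  | cons x es ih =>
    intro a ha
    rw [jl, List.mem_cons] at ha
    rw [tl_cons]
    rcases ha with rfl | ha
    · show y + 1 ≤ _
      omega
    · have := ih _ _ a ha
      omega

set_option maxRecDepth 100000 in
theorem tl_AllE : tl AllE = 999999 := by
  unfold AllE
  rw [tl_append, tl_append, tl_append, tl_append, tl_append, tl_append, tl_append, tl_append,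
    l_he0, tl_flatten l_hd0.1, tl_sups l_hd1.1, tl_sups l_hd2.1, tl_sups l_hd3.1, tl_sups l_hd4.1,
    tl_sups l_hd5.1, tl_sups l_hd6.1, tl_sups l_hd7.1, l_hd0.2, l_hd1.2, l_hd2.2, l_hd3.2, l_hd4.2,
    l_hd5.2, l_hd6.2, l_hd7.2]

theorem sum_le_wj (l : List (ℕ × ℝ)) (x : ℝ) (Wp Wn : ℕ → ℝ) (φ : ℕ → ℝ)
    (h : ∀ a ∈ l, φ a.1 ≤ Wp (Nat.log 2 a.1) * (x / a.1) ∧ Wn (Nat.log 2 a.1) * (x / a.1) ≤ φ a.1) :
    (l.map fun a => a.2 * φ a.1).sum ≤ x * wj Wp Wn l := by
  induction l with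
  | nil => simp [wj]
  | cons a l ih =>
    have i1 := ih (fun b hb => h b (List.mem_cons_of_mem _ hb))
    obtain ⟨i2, i3⟩ := h a List.mem_cons_self
    rw [List.map_cons, List.sum_cons, wj_cons]
    have e1 : a.2 = max a.2 0 - max (-a.2) 0 := by
      rcases le_total 0 a.2 with h0 | h0
      · rw [max_eq_left h0, max_eq_right (by linarith)]; ring
      · rw [max_eq_right h0, max_eq_left (by linarith)]; ring
    have e2 := mul_le_mul_of_nonneg_left i2 (le_max_right a.2 0)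
    have e3 := mul_le_mul_of_nonneg_left i3 (le_max_right (-a.2) 0)
    have e4 : a.2 * φ a.1 = max a.2 0 * φ a.1 - max (-a.2) 0 * φ a.1 := by
      rw [← sub_mul, ← e1]
    rw [e4, mul_add]
    have e5 : x * (max a.2 0 / a.1 * Wp (Nat.log 2 a.1) - max (-a.2) 0 / a.1 * Wn (Nat.log 2 a.1)) =
      max a.2 0 * (Wp (Nat.log 2 a.1) * (x / a.1)) - max (-a.2) 0 * (Wn (Nat.log 2 a.1) * (x / a.1)) := by
      ring
    rw [e5]
    linarith

/-- the statement for cell `j` -/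
def Cell (j : ℕ) : Prop := ∀ x : ℝ, (2 : ℝ) ^ j ≤ x → x < 2 ^ (j + 1) →
  (1 - (LV j : ℝ) / 100000) * x ≤ Chebyshev.psi x ∧ Chebyshev.psi x ≤ (1 + (UV j : ℝ) / 100000) * x

theorem cell_div {j m : ℕ} (hj : 20 ≤ j) (IH : ∀ i < j, Cell i) {x : ℝ} (h1 : (2 : ℝ) ^ j ≤ x)
    (h2 : x < 2 ^ (j + 1)) (hm : 2 ≤ m) (hm2 : m < 2 ^ 20) :
    Chebyshev.psi ((⌊x⌋₊ / m : ℕ) : ℝ) ≤ (wu j (Nat.log 2 m) : ℝ) / 100000 * (x / m) ∧
    (wl j (Nat.log 2 m) : ℝ) / 100000 * (x / m) ≤ Chebyshev.psi ((⌊x⌋₊ / m : ℕ) : ℝ) := by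
  have hm0 : (0 : ℝ) < m := by positivity
  rw [← Nat.floor_div_natCast, ← Chebyshev.psi_eq_psi_coe_floor]
  set e := Nat.log 2 m with he
  have g1 : 2 ^ e ≤ m := Nat.pow_log_le_self 2 (by omega)
  have g2 : m < 2 ^ (e + 1) := Nat.lt_pow_succ_log_self (by norm_num) m
  have g3 : e ≤ 19 := by
    have : 2 ^ e < 2 ^ 20 := lt_of_le_of_lt g1 hm2
    have := (Nat.pow_lt_pow_iff_right (by norm_num : 1 < 2)).mp this
    omega
  have g4 : 1 ≤ e := by
    rw [he]
    exact Nat.log_pos (by norm_num) hm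
  obtain ⟨i, hi⟩ : ∃ i, j = i + e + 1 := ⟨j - e - 1, by omega⟩
  have r1 : ((2 : ℝ) ^ e) ≤ m := by exact_mod_cast g1
  have r2 : (m : ℝ) < 2 ^ (e + 1) := by exact_mod_cast g2
  have hx0 : 0 < x := lt_of_lt_of_le (by positivity) h1
  have q1 : (2 : ℝ) ^ i ≤ x / m := by
    rw [le_div_iff₀ hm0]
    calc (2 : ℝ) ^ i * m ≤ 2 ^ i * 2 ^ (e + 1) := mul_le_mul_of_nonneg_left r2.le (by positivity)
      _ = 2 ^ j := by rw [hi]; ring
      _ ≤ x := h1
  have q2 : x / m < (2 : ℝ) ^ (i + 2) := by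
    rw [div_lt_iff₀ hm0]
    calc x < 2 ^ (j + 1) := h2
      _ = 2 ^ (i + 2) * 2 ^ e := by rw [hi]; ring
      _ ≤ 2 ^ (i + 2) * m := mul_le_mul_of_nonneg_left r1 (by positivity)
  have e1 : j - e - 1 = i := by omega
  have e2 : j - e = i + 1 := by omega
  have hz0 : 0 ≤ x / m := by positivity
  have key : ∀ k, (k = i ∨ k = i + 1) → (2 : ℝ) ^ k ≤ x / m → x / m < 2 ^ (k + 1) →
      Chebyshev.psi (x / m) ≤ (wu j e : ℝ) / 100000 * (x / m) ∧
      (wl j e : ℝ) / 100000 * (x / m) ≤ Chebyshev.psi (x / m) := by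
    intro k hk p1 p2
    obtain ⟨c1, c2⟩ := IH k (by omega) _ p1 p2
    have hU : UV k ≤ max (UV i) (UV (i + 1)) := by
      rcases hk with rfl | rfl
      · exact le_max_left _ _
      · exact le_max_right _ _
    have hL : LV k ≤ max (LV i) (LV (i + 1)) := by
      rcases hk with rfl | rfl
      · exact le_max_left _ _
      · exact le_max_right _ _
    constructor
    · refine c2.trans (mul_le_mul_of_nonneg_right ?_ hz0)
      unfold wu
      rw [e1, e2]
      have : (UV k : ℝ) ≤ ((max (UV i) (UV (i + 1)) : ℕ) : ℝ) := by exact_mod_cast hU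
      rw [Nat.cast_add]
      push_cast at this ⊢
      linarith
    · rcases Nat.eq_zero_or_pos (wl j e) with h0 | h0
      · rw [h0]
        simp [Chebyshev.psi_nonneg]
      · refine le_trans (mul_le_mul_of_nonneg_right ?_ hz0) c1
        unfold wl at h0 ⊢
        rw [e1, e2] at h0 ⊢
        have h3 : (100000 - max (LV i) (LV (i + 1))) + LV k ≤ 100000 := by omega
        have h4 : (((100000 - max (LV i) (LV (i + 1)) : ℕ) : ℝ)) + LV k ≤ 100000 := by
          exact_mod_cast h3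
        linarith
  rcases lt_or_ge (x / m) (2 ^ (i + 1)) with hlt | hge
  · exact key i (Or.inl rfl) q1 hlt
  · exact key (i + 1) (Or.inr rfl) hge q2

/-- weights as real functions; the cell `e = 0` contains only `m = 1` -/
noncomputable def Wu (x : ℝ) (j e : ℕ) : ℝ :=
  if e = 0 then Chebyshev.psi x / x else (wu j e : ℝ) / 100000
noncomputable def Wl (x : ℝ) (j e : ℕ) : ℝ :=
  if e = 0 then Chebyshev.psi x / x else (wl j e : ℝ) / 100000

theorem vex_eq {ex : List (ℕ × ℕ × ℕ)} (h0 : ∀ a ∈ ex, a.1 = 0 → a.2.1 = 0 ∧ a.2.2 = 0) (x : ℝ)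
    (j : ℕ) : 10 ^ 5 * vex (Wu x j) (Wl x j) ex = (psum ex j : ℝ) - nsum ex j := by
  induction ex with
  | nil => simp [vex, psum, nsum]
  | cons a ex ih =>
    have i1 := ih (fun b hb => h0 b (List.mem_cons_of_mem _ hb))
    have e1 : vex (Wu x j) (Wl x j) (a :: ex) =
      ((a.2.1 : ℝ) * Wu x j a.1 - (a.2.2 : ℝ) * Wl x j a.1) + vex (Wu x j) (Wl x j) ex := by
      simp [vex]
    have e2 : psum (a :: ex) j = a.2.1 * wu j a.1 + psum ex j := by simp [psum]
    have e3 : nsum (a :: ex) j = a.2.2 * wl j a.1 + nsum ex j := by simp [nsum]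
    rw [e1, mul_add, i1, e2, e3]
    rcases Nat.eq_zero_or_pos a.1 with h | h
    · obtain ⟨p1, p2⟩ := h0 a List.mem_cons_self h
      rw [p1, p2]
      push_cast
      ring
    · unfold Wu Wl
      rw [if_neg (by omega), if_neg (by omega)]
      push_cast
      ring

theorem jsum_bd {s T2 j : ℕ} {ex : List (ℕ × ℕ × ℕ)} (hj : 20 ≤ j) (IH : ∀ i < j, Cell i)
    (hs : scanB s T2 AllE 0 32 0 0 0 ex = true)
    (h0 : ∀ a ∈ ex, a.1 = 0 → a.2.1 = 0 ∧ a.2.2 = 0)
    {x : ℝ} (h1 : (2 : ℝ) ^ j ≤ x) (h2 : x < 2 ^ (j + 1)) :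
    ((jl s T2 AllE 0 32).map fun a => a.2 * Chebyshev.psi ((⌊x⌋₊ / a.1 : ℕ) : ℝ)).sum ≤
      x * (((psum ex j : ℝ) - nsum ex j) / 10 ^ 17) := by
  have hx0 : 0 < x := lt_of_lt_of_le (by positivity) h1
  have hWp : ∀ e, 0 ≤ Wu x j e := by
    intro e; unfold Wu; split_ifs
    · exact div_nonneg (Chebyshev.psi_nonneg x) hx0.le
    · positivity
  have hWn : ∀ e, 0 ≤ Wl x j e := by
    intro e; unfold Wl; split_ifs
    · exact div_nonneg (Chebyshev.psi_nonneg x) hx0.le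
    · positivity
  have k1 := sum_le_wj (jl s T2 AllE 0 32) x (Wu x j) (Wl x j)
    (fun m => Chebyshev.psi ((⌊x⌋₊ / m : ℕ) : ℝ)) (by
      intro a ha
      have ha1 := jl_pos _ _ _ _ _ a ha
      have ha2 := jl_le _ _ _ _ _ a ha
      rw [tl_AllE] at ha2
      rcases Nat.lt_or_ge a.1 2 with hlt | hge
      · have ha3 : a.1 = 1 := by omega
        rw [ha3, Nat.log_one_right]
        unfold Wu Wl
        rw [if_pos rfl, if_pos rfl, Nat.div_one, ← Chebyshev.psi_eq_psi_coe_floor, Nat.cast_one,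
          div_one, div_mul_cancel₀ _ hx0.ne']
        exact ⟨le_refl _, le_refl _⟩
      · have hlog : Nat.log 2 a.1 ≠ 0 := (Nat.log_pos (by norm_num) hge).ne'
        unfold Wu Wl
        rw [if_neg hlog, if_neg hlog]
        exact cell_div hj IH h1 h2 hge (by omega))
  have k2 := scan_sound hWp hWn (s := s) (T2 := T2) (y := 0) (ap := 32) (e := 0) (P := 0) (N := 0)
    (by norm_num) hs
  have k3 := vex_eq h0 x j
  refine k1.trans (mul_le_mul_of_nonneg_left ?_ hx0.le)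
  rw [le_div_iff₀ (by norm_num)]
  push_cast at k2
  rw [← k3]
  linarith

theorem st_bd {i : ℕ} (hi : 20 ≤ i) {x : ℝ} (hx : (2 : ℝ) ^ i ≤ x) :
    306.206 * Real.log x - 1196.2 ≤
      x * ((((212246 * i - 1196200) * 10 ^ 14 / 2 ^ i + 1 : ℕ) : ℝ) / 10 ^ 17) := by
  have h2 : (0 : ℝ) < 2 ^ i := by positivity
  have hx0 : 0 < x := lt_of_lt_of_le h2 hx
  set y := x / 2 ^ i with hy
  have hy1 : 1 ≤ y := by rw [hy, le_div_iff₀ h2]; linarith
  have hxy : x = 2 ^ i * y := by rw [hy]; field_simp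
  have hlog : Real.log x ≤ i * 0.6931471808 + (y - 1) := by
    rw [hxy, Real.log_mul (by positivity) (by positivity), Real.log_pow]
    have l1 := Real.log_le_sub_one_of_pos (show 0 < y by linarith)
    have l2 := Real.log_two_lt_d9
    have : (i : ℝ) * Real.log 2 ≤ i * 0.6931471808 := mul_le_mul_of_nonneg_left l2.le (by positivity)
    linarith
  have hi' : (20 : ℝ) ≤ i := by exact_mod_cast hi
  have hdiv : ((212246 * i - 1196200 : ℕ) : ℝ) * 10 ^ 14 / 2 ^ i ≤
      (((212246 * i - 1196200) * 10 ^ 14 / 2 ^ i + 1 : ℕ) : ℝ) := by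
    have h3 := (Nat.lt_mul_div_succ ((212246 * i - 1196200) * 10 ^ 14) (show 0 < 2 ^ i by positivity)).le
    rw [div_le_iff₀ h2]
    have h4 : (((212246 * i - 1196200) * 10 ^ 14 : ℕ) : ℝ) ≤
      ((2 ^ i * ((212246 * i - 1196200) * 10 ^ 14 / 2 ^ i + 1) : ℕ) : ℝ) := by exact_mod_cast h3
    rw [Nat.cast_mul, Nat.cast_mul, Nat.cast_pow, Nat.cast_pow, Nat.cast_ofNat, Nat.cast_ofNat,
      mul_comm ((2 : ℝ) ^ i)] at h4
    exact h4
  have hcast : ((212246 * i - 1196200 : ℕ) : ℝ) = 212246 * i - 1196200 := by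
    rw [Nat.cast_sub (by omega)]; push_cast; ring
  rw [hcast] at hdiv
  have h5 : y * (212.246 * i - 1196.2) ≤
      x * ((((212246 * i - 1196200) * 10 ^ 14 / 2 ^ i + 1 : ℕ) : ℝ) / 10 ^ 17) := by
    have : y * (212.246 * i - 1196.2) = x * (((212246 * i - 1196200) * 10 ^ 14 / 2 ^ i) / 10 ^ 17) := by
      rw [hxy]; field_simp; ring
    rw [this]
    apply mul_le_mul_of_nonneg_left _ hx0.le
    exact (div_le_div_iff_of_pos_right (by norm_num)).mpr hdiv
  refine le_trans ?_ h5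
  nlinarith [mul_nonneg (sub_nonneg.mpr hy1) (sub_nonneg.mpr hi')]

theorem cell_step {i j s t : ℕ} {exU exL : List (ℕ × ℕ × ℕ)} (hi : 20 ≤ i) (hij : i ≤ j)
    (IH : ∀ i < j, Cell i)
    (hg : gok s t AllE 0 = true) (hsU : scanB s 644 AllE 0 32 0 0 0 exU = true)
    (hsL : scanB t 645 AllE 0 32 0 0 0 exL = true)
    (h0U : ∀ a ∈ exU, a.1 = 0 → a.2.1 = 0 ∧ a.2.2 = 0)
    (h0L : ∀ a ∈ exL, a.1 = 0 → a.2.1 = 0 ∧ a.2.2 = 0)
    (hU : chkU exU i = true) (hL : chkL exL i = true)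
    (eU : psum exU i = psum exU j ∧ nsum exU i = nsum exU j ∧ UV i = UV j)
    (eL : psum exL i = psum exL j ∧ nsum exL i = nsum exL j ∧ LV i = LV j) : Cell j := by
  intro x h1 h2
  have hx0 : 0 < x := lt_of_lt_of_le (by positivity) h1
  have h1i : (2 : ℝ) ^ i ≤ x := (pow_le_pow_right₀ (by norm_num) hij).trans h1
  have hx : 1000 ≤ x := by
    have : (2 : ℝ) ^ 20 ≤ 2 ^ i := pow_le_pow_right₀ (by norm_num) hi
    norm_num at this
    linarith
  have st := st_bd hi h1i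
  have b1 := psi_up hg hx
  have b2 := psi_low hg hx
  have b3 := jsum_bd (by omega) IH hsU h0U h1 h2
  have b4 := jsum_bd (by omega) IH hsL h0L h1 h2
  unfold chkU at hU
  unfold chkL at hL
  have hU' := of_decide_eq_true hU
  have hL' := of_decide_eq_true hL
  rw [eU.1, eU.2.1, eU.2.2] at hU'
  rw [eL.1, eL.2.1, eL.2.2] at hL'
  set q := (212246 * i - 1196200) * 10 ^ 14 / 2 ^ i + 1 with hq
  have cU : (100040720000000000 : ℝ) + q + psum exU j ≤ 100000000000000000 + UV j * 10 ^ 12 + nsum exU j := by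
    exact_mod_cast hU'
  have cL : (100000000000000000 : ℝ) + q + psum exL j ≤ 100040670000000000 + LV j * 10 ^ 12 + nsum exL j := by
    exact_mod_cast hL'
  constructor
  · have : (1 - (LV j : ℝ) / 100000) * x ≤ x * (1.0004067 - q / 10 ^ 17 - (psum exL j - nsum exL j) / 10 ^ 17) := by
      rw [mul_comm]
      apply mul_le_mul_of_nonneg_left _ hx0.le
      have h5 : (1.0004067 : ℝ) - q / 10 ^ 17 - (psum exL j - nsum exL j) / 10 ^ 17 - (1 - (LV j : ℝ) / 100000) =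
        ((100040670000000000 + LV j * 10 ^ 12 + nsum exL j) - (100000000000000000 + q + psum exL j)) / 10 ^ 17 := by
        ring
      have h6 : (0 : ℝ) ≤ ((100040670000000000 + LV j * 10 ^ 12 + nsum exL j) - (100000000000000000 + q + psum exL j)) / 10 ^ 17 :=
        div_nonneg (by linarith) (by norm_num)
      linarith
    linarith
  · have : x * (1.0004072 + q / 10 ^ 17 + (psum exU j - nsum exU j) / 10 ^ 17) ≤ (1 + (UV j : ℝ) / 100000) * x := by
      rw [mul_comm (1 + (UV j : ℝ) / 100000)]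
      apply mul_le_mul_of_nonneg_left _ hx0.le
      have h5 : (1 + (UV j : ℝ) / 100000) - ((1.0004072 : ℝ) + q / 10 ^ 17 + (psum exU j - nsum exU j) / 10 ^ 17) =
        ((100000000000000000 + UV j * 10 ^ 12 + nsum exU j) - (100040720000000000 + q + psum exU j)) / 10 ^ 17 := by
        ring
      have h6 : (0 : ℝ) ≤ ((100000000000000000 + UV j * 10 ^ 12 + nsum exU j) - (100040720000000000 + q + psum exU j)) / 10 ^ 17 :=
        div_nonneg (by linarith) (by norm_num)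
      linarith
    linarith

theorem wu_large {j e : ℕ} (hj : 60 ≤ j) (he : e ≤ 19) : wu j e = 100360 := by
  unfold wu
  rw [UV_large (by omega), UV_large (by omega)]
  rfl

theorem wl_large {j e : ℕ} (hj : 60 ≤ j) (he : e ≤ 19) : wl j e = 99630 := by
  unfold wl
  rw [LV_large (by omega), LV_large (by omega)]
  rfl

theorem psum_large {ex : List (ℕ × ℕ × ℕ)} (he : ∀ a ∈ ex, a.1 ≤ 19) {j : ℕ} (hj : 60 ≤ j) :
    psum ex 60 = psum ex j ∧ nsum ex 60 = nsum ex j := by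
  unfold psum nsum
  constructor
  · congr 1
    apply List.map_congr_left
    intro a ha
    rw [wu_large (le_refl _) (he a ha), wu_large hj (he a ha)]
  · congr 1
    apply List.map_congr_left
    intro a ha
    rw [wl_large (le_refl _) (he a ha), wl_large hj (he a ha)]

theorem ex0 : (∀ a ∈ exU1, a.1 = 0 → a.2.1 = 0 ∧ a.2.2 = 0) ∧ (∀ a ∈ exL1, a.1 = 0 → a.2.1 = 0 ∧ a.2.2 = 0) ∧
    (∀ a ∈ exU2, a.1 = 0 → a.2.1 = 0 ∧ a.2.2 = 0) ∧ (∀ a ∈ exL2, a.1 = 0 → a.2.1 = 0 ∧ a.2.2 = 0) := by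
  decide

theorem ex19 : (∀ a ∈ exU2, a.1 ≤ 19) ∧ (∀ a ∈ exL2, a.1 ≤ 19) := by decide

theorem all_cells (hnum : ∀ j < 20, Cell j) (j : ℕ) : Cell j := by
  induction j using Nat.strong_induction_on with
  | _ j IH =>
    rcases Nat.lt_or_ge j 20 with h1 | h1
    · exact hnum j h1
    rcases Nat.lt_or_ge j 27 with h2 | h2
    · obtain ⟨c1, c2⟩ := chk1 j h2 h1
      exact cell_step h1 le_rfl IH gk1 sU1 sL1 ex0.1 ex0.2.1 c1 c2 ⟨rfl, rfl, rfl⟩ ⟨rfl, rfl, rfl⟩
    rcases Nat.lt_or_ge j 61 with h3 | h3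
    · obtain ⟨c1, c2⟩ := chk2 j h3 h2
      exact cell_step h1 le_rfl IH gk2 sU2 sL2 ex0.2.2.1 ex0.2.2.2 c1 c2 ⟨rfl, rfl, rfl⟩
        ⟨rfl, rfl, rfl⟩
    · obtain ⟨c1, c2⟩ := chk2 60 (by norm_num) (by norm_num)
      obtain ⟨p1, p2⟩ := psum_large ex19.1 (show 60 ≤ j by omega)
      obtain ⟨p3, p4⟩ := psum_large ex19.2 (show 60 ≤ j by omega)
      exact cell_step (i := 60) (by norm_num) (by omega) IH gk2 sU2 sL2 ex0.2.2.1 ex0.2.2.2 c1 c2
        ⟨p1, p2, by rw [UV_large (by norm_num), UV_large (by omega)]⟩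
        ⟨p3, p4, by rw [LV_large (by norm_num), LV_large (by omega)]⟩

end KB
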