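import Pool.Agent.Helper77.KB.Defs

set_option autoImplicit false

open Finset

namespace KB

namespace Saw

lemma fract_add_le {x t : ℝ} (ht : 0 ≤ t) : Int.fract (x + t) ≤ Int.fract x + t := by
  have h : (⌊x⌋ : ℝ) ≤ (⌊x + t⌋ : ℝ) := by exact_mod_cast Int.floor_mono (by linarith)
  have h1 := Int.self_sub_floor x
  have h2 := Int.self_sub_floor (x + t)
  linarith

lemma fract_sub_ge {x t : ℝ} (ht : 0 ≤ t) : Int.fract x - t ≤ Int.fract (x - t) := by
  have h : (⌊x - t⌋ : ℝ) ≤ (⌊x⌋ : ℝ) := by exact_mod_cast Int.floor_mono (by linarith)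
  have h1 := Int.self_sub_floor x
  have h2 := Int.self_sub_floor (x - t)
  linarith

/-- Residues of an arithmetic progression with coprime difference. -/
lemma sum_emod (m a : ℤ) (q : ℕ) (hq : 0 < q) (hco : IsCoprime a (q : ℤ)) :
    ∑ j ∈ range q, (((m + j * a) % (q : ℤ) : ℤ) : ℝ) = (q : ℝ) * (q - 1) / 2 := by
  classical
  have hq' : (0 : ℤ) < (q : ℤ) := by exact_mod_cast hq
  set φ : ℕ → ℕ := fun j => ((m + j * a) % (q : ℤ)).toNat with hφ
  have hφ1 : ∀ j, ((φ j : ℕ) : ℤ) = (m + j * a) % (q : ℤ) := fun j =>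
    Int.toNat_of_nonneg (Int.emod_nonneg _ hq'.ne')
  have hmem : ∀ j ∈ range q, φ j ∈ range q := by
    intro j _
    rw [mem_range]
    have h1 := Int.emod_lt_of_pos (m + j * a) hq'
    rw [← hφ1] at h1
    exact_mod_cast h1
  have hinj : Set.InjOn φ (range q) := by
    intro j hj j' hj' h
    have h1 : (m + j * a) % (q : ℤ) = (m + j' * a) % (q : ℤ) := by
      rw [← hφ1, ← hφ1, h]
    have h2 : (q : ℤ) ∣ (m + j' * a) - (m + j * a) := Int.ModEq.dvd
      (show (m + (j : ℤ) * a) ≡ (m + (j' : ℤ) * a) [ZMOD (q : ℤ)] from h1)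
    have h3 : (q : ℤ) ∣ ((j' : ℤ) - j) * a := by
      have : (m + (j' : ℤ) * a) - (m + j * a) = ((j' : ℤ) - j) * a := by ring
      rwa [this] at h2
    have h4 : (q : ℤ) ∣ (j' : ℤ) - j := hco.symm.dvd_of_dvd_mul_right h3
    rw [coe_range, Set.mem_Iio] at hj hj'
    by_contra hne
    have h5 : ((j' : ℤ) - j) ≠ 0 := by
      intro h0
      apply hne
      omega
    have h6 := Int.le_of_dvd (abs_pos.2 h5) ((dvd_abs _ _).2 h4)
    rw [le_abs] at h6
    omega
  have himg : (range q).image φ = range q := by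
    apply Finset.eq_of_subset_of_card_le
    · intro x hx
      obtain ⟨j, hj, rfl⟩ := mem_image.1 hx
      exact hmem j hj
    · rw [card_image_of_injOn hinj]
  have h1 : ∑ j ∈ range q, (((m + j * a) % (q : ℤ) : ℤ) : ℝ) = ∑ j ∈ range q, ((φ j : ℕ) : ℝ) := by
    refine sum_congr rfl fun j _ => ?_
    rw [← hφ1]
    push_cast
    rfl
  rw [h1, ← sum_image (f := fun i : ℕ => (i : ℝ)) hinj, himg]
  have h2 : (∑ i ∈ range q, (i : ℝ)) * 2 = (q : ℝ) * (q - 1) := by
    have := Finset.sum_range_id_mul_two q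
    have h3 : (((∑ i ∈ range q, i) * 2 : ℕ) : ℝ) = ((q * (q - 1) : ℕ) : ℝ) := by rw [this]
    push_cast [Nat.cast_sub hq] at h3
    exact h3
  linarith

/-- Hermite's identity along an arithmetic progression. -/
lemma sum_fract (β : ℝ) (a : ℤ) (q : ℕ) (hq : 0 < q) (hco : IsCoprime a (q : ℤ)) :
    ∑ j ∈ range q, Int.fract (β + j * (a / q)) = ((q : ℝ) - 1) / 2 + Int.fract (q * β) := by
  have hq0 : (0 : ℝ) < q := by exact_mod_cast hq
  have hq' : (0 : ℤ) < (q : ℤ) := by exact_mod_cast hq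
  set m := ⌊(q : ℝ) * β⌋ with hm
  set r := Int.fract ((q : ℝ) * β) with hr
  have hr0 : 0 ≤ r := Int.fract_nonneg _
  have hr1 : r < 1 := Int.fract_lt_one _
  have hmr : (q : ℝ) * β = m + r := (Int.floor_add_fract _).symm
  have hterm : ∀ j ∈ range q, Int.fract (β + j * (a / q))
      = ((((m + j * a) % (q : ℤ) : ℤ) : ℝ) + r) / q := by
    intro j _
    have h1 : β + j * (a / q) = ((m + j * a : ℤ) + r) / q := by
      push_cast
      field_simp
      linarith
    have h2 : ((m + j * a : ℤ) : ℝ) = (((m + j * a) % (q : ℤ) : ℤ) : ℝ)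
        + (q : ℝ) * (((m + j * a) / (q : ℤ) : ℤ) : ℝ) := by
      have := Int.emod_add_mul_ediv (m + j * a) (q : ℤ)
      exact_mod_cast this.symm
    set v := (m + j * a) % (q : ℤ) with hv
    have hv0 : 0 ≤ v := Int.emod_nonneg _ hq'.ne'
    have hv1 : v < q := Int.emod_lt_of_pos _ hq'
    have hv0' : (0 : ℝ) ≤ v := by exact_mod_cast hv0
    have hv1' : (v : ℝ) + 1 ≤ q := by exact_mod_cast hv1
    rw [Int.fract_eq_iff]
    refine ⟨by positivity, ?_, ⟨(m + j * a) / (q : ℤ), ?_⟩⟩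
    · rw [div_lt_one hq0]
      linarith
    · rw [h1, h2]
      field_simp
      ring
  rw [sum_congr rfl hterm, ← sum_div, sum_add_distrib, sum_emod m a q hq hco]
  simp only [sum_const, card_range, nsmul_eq_mul]
  field_simp

section Main

variable (f : ℕ → ℝ) (A N Q : ℕ) (lam Lam : ℝ)

/-- First differences. -/
def th (k : ℕ) : ℝ := f (k + 1) - f k

variable {f A N Q lam Lam}

lemma th_diff (h1 : ∀ k, A ≤ k → k < A + N → lam ≤ f (k + 2) - 2 * f (k + 1) + f k)
    (h2 : ∀ k, A ≤ k → k < A + N → f (k + 2) - 2 * f (k + 1) + f k ≤ Lam) (k : ℕ) (hk : A ≤ k) :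
    ∀ j : ℕ, k + j ≤ A + N → lam * j ≤ th f (k + j) - th f k ∧ th f (k + j) - th f k ≤ Lam * j := by
  intro j
  induction j with
  | zero => intro _; simp
  | succ j ih =>
    intro hj
    obtain ⟨a1, a2⟩ := ih (by omega)
    have b1 := h1 (k + j) (by omega) (by omega)
    have b2 := h2 (k + j) (by omega) (by omega)
    have e : th f (k + (j + 1)) - th f (k + j) = f (k + j + 2) - 2 * f (k + j + 1) + f (k + j) := by
      unfold th
      rw [show k + (j + 1) + 1 = k + j + 2 by ring, show k + (j + 1) = k + j + 1 by ring]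
      ring
    push_cast
    constructor
    · nlinarith [e]
    · nlinarith [e]

lemma f_expand (hlam : 0 < lam)
    (h1 : ∀ k, A ≤ k → k < A + N → lam ≤ f (k + 2) - 2 * f (k + 1) + f k)
    (h2 : ∀ k, A ≤ k → k < A + N → f (k + 2) - 2 * f (k + 1) + f k ≤ Lam) (s : ℕ) (hs : A ≤ s) :
    ∀ j : ℕ, s + j ≤ A + N + 1 → 0 ≤ f (s + j) - f s - j * th f s ∧
      f (s + j) - f s - j * th f s ≤ Lam * ((j : ℝ) * ((j : ℝ) - 1) / 2) := by
  intro j
  induction j with
  | zero => intro _; simp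
  | succ j ih =>
    intro hj
    obtain ⟨a1, a2⟩ := ih (by omega)
    obtain ⟨b1, b2⟩ := th_diff h1 h2 s hs j (by omega)
    have e : f (s + (j + 1)) = f (s + j) + th f (s + j) := by
      unfold th
      rw [show s + (j + 1) = s + j + 1 by ring]
      ring
    have hj0 : (0 : ℝ) ≤ j := Nat.cast_nonneg _
    have hlj : 0 ≤ lam * j := mul_nonneg hlam.le hj0
    push_cast
    rw [e]
    constructor
    · nlinarith
    · nlinarith

/-- The bound for a complete run. -/
noncomputable def cc (Q : ℕ) (Lam : ℝ) (q : ℕ) : ℝ := 1 / 2 + 2 * q / (Q + 1) + Lam * (q : ℝ) ^ 3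

lemma run_bound (hlam : 0 < lam) (hLam : 0 ≤ Lam)
    (h1 : ∀ k, A ≤ k → k < A + N → lam ≤ f (k + 2) - 2 * f (k + 1) + f k)
    (h2 : ∀ k, A ≤ k → k < A + N → f (k + 2) - 2 * f (k + 1) + f k ≤ Lam) (s : ℕ) (hs : A ≤ s)
    (a : ℤ) (q : ℕ) (hq : 0 < q) (hco : IsCoprime a (q : ℤ)) (hsq : s + q ≤ A + N)
    (happ : |th f s - a / q| ≤ 1 / ((Q + 1) * q)) :
    |∑ k ∈ Ico s (s + q), (Int.fract (f k) - 1 / 2)| ≤ cc Q Lam q := by
  have hq0 : (0 : ℝ) < q := by exact_mod_cast hq
  have hQ0 : (0 : ℝ) < (Q : ℝ) + 1 := by positivity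
  set η : ℝ := 1 / (Q + 1) + Lam * (q : ℝ) ^ 2 / 2 with hη
  have hη0 : 0 ≤ η := by positivity
  have herr : ∀ j ∈ range q, |f (s + j) - (f s + j * (a / q))| ≤ η := by
    intro j hj
    rw [mem_range] at hj
    have hjq : (j : ℝ) ≤ q := by exact_mod_cast hj.le
    have hj0 : (0 : ℝ) ≤ j := Nat.cast_nonneg _
    obtain ⟨c1, c2⟩ := f_expand hlam h1 h2 s hs j (by omega)
    have hd : |(j : ℝ) * (th f s - a / q)| ≤ 1 / (Q + 1) := by
      rw [abs_mul, abs_of_nonneg hj0]
      calc (j : ℝ) * |th f s - a / q| ≤ (q : ℝ) * (1 / ((Q + 1) * q)) :=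
            mul_le_mul hjq happ (abs_nonneg _) hq0.le
        _ = 1 / (Q + 1) := by field_simp
    have hsq2 : Lam * ((j : ℝ) * ((j : ℝ) - 1) / 2) ≤ Lam * (q : ℝ) ^ 2 / 2 := by
      have : (j : ℝ) * ((j : ℝ) - 1) ≤ (q : ℝ) ^ 2 := by nlinarith
      nlinarith
    rw [abs_le] at hd ⊢
    have e : f (s + j) - (f s + j * (a / q))
        = (f (s + j) - f s - j * th f s) + (j : ℝ) * (th f s - a / q) := by ring
    rw [e, hη]
    constructor
    · have : 0 ≤ Lam * (q : ℝ) ^ 2 / 2 := by positivity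
      linarith [hd.1]
    · linarith [hd.2]
  have hsum : ∑ k ∈ Ico s (s + q), (Int.fract (f k) - 1 / 2)
      = (∑ j ∈ range q, Int.fract (f (s + j))) - q / 2 := by
    rw [Finset.sum_Ico_eq_sum_range, sum_sub_distrib]
    simp
    ring
  have hup : ∑ j ∈ range q, Int.fract (f (s + j)) ≤
      ∑ j ∈ range q, (Int.fract ((f s - η) + j * (a / q)) + 2 * η) := by
    refine sum_le_sum fun j hj => ?_
    have h3 := herr j hj
    rw [abs_le] at h3
    have h4 : f (s + j) = ((f s - η) + j * (a / q)) + (f (s + j) - (f s + j * (a / q)) + η) := by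
      ring
    calc Int.fract (f (s + j))
        = Int.fract (((f s - η) + j * (a / q)) + (f (s + j) - (f s + j * (a / q)) + η)) := by
          rw [← h4]
      _ ≤ Int.fract ((f s - η) + j * (a / q)) + (f (s + j) - (f s + j * (a / q)) + η) :=
          fract_add_le (by linarith)
      _ ≤ _ := by linarith
  have hlow : ∑ j ∈ range q, (Int.fract ((f s + η) + j * (a / q)) - 2 * η) ≤
      ∑ j ∈ range q, Int.fract (f (s + j)) := by
    refine sum_le_sum fun j hj => ?_
    have h3 := herr j hj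
    rw [abs_le] at h3
    have h4 : f (s + j) = ((f s + η) + j * (a / q)) - (η - (f (s + j) - (f s + j * (a / q)))) := by
      ring
    calc Int.fract ((f s + η) + j * (a / q)) - 2 * η
        ≤ Int.fract ((f s + η) + j * (a / q)) - (η - (f (s + j) - (f s + j * (a / q)))) := by
          linarith
      _ ≤ Int.fract (((f s + η) + j * (a / q)) - (η - (f (s + j) - (f s + j * (a / q))))) :=
          fract_sub_ge (by linarith)
      _ = Int.fract (f (s + j)) := by rw [← h4]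
  rw [sum_add_distrib, sum_fract _ a q hq hco] at hup
  rw [sum_sub_distrib, sum_fract _ a q hq hco] at hlow
  simp only [sum_const, card_range, nsmul_eq_mul] at hup hlow
  have hf1 := Int.fract_lt_one ((q : ℝ) * (f s - η))
  have hf2 := Int.fract_nonneg ((q : ℝ) * (f s + η))
  have hcc : cc Q Lam q = 1 / 2 + q * (2 * η) := by
    unfold cc
    rw [hη]
    ring
  rw [hsum, hcc, abs_le]
  constructor <;> linarith

open Classical in
/-- The majorant. -/
noncomputable def Phi (f : ℕ → ℝ) (Q : ℕ) (Lam τ : ℝ) (k : ℕ) : ℝ :=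
  ∑ q ∈ Icc 1 Q, if (∃ a : ℤ, |(q : ℝ) * th f k - a| ≤ τ) then cc Q Lam q / q else 0

lemma cc_nonneg (hLam : 0 ≤ Lam) (q : ℕ) : 0 ≤ cc Q Lam q := by
  unfold cc; positivity

lemma Phi_nonneg (hLam : 0 ≤ Lam) (τ : ℝ) (k : ℕ) : 0 ≤ Phi f Q Lam τ k := by
  classical
  unfold Phi
  refine sum_nonneg fun q _ => ?_
  split_ifs
  · exact div_nonneg (cc_nonneg hLam q) (Nat.cast_nonneg _)
  · exact le_rfl

lemma triv_bound (s t : ℕ) :
    |∑ k ∈ Ico s t, (Int.fract (f k) - 1 / 2)| ≤ ((t - s : ℕ) : ℝ) / 2 := by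
  calc |∑ k ∈ Ico s t, (Int.fract (f k) - 1 / 2)| ≤ ∑ k ∈ Ico s t, |Int.fract (f k) - 1 / 2| :=
        abs_sum_le_sum_abs _ _
    _ ≤ ∑ k ∈ Ico s t, (1 / 2 : ℝ) := by
        refine sum_le_sum fun k _ => ?_
        have h1 := Int.fract_nonneg (f k)
        have h2 := Int.fract_lt_one (f k)
        rw [abs_le]
        constructor <;> linarith
    _ = ((t - s : ℕ) : ℝ) / 2 := by
        rw [sum_const, Nat.card_Ico, nsmul_eq_mul]
        ring

lemma main_ind (hQ : 0 < Q) (hlam : 0 < lam) (hLam : 0 ≤ Lam)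
    (h1 : ∀ k, A ≤ k → k < A + N → lam ≤ f (k + 2) - 2 * f (k + 1) + f k)
    (h2 : ∀ k, A ≤ k → k < A + N → f (k + 2) - 2 * f (k + 1) + f k ≤ Lam) :
    ∀ (L s : ℕ), A + N - s = L → A ≤ s → s ≤ A + N →
      |∑ k ∈ Ico s (A + N), (Int.fract (f k) - 1 / 2)| ≤
        (∑ k ∈ Ico s (A + N), Phi f Q Lam (1 / (Q + 1) + Lam * (Q : ℝ) ^ 2) k) + Q / 2 := by
  classical
  intro L
  induction L using Nat.strong_induction_on with
  | _ L ih =>
    intro s hL hs hsN
    obtain ⟨x, hx1, hx2⟩ := Real.exists_rat_abs_sub_le_and_den_le (th f s) hQ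
    set q := x.den with hqdef
    set a := x.num with hadef
    have hq : 0 < q := x.den_pos
    have hq0 : (0 : ℝ) < q := by exact_mod_cast hq
    have hxq : (x : ℝ) = a / q := by
      rw [hadef, hqdef]
      exact_mod_cast (Rat.num_div_den x).symm
    have hco : IsCoprime a (q : ℤ) := by
      rw [hadef, hqdef]
      exact Int.isCoprime_iff_gcd_eq_one.2 (by
        have := x.reduced
        simpa [Int.gcd, Nat.Coprime] using this)
    rw [hxq] at hx1
    by_cases hc : s + q ≤ A + N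
    · -- complete run
      have hrun := run_bound (Q := Q) hlam hLam h1 h2 s hs a q hq hco hc (by
        simpa using hx1)
      have hrest := ih (A + N - (s + q)) (by omega) (s + q) rfl (by omega) hc
      have hsplit : ∀ g : ℕ → ℝ, ∑ k ∈ Ico s (A + N), g k
          = ∑ k ∈ Ico s (s + q), g k + ∑ k ∈ Ico (s + q) (A + N), g k := fun g =>
        (sum_Ico_consecutive g (by omega) hc).symm
      have hPhi : cc Q Lam q ≤ ∑ k ∈ Ico s (s + q), Phi f Q Lam (1 / (Q + 1) + Lam * (Q : ℝ) ^ 2) k := by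
        have hterm : ∀ k ∈ Ico s (s + q),
            cc Q Lam q / q ≤ Phi f Q Lam (1 / (Q + 1) + Lam * (Q : ℝ) ^ 2) k := by
          intro k hk
          rw [mem_Ico] at hk
          have hex : ∃ a : ℤ, |(q : ℝ) * th f k - a| ≤ 1 / (Q + 1) + Lam * (Q : ℝ) ^ 2 := by
            refine ⟨a, ?_⟩
            obtain ⟨j, rfl⟩ := Nat.exists_eq_add_of_le hk.1
            obtain ⟨b1, b2⟩ := th_diff h1 h2 s hs j (by omega)
            have hj0 : (0 : ℝ) ≤ j := Nat.cast_nonneg _
            have hjQ : (j : ℝ) ≤ Q := by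
              have : j < q := by omega
              exact_mod_cast (le_of_lt this).trans hx2
            have hqQ : (q : ℝ) ≤ Q := by exact_mod_cast hx2
            have e : (q : ℝ) * th f (s + j) - a
                = (q : ℝ) * (th f s - a / q) + (q : ℝ) * (th f (s + j) - th f s) := by
              field_simp
              ring
            rw [e]
            refine (abs_add_le _ _).trans (add_le_add ?_ ?_)
            · rw [abs_mul, abs_of_pos hq0]
              calc (q : ℝ) * |th f s - a / q| ≤ (q : ℝ) * (1 / ((Q + 1) * q)) :=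
                    mul_le_mul_of_nonneg_left (by simpa using hx1) hq0.le
                _ = 1 / (Q + 1) := by field_simp
            · rw [abs_of_nonneg (mul_nonneg hq0.le (by
                have := mul_nonneg hlam.le hj0
                linarith))]
              calc (q : ℝ) * (th f (s + j) - th f s) ≤ (Q : ℝ) * (Lam * Q) := by
                    refine mul_le_mul hqQ (b2.trans ?_) ?_ (Nat.cast_nonneg _)
                    · exact mul_le_mul_of_nonneg_left hjQ hLam
                    · have := mul_nonneg hlam.le hj0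
                      linarith
                _ = Lam * (Q : ℝ) ^ 2 := by ring
          unfold Phi
          have hqmem : q ∈ Icc 1 Q := mem_Icc.2 ⟨hq, hx2⟩
          calc cc Q Lam q / q = (if (∃ a : ℤ, |(q : ℝ) * th f k - a| ≤ 1 / (Q + 1) + Lam * (Q : ℝ) ^ 2)
                then cc Q Lam q / q else 0) := by rw [if_pos hex]
            _ ≤ _ := by
              refine single_le_sum (f := fun q : ℕ => (if (∃ a : ℤ, |(q : ℝ) * th f k - a| ≤
                1 / (Q + 1) + Lam * (Q : ℝ) ^ 2) then cc Q Lam q / q else 0)) ?_ hqmem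
              intro i _
              split_ifs
              · exact div_nonneg (cc_nonneg hLam i) (Nat.cast_nonneg _)
              · exact le_rfl
        calc cc Q Lam q = ∑ k ∈ Ico s (s + q), cc Q Lam q / q := by
              rw [sum_const, Nat.card_Ico, nsmul_eq_mul, Nat.add_sub_cancel_left]
              field_simp
          _ ≤ _ := sum_le_sum hterm
      rw [hsplit, hsplit]
      refine (abs_add_le _ _).trans ?_
      linarith
    · -- incomplete run
      have ht := triv_bound (f := f) s (A + N)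
      have hlen : ((A + N - s : ℕ) : ℝ) ≤ Q := by
        have : A + N - s ≤ Q := by omega
        exact_mod_cast this
      have hP : 0 ≤ ∑ k ∈ Ico s (A + N), Phi f Q Lam (1 / (Q + 1) + Lam * (Q : ℝ) ^ 2) k :=
        sum_nonneg fun k _ => Phi_nonneg hLam _ k
      linarith

/-- Number of `k` with `q th k` near one given integer. -/
lemma count_one (hlam : 0 < lam)
    (h1 : ∀ k, A ≤ k → k < A + N → lam ≤ f (k + 2) - 2 * f (k + 1) + f k)
    (h2 : ∀ k, A ≤ k → k < A + N → f (k + 2) - 2 * f (k + 1) + f k ≤ Lam) (q : ℕ) (hq : 0 < q)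
    (τ : ℝ) (hτ : 0 ≤ τ) (a : ℤ) (T : Finset ℕ) (hT : ∀ k ∈ T, k ∈ Ico A (A + N) ∧
      |(q : ℝ) * th f k - a| ≤ τ) : (T.card : ℝ) ≤ 2 * τ / (q * lam) + 1 := by
  have hq0 : (0 : ℝ) < q := by exact_mod_cast hq
  have hql : 0 < (q : ℝ) * lam := mul_pos hq0 hlam
  rcases T.eq_empty_or_nonempty with rfl | hne
  · simp
    positivity
  · set k0 := T.min' hne with hk0
    set k1 := T.max' hne with hk1
    have hm0 := hT k0 (T.min'_mem hne)
    have hm1 := hT k1 (T.max'_mem hne)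
    have hle : k0 ≤ k1 := T.min'_le k1 (T.max'_mem hne)
    obtain ⟨j, hj⟩ := Nat.exists_eq_add_of_le hle
    rw [mem_Ico] at hm0 hm1
    obtain ⟨b1, -⟩ := th_diff h1 h2 k0 hm0.1.1 j (by omega)
    rw [← hj] at b1
    have h3 : (q : ℝ) * (lam * j) ≤ 2 * τ := by
      have h4 := abs_le.1 hm0.2
      have h5 := abs_le.1 hm1.2
      have h6 : (q : ℝ) * (lam * j) ≤ (q : ℝ) * (th f k1 - th f k0) :=
        mul_le_mul_of_nonneg_left b1 hq0.le
      linarith [h4.1, h5.2]
    have h4 : (j : ℝ) ≤ 2 * τ / (q * lam) := by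
      rw [le_div_iff₀ hql]
      linarith
    have h5 : T ⊆ Icc k0 k1 := by
      intro k hk
      exact mem_Icc.2 ⟨T.min'_le k hk, T.le_max' k hk⟩
    have h6 := card_le_card h5
    rw [Nat.card_Icc] at h6
    have h7 : T.card ≤ j + 1 := by omega
    have h8 : (T.card : ℝ) ≤ (j : ℝ) + 1 := by exact_mod_cast h7
    linarith

open Classical in
lemma count_all (hlam : 0 < lam) (hLam : 0 ≤ Lam) (hN : 0 < N)
    (h1 : ∀ k, A ≤ k → k < A + N → lam ≤ f (k + 2) - 2 * f (k + 1) + f k)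
    (h2 : ∀ k, A ≤ k → k < A + N → f (k + 2) - 2 * f (k + 1) + f k ≤ Lam) (q : ℕ) (hq : 0 < q)
    (τ : ℝ) (hτ : 0 ≤ τ) (hτ2 : 2 * τ ≤ 1) :
    ((((Ico A (A + N)).filter fun k => ∃ a : ℤ, |(q : ℝ) * th f k - a| ≤ τ).card : ℕ) : ℝ) ≤
      (q * Lam * N + 2) * (2 * τ / (q * lam) + 1) := by
  have hq0 : (0 : ℝ) < q := by exact_mod_cast hq
  have hql : 0 < (q : ℝ) * lam := mul_pos hq0 hlam
  set K := (Ico A (A + N)).filter fun k => ∃ a : ℤ, |(q : ℝ) * th f k - a| ≤ τ with hK
  set lo : ℤ := ⌈(q : ℝ) * th f A - τ⌉ with hlo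
  set hi : ℤ := ⌊(q : ℝ) * th f (A + (N - 1)) + τ⌋ with hhi
  obtain ⟨-, bN⟩ := th_diff h1 h2 A le_rfl (N - 1) (by omega)
  -- every k in K is near some integer in the interval
  have hcov : K ⊆ (Icc lo hi).biUnion fun a =>
      (Ico A (A + N)).filter fun k => |(q : ℝ) * th f k - a| ≤ τ := by
    intro k hk
    rw [hK, mem_filter] at hk
    obtain ⟨hkI, a, ha⟩ := hk
    rw [mem_biUnion]
    refine ⟨a, ?_, mem_filter.2 ⟨hkI, ha⟩⟩
    rw [mem_Ico] at hkI
    obtain ⟨j, hj⟩ := Nat.exists_eq_add_of_le hkI.1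
    obtain ⟨c1, -⟩ := th_diff h1 h2 A le_rfl j (by omega)
    rw [← hj] at c1
    obtain ⟨i, hi'⟩ := Nat.exists_eq_add_of_le (show k ≤ A + (N - 1) by omega)
    obtain ⟨d1, -⟩ := th_diff h1 h2 k hkI.1 i (by omega)
    rw [← hi'] at d1
    have hj0 : 0 ≤ lam * (j : ℝ) := mul_nonneg hlam.le (Nat.cast_nonneg _)
    have hi0 : 0 ≤ lam * (i : ℝ) := mul_nonneg hlam.le (Nat.cast_nonneg _)
    have e1 : (q : ℝ) * th f A ≤ (q : ℝ) * th f k := mul_le_mul_of_nonneg_left (by linarith) hq0.le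
    have e2 : (q : ℝ) * th f k ≤ (q : ℝ) * th f (A + (N - 1)) :=
      mul_le_mul_of_nonneg_left (by linarith) hq0.le
    have ha' := abs_le.1 ha
    rw [mem_Icc]
    constructor
    · rw [hlo, Int.ceil_le]
      linarith [ha'.2]
    · rw [hhi, Int.le_floor]
      linarith [ha'.1]
  have hcard : (((Icc lo hi).card : ℕ) : ℝ) ≤ q * Lam * N + 2 := by
    rw [Int.card_Icc]
    have h3 : (hi : ℝ) ≤ (q : ℝ) * th f (A + (N - 1)) + τ := Int.floor_le _
    have h4 : (q : ℝ) * th f A - τ ≤ (lo : ℝ) := Int.le_ceil _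
    have hN1 : (((N - 1 : ℕ)) : ℝ) ≤ N := by exact_mod_cast Nat.sub_le N 1
    have h5 : (q : ℝ) * (th f (A + (N - 1)) - th f A) ≤ q * Lam * N := by
      calc (q : ℝ) * (th f (A + (N - 1)) - th f A) ≤ (q : ℝ) * (Lam * ((N - 1 : ℕ) : ℝ)) :=
            mul_le_mul_of_nonneg_left bN hq0.le
        _ ≤ (q : ℝ) * (Lam * N) := mul_le_mul_of_nonneg_left
            (mul_le_mul_of_nonneg_left hN1 hLam) hq0.le
        _ = q * Lam * N := by ring
    rcases le_or_gt 0 (hi + 1 - lo) with hpos | hneg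
    · have h6 : (((hi + 1 - lo).toNat : ℕ) : ℝ) = (hi : ℝ) + 1 - lo := by
        have : (((hi + 1 - lo).toNat : ℕ) : ℤ) = hi + 1 - lo := Int.toNat_of_nonneg hpos
        exact_mod_cast this
      rw [h6]
      linarith
    · rw [Int.toNat_of_nonpos hneg.le]
      simp
      positivity
  have h7 : ((K.card : ℕ) : ℝ) ≤ ∑ a ∈ Icc lo hi, (2 * τ / (q * lam) + 1) := by
    calc ((K.card : ℕ) : ℝ) ≤ (((Icc lo hi).biUnion fun a =>
          (Ico A (A + N)).filter fun k => |(q : ℝ) * th f k - a| ≤ τ).card : ℝ) := by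
            exact_mod_cast card_le_card hcov
      _ ≤ ((∑ a ∈ Icc lo hi, ((Ico A (A + N)).filter fun k => |(q : ℝ) * th f k - a| ≤ τ).card : ℕ) : ℝ) := by
            exact_mod_cast card_biUnion_le
      _ = ∑ a ∈ Icc lo hi, (((Ico A (A + N)).filter fun k => |(q : ℝ) * th f k - a| ≤ τ).card : ℝ) := by
            push_cast; rfl
      _ ≤ _ := by
            refine sum_le_sum fun a _ => ?_
            exact count_one hlam h1 h2 q hq τ hτ a _ (fun k hk => mem_filter.1 hk)
  rw [sum_const, nsmul_eq_mul] at h7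
  refine h7.trans (mul_le_mul_of_nonneg_right hcard ?_)
  positivity

end Main

lemma sum_inv_le (Q : ℕ) : ∑ q ∈ Icc 1 Q, (1 : ℝ) / q ≤ 1 + Real.log Q := by
  have h := harmonic_le_one_add_log Q
  rw [harmonic_eq_sum_Icc] at h
  push_cast at h
  simpa [one_div] using h

lemma sum_inv_sq_le (Q : ℕ) : ∑ q ∈ Icc 1 Q, (1 : ℝ) / (q : ℝ) ^ 2 ≤ 5 / 3 := by
  have key : ∀ Q : ℕ, 1 ≤ Q → ∑ q ∈ Icc 1 Q, (1 : ℝ) / (q : ℝ) ^ 2 ≤ 5 / 3 - 2 / (2 * Q + 1) := by
    intro Q hQ
    induction Q, hQ using Nat.le_induction with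
    | base => norm_num
    | succ Q hQ ih =>
      rw [Finset.sum_Icc_succ_top (by omega)]
      have hQ0 : (0 : ℝ) < Q := by exact_mod_cast hQ
      have h1 : (1 : ℝ) / (((Q + 1 : ℕ) : ℝ)) ^ 2 ≤ 2 / (2 * Q + 1) - 2 / (2 * ((Q + 1 : ℕ) : ℝ) + 1) := by
        push_cast
        rw [div_sub_div _ _ (by positivity) (by positivity), div_le_div_iff₀ (by positivity) (by positivity)]
        nlinarith [sq_nonneg (Q : ℝ)]
      linarith
  rcases Nat.eq_zero_or_pos Q with rfl | hQ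
  · norm_num
  · have := key Q hQ
    have h2 : (0 : ℝ) ≤ 2 / (2 * Q + 1) := by positivity
    linarith

end Saw

theorem saw_bound (f : ℕ → ℝ) (A N Q : ℕ) (lam Lam : ℝ) (hQ : 4 ≤ Q) (hlam : 0 < lam)
    (h1 : ∀ k, A ≤ k → k < A + N → lam ≤ f (k + 2) - 2 * f (k + 1) + f k)
    (h2 : ∀ k, A ≤ k → k < A + N → f (k + 2) - 2 * f (k + 1) + f k ≤ Lam)
    (hQL : Lam * (Q : ℝ) ^ 3 ≤ 1) :
    |∑ k ∈ Ico A (A + N), (Int.fract (f k) - 1 / 2)| ≤
      N * (Lam / lam) / Q * (2 * Real.log Q + 14) + 2 * (Q + 1) * Lam * N +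
        8 / (Q * lam) * (5 / 6 + 3 * (1 + Real.log Q) / Q) + (7 + Real.log Q + Q / 2) := by
  classical
  have hQ0 : (0 : ℝ) < Q := by
    have : 0 < Q := by omega
    exact_mod_cast this
  have hQ4 : (4 : ℝ) ≤ Q := by exact_mod_cast hQ
  have hlogQ : 0 ≤ Real.log Q := Real.log_nonneg (by linarith)
  rcases Nat.eq_zero_or_pos N with rfl | hN
  · simp only [add_zero, Ico_self, sum_empty, abs_zero, Nat.cast_zero, zero_mul, zero_div, mul_zero,
      zero_add]
    positivity
  · have hLl : lam ≤ Lam := (h1 A le_rfl (by omega)).trans (h2 A le_rfl (by omega))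
    have hLam : 0 ≤ Lam := hlam.le.trans hLl
    have hN0 : (0 : ℝ) < N := by exact_mod_cast hN
    set τ : ℝ := 1 / (Q + 1) + Lam * (Q : ℝ) ^ 2 with hτ
    have hτ0 : 0 ≤ τ := by positivity
    have hLQ2 : Lam * (Q : ℝ) ^ 2 ≤ 1 / Q := by
      rw [le_div_iff₀ hQ0]
      calc Lam * (Q : ℝ) ^ 2 * Q = Lam * (Q : ℝ) ^ 3 := by ring
        _ ≤ 1 := hQL
    have h1Q : (1 : ℝ) / (Q + 1) ≤ 1 / Q := one_div_le_one_div_of_le hQ0 (by linarith)
    have hτQ : τ ≤ 2 / Q := by
      have : (2 : ℝ) / Q = 1 / Q + 1 / Q := by ring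
      rw [this]
      linarith
    have hτ2 : 2 * τ ≤ 1 := by
      have h3 : (2 : ℝ) / Q ≤ 1 / 2 := by
        rw [div_le_div_iff₀ hQ0 (by norm_num)]
        linarith
      linarith
    have hmain := Saw.main_ind (f := f) (A := A) (N := N) (Q := Q) (by omega) hlam hLam h1 h2 N A
      (by omega) le_rfl (by omega)
    -- exchange the sums
    have hPhi : ∑ k ∈ Ico A (A + N), Saw.Phi f Q Lam τ k ≤
        ∑ q ∈ Icc 1 Q, (1 / (2 * q) + 3 / Q) * ((q * Lam * N + 2) * (4 / (q * Q * lam) + 1)) := by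
      unfold Saw.Phi
      rw [sum_comm]
      refine sum_le_sum fun q hq => ?_
      rw [mem_Icc] at hq
      have hq0 : (0 : ℝ) < q := by exact_mod_cast hq.1
      have hqQ : (q : ℝ) ≤ Q := by exact_mod_cast hq.2
      rw [← sum_filter, sum_const, nsmul_eq_mul, mul_comm]
      have hc := Saw.count_all (f := f) hlam hLam hN h1 h2 q hq.1 τ hτ0 hτ2
      have hcc : Saw.cc Q Lam q / q ≤ 1 / (2 * q) + 3 / Q := by
        unfold Saw.cc
        have e1 : (1 / 2 + 2 * (q : ℝ) / (Q + 1) + Lam * (q : ℝ) ^ 3) / q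
            = 1 / (2 * q) + 2 * (1 / (Q + 1)) + Lam * (q : ℝ) ^ 2 := by
          field_simp
        rw [e1]
        have e2 : Lam * (q : ℝ) ^ 2 ≤ Lam * (Q : ℝ) ^ 2 :=
          mul_le_mul_of_nonneg_left (pow_le_pow_left₀ hq0.le hqQ 2) hLam
        have e3 : (3 : ℝ) / Q = 3 * (1 / Q) := by ring
        rw [e3]
        linarith
      have hcc0 : 0 ≤ Saw.cc Q Lam q / q := div_nonneg (Saw.cc_nonneg hLam q) hq0.le
      refine mul_le_mul hcc (hc.trans ?_) (Nat.cast_nonneg _) (by positivity)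
      refine mul_le_mul_of_nonneg_left ?_ (by positivity)
      have e4 : 2 * τ / (q * lam) ≤ 4 / (q * Q * lam) := by
        rw [div_le_div_iff₀ (by positivity) (by positivity)]
        have e5 : τ * Q ≤ 2 := by
          have := mul_le_mul_of_nonneg_right hτQ hQ0.le
          rwa [div_mul_cancel₀ _ hQ0.ne'] at this
        have : 2 * τ * (q * Q * lam) = 2 * (τ * Q) * (q * lam) := by ring
        rw [this]
        have hql : 0 ≤ (q : ℝ) * lam := by positivity
        nlinarith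
      linarith
    have hsum : ∑ q ∈ Icc 1 Q, (1 / (2 * (q : ℝ)) + 3 / Q) * ((q * Lam * N + 2) * (4 / (q * Q * lam) + 1))
        = (4 * Lam * N / (Q * lam)) * ((∑ q ∈ Icc 1 Q, (1 : ℝ) / q) / 2 + 3)
          + Lam * N * (Q / 2 + 3 / Q * ∑ q ∈ Icc 1 Q, (q : ℝ))
          + 8 / (Q * lam) * ((∑ q ∈ Icc 1 Q, (1 : ℝ) / (q : ℝ) ^ 2) / 2
            + 3 / Q * ∑ q ∈ Icc 1 Q, (1 : ℝ) / q)
          + ((∑ q ∈ Icc 1 Q, (1 : ℝ) / q) + 6) := by
      have hcard : ∑ q ∈ Icc 1 Q, (1 : ℝ) = Q := by simp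
      have hterm : ∀ q ∈ Icc 1 Q, (1 / (2 * (q : ℝ)) + 3 / Q) * ((q * Lam * N + 2) * (4 / (q * Q * lam) + 1))
          = (4 * Lam * N / (Q * lam)) * ((1 : ℝ) / q / 2 + 3 / Q * 1)
          + Lam * N * (1 / 2 * 1 + 3 / Q * (q : ℝ))
          + 8 / (Q * lam) * ((1 : ℝ) / (q : ℝ) ^ 2 / 2 + 3 / Q * ((1 : ℝ) / q))
          + ((1 : ℝ) / q + 6 / Q * 1) := by
        intro q hq
        rw [mem_Icc] at hq
        have hq0 : (0 : ℝ) < q := by exact_mod_cast hq.1
        field_simp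
        ring
      rw [sum_congr rfl hterm]
      simp only [sum_add_distrib, ← mul_sum, ← sum_div, hcard]
      field_simp
    have hgauss : ∑ q ∈ Icc 1 Q, (q : ℝ) = Q * (Q + 1) / 2 := by
      have h3 : ∀ n : ℕ, ∑ q ∈ Icc 1 n, (q : ℝ) = n * (n + 1) / 2 := by
        intro n
        induction n with
        | zero => simp
        | succ n ih =>
          rw [Finset.sum_Icc_succ_top (by omega), ih]
          push_cast
          ring
      exact h3 Q
    have hH := Saw.sum_inv_le Q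
    have hS := Saw.sum_inv_sq_le Q
    set H := ∑ q ∈ Icc 1 Q, (1 : ℝ) / q with hHdef
    set S2 := ∑ q ∈ Icc 1 Q, (1 : ℝ) / (q : ℝ) ^ 2 with hS2def
    rw [hsum, hgauss] at hPhi
    have t1 : (4 * Lam * N / (Q * lam)) * (H / 2 + 3) ≤
        N * (Lam / lam) / Q * (2 * Real.log Q + 14) := by
      have e : N * (Lam / lam) / Q * (2 * Real.log Q + 14)
          = (4 * Lam * N / (Q * lam)) * ((1 + Real.log Q) / 2 + 3) := by
        field_simp
        ring
      rw [e]
      refine mul_le_mul_of_nonneg_left (by linarith) (by positivity)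
    have t2 : Lam * N * (Q / 2 + 3 / Q * (Q * (Q + 1) / 2)) ≤ 2 * (Q + 1) * Lam * N := by
      have e : (Q : ℝ) / 2 + 3 / Q * (Q * (Q + 1) / 2) = 2 * Q + 3 / 2 := by
        field_simp
        ring
      rw [e]
      have : 0 ≤ Lam * N := by positivity
      nlinarith
    have t3 : 8 / (Q * lam) * (S2 / 2 + 3 / Q * H) ≤
        8 / (Q * lam) * (5 / 6 + 3 * (1 + Real.log Q) / Q) := by
      refine mul_le_mul_of_nonneg_left ?_ (by positivity)
      have e : 3 * (1 + Real.log Q) / Q = 3 / Q * (1 + Real.log Q) := by ring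
      rw [e]
      have h3 : 3 / (Q : ℝ) * H ≤ 3 / Q * (1 + Real.log Q) :=
        mul_le_mul_of_nonneg_left hH (by positivity)
      linarith
    linarith

end KB
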