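import Pool.Agent.Helper77.KB.Defs

/-!
The number of missed primes in `(sqrt n, P1]` is at most `(P1 - sqrt n)^2 / P1 + 1`.
-/

set_option autoImplicit false

open Finset

namespace KB

namespace Stage0

theorem step_lt {n p p' : ℕ} (hp : p.Prime) (hp' : p'.Prime) (hp3 : 3 ≤ p)
    (hm' : n / p' + n % p' < p') (hle : n / p ≤ p)
    (hv : p + n / p = p' + n / p') : ¬ p < p' := by
  intro hlt
  obtain ⟨i, rfl⟩ := Nat.exists_eq_add_of_lt hlt
  set a := n / p with ha
  set b := n % p with hb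
  set a' := n / (p + i + 1) with ha'
  set b' := n % (p + i + 1) with hb'
  have e1 : p * a + b = n := Nat.div_add_mod n p
  have e2 : (p + i + 1) * a' + b' = n := Nat.div_add_mod n (p + i + 1)
  have e3 : a = a' + (i + 1) := by omega
  obtain ⟨c, hc⟩ := Nat.exists_eq_add_of_le hle
  -- p = a + c
  have key : (b' : ℤ) = b + (i + 1) * c + (i + 1) ^ 2 := by
    have e1' : (p : ℤ) * a + b = n := by exact_mod_cast e1
    have e2' : ((p : ℤ) + i + 1) * a' + b' = n := by exact_mod_cast e2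
    have e3' : (a : ℤ) = a' + (i + 1) := by exact_mod_cast e3
    have hc' : (p : ℤ) = a + c := by exact_mod_cast hc
    have : (b' : ℤ) = p * a + b - (p + i + 1) * (a - (i + 1)) := by
      have : (a' : ℤ) = a - (i + 1) := by linarith
      rw [this] at e2'
      linarith
    rw [this, hc']
    ring
  rcases Nat.eq_zero_or_pos i with h0 | h0
  · subst h0
    -- p and p + 1 are primes
    rcases hp.eq_two_or_odd with h | h
    · omega
    · rcases hp'.eq_two_or_odd with h' | h'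
      · omega
      · omega
  · have h1 : (a' : ℤ) + b' < p + i + 1 := by exact_mod_cast hm'
    have hc' : (p : ℤ) = a + c := by exact_mod_cast hc
    have e3' : (a : ℤ) = a' + (i + 1) := by exact_mod_cast e3
    have hi : (1 : ℤ) ≤ i := by exact_mod_cast h0
    have hc0 : (0 : ℤ) ≤ c := Int.natCast_nonneg c
    have hb0 : (0 : ℤ) ≤ b := Int.natCast_nonneg b
    nlinarith [mul_nonneg (sub_nonneg.2 hi) hc0, mul_nonneg (sub_nonneg.2 hi) (sub_nonneg.2 hi)]

theorem inj {n p p' : ℕ} (h2 : 4 ≤ n) (hs : Nat.sqrt n < p) (hs' : Nat.sqrt n < p')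
    (hp : p.Prime) (hp' : p'.Prime) (hm : n / p + n % p < p) (hm' : n / p' + n % p' < p')
    (hv : p + n / p = p' + n / p') : p = p' := by
  have h4 : 2 ≤ Nat.sqrt n := Nat.le_sqrt'.2 (by omega)
  rcases lt_trichotomy p p' with h | h | h
  · exact absurd h (step_lt hp hp' (by omega) hm' (by omega) hv)
  · exact h
  · exact absurd h (step_lt hp' hp (by omega) hm (by omega) hv.symm)

theorem lower {n p : ℕ} (hm : n / p + n % p < p) : 4 * n ≤ (p + n / p) ^ 2 := by
  have e1 : p * (n / p) + n % p = n := Nat.div_add_mod n p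
  obtain ⟨c, hc⟩ := Nat.exists_eq_add_of_lt hm
  set a := n / p
  set b := n % p
  have e1' : (p : ℤ) * a + b = n := by exact_mod_cast e1
  have hc' : (p : ℤ) = a + b + c + 1 := by exact_mod_cast hc
  have : (4 * n : ℤ) ≤ (p + a) ^ 2 := by
    rw [← e1', hc']
    have hb0 : (0 : ℤ) ≤ b := Int.natCast_nonneg b
    have hc0 : (0 : ℤ) ≤ c := Int.natCast_nonneg c
    nlinarith [sq_nonneg ((b : ℤ) - 1), mul_nonneg hb0 hc0, mul_nonneg hc0 hc0]
  exact_mod_cast this

theorem upper {n p P1 : ℕ} (hs : Nat.sqrt n < p) (hle : p ≤ P1) :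
    (((p + n / p : ℕ) : ℕ) : ℝ) ≤ P1 + n / P1 := by
  have hp0 : (0 : ℝ) < p := by exact_mod_cast (Nat.zero_lt_of_lt hs)
  have hP0 : (0 : ℝ) < P1 := by
    have : (p : ℝ) ≤ P1 := by exact_mod_cast hle
    linarith
  have h1 : ((n / p : ℕ) : ℝ) ≤ (n : ℝ) / p := Nat.cast_div_le
  have h2 : (n : ℝ) < p * p := by
    have := Nat.sqrt_lt.1 hs
    exact_mod_cast this
  have hpP : (p : ℝ) ≤ P1 := by exact_mod_cast hle
  have h3 : (p : ℝ) + n / p ≤ P1 + n / P1 := by
    have : (P1 : ℝ) + n / P1 - (p + n / p) = (P1 - p) * (p * P1 - n) / (p * P1) := by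
      field_simp
      ring
    have h4 : (0 : ℝ) ≤ (P1 - p) * (p * P1 - n) / (p * P1) := by
      apply div_nonneg
      · apply mul_nonneg (by linarith)
        have : (p : ℝ) * p ≤ p * P1 := mul_le_mul_of_nonneg_left hpP hp0.le
        linarith
      · positivity
    linarith
  push_cast
  linarith

end Stage0

open Stage0 in
theorem missed_le (n P1 : ℕ) (h2 : 4 ≤ n) (hP : Nat.sqrt n < P1) :
    ((((Ioc (Nat.sqrt n) P1).filter fun p => p.Prime ∧ n / p + n % p < p).card : ℕ) : ℝ) ≤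
      (P1 - Real.sqrt n) ^ 2 / P1 + 1 := by
  set S := (Ioc (Nat.sqrt n) P1).filter fun p => p.Prime ∧ n / p + n % p < p with hS
  have hP0 : (0 : ℝ) < P1 := by exact_mod_cast (Nat.zero_lt_of_lt hP)
  have hn0 : (0 : ℝ) ≤ n := Nat.cast_nonneg n
  have hsq : Real.sqrt n * Real.sqrt n = n := Real.mul_self_sqrt hn0
  set x : ℝ := 2 * Real.sqrt n with hx
  set y : ℝ := P1 + n / P1 with hy
  have hxy : y - x = (P1 - Real.sqrt n) ^ 2 / P1 := by
    rw [hx, hy]
    field_simp
    nlinarith [hsq]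
  have hyx0 : 0 ≤ y - x := by rw [hxy]; positivity
  have hx0 : 0 ≤ x := by positivity
  have hy0 : 0 ≤ y := by linarith
  have hcard : S.card ≤ (Icc ⌈x⌉₊ ⌊y⌋₊).card := by
    apply Finset.card_le_card_of_injOn (fun p => p + n / p)
    · intro p hp
      have hp' : p ∈ S := hp
      rw [hS, mem_filter, mem_Ioc] at hp'
      obtain ⟨⟨hs, hle⟩, hpr, hm⟩ := hp'
      simp only [coe_Icc, Set.mem_Icc]
      constructor
      · rw [Nat.ceil_le, hx]
        have h4 := lower hm
        have h4' : (4 : ℝ) * n ≤ ((p + n / p : ℕ) : ℝ) ^ 2 := by exact_mod_cast h4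
        have h5 : (0 : ℝ) ≤ ((p + n / p : ℕ) : ℝ) := Nat.cast_nonneg _
        apply le_of_sq_le_sq _ h5
        nlinarith [hsq]
      · rw [Nat.le_floor_iff hy0]
        exact upper hs hle
    · intro p hp p' hp' hv
      have h1 : p ∈ S := hp
      have h1' : p' ∈ S := hp'
      rw [hS, mem_filter, mem_Ioc] at h1 h1'
      exact inj h2 h1.1.1 h1'.1.1 h1.2.1 h1'.2.1 h1.2.2 h1'.2.2 hv
  rw [Nat.card_Icc] at hcard
  rw [← hxy]
  have hfl : (⌊y⌋₊ : ℝ) ≤ y := Nat.floor_le hy0
  have hce : x ≤ (⌈x⌉₊ : ℝ) := Nat.le_ceil x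
  rcases le_total ⌈x⌉₊ (⌊y⌋₊ + 1) with h | h
  · have : (S.card : ℝ) ≤ ((⌊y⌋₊ + 1 - ⌈x⌉₊ : ℕ) : ℝ) := by exact_mod_cast hcard
    rw [Nat.cast_sub h] at this
    push_cast at this
    linarith
  · have : S.card = 0 := by omega
    rw [this]
    push_cast
    linarith

end KB
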