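import Pool.Agent.Helper77.KB.Key
import Pool.Agent.Helper77.KB.Count
import Pool.Agent.Helper77.KB.Stage0
import Pool.Agent.Helper69.EK.Selberg

/-! Upper bounds for the number of missed primes. -/

set_option autoImplicit false

open Finset

namespace KB

/-- the main term -/
noncomputable def VV (n : ℕ) : ℝ :=
  (((Nat.sqrt n + Nat.sqrt n / 50 : ℕ) : ℝ) - Real.sqrt n) ^ 2 / ((Nat.sqrt n + Nat.sqrt n / 50 : ℕ) : ℝ)

theorem VV_nonneg (n : ℕ) : 0 ≤ VV n := by unfold VV; positivity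

theorem VV_le {n : ℕ} (hs : 50 ≤ Nat.sqrt n) : VV n ≤ (Nat.sqrt n : ℝ) / 2550 := by
  unfold VV
  set s := Nat.sqrt n with hsd
  have h1 : (s : ℝ) ≤ Real.sqrt n := by
    apply Real.le_sqrt_of_sq_le
    have := Nat.sqrt_le' n
    exact_mod_cast this
  have h2 : Real.sqrt n < s + 1 := by
    rw [Real.sqrt_lt' (by positivity)]
    have := Nat.lt_succ_sqrt' n
    exact_mod_cast this
  have hs' : (50 : ℝ) ≤ s := by exact_mod_cast hs
  have h3 : 1 ≤ s / 50 := (Nat.le_div_iff_mul_le (by norm_num)).mpr (by omega)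
  have h3' : (1 : ℝ) ≤ ((s / 50 : ℕ) : ℝ) := by exact_mod_cast h3
  have h4 : ((s / 50 : ℕ) : ℝ) ≤ s / 50 := by
    have := Nat.cast_div_le (m := s) (n := 50) (α := ℝ)
    push_cast at this
    exact this
  push_cast
  set h : ℝ := ((s / 50 : ℕ) : ℝ) with hh
  have h5 : 0 ≤ (s : ℝ) + h - Real.sqrt n := by linarith
  have h6 : (s : ℝ) + h - Real.sqrt n ≤ h := by linarith
  have h7 : ((s : ℝ) + h - Real.sqrt n) ^ 2 ≤ h ^ 2 := pow_le_pow_left₀ h5 h6 2
  rw [div_le_div_iff₀ (by linarith) (by norm_num)]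
  nlinarith [mul_nonneg (sub_nonneg.mpr h4) (show (0 : ℝ) ≤ h by linarith),
    mul_nonneg (sub_nonneg.mpr h4) (show (0 : ℝ) ≤ s by linarith)]

theorem MP_stage0 {n : ℕ} (hs : 50 ≤ Nat.sqrt n) :
    (MP n (Nat.sqrt n + Nat.sqrt n / 50) : ℝ) ≤ (Nat.sqrt n : ℝ) / 2550 + 1 := by
  have h3 : 1 ≤ Nat.sqrt n / 50 := (Nat.le_div_iff_mul_le (by norm_num)).mpr (by omega)
  have hn : 4 ≤ n := by
    have := Nat.sqrt_le' n
    nlinarith
  have h := missed_le n (Nat.sqrt n + Nat.sqrt n / 50) hn (by omega)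
  have hV := VV_le hs
  unfold VV at hV
  unfold MP
  linarith

theorem MP_le_sum {n d : ℕ} (S : Finset ℕ)
    (hS : ∀ p, p.Prime → Nat.sqrt n < p → p % d ∈ S) (P1 : ℕ) :
    MP n P1 ≤ ∑ r ∈ S, Sc n d r (Nat.sqrt n) P1 := by
  unfold MP Sc
  rw [← Finset.card_biUnion]
  · apply Finset.card_le_card
    intro p hp
    rw [Finset.mem_filter] at hp
    rw [Finset.mem_biUnion]
    refine ⟨p % d, hS p hp.2.1 (Finset.mem_Ioc.mp hp.1).1, ?_⟩
    rw [Finset.mem_filter]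
    exact ⟨hp.1, rfl, hp.2.2⟩
  · intro a _ b _ hab
    rw [Function.onFun, Finset.disjoint_left]
    intro p h1 h2
    rw [Finset.mem_filter] at h1 h2
    exact hab (h1.2.1.symm.trans h2.2.1)

/-- error term -/
noncomputable def EE (n : ℕ) : ℝ := (5 + 0.05 * Real.log (Nat.sqrt n)) * (Nat.sqrt n : ℝ) ^ (2 / 3 : ℝ)

theorem Sc_le {n d r : ℕ} (hd : 2 ≤ d) (hr : r < d) (hs : 2 ^ 46 ≤ Nat.sqrt n)
    (hds : d ^ 12 ≤ Nat.sqrt n) :
    (Sc n d r (Nat.sqrt n) (Nat.sqrt n + Nat.sqrt n / 50) : ℝ) ≤ VV n / d + EE n := by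
  have h := Sc_est n d r (by omega) hr hs hds
  rw [if_neg (by omega)] at h
  have := (abs_le.mp h).2
  unfold VV EE
  linarith

theorem MP_stage1 {n : ℕ} (hs : 2 ^ 46 ≤ Nat.sqrt n) :
    (MP n (Nat.sqrt n + Nat.sqrt n / 50) : ℝ) ≤ (Nat.sqrt n : ℝ) / 5100 + EE n := by
  have h1 := MP_le_sum (n := n) (d := 2) {1} (by
    intro p hp hlt
    rw [Finset.mem_singleton]
    rcases hp.eq_two_or_odd with h | h
    · omega
    · exact h) (Nat.sqrt n + Nat.sqrt n / 50)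
  rw [Finset.sum_singleton] at h1
  have h2 := Sc_le (n := n) (d := 2) (r := 1) le_rfl (by norm_num) hs (by omega)
  have h3 : (MP n (Nat.sqrt n + Nat.sqrt n / 50) : ℝ) ≤
    Sc n 2 1 (Nat.sqrt n) (Nat.sqrt n + Nat.sqrt n / 50) := by exact_mod_cast h1
  have h4 := VV_le (n := n) (by omega)
  push_cast at h2
  linarith

theorem MP_stage2 {n : ℕ} (hs : 2 ^ 46 ≤ Nat.sqrt n) :
    (MP n (Nat.sqrt n + Nat.sqrt n / 50) : ℝ) ≤ (Nat.sqrt n : ℝ) / 7650 + 2 * EE n := by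
  have h1 := MP_le_sum (n := n) (d := 6) {1, 5} (by
    intro p hp hlt
    rw [Finset.mem_insert, Finset.mem_singleton]
    have h2 : p % 2 ≠ 0 := by
      intro h
      have := (Nat.prime_dvd_prime_iff_eq Nat.prime_two hp).mp (Nat.dvd_of_mod_eq_zero h)
      omega
    have h3 : p % 3 ≠ 0 := by
      intro h
      have := (Nat.prime_dvd_prime_iff_eq Nat.prime_three hp).mp (Nat.dvd_of_mod_eq_zero h)
      omega
    omega) (Nat.sqrt n + Nat.sqrt n / 50)
  rw [Finset.sum_pair (by norm_num)] at h1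
  have h2 := Sc_le (n := n) (d := 6) (r := 1) (by norm_num) (by norm_num) hs (by
    refine le_trans ?_ hs; norm_num)
  have h2' := Sc_le (n := n) (d := 6) (r := 5) (by norm_num) (by norm_num) hs (by
    refine le_trans ?_ hs; norm_num)
  have h3 : (MP n (Nat.sqrt n + Nat.sqrt n / 50) : ℝ) ≤
    Sc n 6 1 (Nat.sqrt n) (Nat.sqrt n + Nat.sqrt n / 50) +
      Sc n 6 5 (Nat.sqrt n) (Nat.sqrt n + Nat.sqrt n / 50) := by exact_mod_cast h1
  have h4 := VV_le (n := n) (by omega)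
  push_cast at h2 h2'
  linarith

/-- error term, `d = 1` included -/
noncomputable def EF (n : ℕ) : ℝ := (11 + 0.05 * Real.log (Nat.sqrt n)) * (Nat.sqrt n : ℝ) ^ (2 / 3 : ℝ)

theorem Sc_abs {n d : ℕ} (hd : 1 ≤ d) (hs : 2 ^ 46 ≤ Nat.sqrt n)
    (hds : d ^ 12 ≤ Nat.sqrt n) :
    |(Sc n d 0 (Nat.sqrt n) (Nat.sqrt n + Nat.sqrt n / 50) : ℝ) - VV n / d| ≤ EF n := by
  have h := Sc_est n d 0 hd (by omega) hs hds
  refine (le_of_eq (by unfold VV; rfl)).trans (h.trans ?_)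
  unfold EF
  apply mul_le_mul_of_nonneg_right _ (by positivity)
  have : (if d = 1 then (11 : ℝ) else 5) ≤ 11 := by split_ifs <;> norm_num
  linarith

theorem EF_nonneg (n : ℕ) : 0 ≤ EF n := by
  unfold EF
  have : 0 ≤ Real.log (Nat.sqrt n) := Real.log_natCast_nonneg _
  positivity

theorem MP_selberg {n R : ℕ} (hs : 2 ^ 46 ≤ Nat.sqrt n) (hR : 2 ≤ R)
    (hRs : R ^ 25 ≤ Nat.sqrt n) :
    (MP n (Nat.sqrt n + Nat.sqrt n / 50) : ℝ) ≤ VV n / Real.log R + R ^ 4 * EF n := by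
  classical
  set s := Nat.sqrt n with hsd
  set P1 := s + s / 50 with hP1
  obtain ⟨lam, l1, l2, l3, l4⟩ := Pool.Agent.Helper69.EK.selberg_weights (D := 1) one_pos hR
  set M := (Ioc s P1).filter fun m => n / m + n % m < m with hM
  have hRs' : R < s := by
    have : R ^ 1 < R ^ 25 := Nat.pow_lt_pow_right (by omega) (by norm_num)
    rw [pow_one] at this
    omega
  -- the quadratic form
  have hq : (MP n P1 : ℝ) ≤ ∑ m ∈ M, (∑ d ∈ Icc 1 R, if d ∣ m then lam d else 0) ^ 2 := by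
    unfold MP
    have e1 : ((((Ioc (Nat.sqrt n) P1).filter fun p => p.Prime ∧ n / p + n % p < p).card : ℕ) : ℝ) =
        ∑ m ∈ M.filter (fun m => m.Prime), (1 : ℝ) := by
      rw [Finset.sum_const, nsmul_eq_mul, mul_one, hM, Finset.filter_filter]
      congr 2
      ext p
      simp only [Finset.mem_filter]
      tauto
    rw [e1]
    refine le_trans ?_ (Finset.sum_le_sum_of_subset_of_nonneg (Finset.filter_subset (fun m => m.Prime) M)
      (fun m _ _ => sq_nonneg _))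
    apply Finset.sum_le_sum
    intro p hp
    rw [Finset.mem_filter, hM, Finset.mem_filter, Finset.mem_Ioc] at hp
    have e2 : ∑ d ∈ Icc 1 R, (if d ∣ p then lam d else 0) = 1 := by
      rw [Finset.sum_eq_single 1]
      · rw [if_pos (one_dvd p), l1]
      · intro d hd hd1
        rw [Finset.mem_Icc] at hd
        rw [if_neg]
        intro hdvd
        rcases (Nat.dvd_prime hp.2).mp hdvd with h | h
        · exact hd1 h
        · omega
      · intro h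
        rw [Finset.mem_Icc] at h
        exact absurd ⟨le_refl 1, by omega⟩ h
    rw [e2]
    norm_num
  have hexp : ∑ m ∈ M, (∑ d ∈ Icc 1 R, if d ∣ m then lam d else 0) ^ 2 =
      ∑ d₁ ∈ Icc 1 R, ∑ d₂ ∈ Icc 1 R, lam d₁ * lam d₂ * (Sc n (Nat.lcm d₁ d₂) 0 s P1 : ℝ) := by
    have e1 : ∀ m ∈ M, (∑ d ∈ Icc 1 R, if d ∣ m then lam d else 0) ^ 2 =
        ∑ d₁ ∈ Icc 1 R, ∑ d₂ ∈ Icc 1 R, if Nat.lcm d₁ d₂ ∣ m then lam d₁ * lam d₂ else 0 := by
      intro m _
      rw [sq, Finset.sum_mul_sum]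
      apply Finset.sum_congr rfl
      intro a _
      apply Finset.sum_congr rfl
      intro b _
      by_cases ha : a ∣ m
      · by_cases hb : b ∣ m
        · rw [if_pos ha, if_pos hb, if_pos (Nat.lcm_dvd ha hb)]
        · rw [if_pos ha, if_neg hb, if_neg (fun h => hb ((Nat.dvd_lcm_right a b).trans h)), mul_zero]
      · rw [if_neg ha, if_neg (fun h => ha ((Nat.dvd_lcm_left a b).trans h)), zero_mul]
    rw [Finset.sum_congr rfl e1, Finset.sum_comm]
    apply Finset.sum_congr rfl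
    intro a _
    rw [Finset.sum_comm]
    apply Finset.sum_congr rfl
    intro b _
    rw [← Finset.sum_filter, Finset.sum_const, nsmul_eq_mul, mul_comm]
    congr 2
    unfold Sc
    rw [hM, Finset.filter_filter]
    congr 1
    ext p
    simp only [Finset.mem_filter, Nat.dvd_iff_mod_eq_zero]
    tauto
  have hlcm : ∀ a ∈ Icc 1 R, ∀ b ∈ Icc 1 R, 1 ≤ Nat.lcm a b ∧ (Nat.lcm a b) ^ 12 ≤ s := by
    intro a ha b hb
    rw [Finset.mem_Icc] at ha hb
    refine ⟨Nat.lcm_pos (by omega) (by omega), ?_⟩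
    have h1 : Nat.lcm a b ≤ R * R :=
      (Nat.le_of_dvd (Nat.mul_pos (by omega) (by omega)) (Nat.lcm_dvd_mul a b)).trans
        (Nat.mul_le_mul ha.2 hb.2)
    calc (Nat.lcm a b) ^ 12 ≤ (R * R) ^ 12 := Nat.pow_le_pow_left h1 12
      _ = R ^ 24 := by ring
      _ ≤ R ^ 25 := Nat.pow_le_pow_right (by omega) (by norm_num)
      _ ≤ s := hRs
  have hbd : ∑ d₁ ∈ Icc 1 R, ∑ d₂ ∈ Icc 1 R, lam d₁ * lam d₂ * (Sc n (Nat.lcm d₁ d₂) 0 s P1 : ℝ) ≤
      VV n * ∑ d₁ ∈ Icc 1 R, ∑ d₂ ∈ Icc 1 R, lam d₁ * lam d₂ / (Nat.lcm d₁ d₂ : ℝ) +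
      ∑ d₁ ∈ Icc 1 R, ∑ d₂ ∈ Icc 1 R, (R : ℝ) * R * EF n := by
    rw [Finset.mul_sum, ← Finset.sum_add_distrib]
    apply Finset.sum_le_sum
    intro a ha
    rw [Finset.mul_sum, ← Finset.sum_add_distrib]
    apply Finset.sum_le_sum
    intro b hb
    obtain ⟨g1, g2⟩ := hlcm a ha b hb
    have g3 := Sc_abs g1 hs g2
    have g4 : |lam a * lam b| ≤ (R : ℝ) * R := by
      rw [abs_mul]
      exact mul_le_mul (l3 a) (l3 b) (abs_nonneg _) (by positivity)
    have g5 : lam a * lam b * ((Sc n (Nat.lcm a b) 0 s P1 : ℝ) - VV n / (Nat.lcm a b : ℝ)) ≤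
        (R : ℝ) * R * EF n := by
      refine (le_abs_self _).trans ?_
      rw [abs_mul]
      exact mul_le_mul g4 g3 (abs_nonneg _) (by positivity)
    have e : lam a * lam b * (Sc n (Nat.lcm a b) 0 s P1 : ℝ) =
      VV n * (lam a * lam b / (Nat.lcm a b : ℝ)) +
      lam a * lam b * ((Sc n (Nat.lcm a b) 0 s P1 : ℝ) - VV n / (Nat.lcm a b : ℝ)) := by ring
    rw [e]
    linarith
  have hV := VV_nonneg n
  have hmain : VV n * ∑ d₁ ∈ Icc 1 R, ∑ d₂ ∈ Icc 1 R, lam d₁ * lam d₂ / (Nat.lcm d₁ d₂ : ℝ) ≤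
      VV n / Real.log R := by
    have := mul_le_mul_of_nonneg_left l4 hV
    refine this.trans (le_of_eq ?_)
    simp [div_eq_mul_inv]
  have herr : ∑ d₁ ∈ Icc 1 R, ∑ d₂ ∈ Icc 1 R, (R : ℝ) * R * EF n = R ^ 4 * EF n := by
    simp only [Finset.sum_const, Nat.card_Icc, nsmul_eq_mul, Nat.add_sub_cancel]
    ring
  rw [hexp] at hq
  linarith

end KB
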